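import Pool.Agent.Lib.MP_f251fc_ag.CMX

/-! # Projective dimension and `Ext(-, S)` over a regular local ring -/

set_option autoImplicit false

namespace Pool.Agent.Lib.MP_f251fc_ag

open CategoryTheory IsLocalRing RingTheory.Sequence

noncomputable section

universe u

section aux

variable {S : Type u} [CommRing S] [IsLocalRing S] [IsNoetherianRing S]

private theorem CMA_artinian (k : ℕ) : IsArtinianRing (S ⧸ maximalIdeal S ^ k) := by
  rcases Nat.eq_zero_or_pos k with rfl | hk
  · have : Subsingleton (S ⧸ maximalIdeal S ^ 0) := by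
      rw [pow_zero, Ideal.one_eq_top]
      exact Ideal.Quotient.subsingleton_iff.2 rfl
    exact isArtinian_of_finite
  · apply IsLocalRing.quotient_artinian_of_mem_minimalPrimes_of_isLocalRing
    rw [← Ideal.radical_minimalPrimes, Ideal.radical_pow _ hk.ne',
      (maximalIdeal.isMaximal S).isPrime.radical, Ideal.minimalPrimes_eq_subsingleton_self]
    rfl

private theorem CMA_finlen (k : ℕ) (W : Type u) [AddCommGroup W] [Module S W] [Module.Finite S W]
    (hW : maximalIdeal S ^ k • (⊤ : Submodule S W) = ⊥) : IsFiniteLength S W := by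
  have h1 : Module.IsTorsionBySet S W (maximalIdeal S ^ k : Ideal S) := by
    intro x a
    have h2 : (a : S) • x ∈ maximalIdeal S ^ k • (⊤ : Submodule S W) :=
      Submodule.smul_mem_smul a.2 trivial
    rw [hW] at h2
    exact (Submodule.mem_bot S).1 h2
  let _ : Module (S ⧸ maximalIdeal S ^ k) W := h1.module
  have : IsScalarTower S (S ⧸ maximalIdeal S ^ k) W := Module.IsTorsionBySet.isScalarTower h1
  have := CMA_artinian (S := S) k
  have h3 : Module.Finite (S ⧸ maximalIdeal S ^ k) W :=
    Module.Finite.of_restrictScalars_finite S (S ⧸ maximalIdeal S ^ k) W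
  have h4 : IsArtinian (S ⧸ maximalIdeal S ^ k) W := inferInstance
  have h5 : IsArtinian S W :=
    isArtinian_of_surjective_algebraMap (R := S ⧸ maximalIdeal S ^ k) (S := S)
      Ideal.Quotient.mk_surjective
  exact isFiniteLength_iff_isNoetherian_isArtinian.2 ⟨inferInstance, h5⟩

private theorem CMA_pd_finlen (n : ℕ)
    (h : HasProjectiveDimensionLE (ModuleCat.of S (ResidueField S)) n)
    {W : Type u} [AddCommGroup W] [Module S W] (hW : IsFiniteLength S W) :
    HasProjectiveDimensionLE (ModuleCat.of S W) n := by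
  induction hW with
  | @of_subsingleton M _ _ hM =>
    have h1 : Limits.IsZero (ModuleCat.of S M) :=
      ModuleCat.isZero_iff_subsingleton.2 hM
    have h2 := h1.hasProjectiveDimensionLT_zero
    exact hasProjectiveDimensionLT_of_ge _ 0 _ (Nat.zero_le _)
  | @of_simple_quotient M _ _ N hs _ ih =>
    obtain ⟨I, hI, ⟨e⟩⟩ := isSimpleModule_iff_quot_maximal.1 hs
    have hI' : I = maximalIdeal S := IsLocalRing.eq_maximalIdeal hI
    subst hI'
    have h' : HasProjectiveDimensionLT (ModuleCat.of S (S ⧸ maximalIdeal S)) (n + 1) := h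
    have h3 : HasProjectiveDimensionLT (ModuleCat.of S (M ⧸ N)) (n + 1) :=
      hasProjectiveDimensionLT_of_iso (e.symm.toModuleIso : ModuleCat.of S (S ⧸ maximalIdeal S) ≅
        ModuleCat.of S (M ⧸ N)) (n + 1)
    have hS := LinearMap.shortExact_shortComplexKer (Submodule.mkQ_surjective N)
    refine hS.hasProjectiveDimensionLT_X₂ (n + 1) ?_ h3
    have e2 : N ≃ₗ[S] LinearMap.ker (Submodule.mkQ N) := LinearEquiv.ofEq _ _ (Submodule.ker_mkQ N).symm
    exact hasProjectiveDimensionLT_of_iso (e2.toModuleIso : ModuleCat.of S N ≅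
        ModuleCat.of S (LinearMap.ker (Submodule.mkQ N))) (n + 1)

end aux

section reg

variable {S : Type u} [CommRing S] [IsLocalRing S] [IsNoetherianRing S]
  (xs : List S) (hreg : IsRegular S xs) (hmax : Ideal.ofList xs = maximalIdeal S)

include hreg hmax

/-- `ModuleCat.projectiveDimension_quotient_eq_length`; `ResidueField S` is `S ⧸ maximalIdeal S` -/
theorem pd_residueField :
    HasProjectiveDimensionLE (ModuleCat.of S (ResidueField S)) xs.length := by
  have hmem : ∀ r ∈ xs, r ∈ maximalIdeal S := by
    intro r hr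
    rw [← hmax]
    exact Ideal.subset_span hr
  have h1 := ModuleCat.projectiveDimension_quotient_eq_add_length_of_isWeaklyRegular
    (ModuleCat.of S S) xs hreg.1 hmem
  have : Nontrivial (ModuleCat.of S S) := inferInstanceAs (Nontrivial S)
  rw [ModuleCat.projectiveDimension_eq_zero_of_projective (ModuleCat.of S S), zero_add] at h1
  have e : (S ⧸ (Ideal.ofList xs • (⊤ : Submodule S S))) ≃ₗ[S] ResidueField S :=
    Submodule.quotEquivOfEq _ _ (by rw [hmax, smul_eq_mul, Ideal.mul_top])
  have h2 := projectiveDimension_eq_of_iso (e.toModuleIso :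
    ModuleCat.of S (S ⧸ (Ideal.ofList xs • (⊤ : Submodule S S))) ≅
      ModuleCat.of S (ResidueField S))
  rw [← projectiveDimension_le_iff, ← h2]
  exact h1.le

/-- modules killed by the maximal ideal (they are vector spaces over the residue field, so direct sums
of copies of the residue field; finitely generated is enough here) -/
theorem pd_of_smul (W : Type u) [AddCommGroup W] [Module S W] [Module.Finite S W]
    (hW : maximalIdeal S • (⊤ : Submodule S W) = ⊥) :
    HasProjectiveDimensionLE (ModuleCat.of S W) xs.length :=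
  CMA_pd_finlen _ (pd_residueField xs hreg hmax) (CMA_finlen 1 W (by rw [pow_one]; exact hW))

/-- induction on `k`: `0 → maximalIdeal S • W → W → W ⧸ … → 0`
(`ShortComplex.ShortExact.hasProjectiveDimensionLT_X₂`) -/
theorem pd_of_pow_smul (k : ℕ) : ∀ (W : Type u) [AddCommGroup W] [Module S W] [Module.Finite S W],
    maximalIdeal S ^ k • (⊤ : Submodule S W) = ⊥ →
      HasProjectiveDimensionLE (ModuleCat.of S W) xs.length := by
  intro W _ _ _ hW
  exact CMA_pd_finlen _ (pd_residueField xs hreg hmax) (CMA_finlen k W hW)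

/-- `ModuleCat.subsingleton_ext_of_exists_isRegular` with `I = maximalIdeal S` (its support condition:
a module killed by a power of the maximal ideal is supported in the closed point) -/
theorem ext_of_pow_smul (k : ℕ) (W : Type u) [AddCommGroup W] [Module S W] [Module.Finite S W]
    (hW : maximalIdeal S ^ k • (⊤ : Submodule S W) = ⊥) (j : ℕ) (hj : j < xs.length) :
    Subsingleton (EX S W S j) := by
  have hmem : ∀ r ∈ xs, r ∈ maximalIdeal S := by
    intro r hr
    rw [← hmax]
    exact Ideal.subset_span hr
  have hsupp : Module.support S (ModuleCat.of S W) ⊆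
      PrimeSpectrum.zeroLocus (maximalIdeal S : Set S) := by
    rw [Module.support_eq_zeroLocus, PrimeSpectrum.zeroLocus_subset_zeroLocus_iff]
    intro x hx
    refine ⟨k, ?_⟩
    rw [Module.mem_annihilator]
    intro w
    have h2 : x ^ k • (w : W) ∈ maximalIdeal S ^ k • (⊤ : Submodule S W) :=
      Submodule.smul_mem_smul (Ideal.pow_mem_pow hx k) trivial
    rw [hW] at h2
    exact (Submodule.mem_bot S).1 h2
  have hlt : maximalIdeal S • (⊤ : Submodule S (ModuleCat.of S S)) < ⊤ := by
    have h3 : maximalIdeal S • (⊤ : Submodule S S) = maximalIdeal S := by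
      rw [smul_eq_mul, Ideal.mul_top]
    have h4 : maximalIdeal S < ⊤ := lt_top_iff_ne_top.2 (maximalIdeal.isMaximal S).ne_top
    exact h3.symm ▸ h4
  exact ModuleCat.subsingleton_ext_of_exists_isRegular (maximalIdeal S) (ModuleCat.of S W) hsupp
    (ModuleCat.of S S) hlt xs hmem hreg j hj

/-- the projective dimension of a Cohen-Macaulay module: `M ⧸ (ys) M` is killed by a power of the maximal
ideal, so its projective dimension is at most `xs.length` (`pd_of_pow_smul`), and it equals
`projectiveDimension M + ys.length`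
(`ModuleCat.projectiveDimension_quotient_eq_add_length_of_isWeaklyRegular`).  As `M` is nontrivial its
projective dimension is not `⊥`, so `ys.length ≤ xs.length`. -/
theorem cm_pd (M : Type u) [AddCommGroup M] [Module S M] [Module.Finite S M] [Nontrivial M]
    (ys : List S) (hys : ∀ y ∈ ys, y ∈ maximalIdeal S) (hM : IsWeaklyRegular M ys) (k : ℕ)
    (hk : maximalIdeal S ^ k • (⊤ : Submodule S M) ≤ Ideal.ofList ys • ⊤) :
    ys.length ≤ xs.length ∧
      HasProjectiveDimensionLE (ModuleCat.of S M) (xs.length - ys.length) := by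
  have hW : maximalIdeal S ^ k • (⊤ : Submodule S (M ⧸ (Ideal.ofList ys • (⊤ : Submodule S M)))) = ⊥ := by
    have h1 : (⊤ : Submodule S (M ⧸ (Ideal.ofList ys • (⊤ : Submodule S M)))) =
        (⊤ : Submodule S M).map (Submodule.mkQ _) := by
      rw [Submodule.map_top, Submodule.range_mkQ]
    rw [h1, ← Submodule.map_smul'', ← le_bot_iff, Submodule.map_le_iff_le_comap,
      Submodule.comap_bot, Submodule.ker_mkQ]
    exact hk
  have h2 := pd_of_pow_smul xs hreg hmax k (M ⧸ (Ideal.ofList ys • (⊤ : Submodule S M))) hW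
  have : Nontrivial (ModuleCat.of S M) := inferInstanceAs (Nontrivial M)
  have : Module.Finite S (ModuleCat.of S M) := inferInstanceAs (Module.Finite S M)
  have h3 := ModuleCat.projectiveDimension_quotient_eq_add_length_of_isWeaklyRegular
    (ModuleCat.of S M) ys hM hys
  rw [← projectiveDimension_le_iff] at h2
  have h4 : projectiveDimension (ModuleCat.of S M) + (ys.length : WithBot ℕ∞) ≤ (xs.length : ℕ) := by
    rw [← h3]
    exact h2
  have h5 : projectiveDimension (ModuleCat.of S M) ≠ ⊥ := by
    rw [Ne, projectiveDimension_eq_bot_iff, ModuleCat.isZero_iff_subsingleton, not_subsingleton_iff_nontrivial]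
    infer_instance
  rw [← projectiveDimension_le_iff]
  generalize projectiveDimension (ModuleCat.of S M) = q at h4 h5
  induction q with
  | bot => exact absurd rfl h5
  | coe q =>
    have h6 : q + (ys.length : ℕ∞) ≤ (xs.length : ℕ∞) := by
      exact_mod_cast h4
    induction q with
    | top => simp at h6
    | coe q =>
      have h7 : q + ys.length ≤ xs.length := by exact_mod_cast h6
      refine ⟨by omega, ?_⟩
      have h8 : q ≤ xs.length - ys.length := by omega
      change ((q : ℕ∞) : WithBot ℕ∞) ≤ (((xs.length - ys.length : ℕ) : ℕ∞) : WithBot ℕ∞)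
      exact WithBot.coe_le_coe.2 (Nat.cast_le.2 h8)

/-- `ext_zero_of_isWeaklyRegular` and `ext_of_pow_smul` -/
theorem cm_ext (M : Type u) [AddCommGroup M] [Module S M] [Module.Finite S M]
    (ys : List S) (hys : ∀ y ∈ ys, y ∈ maximalIdeal S) (hM : IsWeaklyRegular M ys) (k : ℕ)
    (hk : maximalIdeal S ^ k • (⊤ : Submodule S M) ≤ Ideal.ofList ys • ⊤) (j : ℕ)
    (hj : j + ys.length < xs.length) : Subsingleton (EX S M S j) := by
  have hW : maximalIdeal S ^ k • (⊤ : Submodule S (M ⧸ (Ideal.ofList ys • (⊤ : Submodule S M)))) = ⊥ := by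
    have h1 : (⊤ : Submodule S (M ⧸ (Ideal.ofList ys • (⊤ : Submodule S M)))) =
        (⊤ : Submodule S M).map (Submodule.mkQ _) := by
      rw [Submodule.map_top, Submodule.range_mkQ]
    rw [h1, ← Submodule.map_smul'', ← le_bot_iff, Submodule.map_le_iff_le_comap,
      Submodule.comap_bot, Submodule.ker_mkQ]
    exact hk
  exact ext_zero_of_isWeaklyRegular xs.length S ys hys M hM
    (fun j hj => ext_of_pow_smul xs hreg hmax k _ hW j hj) j hj

/-- `ModuleCat.exists_isRegular_of_exists_subsingleton_ext` with `N = S ⧸ I` and `cm_ext` -/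
theorem cm_exists_regular (I : Ideal S) (hI : I ≠ ⊤)
    (ys : List S) (hys : ∀ y ∈ ys, y ∈ maximalIdeal S) (hM : IsWeaklyRegular (S ⧸ I) ys) (k : ℕ)
    (hk : maximalIdeal S ^ k • (⊤ : Submodule S (S ⧸ I)) ≤ Ideal.ofList ys • ⊤) :
    ∃ rs : List S, rs.length = xs.length - ys.length ∧ (∀ x ∈ rs, x ∈ I) ∧ IsRegular S rs := by
  have hlt : I • (⊤ : Submodule S (ModuleCat.of S S)) < ⊤ := by
    have h3 : I • (⊤ : Submodule S S) = I := by
      rw [smul_eq_mul, Ideal.mul_top]
    have h4 : I < ⊤ := lt_top_iff_ne_top.2 hI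
    exact h3.symm ▸ h4
  have hsupp : Module.support S (ModuleCat.of S (S ⧸ I)) = PrimeSpectrum.zeroLocus (I : Set S) := by
    rw [Module.support_eq_zeroLocus]
    congr 2
    exact Ideal.annihilator_quotient
  exact ModuleCat.exists_isRegular_of_exists_subsingleton_ext I (xs.length - ys.length)
    (ModuleCat.of S S) hlt (ModuleCat.of S (S ⧸ I)) hsupp
    (fun j hj => cm_ext xs hreg hmax (S ⧸ I) ys hys hM k hk j (by omega))

end reg

end

end Pool.Agent.Lib.MP_f251fc_ag
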