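import Pool.Agent.Lib.MP_f251fc_ag.CMA

/-! # `Ext^i(K, S)` for a regular local ring -/

set_option autoImplicit false

namespace Pool.Agent.Lib.MP_f251fc_ag

open CategoryTheory IsLocalRing RingTheory.Sequence

noncomputable section

universe u

section shift

variable {S : Type u} [CommRing S] (K : Type u) [AddCommGroup K] [Module S K]

private theorem CMB_inj {x : S} {N : Type u} [AddCommGroup N]
    [Module S N] (hreg : IsSMulRegular N x) :
    Function.Injective (x • (LinearMap.id : N →ₗ[S] N)) := hreg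

open Pointwise in
private theorem CMB_exact (x : S) (N : Type u) [AddCommGroup N] [Module S N] :
    Function.Exact (x • (LinearMap.id : N →ₗ[S] N))
      (Submodule.mkQ (x • (⊤ : Submodule S N))) := by
  intro n
  rw [Submodule.mkQ_apply, Submodule.Quotient.mk_eq_zero, Submodule.mem_smul_pointwise_iff_exists]
  constructor
  · rintro ⟨m, -, hm⟩
    exact ⟨m, hm⟩
  · rintro ⟨m, hm⟩
    exact ⟨m, Submodule.mem_top, hm⟩

/-- `0 → N → N → N ⧸ x N → 0`, `x` kills `K` hence all `Ext^i(K, N)`, `Ext^i(K, N) = 0`: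
`Ext^i(K, N ⧸ x N) ≅ Ext^(i+1)(K, N)` (the connecting map: injective since `Ext^i(K, N) = 0`, surjective since
the map `Ext^(i+1)(K, N) → Ext^(i+1)(K, N)` is the multiplication by `x`, which is zero).  The connecting map
is `Abelian.Ext.postcomp` with the extension class; its `S`-linearity: `Abelian.Ext.postcompOfLinear`,
`Abelian.Ext.bilinearComp` or by hand (`Abelian.Ext.smul_comp`). -/
theorem ex_quotSMulTop (x : S) (hx : ∀ a : K, x • a = 0) (N : Type u) [AddCommGroup N] [Module S N]
    (hreg : IsSMulRegular N x) (i : ℕ) (h : Subsingleton (EX S K N i)) :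
    Nonempty (EX S K (QuotSMulTop x N) i ≃ₗ[S] EX S K N (i + 1)) := by
  have hS := ExtA_shortExact (CMB_inj hreg) (CMB_exact x N)
    (Submodule.mkQ_surjective _)
  refine ⟨LinearEquiv.ofBijective (Abelian.Ext.postcompOfLinear hS.extClass S (ModuleCat.of S K)
    (rfl : i + 1 = i + 1)) ⟨?_, ?_⟩⟩
  · rw [injective_iff_map_eq_zero]
    intro y hy
    obtain ⟨z, hz⟩ := Abelian.Ext.covariant_sequence_exact₃ (ModuleCat.of S K) hS y
      (rfl : i + 1 = i + 1) hy
    have hz0 : z = 0 := h.elim z 0
    rw [← hz, hz0, Abelian.Ext.zero_comp]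
  · intro y
    obtain ⟨z, hz⟩ := Abelian.Ext.covariant_sequence_exact₁ (ModuleCat.of S K) hS y
      (by
        have h1 : ExtA_pc K (x • (LinearMap.id : N →ₗ[S] N)) (i + 1) y = 0 := by
          rw [ExtA_pc_smul, ExtA_smul_zero K x hx]
        exact h1) (rfl : i + 1 = i + 1)
    exact ⟨z, hz⟩

/-- `Ext^0(K, N) = 0` if a nonzerodivisor on `N` kills `K` -/
theorem ex_zero_quotSMulTop (x : S) (hx : ∀ a : K, x • a = 0) (N : Type u) [AddCommGroup N]
    [Module S N] (hreg : IsSMulRegular N x) : Subsingleton (EX S K N 0) := by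
  refine ⟨fun a b => ?_⟩
  have hm : Mono (ModuleCat.ofHom (x • (LinearMap.id : N →ₗ[S] N))) :=
    (ModuleCat.mono_iff_injective _).2 (CMB_inj hreg)
  have hinj := Abelian.Ext.postcomp_mk₀_injective_of_mono (ModuleCat.of S K)
    (ModuleCat.ofHom (x • (LinearMap.id : N →ₗ[S] N)))
  apply hinj
  have h1 : ∀ a : EX S K N 0, ExtA_pc K (x • (LinearMap.id : N →ₗ[S] N)) 0 a = 0 := by
    intro a
    rw [ExtA_pc_smul, ExtA_smul_zero K x hx]
  exact (h1 a).trans (h1 b).symm

/-- induction on the list, generalising `N`: `Ext^j(K, N) = 0` for `j < length`, and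
`Ext^length(K, N) ≅ Ext^0(K, N ⧸ (xs) N)` -/
theorem ex_of_isWeaklyRegular (xs : List S) (hx : ∀ x ∈ xs, ∀ a : K, x • a = 0) :
    ∀ (N : Type u) [AddCommGroup N] [Module S N], IsWeaklyRegular N xs →
      (∀ j < xs.length, Subsingleton (EX S K N j)) ∧
      Nonempty (EX S K (N ⧸ (Ideal.ofList xs • ⊤ : Submodule S N)) 0 ≃ₗ[S]
        EX S K N xs.length) := by
  induction xs with
  | nil =>
    intro N _ _ _
    refine ⟨fun j hj => absurd hj (Nat.not_lt_zero j), ?_⟩
    exact ex_congr K (Submodule.quotEquivOfEqBot _ (by rw [Ideal.ofList_nil, Submodule.bot_smul])) 0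
  | cons x xs ih =>
    intro N _ _ hN
    rw [isWeaklyRegular_cons_iff] at hN
    obtain ⟨ih1, ⟨ih2⟩⟩ := ih (fun y hy => hx y (List.mem_cons_of_mem x hy)) (QuotSMulTop x N) hN.2
    have hx0 : ∀ a : K, x • a = 0 := hx x List.mem_cons_self
    have hz : ∀ j < xs.length + 1, Subsingleton (EX S K N j) := by
      intro j
      induction j with
      | zero => intro _; exact ex_zero_quotSMulTop K x hx0 N hN.1
      | succ j ihj =>
        intro hj
        obtain ⟨e⟩ := ex_quotSMulTop K x hx0 N hN.1 j (ihj (by omega))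
        have := ih1 j (by omega)
        exact e.symm.toEquiv.subsingleton
    refine ⟨hz, ?_⟩
    obtain ⟨e⟩ := ex_quotSMulTop K x hx0 N hN.1 xs.length (hz _ (Nat.lt_succ_self _))
    obtain ⟨e'⟩ := ex_congr K (Submodule.quotOfListConsSMulTopEquivQuotSMulTopInner N x xs) 0
    exact ⟨(e'.trans ih2).trans e⟩

end shift

private theorem CMB_length_residue (S : Type u) [CommRing S] [IsLocalRing S] :
    Module.length S (ResidueField S) = 1 := by
  rw [Module.length_eq_one_iff]
  have h : IsCoatom (maximalIdeal S) := (Ideal.isMaximal_def).1 inferInstance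
  exact isSimpleModule_iff_isCoatom.2 h

private theorem CMB_hom (S : Type u) [CommRing S] [IsLocalRing S] :
    Nonempty ((ResidueField S →ₗ[S] ResidueField S) ≃ₗ[S] ResidueField S) := by
  let ev : (ResidueField S →ₗ[S] ResidueField S) →ₗ[S] ResidueField S :=
    { toFun := fun f => f 1
      map_add' := fun f g => rfl
      map_smul' := fun c f => rfl }
  refine ⟨LinearEquiv.ofBijective ev ⟨?_, ?_⟩⟩
  · intro f g hfg
    have h1 : f 1 = g 1 := hfg
    ext a
    obtain ⟨s, rfl⟩ := IsLocalRing.residue_surjective a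
    have h2 : residue S s = s • (1 : ResidueField S) := by
      rw [Algebra.smul_def, mul_one]
      rfl
    rw [h2, map_smul, map_smul, h1]
  · intro a
    refine ⟨LinearMap.mul S (ResidueField S) a, ?_⟩
    change a * 1 = a
    rw [mul_one]

variable {S : Type u} [CommRing S] [IsLocalRing S] [IsNoetherianRing S]
  (xs : List S) (hreg : IsRegular S xs) (hmax : Ideal.ofList xs = maximalIdeal S)

include hreg hmax

/-- `Ext^n(K, S) ≅ Hom(K, S ⧸ maximalIdeal) ≅ K` for `n = xs.length`, `0` for `i < n` by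
`ex_of_isWeaklyRegular` and for `i > n` by `pd_residueField` (`HasProjectiveDimensionLT.subsingleton`) -/
theorem length_ex_residueField (i : ℕ) :
    Module.length S (EX S (ResidueField S) S i) = if i = xs.length then 1 else 0 := by
  have hx : ∀ x ∈ xs, ∀ a : ResidueField S, x • a = 0 := by
    intro x hx a
    have h1 : x ∈ maximalIdeal S := by
      rw [← hmax]
      exact Ideal.subset_span hx
    rw [Algebra.smul_def]
    have h2 : algebraMap S (ResidueField S) x = 0 := (residue_eq_zero_iff x).2 h1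
    rw [h2, zero_mul]
  obtain ⟨h1, ⟨e⟩⟩ := ex_of_isWeaklyRegular (ResidueField S) xs hx S hreg.toIsWeaklyRegular
  rcases lt_trichotomy i xs.length with h | h | h
  · rw [if_neg h.ne]
    have := h1 i h
    exact Module.length_eq_zero
  · subst h
    rw [if_pos rfl, ← e.length_eq]
    have e1 : (S ⧸ (Ideal.ofList xs • ⊤ : Submodule S S)) ≃ₗ[S] ResidueField S :=
      Submodule.quotEquivOfEq _ _ (by rw [hmax, smul_eq_mul, Ideal.mul_top])
    obtain ⟨e2⟩ := ex_congr (ResidueField S) e1 0
    have e3 : EX S (ResidueField S) (ResidueField S) 0 ≃ₗ[S]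
        (ModuleCat.of S (ResidueField S) ⟶ ModuleCat.of S (ResidueField S)) :=
      Abelian.Ext.linearEquiv₀
    have e4 : (ModuleCat.of S (ResidueField S) ⟶ ModuleCat.of S (ResidueField S)) ≃ₗ[S]
        (ResidueField S →ₗ[S] ResidueField S) := ModuleCat.homLinearEquiv
    obtain ⟨e5⟩ := CMB_hom S
    rw [(((e2.trans e3).trans e4).trans e5).length_eq, CMB_length_residue]
  · rw [if_neg h.ne']
    have := pd_residueField xs hreg hmax
    have h2 : Subsingleton (EX S (ResidueField S) S i) :=
      HasProjectiveDimensionLT.subsingleton (ModuleCat.of S (ResidueField S)) (xs.length + 1) i h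
        (ModuleCat.of S S)
    exact Module.length_eq_zero

end

end Pool.Agent.Lib.MP_f251fc_ag
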