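import Pool.Agent.Lib.MP_f251fc_ag.ExtA

/-! # Vanishing of `Ext` and weakly regular sequences -/

set_option autoImplicit false

namespace Pool.Agent.Lib.MP_f251fc_ag

open CategoryTheory IsLocalRing RingTheory.Sequence

noncomputable section

universe u

private theorem CMX_congr {S : Type u} [CommRing S] {M M' : Type u} [AddCommGroup M] [Module S M]
    [AddCommGroup M'] [Module S M'] (N : Type u) [AddCommGroup N] [Module S N] (e : M ≃ₗ[S] M')
    (j : ℕ) (h : Subsingleton (EX S M N j)) : Subsingleton (EX S M' N j) := by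
  have key : ∀ x : EX S M' N j, x = 0 := by
    intro x
    have h1 : (Abelian.Ext.mk₀ e.toModuleIso.hom).comp x (zero_add j) = 0 :=
      @Subsingleton.elim (EX S M N j) h _ _
    have h2 : (Abelian.Ext.mk₀ e.toModuleIso.inv).comp
        ((Abelian.Ext.mk₀ e.toModuleIso.hom).comp x (zero_add j)) (zero_add j) = x := by
      rw [Abelian.Ext.mk₀_comp_mk₀_assoc, Iso.inv_hom_id, Abelian.Ext.mk₀_id_comp]
    rw [h1, Abelian.Ext.comp_zero] at h2
    exact h2.symm
  exact ⟨fun a b => by rw [key a, key b]⟩

private theorem CMX_smul {S : Type u} [CommRing S] {X Y : ModuleCat.{u} S} {j : ℕ} (y : S)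
    (z : Abelian.Ext X Y j) :
    (Abelian.Ext.mk₀ (y • 𝟙 X)).comp z (zero_add j) = y • z := by
  rw [Abelian.Ext.mk₀_smul, Abelian.Ext.smul_comp, Abelian.Ext.mk₀_id_comp]

section ext

variable {S : Type u} [CommRing S] [IsLocalRing S] [IsNoetherianRing S]

/-- If `y` is regular on the finitely generated module `M`, `y` in the maximal ideal, and
`Ext^(j+1)(M ⧸ y M, S) = 0` then `Ext^j(M, S) = 0`: the long exact sequence for `0 → M → M → M ⧸ y M → 0`
(`ModuleCat.smulShortComplex`, `Abelian.Ext.contravariant_sequence_exact₁'` or similar, compare the proof of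
`ModuleCat.projectiveDimension_quotSMulTop_eq_succ_of_isSMulRegular` in Mathlib) shows that multiplication
by `y` is onto on the finitely generated (`Mathlib/Algebra/Category/ModuleCat/Ext/Finite.lean`) module
`Ext^j(M, S)`: Nakayama. -/
theorem ext_zero_of_quotSMulTop (M : Type u) [AddCommGroup M] [Module S M] [Module.Finite S M]
    (N : Type u) [AddCommGroup N] [Module S N] [Module.Finite S N]
    (y : S) (hy : y ∈ maximalIdeal S) (hreg : IsSMulRegular M y) (j : ℕ)
    (h : Subsingleton (EX S (QuotSMulTop y M) N (j + 1))) : Subsingleton (EX S M N j) := by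
  have hreg' : IsSMulRegular (ModuleCat.of S M) y := hreg
  have hS : ((ModuleCat.of S M).smulShortComplex y).ShortExact := hreg'.smulShortComplex_shortExact
  have hsurj : ∀ x : EX S M N j, ∃ z : EX S M N j, y • z = x := by
    intro x
    obtain ⟨z, hz⟩ := Abelian.Ext.contravariant_sequence_exact₁ hS (ModuleCat.of S N)
      (n₀ := j) x (n₁ := j + 1) (add_comm 1 j)
      (@Subsingleton.elim (EX S (QuotSMulTop y M) N (j + 1)) h _ _)
    exact ⟨z, (CMX_smul y z).symm.trans hz⟩
  by_contra hne
  rw [not_subsingleton_iff_nontrivial] at hne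
  have hjac : y ∈ (Module.annihilator S (EX S M N j)).jacobson :=
    (IsLocalRing.maximalIdeal_le_jacobson _) hy
  refine Submodule.top_ne_pointwise_smul_of_mem_jacobson_annihilator hjac ?_
  rw [eq_comm, eq_top_iff]
  intro x _
  obtain ⟨z, hz⟩ := hsurj x
  rw [← hz]
  exact Submodule.smul_mem_pointwise_smul _ _ ⊤ trivial

/-- induction on the list `ys` (`RingTheory.Sequence.isWeaklyRegular_cons_iff`,
`Submodule.quotOfListConsSMulTopEquivQuotSMulTopInner`) -/
theorem ext_zero_of_isWeaklyRegular (n : ℕ) (N : Type u) [AddCommGroup N] [Module S N]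
    [Module.Finite S N] (ys : List S) (hys : ∀ y ∈ ys, y ∈ maximalIdeal S) :
    ∀ (M : Type u) [AddCommGroup M] [Module S M] [Module.Finite S M], IsWeaklyRegular M ys →
      (∀ j < n, Subsingleton (EX S (M ⧸ (Ideal.ofList ys • ⊤ : Submodule S M)) N j)) →
      ∀ j, j + ys.length < n → Subsingleton (EX S M N j) := by
  induction ys with
  | nil =>
    intro M _ _ _ _ h j hj
    have e : (M ⧸ (Ideal.ofList ([] : List S) • ⊤ : Submodule S M)) ≃ₗ[S] M :=
      Submodule.quotEquivOfEqBot _ (by rw [Ideal.ofList_nil, Submodule.bot_smul])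
    exact CMX_congr N e j (h j (by simpa using hj))
  | cons y ys ih =>
    intro M _ _ _ hreg h j hj
    rw [isWeaklyRegular_cons_iff] at hreg
    have hy : y ∈ maximalIdeal S := hys y List.mem_cons_self
    have hys' : ∀ z ∈ ys, z ∈ maximalIdeal S := fun z hz => hys z (List.mem_cons_of_mem _ hz)
    have e := Submodule.quotOfListConsSMulTopEquivQuotSMulTopInner M y ys
    have h1 := ih hys' (QuotSMulTop y M) hreg.2 (fun i hi => CMX_congr N e i (h i hi)) (j + 1)
      (by rw [List.length_cons] at hj; omega)
    exact ext_zero_of_quotSMulTop M N y hy hreg.1 j h1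

end ext

end

end Pool.Agent.Lib.MP_f251fc_ag
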