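import Pool.Agent.Lib.MP_f251fc_ag.Loc

/-!
# The (unnormalised, augmented) Čech complex

`Cc f N k` is the product over all tuples `s : Fin k → Fin r` of the localisation of `N` at the
multiplicative set generated by the `f (s j)`; `Cc f N 0` is `N` itself.
-/

set_option autoImplicit false

namespace Pool.Agent.Lib.MP_f251fc_ag

noncomputable section

universe u

section Defs

variable {B : Type u} [CommRing B] {r : ℕ}

/-- the multiplicative set generated by the `f (s j)` -/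
def Ms (f : Fin r → B) {k : ℕ} (s : Fin k → Fin r) : Submonoid B :=
  Submonoid.closure (Set.range fun j => f (s j))

theorem Ms_comp_le (f : Fin r → B) {k l : ℕ} (s : Fin l → Fin r) (t : Fin k → Fin l) :
    Ms f (s ∘ t) ≤ Ms f s := by
  apply Submonoid.closure_mono
  rintro _ ⟨j, rfl⟩
  exact ⟨t j, rfl⟩

theorem mem_Ms (f : Fin r → B) {k : ℕ} (s : Fin k → Fin r) (j : Fin k) : f (s j) ∈ Ms f s :=
  Submonoid.subset_closure ⟨j, rfl⟩

variable (f : Fin r → B) (N : Type u) [AddCommGroup N] [Module B N]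

/-- Čech cochains of degree `k` -/
abbrev Cc (k : ℕ) : Type u := ∀ s : Fin k → Fin r, LocalizedModule (Ms f s) N

/-- the differential -/
def dC (k : ℕ) : Cc f N k →ₗ[B] Cc f N (k + 1) where
  toFun z s := ∑ i : Fin (k + 1),
    ((-1 : B) ^ (i : ℕ)) • res N (Ms_comp_le f s i.succAbove) (z (s ∘ i.succAbove))
  map_add' z w := by
    ext s
    simp only [Pi.add_apply, map_add, smul_add, Finset.sum_add_distrib]
  map_smul' b z := by
    ext s
    simp only [Pi.smul_apply, map_smul, RingHom.id_apply, Finset.smul_sum]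
    exact Finset.sum_congr rfl fun i _ => smul_comm _ _ _

theorem dC_apply (k : ℕ) (z : Cc f N k) (s : Fin (k + 1) → Fin r) :
    dC f N k z s = ∑ i : Fin (k + 1),
      ((-1 : B) ^ (i : ℕ)) • res N (Ms_comp_le f s i.succAbove) (z (s ∘ i.succAbove)) := rfl

/-- cocycles -/
def Zc (k : ℕ) : Submodule B (Cc f N k) := LinearMap.ker (dC f N k)

/-- coboundaries -/
def Bc : ∀ k : ℕ, Submodule B (Cc f N k)
  | 0 => ⊥
  | k + 1 => LinearMap.range (dC f N k)

theorem mem_Zc {k : ℕ} (z : Cc f N k) : z ∈ Zc f N k ↔ dC f N k z = 0 := Iff.rfl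

theorem mem_Bc_succ {k : ℕ} (z : Cc f N (k + 1)) : z ∈ Bc f N (k + 1) ↔ ∃ y, dC f N k y = z :=
  Iff.rfl

theorem mem_Bc_zero (z : Cc f N 0) : z ∈ Bc f N 0 ↔ z = 0 := Iff.rfl

/-- cohomology -/
abbrev Hc (k : ℕ) : Type u := Zc f N k ⧸ (Bc f N k).submoduleOf (Zc f N k)

/-- the class of a cocycle -/
def cls (k : ℕ) : Zc f N k →ₗ[B] Hc f N k := Submodule.mkQ _

/-- the module as the module of cochains of degree `0` -/
def aug : N →ₗ[B] Cc f N 0 where
  toFun n _ := LocalizedModule.mk n 1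
  map_add' n n' := by
    ext s
    exact (LocalizedModule.mkLinearMap (Ms f s) N).map_add n n'
  map_smul' b n := by
    ext s
    exact (LocalizedModule.mkLinearMap (Ms f s) N).map_smul b n

end Defs

section Maps

variable {B B' : Type u} [CommRing B] [CommRing B'] {φ : B →+* B'} {r : ℕ}
  {f : Fin r → B} {f' : Fin r → B'}
  {N N' : Type u} [AddCommGroup N] [Module B N] [AddCommGroup N'] [Module B' N']

theorem Ms_map (hf : ∀ i, φ (f i) ∈ Submonoid.powers (f' i)) {k : ℕ} (s : Fin k → Fin r) :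
    ∀ m ∈ Ms f s, φ m ∈ Ms f' s := by
  intro m hm
  induction hm using Submonoid.closure_induction with
  | mem x hx =>
    obtain ⟨j, rfl⟩ := hx
    exact (Submonoid.powers_le.2 (mem_Ms f' s j)) (hf (s j))
  | one => rw [map_one]; exact Submonoid.one_mem _
  | mul x y _ _ hx hy => rw [map_mul]; exact Submonoid.mul_mem _ hx hy

/-- the map of Čech cochains induced by a semilinear map -/
def cmap (hf : ∀ i, φ (f i) ∈ Submonoid.powers (f' i)) (θ : N →ₛₗ[φ] N') (k : ℕ) :
    Cc f N k →ₛₗ[φ] Cc f' N' k where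
  toFun z s := lmap (Ms_map hf s) θ (z s)
  map_add' z w := by
    ext s
    simp only [Pi.add_apply, map_add]
  map_smul' b z := by
    ext s
    simp only [Pi.smul_apply, map_smulₛₗ]

theorem cmap_apply (hf : ∀ i, φ (f i) ∈ Submonoid.powers (f' i)) (θ : N →ₛₗ[φ] N') (k : ℕ)
    (z : Cc f N k) (s : Fin k → Fin r) : cmap hf θ k z s = lmap (Ms_map hf s) θ (z s) := rfl

theorem cmap_dC (hf : ∀ i, φ (f i) ∈ Submonoid.powers (f' i)) (θ : N →ₛₗ[φ] N') (k : ℕ)
    (z : Cc f N k) : dC f' N' k (cmap hf θ k z) = cmap hf θ (k + 1) (dC f N k z) := by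
  ext s
  rw [dC_apply, cmap_apply, dC_apply, map_sum]
  refine Finset.sum_congr rfl fun i _ => ?_
  rw [map_smulₛₗ, cmap_apply, lmap_res (Ms_comp_le f s i.succAbove) (Ms_comp_le f' s i.succAbove)
    (Ms_map hf _), map_pow, map_neg, map_one]

theorem cmap_aug (hf : ∀ i, φ (f i) ∈ Submonoid.powers (f' i)) (θ : N →ₛₗ[φ] N') (n : N) :
    cmap hf θ 0 (aug f N n) = aug f' N' (θ n) := by
  ext s
  change lmap (Ms_map hf s) θ (LocalizedModule.mk n 1) = LocalizedModule.mk (θ n) 1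
  rw [lmap_mk]
  congr 1
  ext
  simp

theorem cmap_mem_Zc (hf : ∀ i, φ (f i) ∈ Submonoid.powers (f' i)) (θ : N →ₛₗ[φ] N') {k : ℕ}
    {z : Cc f N k} (hz : z ∈ Zc f N k) : cmap hf θ k z ∈ Zc f' N' k := by
  rw [mem_Zc, cmap_dC, (mem_Zc f N z).1 hz, map_zero]

theorem cmap_mem_Bc (hf : ∀ i, φ (f i) ∈ Submonoid.powers (f' i)) (θ : N →ₛₗ[φ] N') {k : ℕ}
    {z : Cc f N k} (hz : z ∈ Bc f N k) : cmap hf θ k z ∈ Bc f' N' k := by
  cases k with
  | zero =>
    rw [mem_Bc_zero] at hz ⊢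
    rw [hz, map_zero]
  | succ k =>
    obtain ⟨y, rfl⟩ := hz
    exact ⟨cmap hf θ k y, cmap_dC hf θ k y⟩

/-- the map on cohomology induced by a semilinear map -/
def hmap (hf : ∀ i, φ (f i) ∈ Submonoid.powers (f' i)) (θ : N →ₛₗ[φ] N') (k : ℕ) :
    Hc f N k →ₛₗ[φ] Hc f' N' k :=
  Submodule.mapQ _ _ ((cmap hf θ k).restrict fun _ hz => cmap_mem_Zc hf θ hz)
    (fun _ hz => cmap_mem_Bc hf θ hz)

end Maps

section Lin

variable {B : Type u} [CommRing B] {r : ℕ} (f : Fin r → B)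
  {N N' N'' : Type u} [AddCommGroup N] [Module B N] [AddCommGroup N'] [Module B N']
  [AddCommGroup N''] [Module B N'']

theorem id_mem_powers (i : Fin r) : RingHom.id B (f i) ∈ Submonoid.powers (f i) :=
  Submonoid.mem_powers _

/-- the map of Čech cochains induced by a linear map -/
def lc (g : N →ₗ[B] N') (k : ℕ) : Cc f N k →ₗ[B] Cc f N' k :=
  cmap (φ := RingHom.id B) (id_mem_powers f) g k

/-- the map on cohomology induced by a linear map -/
def hl (g : N →ₗ[B] N') (k : ℕ) : Hc f N k →ₗ[B] Hc f N' k :=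
  hmap (φ := RingHom.id B) (id_mem_powers f) g k

theorem lc_mk (g : N →ₗ[B] N') (k : ℕ) (z : Cc f N k) (s : Fin k → Fin r) (n : N)
    (m : Ms f s) (h : z s = LocalizedModule.mk n m) : lc f g k z s = LocalizedModule.mk (g n) m := by
  change lmap (Ms_map (φ := RingHom.id B) (id_mem_powers f) s) g (z s) = _
  rw [h, lmap_mk]
  rfl

end Lin

end

end Pool.Agent.Lib.MP_f251fc_ag
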