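import Pool.Agent.Lib.MP_f251fc_ag.Cech

/-! # `d ∘ d = 0` and cochains of degree zero -/

set_option autoImplicit false

namespace Pool.Agent.Lib.MP_f251fc_ag

noncomputable section

universe u

variable {B : Type u} [CommRing B] {r : ℕ} (f : Fin r → B) (N : Type u) [AddCommGroup N] [Module B N]

/-- `d ∘ d = 0`.  `(d d z) s = ∑ i : Fin (k+2), ∑ j : Fin (k+1), (-1)^(i+j) • res (z (s ∘ i.succAbove ∘
j.succAbove))` (`res_res`); the terms `(i, j)` with `j < i` (i.e. `j.castSucc < i`) cancel against the terms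
`(j.castSucc, i.pred)`, since `i.succAbove ∘ j.succAbove = j.castSucc.succAbove ∘ (i.pred _).succAbove` then
(compare `AlgebraicTopology.AlternatingFaceMapComplex.d_squared`, or use `Finset.sum_involution`).
The maps `res _ h` do not depend on the proof `h`, and `z` evaluated at propositionally equal tuples:
use a lemma `res (z s₁) = res (z s₂)` for `s₁ = s₂` by `subst`. -/
theorem dC_dC (k : ℕ) (z : Cc f N k) : dC f N (k + 1) (dC f N k z) = 0 := by
  funext s
  rw [dC_apply]
  let T : (Fin k → Fin (k + 2)) → LocalizedModule (Ms f s) N := fun t =>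
    res N (Ms_comp_le f s t) (z (s ∘ t))
  have h1 : ∀ i : Fin (k + 2), ((-1 : B) ^ (i : ℕ)) •
      res N (Ms_comp_le f s i.succAbove) (dC f N k z (s ∘ i.succAbove)) =
      ∑ j : Fin (k + 1), ((-1 : B) ^ ((i : ℕ) + (j : ℕ))) • T (i.succAbove ∘ j.succAbove) := by
    intro i
    rw [dC_apply, map_sum, Finset.smul_sum]
    refine Finset.sum_congr rfl fun j _ => ?_
    rw [map_smul, smul_smul, ← pow_add, res_res]
    rfl
  rw [Finset.sum_congr rfl fun i _ => h1 i, ← Finset.sum_product']
  refine Finset.sum_ninvolution (fun p => (p.1.succAbove p.2, p.2.predAbove p.1)) ?_ ?_ ?_ ?_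
  · rintro ⟨i, j⟩
    have h2 : (i.succAbove j).succAbove ∘ (j.predAbove i).succAbove =
        i.succAbove ∘ j.succAbove := by
      funext l
      exact Fin.succAbove_succAbove_succAbove_predAbove i j l
    simp only [h2, Fin.neg_one_pow_succAbove_add_predAbove, neg_smul, add_neg_cancel]
  · rintro ⟨i, j⟩ _ h
    exact Fin.succAbove_ne i j (congrArg Prod.fst h)
  · intro p
    exact Finset.mem_product.2 ⟨Finset.mem_univ _, Finset.mem_univ _⟩
  · rintro ⟨i, j⟩
    simp only [Fin.succAbove_succAbove_predAbove, Fin.predAbove_predAbove_succAbove]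

theorem Bc_le_Zc (k : ℕ) : Bc f N k ≤ Zc f N k := by
  cases k with
  | zero => exact bot_le
  | succ k =>
    rintro _ ⟨y, rfl⟩
    exact dC_dC f N k y

private theorem CechD_bot (s : Fin 0 → Fin r) : Ms f s = ⊥ := by
  rw [Ms, Set.range_eq_empty, Submonoid.closure_empty]

/-- `Ms f s = ⊥` for `s : Fin 0 → Fin r`, and there is exactly one such `s` -/
theorem aug_bijective : Function.Bijective (aug f N) := by
  constructor
  · intro n n' h
    have h1 : (LocalizedModule.mk n 1 : LocalizedModule (Ms f (Fin.elim0 : Fin 0 → Fin r)) N) =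
        LocalizedModule.mk n' 1 := congrFun h Fin.elim0
    rw [LocalizedModule.mk_eq] at h1
    obtain ⟨⟨u, hu⟩, h2⟩ := h1
    rw [CechD_bot, Submonoid.mem_bot] at hu
    subst hu
    simpa [Submonoid.smul_def] using h2
  · intro z
    obtain ⟨⟨n, ⟨t, ht⟩⟩, h⟩ : ∃ p : N × Ms f (Fin.elim0 : Fin 0 → Fin r),
        z Fin.elim0 = LocalizedModule.mk p.1 p.2 := by
      induction hz : z Fin.elim0 using LocalizedModule.induction_on with
      | h n s => exact ⟨(n, s), rfl⟩
    refine ⟨n, ?_⟩
    funext s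
    obtain rfl : s = Fin.elim0 := Subsingleton.elim _ _
    rw [h]
    change LocalizedModule.mk n 1 = LocalizedModule.mk n ⟨t, ht⟩
    congr 1
    apply Subtype.ext
    rw [CechD_bot, Submonoid.mem_bot] at ht
    exact ht.symm

/-- `dC (aug n) s` is the image of `n` in the localisation at the powers of `f (s 0)` -/
theorem aug_mem_Zc_iff (n : N) : aug f N n ∈ Zc f N 0 ↔ ∀ i, ∃ t : ℕ, f i ^ t • n = 0 := by
  have h1 : ∀ s : Fin 1 → Fin r, dC f N 0 (aug f N n) s = LocalizedModule.mk n 1 := by
    intro s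
    rw [dC_apply, Fin.sum_univ_one]
    change ((-1 : B) ^ 0) • res N (Ms_comp_le f s (Fin.succAbove 0)) (LocalizedModule.mk n 1) = _
    rw [res_mk, pow_zero, one_smul]
    rfl
  have h2 : ∀ s : Fin 1 → Fin r, Ms f s = Submonoid.powers (f (s 0)) := by
    intro s
    rw [Ms, Submonoid.powers_eq_closure]
    congr 1
    ext x
    constructor
    · rintro ⟨j, rfl⟩
      obtain rfl : j = 0 := Subsingleton.elim _ _
      rfl
    · rintro rfl
      exact ⟨0, rfl⟩
  have h3 : ∀ s : Fin 1 → Fin r, dC f N 0 (aug f N n) s = 0 ↔ ∃ t : ℕ, f (s 0) ^ t • n = 0 := by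
    intro s
    rw [h1, ← LocalizedModule.zero_mk (1 : Ms f s), LocalizedModule.mk_eq]
    constructor
    · rintro ⟨⟨u, hu⟩, h⟩
      rw [h2] at hu
      obtain ⟨t, rfl⟩ := hu
      refine ⟨t, ?_⟩
      simpa [Submonoid.smul_def] using h
    · rintro ⟨t, h⟩
      refine ⟨⟨f (s 0) ^ t, ?_⟩, ?_⟩
      · rw [h2]
        exact ⟨t, rfl⟩
      · simpa [Submonoid.smul_def] using h
  rw [mem_Zc]
  constructor
  · intro h i
    exact (h3 fun _ => i).1 (congrFun h _)
  · intro h
    funext s
    exact (h3 s).2 (h (s 0))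

end

end Pool.Agent.Lib.MP_f251fc_ag
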