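import Pool.Agent.Lib.MP_f251fc_ag.CechV

/-! # Embedding into acyclic modules, injective modules -/

set_option autoImplicit false

namespace Pool.Agent.Lib.MP_f251fc_ag

noncomputable section

universe u

variable {B : Type u} [CommRing B] {r : ℕ} (f : Fin r → B)

/-- elements killed by powers of all `f i` -/
private def CechE_tors (N : Type u) [AddCommGroup N] [Module B N] : Submodule B N where
  carrier := {x | ∀ i, ∃ t : ℕ, f i ^ t • x = 0}
  add_mem' {x y} hx hy i := by
    obtain ⟨t, ht⟩ := hx i
    obtain ⟨t', ht'⟩ := hy i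
    refine ⟨t + t', ?_⟩
    rw [smul_add]
    have h1 : f i ^ (t + t') • x = 0 := by
      rw [add_comm, pow_add, mul_smul, ht, smul_zero]
    have h2 : f i ^ (t + t') • y = 0 := by
      rw [pow_add, mul_smul, ht', smul_zero]
    rw [h1, h2, add_zero]
  zero_mem' i := ⟨0, smul_zero _⟩
  smul_mem' b x hx i := by
    obtain ⟨t, ht⟩ := hx i
    exact ⟨t, by rw [smul_comm, ht, smul_zero]⟩

private theorem CechE_mem_tors {N : Type u} [AddCommGroup N] [Module B N] {x : N} :
    x ∈ CechE_tors f N ↔ ∀ i, ∃ t : ℕ, f i ^ t • x = 0 := Iff.rfl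

/-- a power of the ideal kills the torsion submodule -/
private theorem CechE_pow_le [IsNoetherianRing B] (N : Type u) [AddCommGroup N] [Module B N]
    [Module.Finite B N] :
    ∃ t : ℕ, (Ideal.span (Set.range f)) ^ t • CechE_tors f N = ⊥ := by
  classical
  have hfg : (CechE_tors f N).FG := IsNoetherian.noetherian _
  have hrad : Ideal.span (Set.range f) ≤ (Module.annihilator B (CechE_tors f N)).radical := by
    rw [Ideal.span_le]
    rintro _ ⟨i, rfl⟩
    obtain ⟨S, hS⟩ := hfg
    have hmem : ∀ s ∈ S, ∃ t : ℕ, f i ^ t • s = 0 := by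
      intro s hs
      have h1 : s ∈ CechE_tors f N := by rw [← hS]; exact Submodule.subset_span hs
      exact h1 i
    choose! T hT using hmem
    refine ⟨∑ s ∈ S, T s, ?_⟩
    rw [Module.mem_annihilator]
    rintro ⟨x, hx⟩
    apply Subtype.ext
    change f i ^ (∑ s ∈ S, T s) • x = 0
    rw [← hS] at hx
    induction hx using Submodule.span_induction with
    | mem s hs =>
      have h2 : T s ≤ ∑ s ∈ S, T s := Finset.single_le_sum (fun _ _ => Nat.zero_le _) hs
      obtain ⟨c, hc⟩ := Nat.exists_eq_add_of_le h2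
      rw [hc, add_comm, pow_add, mul_smul, hT s hs, smul_zero]
    | zero => rw [smul_zero]
    | add x y _ _ h1 h2 => rw [smul_add, h1, h2, add_zero]
    | smul b x _ h1 => rw [smul_comm, h1, smul_zero]
  obtain ⟨t, ht⟩ := Ideal.exists_pow_le_of_le_radical_of_fg hrad (IsNoetherian.noetherian _)
  refine ⟨t, ?_⟩
  rw [eq_bot_iff, Submodule.smul_le]
  intro b hb x hx
  have h1 := Module.mem_annihilator.1 (ht hb) ⟨x, hx⟩
  rw [Submodule.mem_bot]
  exact congrArg Subtype.val h1

private theorem CechE_prod {A C : Type u} [AddCommGroup A] [Module B A] [AddCommGroup C]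
    [Module B C] (hA : Acyc f A) (hC : Acyc f C) : Acyc f (A × C) := by
  intro k z hz
  have h1 : z = lc f (LinearMap.inl B A C) (k + 1) (lc f (LinearMap.fst B A C) (k + 1) z) +
      lc f (LinearMap.inr B A C) (k + 1) (lc f (LinearMap.snd B A C) (k + 1) z) := by
    rw [← lc_comp, ← lc_comp, ← lc_add]
    have h2 : LinearMap.inl B A C ∘ₗ LinearMap.fst B A C +
        LinearMap.inr B A C ∘ₗ LinearMap.snd B A C = LinearMap.id := by
      ext x <;> simp
    rw [h2, lc_id]
  rw [h1]
  exact Submodule.add_mem _ (lc_mem_Bc f _ (hA k (lc_mem_Zc f _ hz)))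
    (lc_mem_Bc f _ (hC k (lc_mem_Zc f _ hz)))

private theorem CechE_pi (M : Fin r → Type u) [∀ i, AddCommGroup (M i)]
    [∀ i, Module B (M i)] (hM : ∀ i, Acyc f (M i)) : Acyc f (∀ i, M i) := by
  refine acyc_of_sum f M hM (fun i => LinearMap.proj i) (fun i => LinearMap.single B M i) ?_
  apply LinearMap.ext
  intro x
  rw [LinearMap.sum_apply]
  simp only [LinearMap.comp_apply, LinearMap.proj_apply, LinearMap.id_apply,
    LinearMap.coe_single]
  exact Finset.univ_sum_single x

/-- Every finitely generated module over a Noetherian ring embeds in an acyclic one.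
Let `J = Ideal.span (range f)`, `Γ ≤ N` the submodule of elements killed by powers of all `f i`
(equivalently by a power of `J`); `Γ` is finitely generated, so `J ^ t • Γ = 0` for some `t`; by Artin-Rees
(`Ideal.exists_pow_inf_eq_pow_smul`) there is `n` with `J ^ n • N ⊓ Γ = ⊥`.  Take
`N' = (N ⧸ J ^ n • ⊤) × (∀ i, LocalizedModule (Submonoid.powers (f i)) (N ⧸ Γ))`:
the map `N → N'` is injective (an element of the kernel is in `J ^ n • N` and its class in `N ⧸ Γ` is killed by
powers of all `f i`, so it is in `Γ`: if `f i ^ t • x ∈ Γ` for all `i` then `x ∈ Γ`).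
The first factor is acyclic by `subsingleton_of_torsion`, the others by `acyclic_of_unit`; combine with
`acyc_of_sum`. -/
theorem exists_acyc_embedding [IsNoetherianRing B] (N : Type u) [AddCommGroup N] [Module B N]
    [Module.Finite B N] :
    ∃ (N' : Type u) (_ : AddCommGroup N') (_ : Module B N') (g : N →ₗ[B] N'),
      Function.Injective g ∧ Acyc f N' := by
  obtain ⟨t, ht⟩ := CechE_pow_le f N
  obtain ⟨k, hk⟩ := Ideal.exists_pow_inf_eq_pow_smul (Ideal.span (Set.range f)) (CechE_tors f N)
  have hbot : (Ideal.span (Set.range f)) ^ (k + t) • (⊤ : Submodule B N) ⊓ CechE_tors f N = ⊥ := by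
    rw [hk (k + t) (by omega), Nat.add_sub_cancel_left, eq_bot_iff, ← ht]
    exact Submodule.smul_mono le_rfl inf_le_right
  refine ⟨(N ⧸ ((Ideal.span (Set.range f)) ^ (k + t) • (⊤ : Submodule B N))) ×
    (∀ i : Fin r, LocalizedModule (Submonoid.powers (f i)) (N ⧸ CechE_tors f N)),
    inferInstance, inferInstance,
    LinearMap.prod (Submodule.mkQ _) (LinearMap.pi fun i =>
      (LocalizedModule.mkLinearMap (Submonoid.powers (f i)) (N ⧸ CechE_tors f N)) ∘ₗ
        Submodule.mkQ _), ?_, ?_⟩
  · rw [injective_iff_map_eq_zero]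
    intro x hx
    have h1 : (Submodule.mkQ ((Ideal.span (Set.range f)) ^ (k + t) • (⊤ : Submodule B N))) x = 0 :=
      congrArg Prod.fst hx
    have h2 : ∀ i : Fin r, LocalizedModule.mkLinearMap (Submonoid.powers (f i))
        (N ⧸ CechE_tors f N) (Submodule.mkQ _ x) = 0 := fun i =>
      congrFun (congrArg Prod.snd hx) i
    have h3 : x ∈ (Ideal.span (Set.range f)) ^ (k + t) • (⊤ : Submodule B N) := by
      rw [Submodule.mkQ_apply, Submodule.Quotient.mk_eq_zero] at h1
      exact h1
    have h4 : x ∈ CechE_tors f N := by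
      intro i
      obtain ⟨⟨c, hc⟩, hcx⟩ := (IsLocalizedModule.eq_zero_iff (Submonoid.powers (f i))
        (LocalizedModule.mkLinearMap (Submonoid.powers (f i)) (N ⧸ CechE_tors f N))).1 (h2 i)
      obtain ⟨a, rfl⟩ := hc
      have h5 : f i ^ a • x ∈ CechE_tors f N := by
        rw [← Submodule.Quotient.mk_eq_zero]
        exact hcx
      obtain ⟨b, hb⟩ := h5 i
      exact ⟨b + a, by rw [pow_add, mul_smul, hb]⟩
    have h6 : x ∈ (Ideal.span (Set.range f)) ^ (k + t) • (⊤ : Submodule B N) ⊓ CechE_tors f N :=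
      ⟨h3, h4⟩
    rw [hbot, Submodule.mem_bot] at h6
    exact h6
  · refine CechE_prod f ?_ (CechE_pi f _ fun i => ?_)
    · intro l
      have hsub := subsingleton_of_torsion f
        (N ⧸ ((Ideal.span (Set.range f)) ^ (k + t) • (⊤ : Submodule B N))) (fun n i => by
          obtain ⟨x, rfl⟩ := Submodule.Quotient.mk_surjective _ n
          refine ⟨k + t, ?_⟩
          rw [← Submodule.Quotient.mk_smul, Submodule.Quotient.mk_eq_zero]
          exact Submodule.smul_mem_smul (Ideal.pow_mem_pow
            (Ideal.subset_span (Set.mem_range_self i)) _) Submodule.mem_top) l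
      intro z _
      have h1 : z = 0 := Subsingleton.elim _ _
      rw [h1]
      exact Submodule.zero_mem _
    · intro l
      refine acyclic_of_unit f _ i ?_ (l + 1)
      have h1 := IsLocalizedModule.map_units (S := Submonoid.powers (f i))
        (LocalizedModule.mkLinearMap (Submonoid.powers (f i)) (N ⧸ CechE_tors f N))
        ⟨f i, Submonoid.mem_powers _⟩
      rw [Module.End.isUnit_iff] at h1
      exact h1

/-- Injective modules over a Noetherian ring are acyclic: a cocycle `z` of degree `k + 1` comes from a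
finitely generated submodule `E₀` (`exists_fg_submodule`); embed `g : E₀ → N'` in an acyclic module;
the inclusion `E₀ → E` extends to `h : N' → E` (`Module.Injective.out`), so
`z = lc h (lc g z₀)` with `lc g z₀` a coboundary. -/
theorem acyc_of_injective [IsNoetherianRing B] (E : Type u) [AddCommGroup E] [Module B E]
    (hE : Module.Injective B E) : Acyc f E := by
  intro k z hz
  obtain ⟨E₀, hfg, z₀, hz₀, rfl⟩ := exists_fg_submodule f (k + 1) hz
  have : Module.Finite B E₀ := Module.Finite.iff_fg.2 hfg
  obtain ⟨N', _, _, g, hg, hacyc⟩ := exists_acyc_embedding f E₀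
  obtain ⟨h, hh⟩ := hE.out g hg E₀.subtype
  have h1 : E₀.subtype = h ∘ₗ g := by
    apply LinearMap.ext
    intro x
    exact (hh x).symm
  rw [h1, lc_comp]
  exact lc_mem_Bc f h (hacyc k (lc_mem_Zc f g hz₀))

end

end Pool.Agent.Lib.MP_f251fc_ag
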