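import Pool.Agent.Lib.MP_f251fc_ag.CechW

/-! # Long exact sequences, elementwise; regular sequences -/

set_option autoImplicit false

namespace Pool.Agent.Lib.MP_f251fc_ag

noncomputable section

universe u

variable {B : Type u} [CommRing B] {r : ℕ} (f : Fin r → B)
  {N N' N'' : Type u} [AddCommGroup N] [Module B N] [AddCommGroup N'] [Module B N']
  [AddCommGroup N''] [Module B N'']

/-- exactness at `H^k(N')` -/
theorem les_mid {g : N →ₗ[B] N'} {g' : N' →ₗ[B] N''} (hg : Function.Injective g)
    (hex : Function.Exact g g') (hg' : Function.Surjective g') (k : ℕ) {z : Cc f N' k}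
    (hz : z ∈ Zc f N' k) (hz' : lc f g' k z ∈ Bc f N'' k) :
    ∃ w ∈ Zc f N k, z - lc f g k w ∈ Bc f N' k := by
  cases k with
  | zero =>
    rw [mem_Bc_zero] at hz'
    obtain ⟨w, hw⟩ := (lc_exact f hex 0 z).1 hz'
    refine ⟨w, ?_, ?_⟩
    · rw [mem_Zc]
      apply lc_injective f hg 1
      rw [← lc_dC, hw, map_zero]
      exact hz
    · rw [hw, sub_self]
      exact Submodule.zero_mem _
  | succ k =>
    obtain ⟨y'', hy''⟩ := hz'
    obtain ⟨y, rfl⟩ := lc_surjective f hg' k y''
    have h0 : lc f g' (k + 1) (z - dC f N' k y) = 0 := by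
      rw [map_sub, ← lc_dC, hy'', sub_self]
    obtain ⟨w, hw⟩ := (lc_exact f hex (k + 1) _).1 h0
    refine ⟨w, ?_, ?_⟩
    · rw [mem_Zc]
      apply lc_injective f hg (k + 1 + 1)
      rw [← lc_dC, hw, map_sub, dC_dC, map_zero, sub_zero]
      exact hz
    · rw [hw, sub_sub_cancel]
      exact ⟨y, rfl⟩

/-- the connecting homomorphism -/
theorem les_delta {g : N →ₗ[B] N'} {g' : N' →ₗ[B] N''} (hg : Function.Injective g)
    (hex : Function.Exact g g') (hg' : Function.Surjective g') (k : ℕ) {z : Cc f N'' k}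
    (hz : z ∈ Zc f N'' k) :
    ∃ y : Cc f N' k, lc f g' k y = z ∧ ∃ w ∈ Zc f N (k + 1), lc f g (k + 1) w = dC f N' k y := by
  obtain ⟨y, rfl⟩ := lc_surjective f hg' k z
  have h0 : lc f g' (k + 1) (dC f N' k y) = 0 := by
    rw [← lc_dC]
    exact hz
  obtain ⟨w, hw⟩ := (lc_exact f hex (k + 1) _).1 h0
  refine ⟨y, rfl, w, ?_, hw⟩
  rw [mem_Zc]
  apply lc_injective f hg (k + 1 + 1)
  rw [← lc_dC, hw, dC_dC, map_zero]

/-- exactness at `H^k(N'')` -/
theorem les_right {g : N →ₗ[B] N'} {g' : N' →ₗ[B] N''} (hex : Function.Exact g g') (k : ℕ)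
    {y : Cc f N' k} {w : Cc f N (k + 1)} (hw : w ∈ Bc f N (k + 1))
    (h : lc f g (k + 1) w = dC f N' k y) :
    ∃ z ∈ Zc f N' k, lc f g' k z = lc f g' k y := by
  obtain ⟨u, rfl⟩ := hw
  refine ⟨y - lc f g k u, ?_, ?_⟩
  · rw [mem_Zc, map_sub, lc_dC, h, sub_self]
  · rw [map_sub, (lc_exact f hex k).apply_apply_eq_zero, sub_zero]

/-- exactness at `H^(k+1)(N)` -/
theorem les_left {g : N →ₗ[B] N'} {g' : N' →ₗ[B] N''} (hex : Function.Exact g g') (k : ℕ)
    {w : Cc f N (k + 1)} (h : lc f g (k + 1) w ∈ Bc f N' (k + 1)) :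
    ∃ y : Cc f N' k, dC f N' k y = lc f g (k + 1) w ∧ lc f g' k y ∈ Zc f N'' k := by
  obtain ⟨y, hy⟩ := h
  refine ⟨y, hy, ?_⟩
  rw [mem_Zc, lc_dC, hy, (lc_exact f hex (k + 1)).apply_apply_eq_zero]

/-- cohomology vanishes in degrees below the length of a regular sequence in the ideal.
Induction on the sequence `x :: rs`: for `k < length`, `x` acts injectively on the cohomology of degree `k`
(if `x • z` is a coboundary `dC y`, then `y` reduces to a cocycle of degree `k - 1` of `N / x N`, a
coboundary by induction) and nilpotently (`pow_smul_mem_Bc`). -/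
theorem Zc_le_Bc_of_isWeaklyRegular (N : Type u) [AddCommGroup N] [Module B N] (rs : List B)
    (hreg : RingTheory.Sequence.IsWeaklyRegular N rs)
    (hmem : ∀ x ∈ rs, x ∈ Ideal.span (Set.range f)) :
    ∀ k < rs.length, Zc f N k ≤ Bc f N k := by
  induction rs generalizing N with
  | nil =>
    intro k hk
    exact absurd hk (Nat.not_lt_zero k)
  | cons x rs ih =>
    intro k hk z hz
    obtain ⟨hx, hrs⟩ := (RingTheory.Sequence.isWeaklyRegular_cons_iff N x rs).1 hreg
    have ih' := ih (QuotSMulTop x N) hrs fun y hy => hmem y (List.mem_cons_of_mem x hy)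
    set g : N →ₗ[B] N := x • LinearMap.id with hgdef
    set g' : N →ₗ[B] QuotSMulTop x N := Submodule.mkQ _ with hg'def
    have hg : Function.Injective g := by
      intro a b hab
      exact hx hab
    have hg' : Function.Surjective g' := Submodule.mkQ_surjective _
    have hex : Function.Exact g g' := by
      intro n
      rw [hg'def, Submodule.mkQ_apply, Submodule.Quotient.mk_eq_zero,
        Submodule.mem_smul_pointwise_iff_exists]
      constructor
      · rintro ⟨m, -, hm⟩
        exact ⟨m, hm⟩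
      · rintro ⟨m, hm⟩
        exact ⟨m, Submodule.mem_top, hm⟩
    have hlg : ∀ (j : ℕ) (v : Cc f N j), lc f g j v = x • v := by
      intro j v
      rw [hgdef, lc_smul, lc_id]
    have step : ∀ v ∈ Zc f N k, x • v ∈ Bc f N k → v ∈ Bc f N k := by
      intro v hv hxv
      rw [← hlg] at hxv
      cases k with
      | zero =>
        rw [mem_Bc_zero] at hxv ⊢
        apply lc_injective f hg 0
        rw [hxv, map_zero]
      | succ k =>
        obtain ⟨y, hy1, hy2⟩ := les_left f hex k hxv
        have hk' : k < rs.length := by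
          simpa using hk
        have hy3 := ih' k hk' hy2
        have hy4 : ∃ y', dC f N k y' = dC f N k y ∧ lc f g' k y' = 0 := by
          cases k with
          | zero => exact ⟨y, rfl, hy3⟩
          | succ k =>
            obtain ⟨u'', hu''⟩ := hy3
            obtain ⟨u, rfl⟩ := lc_surjective f hg' k u''
            refine ⟨y - dC f N k u, ?_, ?_⟩
            · rw [map_sub, dC_dC, sub_zero]
            · rw [map_sub, ← lc_dC, hu'', sub_self]
        obtain ⟨y', hy5, hy6⟩ := hy4
        obtain ⟨a, ha⟩ := (lc_exact f hex k y').1 hy6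
        refine ⟨a, ?_⟩
        apply lc_injective f hg (k + 1)
        rw [← lc_dC, ha, hy5, hy1]
    obtain ⟨t, ht⟩ := pow_smul_mem_Bc f k hz (hmem x List.mem_cons_self)
    induction t with
    | zero => simpa using ht
    | succ t iht =>
      apply iht
      apply step _ ((Zc f N k).smul_mem _ hz)
      rw [smul_smul, ← pow_succ']
      exact ht

end

end Pool.Agent.Lib.MP_f251fc_ag
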