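import Pool.Agent.Lib.MP_f251fc_ag.Cech

/-! # Functoriality and exactness of the Čech complex -/

set_option autoImplicit false

namespace Pool.Agent.Lib.MP_f251fc_ag

noncomputable section

universe u

section comp

variable {B₁ B₂ B₃ : Type u} [CommRing B₁] [CommRing B₂] [CommRing B₃]
  {φ₁ : B₁ →+* B₂} {φ₂ : B₂ →+* B₃} {φ₃ : B₁ →+* B₃} {r : ℕ}
  {f₁ : Fin r → B₁} {f₂ : Fin r → B₂} {f₃ : Fin r → B₃}
  {N₁ N₂ N₃ : Type u} [AddCommGroup N₁] [Module B₁ N₁] [AddCommGroup N₂] [Module B₂ N₂]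
  [AddCommGroup N₃] [Module B₃ N₃]

/-- composition (elementwise; `LocalizedModule.induction_on` in each component) -/
theorem cmap_comp (h₁ : ∀ i, φ₁ (f₁ i) ∈ Submonoid.powers (f₂ i))
    (h₂ : ∀ i, φ₂ (f₂ i) ∈ Submonoid.powers (f₃ i)) (h₃ : ∀ i, φ₃ (f₁ i) ∈ Submonoid.powers (f₃ i))
    (θ₁ : N₁ →ₛₗ[φ₁] N₂) (θ₂ : N₂ →ₛₗ[φ₂] N₃) (θ₃ : N₁ →ₛₗ[φ₃] N₃)
    (hφ : ∀ b, φ₃ b = φ₂ (φ₁ b)) (hθ : ∀ n, θ₃ n = θ₂ (θ₁ n)) (k : ℕ) (z : Cc f₁ N₁ k) :
    cmap h₃ θ₃ k z = cmap h₂ θ₂ k (cmap h₁ θ₁ k z) := by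
  funext s
  rw [cmap_apply, cmap_apply, cmap_apply]
  generalize z s = x
  induction x using LocalizedModule.induction_on with
  | h n m =>
    rw [lmap_mk, lmap_mk, lmap_mk, hθ]
    congr 1
    exact Subtype.ext (hφ _)

theorem hmap_comp (h₁ : ∀ i, φ₁ (f₁ i) ∈ Submonoid.powers (f₂ i))
    (h₂ : ∀ i, φ₂ (f₂ i) ∈ Submonoid.powers (f₃ i)) (h₃ : ∀ i, φ₃ (f₁ i) ∈ Submonoid.powers (f₃ i))
    (θ₁ : N₁ →ₛₗ[φ₁] N₂) (θ₂ : N₂ →ₛₗ[φ₂] N₃) (θ₃ : N₁ →ₛₗ[φ₃] N₃)
    (hφ : ∀ b, φ₃ b = φ₂ (φ₁ b)) (hθ : ∀ n, θ₃ n = θ₂ (θ₁ n)) (k : ℕ) (z : Hc f₁ N₁ k) :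
    hmap h₃ θ₃ k z = hmap h₂ θ₂ k (hmap h₁ θ₁ k z) := by
  obtain ⟨y, rfl⟩ := Submodule.mkQ_surjective _ z
  have key : ((cmap h₃ θ₃ k).restrict fun _ hz => cmap_mem_Zc h₃ θ₃ hz : Zc f₁ N₁ k →ₛₗ[φ₃] Zc f₃ N₃ k) y =
      ((cmap h₂ θ₂ k).restrict fun _ hz => cmap_mem_Zc h₂ θ₂ hz : Zc f₂ N₂ k →ₛₗ[φ₂] Zc f₃ N₃ k)
        (((cmap h₁ θ₁ k).restrict fun _ hz => cmap_mem_Zc h₁ θ₁ hz : Zc f₁ N₁ k →ₛₗ[φ₁] Zc f₂ N₂ k) y) :=
    Subtype.ext (cmap_comp h₁ h₂ h₃ θ₁ θ₂ θ₃ hφ hθ k y.1)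
  have h1 : hmap h₃ θ₃ k (Submodule.mkQ _ y) = Submodule.mkQ _
      (((cmap h₃ θ₃ k).restrict fun _ hz => cmap_mem_Zc h₃ θ₃ hz : Zc f₁ N₁ k →ₛₗ[φ₃] Zc f₃ N₃ k) y) := rfl
  rw [h1, key]
  rfl

/-- `cmap` is linear in the semilinear map -/
theorem cmap_smul_left (h : ∀ i, φ₁ (f₁ i) ∈ Submonoid.powers (f₂ i)) (a : B₂) (θ : N₁ →ₛₗ[φ₁] N₂)
    (k : ℕ) (z : Cc f₁ N₁ k) : cmap h (a • θ) k z = a • cmap h θ k z := by
  funext s
  rw [Pi.smul_apply, cmap_apply, cmap_apply]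
  generalize z s = x
  induction x using LocalizedModule.induction_on with
  | h n m =>
    rw [lmap_mk, lmap_mk, LocalizedModule.smul'_mk]
    rfl

end comp

variable {B : Type u} [CommRing B] {r : ℕ} (f : Fin r → B)
  {N N' N'' : Type u} [AddCommGroup N] [Module B N] [AddCommGroup N'] [Module B N']
  [AddCommGroup N''] [Module B N'']

private theorem CechM_mk (g : N →ₗ[B] N') {k : ℕ} (s : Fin k → Fin r) (n : N) (m : Ms f s) :
    lmap (Ms_map (φ := RingHom.id B) (id_mem_powers f) s) g (LocalizedModule.mk n m) =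
      LocalizedModule.mk (g n) m := by
  rw [lmap_mk]
  rfl

private theorem CechM_apply (g : N →ₗ[B] N') (k : ℕ) (z : Cc f N k) (s : Fin k → Fin r) :
    lc f g k z s = lmap (Ms_map (φ := RingHom.id B) (id_mem_powers f) s) g (z s) := rfl

theorem lc_id (k : ℕ) (z : Cc f N k) : lc f (LinearMap.id : N →ₗ[B] N) k z = z := by
  funext s
  rw [CechM_apply]
  generalize z s = x
  induction x using LocalizedModule.induction_on with
  | h n m =>
    rw [CechM_mk]
    rfl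

theorem lc_comp (g : N →ₗ[B] N') (g' : N' →ₗ[B] N'') (k : ℕ) (z : Cc f N k) :
    lc f (g' ∘ₗ g) k z = lc f g' k (lc f g k z) := by
  funext s
  rw [CechM_apply, CechM_apply, CechM_apply]
  generalize z s = x
  induction x using LocalizedModule.induction_on with
  | h n m =>
    rw [CechM_mk, CechM_mk, CechM_mk]
    rfl

theorem lc_add (g g' : N →ₗ[B] N') (k : ℕ) (z : Cc f N k) :
    lc f (g + g') k z = lc f g k z + lc f g' k z := by
  funext s
  rw [Pi.add_apply, CechM_apply, CechM_apply, CechM_apply]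
  generalize z s = x
  induction x using LocalizedModule.induction_on with
  | h n m =>
    rw [CechM_mk, CechM_mk, CechM_mk, LinearMap.add_apply, LocalizedModule.mk_add_mk, ← smul_add]
    exact (LocalizedModule.mk_cancel_common_left m m (g n + g' n)).symm

theorem lc_smul (b : B) (g : N →ₗ[B] N') (k : ℕ) (z : Cc f N k) :
    lc f (b • g) k z = b • lc f g k z := by
  funext s
  rw [Pi.smul_apply, CechM_apply, CechM_apply]
  generalize z s = x
  induction x using LocalizedModule.induction_on with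
  | h n m =>
    rw [CechM_mk, CechM_mk, LinearMap.smul_apply, LocalizedModule.smul'_mk]

theorem lc_zero (k : ℕ) (z : Cc f N k) : lc f (0 : N →ₗ[B] N') k z = 0 := by
  funext s
  rw [Pi.zero_apply, CechM_apply]
  generalize z s = x
  induction x using LocalizedModule.induction_on with
  | h n m =>
    rw [CechM_mk, LinearMap.zero_apply, LocalizedModule.zero_mk]

theorem lc_sum {ι : Type*} (t : Finset ι) (g : ι → N →ₗ[B] N') (k : ℕ) (z : Cc f N k) :
    lc f (∑ i ∈ t, g i) k z = ∑ i ∈ t, lc f (g i) k z := by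
  classical
  induction t using Finset.induction_on with
  | empty => rw [Finset.sum_empty, Finset.sum_empty, lc_zero]
  | insert a t ha ih => rw [Finset.sum_insert ha, Finset.sum_insert ha, lc_add, ih]

theorem lc_dC (g : N →ₗ[B] N') (k : ℕ) (z : Cc f N k) :
    dC f N' k (lc f g k z) = lc f g (k + 1) (dC f N k z) :=
  cmap_dC (φ := RingHom.id B) (id_mem_powers f) g k z

theorem lc_aug (g : N →ₗ[B] N') (n : N) : lc f g 0 (aug f N n) = aug f N' (g n) :=
  cmap_aug (φ := RingHom.id B) (id_mem_powers f) g n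

theorem lc_mem_Zc (g : N →ₗ[B] N') {k : ℕ} {z : Cc f N k} (hz : z ∈ Zc f N k) :
    lc f g k z ∈ Zc f N' k :=
  cmap_mem_Zc (φ := RingHom.id B) (id_mem_powers f) g hz

theorem lc_mem_Bc (g : N →ₗ[B] N') {k : ℕ} {z : Cc f N k} (hz : z ∈ Bc f N k) :
    lc f g k z ∈ Bc f N' k :=
  cmap_mem_Bc (φ := RingHom.id B) (id_mem_powers f) g hz

private theorem CechM_mk_eq_zero {M : Submonoid B} {n : N} {m : M} (h : LocalizedModule.mk n m = 0) :
    ∃ c : M, c.1 • n = 0 := by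
  rw [← LocalizedModule.zero_mk (1 : M), LocalizedModule.mk_eq] at h
  obtain ⟨u, hu⟩ := h
  refine ⟨u, ?_⟩
  rw [smul_zero, smul_zero, one_smul] at hu
  exact hu

theorem lc_injective {g : N →ₗ[B] N'} (hg : Function.Injective g) (k : ℕ) :
    Function.Injective (lc f g k) := by
  rw [injective_iff_map_eq_zero]
  intro z hz
  funext s
  have h1 := congrFun hz s
  rw [CechM_apply, Pi.zero_apply] at h1
  rw [Pi.zero_apply]
  generalize z s = x at h1 ⊢
  induction x using LocalizedModule.induction_on with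
  | h n m =>
    rw [CechM_mk] at h1
    obtain ⟨c, hc⟩ := CechM_mk_eq_zero h1
    rw [← map_smul] at hc
    have h2 : c.1 • n = 0 := hg (by rw [hc, map_zero])
    rw [← LocalizedModule.mk_cancel_common_left c m n]
    have h3 : c • n = 0 := h2
    rw [h3, LocalizedModule.zero_mk]

theorem lc_surjective {g : N →ₗ[B] N'} (hg : Function.Surjective g) (k : ℕ) :
    Function.Surjective (lc f g k) := by
  intro z
  have h1 : ∀ s : Fin k → Fin r, ∃ x : LocalizedModule (Ms f s) N,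
      lmap (Ms_map (φ := RingHom.id B) (id_mem_powers f) s) g x = z s := by
    intro s
    generalize z s = x
    induction x using LocalizedModule.induction_on with
    | h n m =>
      obtain ⟨n', rfl⟩ := hg n
      exact ⟨LocalizedModule.mk n' m, CechM_mk f g s n' m⟩
  choose y hy using h1
  exact ⟨y, funext hy⟩

theorem lc_exact {g : N →ₗ[B] N'} {g' : N' →ₗ[B] N''} (h : Function.Exact g g') (k : ℕ) :
    Function.Exact (lc f g k) (lc f g' k) := by
  intro z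
  constructor
  · intro hz
    have h1 : ∀ s : Fin k → Fin r, ∃ x : LocalizedModule (Ms f s) N,
        lmap (Ms_map (φ := RingHom.id B) (id_mem_powers f) s) g x = z s := by
      intro s
      have h2 := congrFun hz s
      rw [CechM_apply, Pi.zero_apply] at h2
      generalize z s = x at h2 ⊢
      induction x using LocalizedModule.induction_on with
      | h n m =>
        rw [CechM_mk] at h2
        obtain ⟨c, hc⟩ := CechM_mk_eq_zero h2
        rw [← map_smul] at hc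
        obtain ⟨n', hn'⟩ := (h _).1 hc
        refine ⟨LocalizedModule.mk n' (c * m), ?_⟩
        rw [CechM_mk, hn']
        exact LocalizedModule.mk_cancel_common_left c m n
    choose y hy using h1
    exact ⟨y, funext hy⟩
  · rintro ⟨y, rfl⟩
    rw [← lc_comp]
    have h1 : g' ∘ₗ g = 0 := by
      ext n
      exact (h _).2 ⟨n, rfl⟩
    rw [h1, lc_zero]

end

end Pool.Agent.Lib.MP_f251fc_ag
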