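import Pool.Agent.Lib.MP_f251fc_ag.CechD
import Pool.Agent.Lib.MP_f251fc_ag.CechM

/-! # Vanishing results -/

set_option autoImplicit false

namespace Pool.Agent.Lib.MP_f251fc_ag

noncomputable section

universe u

variable {B : Type u} [CommRing B] {r : ℕ} (f : Fin r → B)
  (N : Type u) [AddCommGroup N] [Module B N]

private theorem cechV_res_congr {k : ℕ} (z : Cc f N k) {s₁ s₂ : Fin k → Fin r} (e : s₁ = s₂)
    {M : Submonoid B} (h₁ : Ms f s₁ ≤ M) (h₂ : Ms f s₂ ≤ M) :
    res N h₁ (z s₁) = res N h₂ (z s₂) := by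
  subst e
  rfl

private theorem cechV_mk_zero {M : Submonoid B} (n : N) (m : M) :
    LocalizedModule.mk n m = 0 ↔ ∃ u : M, u • n = 0 := by
  rw [← LocalizedModule.zero_mk (1 : M), LocalizedModule.mk_eq]
  simp only [one_smul, smul_zero]

private theorem cechV_smul_bij {b : B} (h : Function.Bijective fun n : N => b • n) (t : ℕ) :
    Function.Bijective fun n : N => b ^ t • n := by
  induction t with
  | zero =>
    simp only [pow_zero, one_smul]
    exact Function.bijective_id
  | succ t ih =>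
    have : (fun n : N => b ^ (t + 1) • n) = (fun n : N => b ^ t • n) ∘ fun n : N => b • n := by
      funext n
      simp only [Function.comp, pow_succ, mul_smul]
    rw [this]
    exact ih.comp h

private theorem cechV_mem {i₀ : Fin r} {k : ℕ} (s : Fin k → Fin r) {x : B}
    (hx : x ∈ Ms f (Fin.cons i₀ s : Fin (k + 1) → Fin r)) :
    ∃ (t : ℕ) (m : B), m ∈ Ms f s ∧ x = f i₀ ^ t * m := by
  induction hx using Submonoid.closure_induction with
  | mem x hx =>
    obtain ⟨j, rfl⟩ := hx
    refine Fin.cases ?_ (fun j => ?_) j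
    · exact ⟨1, 1, Submonoid.one_mem _, by simp⟩
    · exact ⟨0, f (s j), mem_Ms f s j, by simp⟩
  | one => exact ⟨0, 1, Submonoid.one_mem _, by simp⟩
  | mul x y _ _ hx hy =>
    obtain ⟨t, m, hm, rfl⟩ := hx
    obtain ⟨t', m', hm', rfl⟩ := hy
    exact ⟨t + t', m * m', Submonoid.mul_mem _ hm hm', by ring⟩

private theorem cechV_le (i₀ : Fin r) {k : ℕ} (s : Fin k → Fin r) :
    Ms f s ≤ Ms f (Fin.cons i₀ s : Fin (k + 1) → Fin r) := by
  apply Submonoid.closure_mono
  rintro _ ⟨j, rfl⟩
  exact ⟨j.succ, by simp⟩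

private theorem cechV_res_bij {i₀ : Fin r} (h : Function.Bijective fun n : N => f i₀ • n) {k : ℕ}
    (s : Fin k → Fin r) (hle : Ms f s ≤ Ms f (Fin.cons i₀ s : Fin (k + 1) → Fin r)) :
    Function.Bijective (res N hle) := by
  constructor
  · rw [injective_iff_map_eq_zero]
    intro x hx
    induction x using LocalizedModule.induction_on with
    | h n m =>
      rw [res_mk, cechV_mk_zero] at hx
      obtain ⟨u, hu⟩ := hx
      obtain ⟨t, m', hm', hu'⟩ := cechV_mem f s u.2
      rw [cechV_mk_zero]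
      refine ⟨⟨m', hm'⟩, ?_⟩
      rw [Submonoid.smul_def, hu', mul_smul] at hu
      exact (cechV_smul_bij N h t).1 (by simpa [Submonoid.smul_def] using hu)
  · intro y
    induction y using LocalizedModule.induction_on with
    | h n u =>
      obtain ⟨t, m', hm', hu'⟩ := cechV_mem f s u.2
      obtain ⟨n', hn'⟩ := (cechV_smul_bij N h t).2 n
      refine ⟨LocalizedModule.mk n' ⟨m', hm'⟩, ?_⟩
      rw [res_mk, LocalizedModule.mk_eq]
      refine ⟨1, ?_⟩
      simp only [one_smul, Submonoid.smul_def]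
      rw [hu', ← hn']
      simp only [mul_smul]
      rw [smul_comm]

/-- If `f i₀` acts bijectively on `N`, the whole complex is exact.  Contraction:
`(h z) s = ρ⁻¹ (z (Fin.cons i₀ s))` where `ρ = res : N_s → N_(cons i₀ s)` is bijective because `f i₀` acts
bijectively on `N` and hence on `N_s`; `h d z + d h z = z` in positive degrees, and `h d z = z` in degree
`0` (`Fin.cons i₀ s ∘ Fin.succAbove 0 = s`, `Fin.cons i₀ s ∘ (j.succ).succAbove = Fin.cons i₀ (s ∘
j.succAbove)`). -/
theorem acyclic_of_unit (i₀ : Fin r) (h : Function.Bijective fun n : N => f i₀ • n) (k : ℕ) :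
    Zc f N k ≤ Bc f N k := by
  have e0 : ∀ {k : ℕ} (s : Fin k → Fin r),
      (Fin.cons i₀ s : Fin (k + 1) → Fin r) ∘ (0 : Fin (k + 1)).succAbove = s := by
    intro k s
    funext j
    simp
  intro z hz
  rw [mem_Zc] at hz
  cases k with
  | zero =>
    rw [mem_Bc_zero]
    funext s
    have h1 := congrFun hz (Fin.cons i₀ s)
    rw [dC_apply, Fin.sum_univ_succ] at h1
    simp only [Finset.univ_eq_empty, Finset.sum_empty, add_zero, Fin.val_zero, pow_zero,
      one_smul, Pi.zero_apply] at h1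
    rw [cechV_res_congr f N z (e0 s) _ (cechV_le f i₀ s)] at h1
    exact (cechV_res_bij f N h s (cechV_le f i₀ s)).1 (by rw [h1, Pi.zero_apply, map_zero])
  | succ k =>
    rw [mem_Bc_succ]
    let e : ∀ t : Fin k → Fin r, LocalizedModule (Ms f t) N ≃
        LocalizedModule (Ms f (Fin.cons i₀ t : Fin (k + 1) → Fin r)) N := fun t =>
      Equiv.ofBijective _ (cechV_res_bij f N h t (cechV_le f i₀ t))
    have he : ∀ (t : Fin k → Fin r) (x), res N (cechV_le f i₀ t) ((e t).symm x) = x :=
      fun t x => (e t).apply_symm_apply x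
    refine ⟨fun t => (e t).symm (z (Fin.cons i₀ t)), ?_⟩
    funext s
    apply (cechV_res_bij f N h s (cechV_le f i₀ s)).1
    have h1 := congrFun hz (Fin.cons i₀ s)
    rw [dC_apply, Fin.sum_univ_succ] at h1
    rw [cechV_res_congr f N z (e0 s) _ (cechV_le f i₀ s)] at h1
    simp only [Fin.val_zero, pow_zero, one_smul, Pi.zero_apply, Fin.val_succ] at h1
    rw [eq_comm, ← sub_eq_zero, ← h1, sub_eq_add_neg, dC_apply, map_sum, ← Finset.sum_neg_distrib]
    congr 1
    refine Finset.sum_congr rfl fun j _ => ?_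
    have e1 : (Fin.cons i₀ (s ∘ j.succAbove) : Fin (k + 1) → Fin r) =
        (Fin.cons i₀ s : Fin (k + 2) → Fin r) ∘ j.succ.succAbove := by
      funext l
      refine Fin.cases ?_ (fun l => ?_) l
      · simp
      · simp
    rw [map_smul, res_res, pow_succ, mul_neg_one, neg_smul, neg_inj]
    congr 1
    have hle : Ms f (Fin.cons i₀ (s ∘ j.succAbove) : Fin (k + 1) → Fin r) ≤
        Ms f (Fin.cons i₀ s : Fin (k + 2) → Fin r) := by
      rw [e1]
      exact Ms_comp_le f _ _
    rw [← cechV_res_congr f N z e1 hle _]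
    conv_rhs => rw [← he (s ∘ j.succAbove) (z (Fin.cons i₀ (s ∘ j.succAbove)))]
    rw [res_res]

/-- If all elements of `N` are killed by powers of all `f i`, the cochains of positive degree vanish. -/
theorem subsingleton_of_torsion (h : ∀ (n : N) (i : Fin r), ∃ t : ℕ, f i ^ t • n = 0) (k : ℕ) :
    Subsingleton (Cc f N (k + 1)) := by
  have hs : ∀ (s : Fin (k + 1) → Fin r) (x : LocalizedModule (Ms f s) N), x = 0 := by
    intro s x
    induction x using LocalizedModule.induction_on with
    | h n m =>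
      obtain ⟨t, ht⟩ := h n (s 0)
      rw [cechV_mk_zero]
      exact ⟨⟨f (s 0) ^ t, Submonoid.pow_mem _ (mem_Ms f s 0) t⟩, ht⟩
  refine ⟨fun x y => ?_⟩
  funext s
  rw [hs s (x s), hs s (y s)]

/-- `N` is acyclic in positive degrees -/
def Acyc : Prop := ∀ k : ℕ, Zc f N (k + 1) ≤ Bc f N (k + 1)

variable {N}

/-- if the identity of `N` is a finite sum of maps factoring through acyclic modules, `N` is acyclic:
`z = ∑ lc (b i) (lc (a i) z)` -/
theorem acyc_of_sum {ι : Type} [Fintype ι] (M : ι → Type u) [∀ i, AddCommGroup (M i)]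
    [∀ i, Module B (M i)] (hM : ∀ i, Acyc f (M i)) (a : ∀ i, N →ₗ[B] M i) (b : ∀ i, M i →ₗ[B] N)
    (h : ∑ i, b i ∘ₗ a i = LinearMap.id) : Acyc f N := by
  intro k z hz
  have h1 : z = ∑ i, lc f (b i) (k + 1) (lc f (a i) (k + 1) z) := by
    conv_lhs => rw [← lc_id f (k + 1) z, ← h, lc_sum]
    exact Finset.sum_congr rfl fun i _ => lc_comp f _ _ _ _
  rw [h1]
  exact Submodule.sum_mem _ fun i _ => lc_mem_Bc f (b i) (hM i k (lc_mem_Zc f (a i) hz))

/-- a cocycle has finitely many components, each of the form `n / m`; take the submodule generated by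
the finitely many `n`; the cocycle condition holds in it by `lc_injective`. -/
theorem exists_fg_submodule (k : ℕ) {z : Cc f N k} (hz : z ∈ Zc f N k) :
    ∃ N₀ : Submodule B N, N₀.FG ∧ ∃ z₀ ∈ Zc f N₀ k, lc f N₀.subtype k z₀ = z := by
  have h1 : ∀ s : Fin k → Fin r, ∃ (n : N) (m : Ms f s), z s = LocalizedModule.mk n m := by
    intro s
    generalize z s = x
    induction x using LocalizedModule.induction_on with
    | h n m => exact ⟨n, m, rfl⟩
  choose n m hnm using h1
  let N₀ : Submodule B N := Submodule.span B (Set.range n)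
  have hn : ∀ s, n s ∈ N₀ := fun s => Submodule.subset_span ⟨s, rfl⟩
  let z₀ : Cc f N₀ k := fun s => LocalizedModule.mk ⟨n s, hn s⟩ (m s)
  have hz₀ : lc f N₀.subtype k z₀ = z := by
    funext s
    rw [lc_mk f N₀.subtype k z₀ s ⟨n s, hn s⟩ (m s) rfl, hnm s]
    rfl
  refine ⟨N₀, Submodule.fg_span (Set.finite_range n), z₀, ?_, hz₀⟩
  rw [mem_Zc]
  apply lc_injective f N₀.injective_subtype (k + 1)
  rw [← lc_dC, hz₀, (mem_Zc f N z).1 hz, map_zero]

end

end Pool.Agent.Lib.MP_f251fc_ag
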