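import Pool.Agent.Lib.MP_f251fc_ag.CechV

/-! # The ideal acts nilpotently on Čech cohomology -/

set_option autoImplicit false

namespace Pool.Agent.Lib.MP_f251fc_ag

noncomputable section

universe u

variable {B : Type u} [CommRing B] {r : ℕ} (f : Fin r → B)
  {N : Type u} [AddCommGroup N] [Module B N]

/-- the localisation map at `f i` -/
private abbrev locf (N : Type u) [AddCommGroup N] [Module B N] (i : Fin r) :
    N →ₗ[B] LocalizedModule (Submonoid.powers (f i)) N :=
  LocalizedModule.mkLinearMap (Submonoid.powers (f i)) N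

private theorem mk_eq_zero_iff {M : Submonoid B} {N' : Type u} [AddCommGroup N'] [Module B N']
    (n : N') (m : M) : LocalizedModule.mk n m = 0 ↔ ∃ u ∈ M, u • n = 0 := by
  rw [← LocalizedModule.zero_mk (1 : M), LocalizedModule.mk_eq]
  constructor
  · rintro ⟨u, hu⟩
    refine ⟨u.1, u.2, ?_⟩
    simpa only [one_smul, smul_zero, Submonoid.smul_def] using hu
  · rintro ⟨u, hu, hun⟩
    refine ⟨⟨u, hu⟩, ?_⟩
    simpa only [one_smul, smul_zero, Submonoid.smul_def] using hun

/-- clearing denominators -/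
private theorem clear (i : Fin r) (k : ℕ)
    (y : Cc f (LocalizedModule (Submonoid.powers (f i)) N) k) :
    ∃ (T : ℕ) (y' : Cc f N k), lc f (locf f N i) k y' = f i ^ T • y := by
  classical
  have h1 : ∀ s : Fin k → Fin r, ∃ (T : ℕ) (n : N) (m : Ms f s),
      f i ^ T • y s = LocalizedModule.mk (locf f N i n) m := by
    intro s
    induction y s using LocalizedModule.induction_on with
    | h l m =>
      induction l using LocalizedModule.induction_on with
      | h n q =>
        obtain ⟨q, T, rfl⟩ := q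
        refine ⟨T, n, m, ?_⟩
        rw [LocalizedModule.smul'_mk, LocalizedModule.smul'_mk]
        congr 1
        exact LocalizedModule.mk_cancel (⟨f i ^ T, T, rfl⟩ : Submonoid.powers (f i)) n
  choose T n m h using h1
  refine ⟨∑ s, T s, fun s => LocalizedModule.mk (f i ^ ((∑ s', T s') - T s) • n s) (m s), ?_⟩
  funext s
  have hle : T s ≤ ∑ s', T s' := Finset.single_le_sum (fun _ _ => Nat.zero_le _) (Finset.mem_univ s)
  rw [lc_mk f (locf f N i) k _ s _ (m s) rfl, Pi.smul_apply, map_smul, ← LocalizedModule.smul'_mk,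
    ← h s, smul_smul, ← pow_add, Nat.sub_add_cancel hle]

private theorem kill (i : Fin r) (k : ℕ) (w : Cc f N k) (hw : lc f (locf f N i) k w = 0) :
    ∃ T : ℕ, f i ^ T • w = 0 := by
  classical
  have h1 : ∀ s : Fin k → Fin r, ∃ T : ℕ, f i ^ T • w s = 0 := by
    intro s
    obtain ⟨n, m, hnm⟩ : ∃ (n : N) (m : Ms f s), w s = LocalizedModule.mk n m := by
      induction w s using LocalizedModule.induction_on with
      | h n m => exact ⟨n, m, rfl⟩
    have h2 := lc_mk f (locf f N i) k w s n m hnm
    rw [hw, Pi.zero_apply, eq_comm, mk_eq_zero_iff] at h2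
    obtain ⟨u, hu, hun⟩ := h2
    rw [← map_smul, LocalizedModule.mkLinearMap_apply, mk_eq_zero_iff] at hun
    obtain ⟨v, ⟨T, rfl⟩, hv⟩ := hun
    refine ⟨T, ?_⟩
    rw [hnm, LocalizedModule.smul'_mk, mk_eq_zero_iff]
    refine ⟨u, hu, ?_⟩
    rw [smul_comm]
    exact hv
  choose T h using h1
  refine ⟨∑ s, T s, ?_⟩
  funext s
  have hle : T s ≤ ∑ s', T s' := Finset.single_le_sum (fun _ _ => Nat.zero_le _) (Finset.mem_univ s)
  rw [Pi.smul_apply, Pi.zero_apply, ← Nat.sub_add_cancel hle, pow_add, mul_smul, h s, smul_zero]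

private theorem pow_gen (i : Fin r) (k : ℕ) {z : Cc f N k} (hz : z ∈ Zc f N k) :
    ∃ t : ℕ, f i ^ t • z ∈ Bc f N k := by
  cases k with
  | zero =>
    obtain ⟨n, rfl⟩ := (aug_bijective f N).2 z
    obtain ⟨t, ht⟩ := (aug_mem_Zc_iff f N n).1 hz i
    refine ⟨t, ?_⟩
    rw [← map_smul, ht, map_zero]
    exact Submodule.zero_mem _
  | succ k =>
    have hbij : Function.Bijective
        fun n : LocalizedModule (Submonoid.powers (f i)) N => f i • n := by
      have h1 := IsLocalizedModule.map_units (LocalizedModule.mkLinearMap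
        (Submonoid.powers (f i)) N) (⟨f i, Submonoid.mem_powers _⟩ : Submonoid.powers (f i))
      exact (Module.End.isUnit_iff _).1 h1
    have h1 := acyclic_of_unit f (LocalizedModule (Submonoid.powers (f i)) N) i hbij (k + 1)
      (lc_mem_Zc f (locf f N i) hz)
    obtain ⟨y, hy⟩ := h1
    obtain ⟨T, y', hy'⟩ := clear f i k y
    have h2 : lc f (locf f N i) (k + 1) (dC f N k y' - f i ^ T • z) = 0 := by
      rw [map_sub, ← lc_dC, hy', map_smul, map_smul, hy, sub_self]
    obtain ⟨T', hT'⟩ := kill f i (k + 1) _ h2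
    refine ⟨T' + T, f i ^ T' • y', ?_⟩
    rw [smul_sub, sub_eq_zero] at hT'
    rw [map_smul, hT', smul_smul, ← pow_add]

/-- elements of the ideal generated by the `f i` act nilpotently on cohomology.
First for `g = f i`: the class of `z` vanishes in the localisation `N_(f i) = LocalizedModule (powers (f i)) N`
(`acyclic_of_unit`); clear denominators: `lc` of the localisation map sends `z` to `dC y`, there is `t` with
`(f i)^t • y` in the image of `lc` (finitely many components), etc.
In general: `(f_1, …, f_r)^(r t) ⊆ (f_1^t, …, f_r^t)`. -/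
theorem pow_smul_mem_Bc (k : ℕ) {z : Cc f N k} (hz : z ∈ Zc f N k) {g : B}
    (hg : g ∈ Ideal.span (Set.range f)) : ∃ t : ℕ, g ^ t • z ∈ Bc f N k := by
  let J : Ideal B := (Bc f N k).comap (LinearMap.toSpanSingleton B (Cc f N k) z)
  have h1 : Ideal.span (Set.range f) ≤ J.radical := by
    rw [Ideal.span_le]
    rintro _ ⟨i, rfl⟩
    obtain ⟨t, ht⟩ := pow_gen f i k hz
    exact ⟨t, ht⟩
  obtain ⟨t, ht⟩ := h1 hg
  exact ⟨t, ht⟩

end

end Pool.Agent.Lib.MP_f251fc_ag
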