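import Mathlib

/-!
# Local cohomology and Lyubeznik numbers: definitions

`gammaI I` is the functor of elements killed by a power of `I`, `locCoh I j` its `j`-th right derived
functor, and `lyubeznik S I n i j` the `S`-length of `Ext^i_S(K, H^(n-j)_I(S))`, `K` the residue field of
the local ring `S`.  (This `Ext` is killed by the maximal ideal, so its length is its `K`-dimension.)
-/

set_option autoImplicit false

namespace Pool.Agent.Lib.MP_f251fc_ag

open CategoryTheory IsLocalRing

noncomputable section

universe u

/-- the submodule of the elements killed by a power of `I` -/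
def torI {S : Type u} [CommRing S] (I : Ideal S) (M : Type u) [AddCommGroup M] [Module S M] :
    Submodule S M where
  carrier := {x | ∃ n : ℕ, ∀ a ∈ I ^ n, a • x = 0}
  zero_mem' := ⟨0, fun a _ => smul_zero a⟩
  add_mem' := by
    rintro x y ⟨n, hn⟩ ⟨m, hm⟩
    refine ⟨max n m, fun a ha => ?_⟩
    rw [smul_add, hn a (Ideal.pow_le_pow_right (le_max_left _ _) ha),
      hm a (Ideal.pow_le_pow_right (le_max_right _ _) ha), add_zero]
  smul_mem' := by
    rintro c x ⟨n, hn⟩
    refine ⟨n, fun a ha => ?_⟩
    rw [smul_comm, hn a ha, smul_zero]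

theorem torI_map {S : Type u} [CommRing S] (I : Ideal S) {M M' : Type u} [AddCommGroup M]
    [Module S M] [AddCommGroup M'] [Module S M'] (g : M →ₗ[S] M') :
    ∀ x ∈ torI I M, g x ∈ torI I M' := by
  rintro x ⟨n, hn⟩
  refine ⟨n, fun a ha => ?_⟩
  rw [← map_smul, hn a ha, map_zero]

/-- the `I`-torsion functor -/
def gammaI {S : Type u} [CommRing S] (I : Ideal S) : ModuleCat.{u} S ⥤ ModuleCat.{u} S where
  obj M := ModuleCat.of S (torI I M)
  map g := ModuleCat.ofHom (g.hom.restrict (torI_map I g.hom))

instance {S : Type u} [CommRing S] (I : Ideal S) : (gammaI I).Additive where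
  map_add := by
    intro X Y g g'
    rfl

/-- local cohomology with support in `I`: the right derived functors of the `I`-torsion functor -/
def locCoh {S : Type u} [CommRing S] (I : Ideal S) (j : ℕ) : ModuleCat.{u} S ⥤ ModuleCat.{u} S :=
  (gammaI I).rightDerived j

/-- `Ext^i_S(K, H^(n-j)_I(S))` -/
abbrev lyuExt (S : Type u) [CommRing S] [IsLocalRing S] (I : Ideal S) (n i j : ℕ) : Type u :=
  Abelian.Ext (ModuleCat.of S (ResidueField S)) ((locCoh I (n - j)).obj (ModuleCat.of S S)) i

/-- the Lyubeznik number of the ideal `I` in the local ring `S` of dimension `n` -/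
def lyubeznik (S : Type u) [CommRing S] [IsLocalRing S] (I : Ideal S) (n i j : ℕ) : ℕ∞ :=
  Module.length S (lyuExt S I n i j)

/-- Cohen-Macaulay local rings of dimension `d`: there is a regular sequence of length `d = dim R` in the
maximal ideal -/
def IsCM (R : Type u) [CommRing R] [IsLocalRing R] (d : ℕ) : Prop :=
  ringKrullDim R = d ∧ ∃ rs : List R, rs.length = d ∧ (∀ x ∈ rs, x ∈ maximalIdeal R) ∧
    RingTheory.Sequence.IsRegular R rs

end

end Pool.Agent.Lib.MP_f251fc_ag
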