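import Pool.Agent.Lib.MP_f251fc_ag.CechL
import Pool.Agent.Lib.MP_f251fc_ag.CechE
import Pool.Agent.Lib.MP_f251fc_ag.Defs

/-! # Comparison of Čech cohomology with the cohomology of `Γ_I` of an injective resolution -/

set_option autoImplicit false

namespace Pool.Agent.Lib.MP_f251fc_ag

noncomputable section

universe u

variable {B : Type u} [CommRing B]

section plain

variable (I : Ideal B) (E : ℕ → Type u) [∀ a, AddCommGroup (E a)] [∀ a, Module B (E a)]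
  (δ : ∀ a, E a →ₗ[B] E (a + 1))

/-- cocycles of `Γ_I(E)` -/
def GZ (j : ℕ) : Submodule B (E j) := torI I (E j) ⊓ LinearMap.ker (δ j)

/-- coboundaries of `Γ_I(E)` -/
def GB : ∀ j : ℕ, Submodule B (E j)
  | 0 => ⊥
  | j + 1 => (torI I (E j)).map (δ j)

/-- cohomology of `Γ_I(E)` -/
abbrev GH (j : ℕ) : Type u := GZ I E δ j ⧸ (GB I E δ j).submoduleOf (GZ I E δ j)

end plain

/-- a linear relation with surjective projections induces an isomorphism of quotients -/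
private theorem Cmp_rel {A C : Type u} [AddCommGroup A] [Module B A] [AddCommGroup C] [Module B C]
    (R : Submodule B (A × C)) (SA : Submodule B A) (SC : Submodule B C)
    (h1 : ∀ a, ∃ c, (a, c) ∈ R) (h2 : ∀ c, ∃ a, (a, c) ∈ R)
    (h : ∀ a c, (a, c) ∈ R → (a ∈ SA ↔ c ∈ SC)) : Nonempty ((A ⧸ SA) ≃ₗ[B] (C ⧸ SC)) := by
  let p : R →ₗ[B] (A ⧸ SA) := SA.mkQ ∘ₗ LinearMap.fst B A C ∘ₗ R.subtype
  let q : R →ₗ[B] (C ⧸ SC) := SC.mkQ ∘ₗ LinearMap.snd B A C ∘ₗ R.subtype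
  have hp : Function.Surjective p := by
    intro a
    obtain ⟨a, rfl⟩ := SA.mkQ_surjective a
    obtain ⟨c, hc⟩ := h1 a
    exact ⟨⟨(a, c), hc⟩, rfl⟩
  have hq : Function.Surjective q := by
    intro c
    obtain ⟨c, rfl⟩ := SC.mkQ_surjective c
    obtain ⟨a, ha⟩ := h2 c
    exact ⟨⟨(a, c), ha⟩, rfl⟩
  have hk : LinearMap.ker p = LinearMap.ker q := by
    ext ⟨⟨a, c⟩, hac⟩
    rw [LinearMap.mem_ker, LinearMap.mem_ker]
    change SA.mkQ a = 0 ↔ SC.mkQ c = 0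
    rw [Submodule.mkQ_apply, Submodule.mkQ_apply, Submodule.Quotient.mk_eq_zero,
      Submodule.Quotient.mk_eq_zero]
    exact h a c hac
  exact ⟨((p.quotKerEquivOfSurjective hp).symm.trans (Submodule.quotEquivOfEq _ _ hk)).trans
    (q.quotKerEquivOfSurjective hq)⟩

/-- `H^0` of the Čech complex consists of the elements killed by a power of `I` -/
theorem torI_iff {r : ℕ} (f : Fin r → B) {N : Type u} [AddCommGroup N] [Module B N] (n : N) :
    n ∈ torI (Ideal.span (Set.range f)) N ↔ ∀ i, ∃ t : ℕ, f i ^ t • n = 0 := by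
  constructor
  · rintro ⟨m, hm⟩ i
    exact ⟨m, hm _ (Ideal.pow_mem_pow (Ideal.subset_span (Set.mem_range_self i)) m)⟩
  · intro h
    have hrad : Ideal.span (Set.range f) ≤ (Ideal.torsionOf B N n).radical := by
      rw [Ideal.span_le]
      rintro _ ⟨i, rfl⟩
      obtain ⟨t, ht⟩ := h i
      exact ⟨t, by rw [Ideal.mem_torsionOf_iff]; exact ht⟩
    have hfg : (Ideal.span (Set.range f)).FG := Submodule.fg_span (Set.finite_range f)
    obtain ⟨m, hm⟩ := Ideal.exists_pow_le_of_le_radical_of_fg hrad hfg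
    exact ⟨m, fun a ha => (Ideal.mem_torsionOf_iff n a).1 (hm ha)⟩

private theorem Cmp_tor {r : ℕ} (f : Fin r → B) {N : Type u} [AddCommGroup N] [Module B N] (n : N) :
    n ∈ torI (Ideal.span (Set.range f)) N ↔ dC f N 0 (aug f N n) = 0 := by
  rw [torI_iff, ← aug_mem_Zc_iff, mem_Zc]

/-- degree zero: `aug` identifies `torI I N` with `Zc f N 0` -/
theorem compare_zero {r : ℕ} (f : Fin r → B) (E : ℕ → Type u) [∀ a, AddCommGroup (E a)]
    [∀ a, Module B (E a)] (δ : ∀ a, E a →ₗ[B] E (a + 1)) :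
    Nonempty (Hc f (LinearMap.ker (δ 0)) 0 ≃ₗ[B] GH (Ideal.span (Set.range f)) E δ 0) := by
  let R : Submodule B (Zc f (LinearMap.ker (δ 0)) 0 × GZ (Ideal.span (Set.range f)) E δ 0) :=
    { carrier := {q | ∃ u : LinearMap.ker (δ 0), aug f (LinearMap.ker (δ 0)) u = q.1.1 ∧
        (u : E 0) = q.2.1}
      zero_mem' := ⟨0, by simp, by simp⟩
      add_mem' := by
        rintro ⟨a, c⟩ ⟨a', c'⟩ ⟨u, h1, h2⟩ ⟨u', h1', h2'⟩
        refine ⟨u + u', ?_, ?_⟩
        · rw [map_add, h1, h1']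
          rfl
        · rw [Submodule.coe_add, h2, h2']
          rfl
      smul_mem' := by
        rintro b ⟨a, c⟩ ⟨u, h1, h2⟩
        refine ⟨b • u, ?_, ?_⟩
        · rw [map_smul, h1]
          rfl
        · rw [Submodule.coe_smul, h2]
          rfl }
  refine Cmp_rel R _ _ ?_ ?_ ?_
  · rintro ⟨w, hw⟩
    obtain ⟨u, rfl⟩ := (aug_bijective f (LinearMap.ker (δ 0))).2 w
    have hu : u ∈ torI (Ideal.span (Set.range f)) (LinearMap.ker (δ 0)) :=
      (Cmp_tor f u).2 hw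
    have hu' : (u : E 0) ∈ torI (Ideal.span (Set.range f)) (E 0) :=
      torI_map _ (LinearMap.ker (δ 0)).subtype u hu
    exact ⟨⟨u, hu', u.2⟩, u, rfl, rfl⟩
  · rintro ⟨x, hx, hx'⟩
    have hu : (⟨x, hx'⟩ : LinearMap.ker (δ 0)) ∈
        torI (Ideal.span (Set.range f)) (LinearMap.ker (δ 0)) := by
      obtain ⟨m, hm⟩ := hx
      exact ⟨m, fun a ha => Subtype.ext (hm a ha)⟩
    exact ⟨⟨aug f _ ⟨x, hx'⟩, (Cmp_tor f _).1 hu⟩, ⟨x, hx'⟩, rfl, rfl⟩
  · rintro ⟨w, hw⟩ ⟨x, hx⟩ ⟨u, h1, h2⟩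
    change w ∈ Bc f _ 0 ↔ x ∈ (⊥ : Submodule B (E 0))
    simp only at h1 h2
    rw [mem_Bc_zero, Submodule.mem_bot, ← h1, ← h2]
    rw [map_eq_zero_iff _ (aug_bijective f (LinearMap.ker (δ 0))).1]
    exact ⟨fun h => by rw [h]; rfl, fun h => Subtype.ext h⟩

/-- degree one: `0 → ker δ_0 → E 0 → ker δ_1 → 0` is exact (`hex`), `E 0` is acyclic; the connecting
homomorphism gives `Γ(ker δ_1) / image of Γ(E 0) ≅ H^1(ker δ_0)` -/
theorem compare_one {r : ℕ} (f : Fin r → B) (E : ℕ → Type u) [∀ a, AddCommGroup (E a)]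
    [∀ a, Module B (E a)] (δ : ∀ a, E a →ₗ[B] E (a + 1))
    (hex : ∀ a, LinearMap.ker (δ (a + 1)) = LinearMap.range (δ a)) (hac : Acyc f (E 0)) :
    Nonempty (Hc f (LinearMap.ker (δ 0)) 1 ≃ₗ[B] GH (Ideal.span (Set.range f)) E δ 1) := by
  have hinj : Function.Injective (LinearMap.ker (δ 0)).subtype := Subtype.val_injective
  have hexact : Function.Exact (LinearMap.ker (δ 0)).subtype (δ 0) := by
    intro y
    constructor
    · intro hy
      exact ⟨⟨y, hy⟩, rfl⟩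
    · rintro ⟨u, rfl⟩
      exact u.2
  let R : Submodule B (Zc f (LinearMap.ker (δ 0)) 1 × GZ (Ideal.span (Set.range f)) E δ 1) :=
    { carrier := {q | ∃ y : E 0, dC f (E 0) 0 (aug f (E 0) y) =
        lc f (LinearMap.ker (δ 0)).subtype 1 q.1.1 ∧ δ 0 y = q.2.1}
      zero_mem' := ⟨0, by simp, by simp⟩
      add_mem' := by
        rintro ⟨a, c⟩ ⟨a', c'⟩ ⟨u, h1, h2⟩ ⟨u', h1', h2'⟩
        refine ⟨u + u', ?_, ?_⟩
        · rw [map_add, map_add, h1, h1', ← map_add]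
          rfl
        · rw [map_add, h2, h2']
          rfl
      smul_mem' := by
        rintro b ⟨a, c⟩ ⟨u, h1, h2⟩
        refine ⟨b • u, ?_, ?_⟩
        · rw [map_smul, map_smul, h1, ← map_smul]
          rfl
        · rw [map_smul, h2]
          rfl }
  refine Cmp_rel R _ _ ?_ ?_ ?_
  · rintro ⟨w, hw⟩
    obtain ⟨z, hz⟩ := hac 0 (lc_mem_Zc f (LinearMap.ker (δ 0)).subtype hw)
    obtain ⟨y, rfl⟩ := (aug_bijective f (E 0)).2 z
    have hker : δ 0 y ∈ LinearMap.ker (δ 1) := by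
      rw [hex 0]
      exact ⟨y, rfl⟩
    have htor : δ 0 y ∈ torI (Ideal.span (Set.range f)) (E 1) := by
      rw [Cmp_tor, ← lc_aug, lc_dC, hz, ((lc_exact f hexact 1) _).2 ⟨w, rfl⟩]
    exact ⟨⟨δ 0 y, htor, hker⟩, y, hz, rfl⟩
  · rintro ⟨x, hx, hx'⟩
    have hx'' : x ∈ LinearMap.range (δ 0) := by
      rw [← hex 0]
      exact hx'
    obtain ⟨y, rfl⟩ := hx''
    have h0 : lc f (δ 0) 1 (dC f (E 0) 0 (aug f (E 0) y)) = 0 := by
      rw [← lc_dC, lc_aug]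
      exact (Cmp_tor f _).1 hx
    obtain ⟨w, hw⟩ := ((lc_exact f hexact 1) _).1 h0
    have hwZ : w ∈ Zc f (LinearMap.ker (δ 0)) 1 := by
      rw [mem_Zc]
      apply lc_injective f hinj 2
      rw [map_zero, ← lc_dC, hw, dC_dC]
    exact ⟨⟨w, hwZ⟩, y, hw.symm, rfl⟩
  · rintro ⟨w, hw⟩ ⟨x, hx⟩ ⟨y, h1, h2⟩
    simp only at h1 h2
    change w ∈ Bc f _ 1 ↔ x ∈ (torI (Ideal.span (Set.range f)) (E 0)).map (δ 0)
    constructor
    · rintro ⟨v, hv⟩
      obtain ⟨u, rfl⟩ := (aug_bijective f (LinearMap.ker (δ 0))).2 v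
      refine ⟨y - u, ?_, ?_⟩
      · rw [SetLike.mem_coe, Cmp_tor, map_sub, map_sub, h1, ← hv, ← lc_dC, lc_aug]
        exact sub_self _
      · have hu : δ 0 (u : E 0) = 0 := u.2
        rw [map_sub, hu, sub_zero, h2]
    · rintro ⟨y', hy', hy2⟩
      have hker : y - y' ∈ LinearMap.ker (δ 0) := by
        rw [LinearMap.mem_ker, map_sub, h2, hy2, sub_self]
      refine ⟨aug f _ ⟨y - y', hker⟩, ?_⟩
      apply lc_injective f hinj 1
      rw [← lc_dC, lc_aug, ← h1]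
      have h3 : dC f (E 0) 0 (aug f (E 0) y') = 0 := (Cmp_tor f _).1 hy'
      rw [Submodule.subtype_apply, map_sub, map_sub, h3, sub_zero]

end

end Pool.Agent.Lib.MP_f251fc_ag
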