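import Pool.Agent.Lib.MP_f251fc_ag.Cmp

/-! # Comparison: dimension shift and conclusion -/

set_option autoImplicit false

namespace Pool.Agent.Lib.MP_f251fc_ag

noncomputable section

universe u

variable {B : Type u} [CommRing B]

section shift

variable {r : ℕ} (f : Fin r → B) {N N' N'' : Type u} [AddCommGroup N] [Module B N] [AddCommGroup N']
  [Module B N'] [AddCommGroup N''] [Module B N'']

/-- the connecting isomorphism for an acyclic middle term -/
private theorem CmpS_shift {g : N →ₗ[B] N'} {g' : N' →ₗ[B] N''} (hg : Function.Injective g)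
    (hex : Function.Exact g g') (hg' : Function.Surjective g') (hac : Acyc f N') (j : ℕ) :
    Nonempty (Hc f N (j + 2) ≃ₗ[B] Hc f N'' (j + 1)) := by
  have hgg : ∀ k (x : Cc f N k), lc f g' k (lc f g k x) = 0 := fun k x => (lc_exact f hex k _).2 ⟨x, rfl⟩
  have hy : ∀ z : Zc f N (j + 2), ∃ y : Cc f N' (j + 1), dC f N' (j + 1) y = lc f g (j + 2) z := by
    intro z
    have h1 := hac (j + 1) (lc_mem_Zc f g z.2)
    exact h1
  choose Y hY using hy
  have hcoc : ∀ (z : Zc f N (j + 2)) (y : Cc f N' (j + 1)),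
      dC f N' (j + 1) y = lc f g (j + 2) z → lc f g' (j + 1) y ∈ Zc f N'' (j + 1) := by
    intro z y h
    rw [mem_Zc, lc_dC, h, hgg]
  have huniq : ∀ (z : Zc f N (j + 2)) (y y' : Cc f N' (j + 1))
      (h : dC f N' (j + 1) y = lc f g (j + 2) z) (h' : dC f N' (j + 1) y' = lc f g (j + 2) z),
      cls f N'' (j + 1) ⟨lc f g' (j + 1) y, hcoc z y h⟩ =
        cls f N'' (j + 1) ⟨lc f g' (j + 1) y', hcoc z y' h'⟩ := by
    intro z y y' h h'
    refine (Submodule.Quotient.eq _).2 ?_
    have h1 : y - y' ∈ Zc f N' (j + 1) := by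
      rw [mem_Zc, map_sub, h, h', sub_self]
    obtain ⟨w, hw⟩ := hac j h1
    refine ⟨lc f g' j w, ?_⟩
    show dC f N'' j (lc f g' j w) = lc f g' (j + 1) y - lc f g' (j + 1) y'
    rw [lc_dC, hw, map_sub]
  let Φ : Zc f N (j + 2) →ₗ[B] Hc f N'' (j + 1) :=
    { toFun := fun z => cls f N'' (j + 1) ⟨lc f g' (j + 1) (Y z), hcoc z (Y z) (hY z)⟩
      map_add' := by
        intro z z'
        have h : dC f N' (j + 1) (Y z + Y z') = lc f g (j + 2) ((z + z' : Zc f N (j + 2)) : Cc f N (j + 2)) := by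
          rw [map_add, hY, hY, ← map_add]
          rfl
        rw [huniq (z + z') (Y (z + z')) (Y z + Y z') (hY _) h, ← map_add]
        congr 1
        apply Subtype.ext
        exact map_add (lc f g' (j + 1)) (Y z) (Y z')
      map_smul' := by
        intro b z
        have h : dC f N' (j + 1) (b • Y z) = lc f g (j + 2) ((b • z : Zc f N (j + 2)) : Cc f N (j + 2)) := by
          rw [map_smul, hY, ← map_smul]
          rfl
        rw [huniq (b • z) (Y (b • z)) (b • Y z) (hY _) h, RingHom.id_apply, ← map_smul]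
        congr 1
        apply Subtype.ext
        exact map_smul (lc f g' (j + 1)) b (Y z) }
  have hΦ : ∀ (z : Zc f N (j + 2)) (y : Cc f N' (j + 1))
      (h : dC f N' (j + 1) y = lc f g (j + 2) z),
      Φ z = cls f N'' (j + 1) ⟨lc f g' (j + 1) y, hcoc z y h⟩ :=
    fun z y h => huniq z (Y z) y (hY z) h
  have hsurj : Function.Surjective Φ := by
    intro x
    obtain ⟨⟨w, hw⟩, rfl⟩ := Submodule.mkQ_surjective _ x
    obtain ⟨y, rfl⟩ := lc_surjective f hg' (j + 1) w
    have h1 : lc f g' (j + 2) (dC f N' (j + 1) y) = 0 := by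
      rw [← lc_dC]
      exact hw
    obtain ⟨z, hz⟩ := (lc_exact f hex (j + 2) _).1 h1
    have hzc : z ∈ Zc f N (j + 2) := by
      rw [mem_Zc]
      apply lc_injective f hg (j + 3)
      rw [← lc_dC, hz, map_zero]
      exact dC_dC f N' (j + 1) y
    exact ⟨⟨z, hzc⟩, hΦ ⟨z, hzc⟩ y hz.symm⟩
  have hker : LinearMap.ker Φ = (Bc f N (j + 2)).submoduleOf (Zc f N (j + 2)) := by
    ext z
    rw [LinearMap.mem_ker]
    constructor
    · intro h
      have h1 : cls f N'' (j + 1) ⟨lc f g' (j + 1) (Y z), hcoc z (Y z) (hY z)⟩ = 0 := h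
      obtain ⟨w, hw⟩ := (Submodule.Quotient.mk_eq_zero _).1 h1
      obtain ⟨w', rfl⟩ := lc_surjective f hg' j w
      have hw2 : dC f N'' j (lc f g' j w') = lc f g' (j + 1) (Y z) := hw
      have h2 : lc f g' (j + 1) (Y z - dC f N' j w') = 0 := by
        rw [map_sub, ← lc_dC, hw2, sub_self]
      obtain ⟨x, hx⟩ := (lc_exact f hex (j + 1) _).1 h2
      refine ⟨x, ?_⟩
      show dC f N (j + 1) x = z
      apply lc_injective f hg (j + 2)
      rw [← lc_dC, hx, map_sub, hY, dC_dC f N' j w', sub_zero]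
    · rintro ⟨x, hx⟩
      have hx2 : dC f N (j + 1) x = z := hx
      have h1 : dC f N' (j + 1) (lc f g (j + 1) x) = lc f g (j + 2) z := by
        rw [lc_dC, hx2]
      rw [hΦ z _ h1]
      refine (Submodule.Quotient.mk_eq_zero _).2 ?_
      have h2 : (⟨lc f g' (j + 1) (lc f g (j + 1) x), hcoc z _ h1⟩ : Zc f N'' (j + 1)) = 0 :=
        Subtype.ext (hgg (j + 1) x)
      rw [h2]
      exact Submodule.zero_mem _
  exact ⟨(Submodule.quotEquivOfEq _ _ hker.symm).trans (LinearMap.quotKerEquivOfSurjective Φ hsurj)⟩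

end shift

/-- dimension shift: `H^(j+2)(ker δ_0) ≅ H^(j+1)(ker δ_1)` -/
theorem compare_shift {r : ℕ} (f : Fin r → B) (E : ℕ → Type u) [∀ a, AddCommGroup (E a)]
    [∀ a, Module B (E a)] (δ : ∀ a, E a →ₗ[B] E (a + 1))
    (hex : ∀ a, LinearMap.ker (δ (a + 1)) = LinearMap.range (δ a)) (hac : Acyc f (E 0)) (j : ℕ) :
    Nonempty (Hc f (LinearMap.ker (δ 0)) (j + 2) ≃ₗ[B] Hc f (LinearMap.ker (δ 1)) (j + 1)) := by
  have hmem : ∀ x : E 0, δ 0 x ∈ LinearMap.ker (δ 1) := by
    intro x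
    rw [hex 0]
    exact ⟨x, rfl⟩
  refine CmpS_shift f (g := (LinearMap.ker (δ 0)).subtype)
    (g' := (δ 0).codRestrict (LinearMap.ker (δ 1)) hmem) (Submodule.subtype_injective _) ?_ ?_ hac j
  · intro x
    constructor
    · intro h
      have h1 : δ 0 x = 0 := congrArg Subtype.val h
      exact ⟨⟨x, h1⟩, rfl⟩
    · rintro ⟨y, rfl⟩
      apply Subtype.ext
      exact y.2
  · rintro ⟨y, hy⟩
    have h1 := hy
    rw [hex 0] at h1
    obtain ⟨x, hx⟩ := h1
    exact ⟨x, Subtype.ext hx⟩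

private theorem CmpS_succ {r : ℕ} (f : Fin r → B) (j : ℕ) :
    ∀ (E : ℕ → Type u) [∀ a, AddCommGroup (E a)] [∀ a, Module B (E a)]
      (δ : ∀ a, E a →ₗ[B] E (a + 1))
      (_ : ∀ a, LinearMap.ker (δ (a + 1)) = LinearMap.range (δ a)) (_ : ∀ a, Acyc f (E a)),
      Nonempty (Hc f (LinearMap.ker (δ 0)) (j + 1) ≃ₗ[B]
        GH (Ideal.span (Set.range f)) E δ (j + 1)) := by
  induction j with
  | zero =>
    intro E _ _ δ hex hac
    exact compare_one f E δ hex (hac 0)
  | succ j ih =>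
    intro E _ _ δ hex hac
    obtain ⟨e⟩ := compare_shift f E δ hex (hac 0) j
    obtain ⟨e'⟩ := ih (fun a => E (a + 1)) (fun a => δ (a + 1)) (fun a => hex (a + 1))
      (fun a => hac (a + 1))
    exact ⟨e.trans e'⟩

/-- induction on `j`, generalising the complex `E` (replace `E` by `fun a => E (a + 1)`; `GH` of the
shifted complex in degree `j + 1` is definitionally `GH` of the complex in degree `j + 2`) -/
theorem compare {r : ℕ} (f : Fin r → B) (E : ℕ → Type u) [∀ a, AddCommGroup (E a)]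
    [∀ a, Module B (E a)] (δ : ∀ a, E a →ₗ[B] E (a + 1))
    (hex : ∀ a, LinearMap.ker (δ (a + 1)) = LinearMap.range (δ a)) (hac : ∀ a, Acyc f (E a))
    (j : ℕ) :
    Nonempty (Hc f (LinearMap.ker (δ 0)) j ≃ₗ[B] GH (Ideal.span (Set.range f)) E δ j) := by
  cases j with
  | zero => exact compare_zero f E δ
  | succ j => exact CmpS_succ f j E δ hex hac

end

end Pool.Agent.Lib.MP_f251fc_ag
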