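import Pool.Agent.Lib.MP_f251fc_ag.Setup

/-! # Comparison of the root with the resolution over `S` -/

set_option autoImplicit false

namespace Pool.Agent.Lib.MP_f251fc_ag

noncomputable section

universe u

variable {p : ℕ} [Fact p.Prime] {m : ℕ} {S Sb A : Type u} [CommRing S] [AddCommGroup Sb]
  [Module S Sb] [CommRing A] [CharP A p] [Algebra S A] (U : Setup p m S Sb A)
  {r : ℕ} (f : Fin r → S)

variable [IsNoetherianRing S] [IsNoetherianRing A]
  (G : Cplx S) (hG : G.IsEx) (hspan : Ideal.span (Set.range G.g) = Ideal.span (Set.range f))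
  (P : Cplx A) (hP : P.IsEx)
  (hPspan : Ideal.span (Set.range P.g) = Ideal.span (Set.range (fA f A)))

include hG hspan hP hPspan

omit [IsNoetherianRing S] [IsNoetherianRing A] hG in
private theorem CoreA_chMap : Nonempty (ChMap (G.map (algebraMap S A)) P) := by
  refine exists_chMap _ _ hP fun l => ?_
  rw [hPspan]
  change algebraMap S A (G.g l) ∈ _
  have h1 : G.g l ∈ Ideal.span (Set.range f) := by
    rw [← hspan]
    exact Ideal.subset_span ⟨l, rfl⟩
  have h2 := Ideal.mem_map_of_mem (algebraMap S A) h1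
  rw [Ideal.map_span, ← Set.range_comp] at h2
  exact h2

omit [IsNoetherianRing S] [IsNoetherianRing A] hP hPspan in
private theorem CoreA_htpy (i : Fin r) :
    Nonempty (Htpy (G.map (algebraMap S A)) (algebraMap S A (f i))) := by
  obtain ⟨h⟩ := exists_htpy G hG (f i) (by rw [hspan]; exact Ideal.subset_span ⟨i, rfl⟩)
  exact ⟨h.map (algebraMap S A)⟩

omit [IsNoetherianRing S] [IsNoetherianRing A] in
/-- for `j > c`: `LP P j = ⊥`: `Rel P v z` gives `Rel (G.map) (v ∘ u) z` for a chain map
`u : G.map → P`, and `v ∘ u = 0` as `G.b j = 0`; `rel_unique` for `G.map` -/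
theorem LP_eq_bot (j : ℕ) (hj : G.b j = 0) : LP (fA f A) P j = ⊥ := by
  rw [eq_bot_iff]
  rintro x ⟨z, rfl, v, hv, hz⟩
  obtain ⟨u⟩ := CoreA_chMap f G hspan P hP hPspan
  have H := fun i => CoreA_htpy (A := A) f G hG hspan i
  have h1 := hz.comp (fA f A) u
  have h0 : (fun l => ∑ k, u.u j k l • v k) = (0 : Fin (G.b j) → A) := by
    ext l
    exact (Fin.cast hj l).elim0
  have h2 : Rel (fA f A) (G.map (algebraMap S A)) j (0 : Fin ((G.map (algebraMap S A)).b j) → A) z := by
    have h0' : (fun l => ∑ k, u.u j k l • v k) =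
      (0 : Fin ((G.map (algebraMap S A)).b j) → A) := h0
    rw [← h0']
    exact h1
  have h3 := rel_unique (fA f A) (fun i => algebraMap S A (f i)) (fun i => ⟨1, (pow_one _).symm⟩)
    (fun i => (H i).some) h2
  rw [Submodule.mem_bot]
  exact (Submodule.Quotient.mk_eq_zero _).2 h3

omit [IsNoetherianRing S] [IsNoetherianRing A] in
/-- for `j = c`: `LP P c ≤ TA`: `v ∘ u = ∑ (v ∘ u) k • ε_k`, all `ε_k : Fin (G.b c) → S` are cocycles of `G`,
related to `z_k ∈ Z(S)` (`exists_rel`) -/
theorem LP_le_TA (c : ℕ) (hc : G.b (c + 1) = 0) : LP (fA f A) P c ≤ TA f A (c + 1) := by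
  rintro x ⟨z, rfl, v, hv, hz⟩
  obtain ⟨u⟩ := CoreA_chMap f G hspan P hP hPspan
  have H := fun i => CoreA_htpy (A := A) f G hG hspan i
  have h1 := hz.comp (fA f A) u
  -- the coordinate cocycles of `G`
  have hco : ∀ k : Fin (G.b c), Coc G c (fun l => if l = k then (1 : S) else 0) := by
    intro k l
    exact (Fin.cast hc l).elim0
  have hex : ∀ k : Fin (G.b c), ∃ y ∈ Zc f S (c + 1),
      Rel f G c (fun l => if l = k then (1 : S) else 0) y := by
    intro k
    refine exists_rel f f (fun i => ⟨1, (pow_one _).symm⟩) (fun i => ?_) (hco k)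
    exact (exists_htpy G hG (f i) (by rw [hspan]; exact Ideal.subset_span ⟨i, rfl⟩)).some
  choose y hy hry using hex
  -- the combination
  have h4 : Rel (fA f A) (G.map (algebraMap S A)) c
      (∑ k ∈ (Finset.univ : Finset (Fin (G.b c))), (∑ k', u.u c k' k • v k') •
        fun l => algL S A (if l = k then (1 : S) else 0))
      (∑ k ∈ (Finset.univ : Finset (Fin (G.b c))), (∑ k', u.u c k' k • v k') •
        cmap (fA_mem f) (algL S A) (c + 1) (y k)) := by
    refine Rel.sum (fA f A) _ _ _ fun k _ => ?_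
    exact Rel.smul (fA f A) _ (Rel.map (fA_mem f) (algL S A) (hry k))
  have h5 : (∑ k ∈ (Finset.univ : Finset (Fin (G.b c))), (∑ k', u.u c k' k • v k') •
        fun l => algL S A (if l = k then (1 : S) else 0)) =
      (fun l => ∑ k, u.u c k l • v k : Fin (G.b c) → A) := by
    ext l
    rw [Finset.sum_apply, Finset.sum_eq_single l]
    · change (∑ k', u.u c k' l • v k') * algebraMap S A (if l = l then (1 : S) else 0) = _
      rw [if_pos rfl, map_one, mul_one]
    · intro b _ hb
      change (∑ k', u.u c k' b • v k') * algebraMap S A (if l = b then (1 : S) else 0) = _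
      rw [if_neg (Ne.symm hb), map_zero, mul_zero]
    · intro h
      exact absurd (Finset.mem_univ l) h
  have h6 : Rel (fA f A) (G.map (algebraMap S A)) c
      (0 : Fin ((G.map (algebraMap S A)).b c) → A)
      ((z : Cc (fA f A) A (c + 1)) -
        ∑ k ∈ (Finset.univ : Finset (Fin (G.b c))), (∑ k', u.u c k' k • v k') •
        cmap (fA_mem f) (algL S A) (c + 1) (y k)) := by
    have h7 := Rel.add (fA f A) h1 (Rel.smul (fA f A) (-1 : A) h4)
    have h8 : (fun l => ∑ k, u.u c k l • v k : Fin (G.b c) → A) +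
        (-1 : A) • (∑ k ∈ (Finset.univ : Finset (Fin (G.b c))), (∑ k', u.u c k' k • v k') •
        fun l => algL S A (if l = k then (1 : S) else 0)) = 0 := by
      rw [h5, neg_one_smul]
      exact add_neg_cancel _
    rw [neg_one_smul A (∑ k ∈ (Finset.univ : Finset (Fin (G.b c))), (∑ k', u.u c k' k • v k') •
        cmap (fA_mem f) (algL S A) (c + 1) (y k)), ← sub_eq_add_neg] at h7
    have h7' : Rel (fA f A) (G.map (algebraMap S A)) c
        ((fun l => ∑ k, u.u c k l • v k : Fin (G.b c) → A) +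
        (-1 : A) • (∑ k ∈ (Finset.univ : Finset (Fin (G.b c))), (∑ k', u.u c k' k • v k') •
        fun l => algL S A (if l = k then (1 : S) else 0)))
        ((z : Cc (fA f A) A (c + 1)) -
        ∑ k ∈ (Finset.univ : Finset (Fin (G.b c))), (∑ k', u.u c k' k • v k') •
        cmap (fA_mem f) (algL S A) (c + 1) (y k)) := h7
    rw [h8] at h7'
    exact h7'
  have h9 := rel_unique (fA f A) (fun i => algebraMap S A (f i)) (fun i => ⟨1, (pow_one _).symm⟩)
    (fun i => (H i).some) h6
  have h10 : cls (fA f A) A (c + 1) z =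
      ∑ k ∈ (Finset.univ : Finset (Fin (G.b c))), (∑ k', u.u c k' k • v k') •
        HSA f A (c + 1) (cls f S (c + 1) ⟨y k, hy k⟩) := by
    have h11 : (∑ k ∈ (Finset.univ : Finset (Fin (G.b c))), (∑ k', u.u c k' k • v k') •
        HSA f A (c + 1) (cls f S (c + 1) ⟨y k, hy k⟩)) =
        cls (fA f A) A (c + 1) (∑ k ∈ (Finset.univ : Finset (Fin (G.b c))),
          (∑ k', u.u c k' k • v k') •
          (⟨cmap (fA_mem f) (algL S A) (c + 1) (y k), cmap_mem_Zc _ _ (hy k)⟩ :
            Zc (fA f A) A (c + 1))) := by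
      rw [map_sum]
      refine Finset.sum_congr rfl fun k _ => ?_
      rw [map_smul]
      rfl
    rw [h11]
    refine (Submodule.Quotient.eq _).2 ?_
    change _ ∈ Submodule.comap _ _
    rw [Submodule.mem_comap]
    have h12 : ((Zc (fA f A) A (c + 1)).subtype (z - ∑ k ∈ (Finset.univ : Finset (Fin (G.b c))),
          (∑ k', u.u c k' k • v k') •
          (⟨cmap (fA_mem f) (algL S A) (c + 1) (y k), cmap_mem_Zc _ _ (hy k)⟩ :
            Zc (fA f A) A (c + 1)))) = (z : Cc (fA f A) A (c + 1)) -
        ∑ k ∈ (Finset.univ : Finset (Fin (G.b c))), (∑ k', u.u c k' k • v k') •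
        cmap (fA_mem f) (algL S A) (c + 1) (y k) := by
      rw [map_sub, map_sum]
      rfl
    rw [h12]
    exact h9
  rw [h10]
  exact Submodule.sum_mem _ fun k _ =>
    Submodule.smul_mem _ _ (Submodule.subset_span ⟨_, rfl⟩)

end

end Pool.Agent.Lib.MP_f251fc_ag
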