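import Pool.Agent.Lib.MP_f251fc_ag.CoreA

/-! # Vanishing and generation for `A` -/

set_option autoImplicit false

namespace Pool.Agent.Lib.MP_f251fc_ag

noncomputable section

universe u

variable {p : ℕ} [Fact p.Prime] {m : ℕ} {S Sb A : Type u} [CommRing S] [AddCommGroup Sb]
  [Module S Sb] [CommRing A] [CharP A p] [Algebra S A] (U : Setup p m S Sb A)
  {r : ℕ} (f : Fin r → S)

variable [IsNoetherianRing S] [IsNoetherianRing A]
  (G : Cplx S) (hG : G.IsEx) (hspan : Ideal.span (Set.range G.g) = Ideal.span (Set.range f))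
  (P : Cplx A) (hP : P.IsEx)
  (hPspan : Ideal.span (Set.range P.g) = Ideal.span (Set.range (fA f A)))

include hG hspan hP hPspan

omit [IsNoetherianRing S] [IsNoetherianRing A] hG hspan hP hPspan in
private theorem CoreB_iter_bot (k e : ℕ) :
    (spanF (FH p (fA f A) k))^[e] ⊥ = ⊥ := by
  induction e with
  | zero => rfl
  | succ e ih =>
    rw [Function.iterate_succ_apply', ih, eq_bot_iff, spanF, Submodule.span_le]
    rintro _ ⟨y, hy, rfl⟩
    have hy' : y = 0 := hy
    rw [hy', map_zero]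
    exact Submodule.zero_mem _

omit [IsNoetherianRing S] hG hspan in
include U in
/-- the Čech cohomology of `A` is generated by the root `LP P j` -/
theorem exists_mem_spanF (j : ℕ) (z : Hc (fA f A) A (j + 1)) :
    ∃ e, z ∈ (spanF (FH p (fA f A) (j + 1)))^[e] (LP (fA f A) P j) :=
  exists_mem_iter (fA f A) p U.frobFree P hP hPspan j z

omit [IsNoetherianRing S] in
include U in
/-- vanishing for `A` -/
theorem vanish_A (j : ℕ) (hj : G.b j = 0) : Zc (fA f A) A (j + 1) ≤ Bc (fA f A) A (j + 1) := by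
  intro z hz
  obtain ⟨e, he⟩ := exists_mem_spanF U f P hP hPspan j (cls (fA f A) A (j + 1) ⟨z, hz⟩)
  rw [LP_eq_bot f G hG hspan P hP hPspan j hj, CoreB_iter_bot] at he
  have h1 : cls (fA f A) A (j + 1) ⟨z, hz⟩ = 0 := (Submodule.mem_bot A).1 he
  have h2 : (⟨z, hz⟩ : Zc (fA f A) A (j + 1)) ∈
      (Bc (fA f A) A (j + 1)).submoduleOf (Zc (fA f A) A (j + 1)) :=
    (Submodule.Quotient.mk_eq_zero _).1 h1
  exact h2

omit [IsNoetherianRing S] [IsNoetherianRing A] hG hspan hP hPspan in
/-- `TA` is stable under the Taylor operators (`HS.dh_smul`, `HS.dh_hmap`) -/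
theorem TA_stable (k : ℕ) : (tayHc p (fA f A) (x := U.x) U.hsA k).Stable (TA f A k) := by
  intro i n z hz
  change (U.hsA i).dh (fA f A) k n z ∈ TA f A k
  revert n
  refine Submodule.span_induction (p := fun z _ => ∀ n, (U.hsA i).dh (fA f A) k n z ∈ TA f A k)
    ?_ ?_ ?_ ?_ hz
  · rintro _ ⟨w, rfl⟩ n
    have h := HS.dh_hmap (U.hsS i) f (U.hsA i) (fun k r => U.hs_compat i k r) (fA_mem f)
      (algL S A) (fun _ => rfl) k n w
    exact Submodule.subset_span ⟨(U.hsS i).dh f k n w, h.symm⟩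
  · intro n
    rw [map_zero]
    exact Submodule.zero_mem _
  · intro x y _ _ hx hy n
    rw [map_add]
    exact Submodule.add_mem _ (hx n) (hy n)
  · intro a x _ hx n
    rw [HS.dh_smul]
    exact Submodule.sum_mem _ fun c _ => Submodule.smul_mem _ _ (hx _)

omit [IsNoetherianRing S] in
include U in
/-- `TA = ⊤` in degree `c + 1`: `TayMod.eq_top` with `L = LP P c` -/
theorem TA_eq_top (c : ℕ) (hc : G.b (c + 1) = 0) : TA f A (c + 1) = ⊤ := by
  have H : ∀ i, Nonempty (Htpy P (fA f A i)) := fun i =>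
    exists_htpy P hP _ (by rw [hPspan]; exact Ideal.subset_span ⟨i, rfl⟩)
  refine TayMod.eq_top U.hs_x (tayHc p (fA f A) (x := U.x) U.hsA (c + 1)) U.frobFree
    (frobFree_Hc p (fA f A) U.x U.frobFree (c + 1)) (LP (fA f A) P c)
    (LP_fg (fA f A) P (fA f A) (fun i => ⟨1, (pow_one _).symm⟩) (fun i => (H i).some) c)
    (LP_le_spanF (fA f A) p U.frobFree P hP hPspan c)
    (fun z => exists_mem_spanF U f P hP hPspan c z) (TA f A (c + 1))
    (TA_stable U f (c + 1)) (LP_le_TA f G hG hspan P hP hPspan c hc)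

end

end Pool.Agent.Lib.MP_f251fc_ag
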