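import Pool.Agent.Lib.MP_f251fc_ag.Setup

/-! # Descent from `A` to `S`-modules -/

set_option autoImplicit false

namespace Pool.Agent.Lib.MP_f251fc_ag

noncomputable section

universe u

variable {S A : Type u} [CommRing S] [CommRing A] [Algebra S A] {r : ℕ} (f : Fin r → S)

private theorem mem_lift (A : Type u) [CommRing A] [Algebra S A] {k : ℕ} (s : Fin k → Fin r) :
    ∀ q ∈ Ms (fA f A) s, ∃ m ∈ Ms f s, algebraMap S A m = q := by
  intro q hq
  induction hq using Submonoid.closure_induction with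
  | mem x hx =>
    obtain ⟨j, rfl⟩ := hx
    exact ⟨f (s j), mem_Ms f s j, rfl⟩
  | one => exact ⟨1, Submonoid.one_mem _, map_one _⟩
  | mul x y _ _ hx hy =>
    obtain ⟨m, hm, rfl⟩ := hx
    obtain ⟨m', hm', rfl⟩ := hy
    exact ⟨m * m', Submonoid.mul_mem _ hm hm', map_mul _ _ _⟩

private theorem map_mem (A : Type u) [CommRing A] [Algebra S A] {k : ℕ} (s : Fin k → Fin r)
    {m : S} (hm : m ∈ Ms f s) : algebraMap S A m ∈ Ms (fA f A) s :=
  Ms_map (fA_mem f) s m hm

/-- the chosen lift of a denominator -/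
private def chL (A : Type u) [CommRing A] [Algebra S A] {k : ℕ} (s : Fin k → Fin r)
    (q : Ms (fA f A) s) : Ms f s :=
  ⟨(mem_lift f A s q.1 q.2).choose, (mem_lift f A s q.1 q.2).choose_spec.1⟩

private theorem chL_spec {k : ℕ} (s : Fin k → Fin r) (q : Ms (fA f A) s) :
    algebraMap S A (chL f A s q).1 = q.1 := (mem_lift f A s q.1 q.2).choose_spec.2

variable {N : Type u} [AddCommGroup N] [Module S N] (ρ : A →ₗ[S] N)

private theorem wd {k : ℕ} (s : Fin k → Fin r) {a a' : A} {q q' : Ms (fA f A) s}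
    {m m' : Ms f s} (hm : algebraMap S A m.1 = q.1) (hm' : algebraMap S A m'.1 = q'.1)
    (h : LocalizedModule.mk a q = LocalizedModule.mk a' q') :
    LocalizedModule.mk (ρ a) m = LocalizedModule.mk (ρ a') m' := by
  rw [LocalizedModule.mk_eq] at h ⊢
  obtain ⟨u, hu⟩ := h
  obtain ⟨v, hv, hvu⟩ := mem_lift f A s u.1 u.2
  refine ⟨⟨v, hv⟩, ?_⟩
  simp only [Submonoid.smul_def, smul_eq_mul] at hu ⊢
  rw [← hvu, ← hm, ← hm'] at hu
  have h1 := congrArg ρ hu
  simp only [← Algebra.smul_def, map_smul] at h1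
  exact h1

/-- the map on the localisation at `s` -/
private def DD {k : ℕ} (s : Fin k → Fin r) (x : LocalizedModule (Ms (fA f A) s) A) :
    LocalizedModule (Ms f s) N :=
  x.liftOn (fun w => LocalizedModule.mk (ρ w.1) (chL f A s w.2)) (by
    rintro ⟨a, q⟩ ⟨a', q'⟩ h
    exact wd f ρ s (chL_spec f s q) (chL_spec f s q') (LocalizedModule.mk_eq.2 h))

private theorem DD_mk {k : ℕ} (s : Fin k → Fin r) (a : A) (q : Ms (fA f A) s) (m : Ms f s)
    (hm : algebraMap S A m.1 = q.1) :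
    DD f ρ s (LocalizedModule.mk a q) = LocalizedModule.mk (ρ a) m := by
  have h1 : DD f ρ s (LocalizedModule.mk a q) = LocalizedModule.mk (ρ a) (chL f A s q) :=
    LocalizedModule.liftOn_mk _ a q
  rw [h1]
  exact wd f ρ s (chL_spec f s q) hm rfl

private theorem ind {k : ℕ} (s : Fin k → Fin r) (x : LocalizedModule (Ms (fA f A) s) A) :
    ∃ (a : A) (m : Ms f s), x = LocalizedModule.mk a ⟨algebraMap S A m.1, map_mem f A s m.2⟩ := by
  induction x using LocalizedModule.induction_on with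
  | h a q =>
    refine ⟨a, chL f A s q, ?_⟩
    congr 1
    exact Subtype.ext (chL_spec f s q).symm

private theorem DD_add {k : ℕ} (s : Fin k → Fin r) (x y : LocalizedModule (Ms (fA f A) s) A) :
    DD f ρ s (x + y) = DD f ρ s x + DD f ρ s y := by
  obtain ⟨a, m, rfl⟩ := ind f s x
  obtain ⟨a', m', rfl⟩ := ind f s y
  rw [LocalizedModule.mk_add_mk, DD_mk f ρ s a _ m rfl, DD_mk f ρ s a' _ m' rfl,
    LocalizedModule.mk_add_mk, DD_mk f ρ s _ _ (m * m') (by
      simp only [Submonoid.coe_mul, map_mul])]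
  congr 1
  simp only [Submonoid.smul_def, smul_eq_mul, map_add, ← Algebra.smul_def, map_smul]

private theorem DD_smul {k : ℕ} (s : Fin k → Fin r) (b : S)
    (x : LocalizedModule (Ms (fA f A) s) A) :
    DD f ρ s (algebraMap S A b • x) = b • DD f ρ s x := by
  obtain ⟨a, m, rfl⟩ := ind f s x
  rw [LocalizedModule.smul'_mk, DD_mk f ρ s a _ m rfl, DD_mk f ρ s _ _ m rfl,
    LocalizedModule.smul'_mk, smul_eq_mul, ← Algebra.smul_def, map_smul]

private theorem DD_res {k l : ℕ} (s : Fin l → Fin r) (t : Fin k → Fin l)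
    (x : LocalizedModule (Ms (fA f A) (s ∘ t)) A) :
    DD f ρ s (res A (Ms_comp_le (fA f A) s t) x) = res N (Ms_comp_le f s t) (DD f ρ (s ∘ t) x) := by
  obtain ⟨a, m, rfl⟩ := ind f (s ∘ t) x
  rw [res_mk, DD_mk f ρ (s ∘ t) a _ m rfl, res_mk,
    DD_mk f ρ s a _ ⟨m.1, Ms_comp_le f s t m.2⟩ rfl]

/-- DESCENT.  An `S`-linear map `ρ : A → N` induces maps of Čech complexes
`C_A(A) → C_S(N)`: the localisation of `A` at `Ms (fA f A) s = (Ms f s).map (algebraMap S A)` is also the
localisation of the `S`-module `A` at `Ms f s`; `n / φ(m) ↦ ρ(n) / m`. -/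
theorem exists_desc {N : Type u} [AddCommGroup N] [Module S N] (ρ : A →ₗ[S] N) :
    ∃ ψ : ∀ k, Cc (fA f A) A k →+ Cc f N k,
      (∀ k z, dC f N k (ψ k z) = ψ (k + 1) (dC (fA f A) A k z)) ∧
      (∀ (M : Type u) [AddCommGroup M] [Module S M] (θ : M →ₛₗ[algebraMap S A] A)
        (g : M →ₗ[S] N), (∀ y, g y = ρ (θ y)) → ∀ k (z : Cc f M k),
          ψ k (cmap (fA_mem f) θ k z) = lc f g k z) := by
  let Dh : ∀ {k : ℕ} (s : Fin k → Fin r),
      LocalizedModule (Ms (fA f A) s) A →+ LocalizedModule (Ms f s) N :=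
    fun {k} s => AddMonoidHom.mk' (DD f ρ s) (DD_add f ρ s)
  refine ⟨fun k => AddMonoidHom.mk' (fun z s => Dh s (z s)) ?_, ?_, ?_⟩
  · intro z w
    funext s
    exact map_add (Dh s) _ _
  · intro k z
    funext s
    rw [dC_apply]
    change _ = Dh s (dC (fA f A) A k z s)
    rw [dC_apply, map_sum]
    refine Finset.sum_congr rfl fun i _ => ?_
    change _ = DD f ρ s _
    have h1 : ((-1 : A) ^ (i : ℕ)) = algebraMap S A ((-1 : S) ^ (i : ℕ)) := by
      rw [map_pow, map_neg, map_one]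
    rw [h1, DD_smul, DD_res]
    rfl
  · intro M _ _ θ g hg k z
    funext s
    change DD f ρ s (lmap (Ms_map (fA_mem f) s) θ (z s)) = _
    obtain ⟨y, m, hym⟩ : ∃ (y : M) (m : Ms f s), z s = LocalizedModule.mk y m := by
      induction z s using LocalizedModule.induction_on with
      | h y m => exact ⟨y, m, rfl⟩
    rw [lc_mk f g k z s y m hym, hym, lmap_mk, DD_mk f ρ s _ _ m rfl, hg]

end

end Pool.Agent.Lib.MP_f251fc_ag
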