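import Pool.Agent.Lib.MP_f251fc_ag.CoreB
import Pool.Agent.Lib.MP_f251fc_ag.Desc

/-! # Consequences for `Sb` and `S` -/

set_option autoImplicit false

namespace Pool.Agent.Lib.MP_f251fc_ag

noncomputable section

universe u

variable {p : ℕ} [Fact p.Prime] {m : ℕ} {S Sb A : Type u} [CommRing S] [AddCommGroup Sb]
  [Module S Sb] [CommRing A] [CharP A p] [Algebra S A] (U : Setup p m S Sb A)
  {r : ℕ} (f : Fin r → S)

variable [IsNoetherianRing S] [IsNoetherianRing A]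
  (G : Cplx S) (hG : G.IsEx) (hspan : Ideal.span (Set.range G.g) = Ideal.span (Set.range f))
  (P : Cplx A) (hP : P.IsEx)
  (hPspan : Ideal.span (Set.range P.g) = Ideal.span (Set.range (fA f A)))

include hG hspan hP hPspan

omit [IsNoetherianRing S] [IsNoetherianRing A] hG hspan hP hPspan in
private theorem CoreC_cls_surjective {B : Type u} [CommRing B] {r : ℕ} (f : Fin r → B)
    (N : Type u) [AddCommGroup N] [Module B N] (k : ℕ) :
    Function.Surjective (cls f N k) := Submodule.mkQ_surjective _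

omit [IsNoetherianRing S] [IsNoetherianRing A] hG hspan hP hPspan in
private theorem CoreC_of_cls_eq {B : Type u} [CommRing B] {r : ℕ} (f : Fin r → B)
    (N : Type u) [AddCommGroup N] [Module B N] (k : ℕ) (z z' : Zc f N (k + 1))
    (h : cls f N (k + 1) z = cls f N (k + 1) z') :
    ∃ y, dC f N k y = (z : Cc f N (k + 1)) - (z' : Cc f N (k + 1)) := by
  have h1 := (Submodule.Quotient.eq _).1 h
  exact h1

omit [IsNoetherianRing S] in
include U in
/-- vanishing for `Sb`: `z ∈ Z(Sb)`, `ι z = dC y`, `z = ψ (ι z) = dC (ψ y)` -/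
theorem vanish_Sb (j : ℕ) (hj : G.b j = 0) : Zc f Sb (j + 1) ≤ Bc f Sb (j + 1) := by
  intro z hz
  obtain ⟨ψ, h1, h2⟩ := exists_desc f U.ρ
  obtain ⟨y, hy⟩ := vanish_A U f G hG hspan P hP hPspan j hj (cmap_mem_Zc (fA_mem f) U.ι hz)
  refine ⟨ψ j y, ?_⟩
  rw [h1, hy, h2 Sb U.ι LinearMap.id (fun y => (U.ρι y).symm), lc_id]

omit [IsNoetherianRing S] in
/-- surjectivity: `ι z = ∑ a_j • φ(z_j) + dC y`; apply `ψ`: `ψ (a • φ z_j) = lc g_a z_j`,
`g_a s = ρ (a φ(s)) = π (r_a s)` where `π r_a = ρ a` -/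
theorem surj_Sb (c : ℕ) (hc : G.b (c + 1) = 0) {z : Cc f Sb (c + 1)} (hz : z ∈ Zc f Sb (c + 1)) :
    ∃ w ∈ Zc f S (c + 1), z - lc f U.π (c + 1) w ∈ Bc f Sb (c + 1) := by
  obtain ⟨ψ, h1, h2⟩ := exists_desc f U.ρ
  have key : ∀ x ∈ TA f A (c + 1), ∀ (a : A) (Z : Zc (fA f A) A (c + 1)),
      cls (fA f A) A (c + 1) Z = x → ∃ w ∈ Zc f S (c + 1),
        ψ (c + 1) (a • (Z : Cc (fA f A) A (c + 1))) - lc f U.π (c + 1) w ∈ Bc f Sb (c + 1) := by
    intro x hx
    refine Submodule.span_induction (p := fun x _ => ∀ (a : A) (Z : Zc (fA f A) A (c + 1)),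
      cls (fA f A) A (c + 1) Z = x → ∃ w ∈ Zc f S (c + 1),
        ψ (c + 1) (a • (Z : Cc (fA f A) A (c + 1))) - lc f U.π (c + 1) w ∈ Bc f Sb (c + 1))
      ?_ ?_ ?_ ?_ hx
    · rintro _ ⟨w, rfl⟩ a Z hZ
      obtain ⟨w₀, rfl⟩ := CoreC_cls_surjective f S (c + 1) w
      obtain ⟨y, hy⟩ := CoreC_of_cls_eq (fA f A) A c Z
        ⟨cmap (fA_mem f) (algL S A) (c + 1) w₀, cmap_mem_Zc _ _ w₀.2⟩ hZ
      obtain ⟨r, hr⟩ := U.π_surj (U.ρ a)
      refine ⟨r • (w₀ : Cc f S (c + 1)), Submodule.smul_mem _ _ w₀.2, ψ c (a • y), ?_⟩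
      have h3 : a • (Z : Cc (fA f A) A (c + 1)) =
          cmap (fA_mem f) (a • algL S A) (c + 1) (w₀ : Cc f S (c + 1)) +
            dC (fA f A) A c (a • y) := by
        rw [cmap_smul_left, map_smul, hy, smul_sub]
        exact (add_sub_cancel _ _).symm
      have h4 : ψ (c + 1) (cmap (fA_mem f) (a • algL S A) (c + 1) (w₀ : Cc f S (c + 1))) =
          lc f U.π (c + 1) (r • (w₀ : Cc f S (c + 1))) := by
        rw [h2 S (a • algL S A) (r • U.π), lc_smul, map_smul]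
        intro y
        change r • U.π y = U.ρ (a * algebraMap S A y)
        rw [mul_comm, ← Algebra.smul_def, map_smul, ← hr, ← map_smul, ← map_smul, smul_eq_mul,
          smul_eq_mul, mul_comm]
      rw [h3, map_add, h4, ← h1, add_sub_cancel_left]
    · intro a Z hZ
      obtain ⟨y, hy⟩ := CoreC_of_cls_eq (fA f A) A c Z 0 (hZ.trans (map_zero _).symm)
      refine ⟨0, Submodule.zero_mem _, ψ c (a • y), ?_⟩
      have hy' : dC (fA f A) A c y = (Z : Cc (fA f A) A (c + 1)) := by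
        rw [hy]
        exact sub_zero _
      rw [h1, map_smul, hy', map_zero, sub_zero]
    · intro x x' _ _ hx hx' a Z hZ
      obtain ⟨Z₁, hZ₁⟩ := CoreC_cls_surjective (fA f A) A (c + 1) x
      obtain ⟨w, hw, hb⟩ := hx a Z₁ hZ₁
      obtain ⟨w', hw', hb'⟩ := hx' a (Z - Z₁) (by rw [map_sub, hZ, hZ₁, add_sub_cancel_left])
      refine ⟨w + w', Submodule.add_mem _ hw hw', ?_⟩
      have h5 := Submodule.add_mem _ hb hb'
      have h6 : ψ (c + 1) (a • (Z : Cc (fA f A) A (c + 1))) - lc f U.π (c + 1) (w + w') =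
          ψ (c + 1) (a • (Z₁ : Cc (fA f A) A (c + 1))) - lc f U.π (c + 1) w +
          (ψ (c + 1) (a • ((Z - Z₁ : Zc (fA f A) A (c + 1)) : Cc (fA f A) A (c + 1))) -
            lc f U.π (c + 1) w') := by
        rw [Submodule.coe_sub, smul_sub, map_sub, map_add]
        abel
      rw [h6]
      exact h5
    · intro b x _ hx a Z hZ
      obtain ⟨Z₁, hZ₁⟩ := CoreC_cls_surjective (fA f A) A (c + 1) x
      obtain ⟨w, hw, hb⟩ := hx (a * b) Z₁ hZ₁
      obtain ⟨y, hy⟩ := CoreC_of_cls_eq (fA f A) A c Z (b • Z₁) (by rw [hZ, map_smul, hZ₁])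
      refine ⟨w, hw, ?_⟩
      have h6 : ψ (c + 1) (a • (Z : Cc (fA f A) A (c + 1))) - lc f U.π (c + 1) w =
          ψ (c + 1) ((a * b) • (Z₁ : Cc (fA f A) A (c + 1))) - lc f U.π (c + 1) w +
          dC f Sb c (ψ c (a • y)) := by
        rw [h1, map_smul (dC (fA f A) A c), hy, smul_sub, map_sub, mul_smul]
        change _ = _ + (_ - ψ (c + 1) (a • (b • (Z₁ : Cc (fA f A) A (c + 1)))))
        abel
      rw [h6]
      exact Submodule.add_mem _ hb ⟨_, rfl⟩
  have h3 : cmap (fA_mem f) U.ι (c + 1) z ∈ Zc (fA f A) A (c + 1) :=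
    cmap_mem_Zc (fA_mem f) U.ι hz
  obtain ⟨w, hw, hb⟩ := key (cls (fA f A) A (c + 1) ⟨_, h3⟩)
    (by rw [TA_eq_top U f G hG hspan P hP hPspan c hc]; exact Submodule.mem_top) 1 ⟨_, h3⟩ rfl
  refine ⟨w, hw, ?_⟩
  have h4 : ψ (c + 1) ((1 : A) • cmap (fA_mem f) U.ι (c + 1) z) = z := by
    rw [one_smul, h2 Sb U.ι LinearMap.id (fun y => (U.ρι y).symm), lc_id]
  rw [← h4]
  convert hb using 3

end

end Pool.Agent.Lib.MP_f251fc_ag
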