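import Pool.Agent.Lib.MP_f251fc_ag.CoreC

/-! # Multiplication by `p` on the cohomology above the codimension -/

set_option autoImplicit false

namespace Pool.Agent.Lib.MP_f251fc_ag

noncomputable section

universe u

variable {p : ℕ} [Fact p.Prime] {m : ℕ} {S Sb A : Type u} [CommRing S] [AddCommGroup Sb]
  [Module S Sb] [CommRing A] [CharP A p] [Algebra S A] (U : Setup p m S Sb A)
  {r : ℕ} (f : Fin r → S)

variable [IsNoetherianRing S] [IsNoetherianRing A]
  (G : Cplx S) (hG : G.IsEx) (hspan : Ideal.span (Set.range G.g) = Ideal.span (Set.range f))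
  (P : Cplx A) (hP : P.IsEx)
  (hPspan : Ideal.span (Set.range P.g) = Ideal.span (Set.range (fA f A)))

include hG hspan hP hPspan

omit [IsNoetherianRing S] [IsNoetherianRing A] hG hspan hP hPspan in
include U in
private theorem CoreP_inj : Function.Injective ((p : S) • (LinearMap.id : S →ₗ[S] S)) := by
  intro s t h
  have h1 : (p : S) * s = (p : S) * t := h
  have h2 := U.p_reg (s - t) (by rw [mul_sub, h1, sub_self])
  exact sub_eq_zero.1 h2

omit [IsNoetherianRing S] [IsNoetherianRing A] hG hspan hP hPspan in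
private theorem CoreP_exact :
    Function.Exact ((p : S) • (LinearMap.id : S →ₗ[S] S)) U.π := by
  intro s
  rw [U.π_ker]
  constructor
  · rintro ⟨t, rfl⟩
    exact ⟨t, rfl⟩
  · rintro ⟨t, rfl⟩
    exact ⟨t, rfl⟩

omit [IsNoetherianRing S] [IsNoetherianRing A] hG hspan hP hPspan in
private theorem CoreP_pi (k : ℕ) (z : Cc f S k) : lc f U.π k ((p : S) • z) = 0 := by
  rw [map_smul, ← lc_smul]
  have h : (p : S) • U.π = 0 := by
    ext
    change (p : S) • U.π 1 = 0
    rw [← map_smul, U.π_ker]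
    exact ⟨1, rfl⟩
  rw [h, lc_zero]

include U in
/-- multiplication by `p` is bijective on the cohomology of `S` above degree `c + 1`, if
`G.b j = 0` for all `j > c`.  Elementwise: if `p • z = dC w`, then `π w` is a cocycle of degree `j - 1 ≥ c + 1` of
`Sb`, so `π w = π w₁ + dC (π w₂)` with a cocycle `w₁` (`surj_Sb`, `vanish_Sb`), `w - w₁ - dC w₂ = p • w₃`
and `z = dC w₃` (`p` is injective on `Cc f S j`).  If `z ∈ Zc f S j` then `π z = dC (π w)`
(`vanish_Sb`), `z - dC w = p • z'`. -/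
theorem p_bijective (c : ℕ) (hc : ∀ j, c < j → G.b j = 0) (j : ℕ) (hj : c + 1 < j) :
    Function.Bijective fun z : Hc f S j => (p : S) • z := by
  obtain ⟨k, rfl⟩ : ∃ k, j = k + 2 := ⟨j - 2, by omega⟩
  have hk : c ≤ k := by omega
  have hinj := fun i => lc_injective f (CoreP_inj U) i
  have hmul : ∀ (i : ℕ) (z : Cc f S i),
      lc f ((p : S) • (LinearMap.id : S →ₗ[S] S)) i z = (p : S) • z := by
    intro i z
    rw [lc_smul, lc_id]
  constructor
  · intro x x' hxx
    obtain ⟨y, hy⟩ : ∃ y, x - x' = cls f S (k + 2) y := by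
      obtain ⟨y, hy⟩ := Submodule.mkQ_surjective _ (x - x')
      exact ⟨y, hy.symm⟩
    have h1 : cls f S (k + 2) ((p : S) • y) = 0 := by
      rw [map_smul, ← hy, smul_sub]
      exact sub_eq_zero.2 hxx
    have h1' := (Submodule.Quotient.mk_eq_zero _).1 h1
    obtain ⟨w, hw⟩ : ∃ w, dC f S (k + 1) w = (p : S) • (y : Cc f S (k + 2)) := h1'
    have h2 : lc f U.π (k + 1) w ∈ Zc f Sb (k + 1) := by
      rw [mem_Zc, lc_dC, hw, CoreP_pi U f]
    obtain ⟨w₁, hw₁, u, hu⟩ : ∃ w₁ ∈ Zc f S (k + 1), ∃ u,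
        dC f Sb k u = lc f U.π (k + 1) w - lc f U.π (k + 1) w₁ := by
      rcases Nat.eq_or_lt_of_le hk with h | h
      · subst h
        obtain ⟨w₁, hw₁, u, hu⟩ := surj_Sb U f G hG hspan P hP hPspan c (hc _ (by omega)) h2
        exact ⟨w₁, hw₁, u, hu⟩
      · obtain ⟨u, hu⟩ := vanish_Sb U f G hG hspan P hP hPspan k (hc _ h) h2
        exact ⟨0, Submodule.zero_mem _, u, by rw [hu, map_zero, sub_zero]⟩
    obtain ⟨u', rfl⟩ := lc_surjective f U.π_surj k u
    rw [lc_dC] at hu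
    have h3 : lc f U.π (k + 1) (w - w₁ - dC f S k u') = 0 := by
      rw [map_sub, map_sub, hu, sub_self]
    obtain ⟨w₃, hw₃⟩ := (lc_exact f (CoreP_exact U) (k + 1) _).1 h3
    have h4 : lc f ((p : S) • (LinearMap.id : S →ₗ[S] S)) (k + 2) (dC f S (k + 1) w₃) =
        lc f ((p : S) • (LinearMap.id : S →ₗ[S] S)) (k + 2) (y : Cc f S (k + 2)) := by
      rw [← lc_dC, hw₃, map_sub, map_sub, dC_dC, sub_zero, hw, (mem_Zc f S w₁).1 hw₁, sub_zero,
        hmul]
    have h5 := hinj _ h4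
    have h6 : cls f S (k + 2) y = 0 := (Submodule.Quotient.mk_eq_zero _).2 ⟨w₃, h5⟩
    exact sub_eq_zero.1 (hy.trans h6)
  · intro x
    obtain ⟨z, rfl⟩ := Submodule.mkQ_surjective _ x
    have h1 := lc_mem_Zc f U.π z.2
    obtain ⟨u, hu⟩ := vanish_Sb U f G hG hspan P hP hPspan (k + 1) (hc _ (by omega)) h1
    obtain ⟨u', rfl⟩ := lc_surjective f U.π_surj (k + 1) u
    have h3 : lc f U.π (k + 2) ((z : Cc f S (k + 2)) - dC f S (k + 1) u') = 0 := by
      rw [map_sub, ← lc_dC f U.π, hu, sub_self]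
    obtain ⟨z', hz'⟩ := (lc_exact f (CoreP_exact U) (k + 2) _).1 h3
    have h4 : z' ∈ Zc f S (k + 2) := by
      rw [mem_Zc]
      refine hinj _ ?_
      rw [← lc_dC, hz', map_sub, dC_dC, sub_zero, (mem_Zc f S _).1 z.2, map_zero]
    refine ⟨cls f S (k + 2) ⟨z', h4⟩, ?_⟩
    change (p : S) • cls f S (k + 2) ⟨z', h4⟩ = cls f S (k + 2) z
    rw [← map_smul]
    refine (Submodule.Quotient.eq _).2 ?_
    change (p : S) • z' - (z : Cc f S (k + 2)) ∈ Bc f S (k + 2)
    rw [← hmul, hz', sub_sub_cancel_left]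
    exact Submodule.neg_mem _ ⟨u', rfl⟩

end

end Pool.Agent.Lib.MP_f251fc_ag
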