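import Pool.Agent.Lib.MP_f251fc_ag.PSSetup
import Pool.Agent.Lib.MP_f251fc_ag.CoreP

/-! # `p` acts bijectively on the cohomology above the codimension -/

set_option autoImplicit false

namespace Pool.Agent.Lib.MP_f251fc_ag

open IsLocalRing

noncomputable section

universe u

/-- from `exists_setup`, `exists_modRes` and `exists_cplx` (for the ideal of `A` generated by `f`),
and `p_bijective` -/
theorem p_bijective_V (p : ℕ) [Fact p.Prime] (V : Type u) [CommRing V] [IsDomain V]
    [IsDiscreteValuationRing V] (hV : maximalIdeal V = Ideal.span {(p : V)}) (m : ℕ) {r : ℕ}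
    (f : Fin r → MvPowerSeries (Fin m) V) (G : Cplx (MvPowerSeries (Fin m) V)) (hG : G.IsEx)
    (hspan : Ideal.span (Set.range G.g) = Ideal.span (Set.range f)) (c : ℕ)
    (hc : ∀ j, c < j → G.b j = 0) (j : ℕ) (hj : c + 1 < j) :
    Function.Bijective fun z : Hc f (MvPowerSeries (Fin m) V) j =>
      (p : MvPowerSeries (Fin m) V) • z := by
  obtain ⟨Sb, A, i1, i2, i3, i4, i5, hN, ⟨U⟩⟩ := exists_setup p V hV m
  obtain ⟨R⟩ := exists_modRes A (Ideal.span (Set.range (fA f A)))
  obtain ⟨P, hP, hPspan, -⟩ := exists_cplx (Ideal.span (Set.range (fA f A))) R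
  exact p_bijective U f G hG hspan P hP hPspan c hc j hj

end

end Pool.Agent.Lib.MP_f251fc_ag
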