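import Pool.Agent.Lib.MP_f251fc_ag.CechL

/-! # `Ext` from `K`: basic long exact sequence consequences -/

set_option autoImplicit false

namespace Pool.Agent.Lib.MP_f251fc_ag

open CategoryTheory

noncomputable section

universe u

/-- `Ext^i_S(K, N)` -/
abbrev EX (S : Type u) [CommRing S] (K N : Type u) [AddCommGroup K] [Module S K] [AddCommGroup N]
    [Module S N] (i : ℕ) : Type u :=
  Abelian.Ext (ModuleCat.of S K) (ModuleCat.of S N) i

variable {S : Type u} [CommRing S] (K : Type u) [AddCommGroup K] [Module S K]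
  {N N' N'' : Type u} [AddCommGroup N] [Module S N] [AddCommGroup N'] [Module S N']
  [AddCommGroup N''] [Module S N'']

/-- postcomposition with a linear map -/
def ExtA_pc (f : N →ₗ[S] N') (i : ℕ) : EX S K N i →ₗ[S] EX S K N' i :=
  Abelian.Ext.postcompOfLinear (Abelian.Ext.mk₀ (ModuleCat.ofHom f)) S (ModuleCat.of S K)
    (add_zero i)

theorem ExtA_pc_apply (f : N →ₗ[S] N') (i : ℕ) (x : EX S K N i) :
    ExtA_pc K f i x = Abelian.Ext.comp x (Abelian.Ext.mk₀ (ModuleCat.ofHom f)) (add_zero i) := rfl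

theorem ExtA_pc_comp (f : N →ₗ[S] N') (f' : N' →ₗ[S] N'') (i : ℕ) (x : EX S K N i) :
    ExtA_pc K f' i (ExtA_pc K f i x) = ExtA_pc K (f' ∘ₗ f) i x := by
  rw [ExtA_pc_apply, ExtA_pc_apply, ExtA_pc_apply, Abelian.Ext.comp_assoc_of_third_deg_zero,
    Abelian.Ext.mk₀_comp_mk₀, ← ModuleCat.ofHom_comp]

theorem ExtA_pc_id (i : ℕ) (x : EX S K N i) : ExtA_pc K (LinearMap.id : N →ₗ[S] N) i x = x := by
  rw [ExtA_pc_apply, ModuleCat.ofHom_id, Abelian.Ext.comp_mk₀_id]

theorem ExtA_pc_add (f f' : N →ₗ[S] N') (i : ℕ) (x : EX S K N i) :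
    ExtA_pc K (f + f') i x = ExtA_pc K f i x + ExtA_pc K f' i x := by
  rw [ExtA_pc_apply, ExtA_pc_apply, ExtA_pc_apply, ModuleCat.ofHom_add, Abelian.Ext.mk₀_add,
    Abelian.Ext.comp_add]

theorem ExtA_pc_zero (i : ℕ) (x : EX S K N i) : ExtA_pc K (0 : N →ₗ[S] N') i x = 0 := by
  rw [ExtA_pc_apply, ModuleCat.ofHom_zero, Abelian.Ext.mk₀_zero, Abelian.Ext.comp_zero]

theorem ExtA_pc_sum {ι : Type} (s : Finset ι) (f : ι → N →ₗ[S] N') (i : ℕ) (x : EX S K N i) :
    ExtA_pc K (∑ j ∈ s, f j) i x = ∑ j ∈ s, ExtA_pc K (f j) i x := by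
  classical
  induction s using Finset.induction_on with
  | empty => rw [Finset.sum_empty, Finset.sum_empty, ExtA_pc_zero]
  | insert j s hj ih => rw [Finset.sum_insert hj, Finset.sum_insert hj, ExtA_pc_add, ih]

theorem ExtA_pc_smul (t : S) (i : ℕ) (x : EX S K N i) :
    ExtA_pc K (t • (LinearMap.id : N →ₗ[S] N)) i x = t • x := by
  rw [ExtA_pc_apply, Abelian.Ext.smul_eq_comp_mk₀]
  rfl

/-- an element that kills `K` kills the `Ext` -/
theorem ExtA_smul_zero (t : S) (hK : ∀ x : K, t • x = 0) (i : ℕ) (x : EX S K N i) : t • x = 0 := by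
  have h1 : (t • 𝟙 (ModuleCat.of S K)) = 0 := by
    ext a
    exact hK a
  rw [← Abelian.Ext.mk₀_id_comp x, ← Abelian.Ext.smul_comp, ← Abelian.Ext.mk₀_smul, h1,
    Abelian.Ext.mk₀_zero, Abelian.Ext.zero_comp]

/-- isomorphic coefficients -/
theorem ex_congr (e : N ≃ₗ[S] N') (i : ℕ) : Nonempty (EX S K N i ≃ₗ[S] EX S K N' i) := by
  refine ⟨LinearEquiv.ofLinearMap (ExtA_pc K e.toLinearMap i) (ExtA_pc K e.symm.toLinearMap i) ?_ ?_⟩
  · ext x
    rw [LinearMap.comp_apply, ExtA_pc_comp, LinearEquiv.comp_symm, ExtA_pc_id, LinearMap.id_apply]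
  · ext x
    rw [LinearMap.comp_apply, ExtA_pc_comp, LinearEquiv.symm_comp, ExtA_pc_id, LinearMap.id_apply]

/-- if `t` kills `K` and acts bijectively on `N` then `Ext^i(K, N) = 0` -/
theorem ex_zero_of_bijective (t : S) (hK : ∀ x : K, t • x = 0)
    (hN : Function.Bijective fun n : N => t • n) (i : ℕ) : Subsingleton (EX S K N i) := by
  let e : N ≃ₗ[S] N := LinearEquiv.ofBijective (t • (LinearMap.id : N →ₗ[S] N)) hN
  refine ⟨fun x y => ?_⟩
  have h : ∀ x : EX S K N i, x = 0 := by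
    intro x
    have h1 : ExtA_pc K e.toLinearMap i x = 0 := by
      have h2 : e.toLinearMap = t • (LinearMap.id : N →ₗ[S] N) := by
        ext n
        rfl
      rw [h2, ExtA_pc_smul, ExtA_smul_zero K t hK]
    rw [← ExtA_pc_id K i x, ← LinearEquiv.symm_comp e, ← ExtA_pc_comp, h1, map_zero]
  rw [h x, h y]

/-- if the identity of `N` is a finite sum of maps through modules with vanishing `Ext` -/
theorem ex_zero_of_sum {ι : Type} [Fintype ι] (M : ι → Type u) [∀ i, AddCommGroup (M i)]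
    [∀ i, Module S (M i)] (j : ℕ) (hM : ∀ i, Subsingleton (EX S K (M i) j))
    (a : ∀ i, N →ₗ[S] M i) (b : ∀ i, M i →ₗ[S] N) (h : ∑ i, b i ∘ₗ a i = LinearMap.id) :
    Subsingleton (EX S K N j) := by
  refine ⟨fun x y => ?_⟩
  have h0 : ∀ x : EX S K N j, x = 0 := by
    intro x
    rw [← ExtA_pc_id K j x, ← h, ExtA_pc_sum]
    refine Finset.sum_eq_zero fun i _ => ?_
    rw [← ExtA_pc_comp, (hM i).elim (ExtA_pc K (a i) j x) 0, map_zero]
  rw [h0 x, h0 y]

variable {g : N →ₗ[S] N'} {g' : N' →ₗ[S] N''} (hg : Function.Injective g)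
  (hex : Function.Exact g g') (hg' : Function.Surjective g')

/-- the short complex -/
def ExtA_sc (g : N →ₗ[S] N') (g' : N' →ₗ[S] N'') (hex : Function.Exact g g') :
    ShortComplex (ModuleCat.{u} S) :=
  ShortComplex.mk (ModuleCat.ofHom g) (ModuleCat.ofHom g') (by
    rw [← ModuleCat.ofHom_comp, hex.linearMap_comp_eq_zero, ModuleCat.ofHom_zero])

include hg hex hg'

theorem ExtA_shortExact : (ExtA_sc g g' hex).ShortExact where
  exact := (CategoryTheory.ShortComplex.ShortExact.moduleCat_exact_iff_function_exact _).2 hex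
  mono_f := (ModuleCat.mono_iff_injective _).2 hg
  epi_g := (ModuleCat.epi_iff_surjective _).2 hg'

theorem ex_zero_left (h : Subsingleton (EX S K N' 0)) : Subsingleton (EX S K N 0) := by
  have hS := ExtA_shortExact hg hex hg'
  refine ⟨fun x y => ?_⟩
  have hm : Mono (ModuleCat.ofHom g) := (ModuleCat.mono_iff_injective _).2 hg
  exact Abelian.Ext.postcomp_mk₀_injective_of_mono (ModuleCat.of S K) (ModuleCat.ofHom g)
    (h.elim _ _)

/-- middle term zero: `Ext^i(K, N'') ≅ Ext^(i+1)(K, N)` -/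
theorem ex_shift (h : ∀ i, Subsingleton (EX S K N' i)) (i : ℕ) :
    Nonempty (EX S K N'' i ≃ₗ[S] EX S K N (i + 1)) := by
  have hS := ExtA_shortExact hg hex hg'
  refine ⟨LinearEquiv.ofBijective (Abelian.Ext.postcompOfLinear hS.extClass S (ModuleCat.of S K)
    (rfl : i + 1 = i + 1)) ⟨?_, ?_⟩⟩
  · rw [injective_iff_map_eq_zero]
    intro x hx
    obtain ⟨y, hy⟩ := Abelian.Ext.covariant_sequence_exact₃ (ModuleCat.of S K) hS x
      (rfl : i + 1 = i + 1) hx
    have hy0 : y = 0 := (h i).elim y 0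
    rw [← hy, hy0, Abelian.Ext.zero_comp]
  · intro x
    obtain ⟨y, hy⟩ := Abelian.Ext.covariant_sequence_exact₁ (ModuleCat.of S K) hS x
      ((h (i + 1)).elim _ _) (rfl : i + 1 = i + 1)
    exact ⟨y, hy⟩

/-- right term zero -/
theorem ex_left (h : ∀ i, Subsingleton (EX S K N'' i)) (i : ℕ) :
    Nonempty (EX S K N i ≃ₗ[S] EX S K N' i) := by
  have hS := ExtA_shortExact hg hex hg'
  refine ⟨LinearEquiv.ofBijective (ExtA_pc K g i) ⟨?_, ?_⟩⟩
  · rcases i with _ | i
    · have hm : Mono (ModuleCat.ofHom g) := (ModuleCat.mono_iff_injective _).2 hg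
      exact Abelian.Ext.postcomp_mk₀_injective_of_mono (ModuleCat.of S K) (ModuleCat.ofHom g)
    · rw [injective_iff_map_eq_zero]
      intro x hx
      obtain ⟨y, hy⟩ := Abelian.Ext.covariant_sequence_exact₁ (ModuleCat.of S K) hS x
        hx (rfl : i + 1 = i + 1)
      have hy0 : y = 0 := (h i).elim y 0
      rw [← hy, hy0, Abelian.Ext.zero_comp]
      rfl
  · intro x
    obtain ⟨y, hy⟩ := Abelian.Ext.covariant_sequence_exact₂ (ModuleCat.of S K) hS x
      ((h i).elim _ _)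
    exact ⟨y, hy⟩

/-- left term zero -/
theorem ex_right (h : ∀ i, Subsingleton (EX S K N i)) (i : ℕ) :
    Nonempty (EX S K N' i ≃ₗ[S] EX S K N'' i) := by
  have hS := ExtA_shortExact hg hex hg'
  refine ⟨LinearEquiv.ofBijective (ExtA_pc K g' i) ⟨?_, ?_⟩⟩
  · rw [injective_iff_map_eq_zero]
    intro x hx
    obtain ⟨y, hy⟩ := Abelian.Ext.covariant_sequence_exact₂ (ModuleCat.of S K) hS x hx
    have hy0 : y = 0 := (h i).elim y 0
    rw [← hy, hy0, Abelian.Ext.zero_comp]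
    rfl
  · intro x
    obtain ⟨y, hy⟩ := Abelian.Ext.covariant_sequence_exact₃ (ModuleCat.of S K) hS x
      (rfl : i + 1 = i + 1) ((h (i + 1)).elim _ _)
    exact ⟨y, hy⟩

end

end Pool.Agent.Lib.MP_f251fc_ag
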