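import Pool.Agent.Lib.MP_f251fc_ag.ExtA

/-! # `Ext` of `K` with the only interesting Čech cohomology module -/

set_option autoImplicit false

namespace Pool.Agent.Lib.MP_f251fc_ag

open CategoryTheory

noncomputable section

universe u

variable {S : Type u} [CommRing S] (K : Type u) [AddCommGroup K] [Module S K] {r : ℕ}
  (f : Fin r → S) (hK : ∀ i, ∀ x : K, f i • x = 0)

section aux

omit K f hK
variable {S : Type u} [CommRing S] {r : ℕ} (f : Fin r → S) (j : ℕ)

private theorem ExtB_subtype_injective : Function.Injective (Zc f S j).subtype :=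
  Submodule.subtype_injective _

private theorem ExtB_dC_surjective :
    Function.Surjective (LinearMap.rangeRestrict (dC f S j) : _ →ₗ[S] Bc f S (j + 1)) :=
  LinearMap.surjective_rangeRestrict _

private theorem ExtB_exact_dC : Function.Exact (Zc f S j).subtype
    (LinearMap.rangeRestrict (dC f S j) : _ →ₗ[S] Bc f S (j + 1)) := by
  intro z
  constructor
  · intro h
    exact ⟨⟨z, congrArg Subtype.val h⟩, rfl⟩
  · rintro ⟨y, rfl⟩
    exact Subtype.ext y.2

omit j in
private theorem ExtB_bij {k : ℕ} (s : Fin (k + 1) → Fin r) :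
    Function.Bijective fun n : LocalizedModule (Ms f s) S => f (s 0) • n := by
  have h := IsLocalizedModule.map_units (LocalizedModule.mkLinearMap (Ms f s) S)
    ⟨f (s 0), mem_Ms f s 0⟩
  exact (Module.End.isUnit_iff _).1 h

end aux

include hK

/-- `Ext(K, C^(k+1)) = 0`: `C^(k+1)` is a finite product of modules on which some `f i` is bijective -/
theorem ex_Cc (k i : ℕ) : Subsingleton (EX S K (Cc f S (k + 1)) i) := by
  classical
  refine ex_zero_of_sum K (fun s : Fin (k + 1) → Fin r => LocalizedModule (Ms f s) S) i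
    (fun s => ex_zero_of_bijective K (f (s 0)) (hK (s 0)) (ExtB_bij f s) i)
    (fun s => LinearMap.proj s)
    (fun s => LinearMap.single S (fun s : Fin (k + 1) → Fin r => LocalizedModule (Ms f s) S) s) ?_
  refine LinearMap.ext fun z => ?_
  rw [LinearMap.sum_apply]
  funext s
  rw [Finset.sum_apply, Finset.sum_eq_single s]
  · exact Pi.single_eq_same (M := fun s : Fin (k + 1) → Fin r => LocalizedModule (Ms f s) S) s (z s)
  · intro t _ hts
    exact Pi.single_eq_of_ne (M := fun s : Fin (k + 1) → Fin r => LocalizedModule (Ms f s) S)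
      (Ne.symm hts) (z t)
  · intro h
    exact absurd (Finset.mem_univ s) h

/-- `0 → Z^k → C^k → B^(k+1) → 0` and `Ext(K, C^k) = 0` for `k ≥ 1` -/
theorem ex_Bc_Zc (k i : ℕ) :
    Nonempty (EX S K (Bc f S (k + 2)) i ≃ₗ[S] EX S K (Zc f S (k + 1)) (i + 1)) :=
  ex_shift K (ExtB_subtype_injective f (k + 1)) (ExtB_exact_dC f (k + 1))
    (ExtB_dC_surjective f (k + 1)) (fun i => ex_Cc K f hK k i) i

theorem ex_Zc_zero (k : ℕ) : Subsingleton (EX S K (Zc f S (k + 1)) 0) :=
  ex_zero_left K (ExtB_subtype_injective f (k + 1)) (ExtB_exact_dC f (k + 1))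
    (ExtB_dC_surjective f (k + 1)) (ex_Cc K f hK k 0)

end

end Pool.Agent.Lib.MP_f251fc_ag
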