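import Pool.Agent.Lib.MP_f251fc_ag.ExtB

/-! # `Ext(K, H^c) ≅ Ext(K, S)` shifted -/

set_option autoImplicit false

namespace Pool.Agent.Lib.MP_f251fc_ag

open CategoryTheory

noncomputable section

universe u

variable {S : Type u} [CommRing S] (K : Type u) [AddCommGroup K] [Module S K] {r : ℕ}
  (f : Fin r → S) (hK : ∀ i, ∀ x : K, f i • x = 0)

section aux

omit K
variable {S : Type u} [CommRing S] {r : ℕ} (f : Fin r → S) (j : ℕ)

private theorem ExtC_incl_injective :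
    Function.Injective (Submodule.inclusion (Bc_le_Zc f S j)) := Submodule.inclusion_injective _

private theorem ExtC_cls_surjective : Function.Surjective (cls f S j) :=
  Submodule.mkQ_surjective _

private theorem ExtC_exact :
    Function.Exact (Submodule.inclusion (Bc_le_Zc f S j)) (cls f S j) := by
  intro z
  constructor
  · intro h
    have h1 : z ∈ (Bc f S j).submoduleOf (Zc f S j) := (Submodule.Quotient.mk_eq_zero _).1 h
    exact ⟨⟨z, h1⟩, rfl⟩
  · rintro ⟨y, rfl⟩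
    exact (Submodule.Quotient.mk_eq_zero _).2 y.2

private theorem ExtC_subtype_injective : Function.Injective (Zc f S j).subtype :=
  Submodule.subtype_injective _

private theorem ExtC_dC_surjective :
    Function.Surjective (LinearMap.rangeRestrict (dC f S j) : _ →ₗ[S] Bc f S (j + 1)) :=
  LinearMap.surjective_rangeRestrict _

private theorem ExtC_exact_dC : Function.Exact (Zc f S j).subtype
    (LinearMap.rangeRestrict (dC f S j) : _ →ₗ[S] Bc f S (j + 1)) := by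
  intro z
  constructor
  · intro h
    exact ⟨⟨z, congrArg Subtype.val h⟩, rfl⟩
  · rintro ⟨y, rfl⟩
    exact Subtype.ext y.2

omit j in
private theorem ExtC_bot : (Bc f S 0).submoduleOf (Zc f S 0) = ⊥ := by
  rw [eq_bot_iff]
  intro z hz
  have h : (z : Cc f S 0) = 0 := hz
  exact (Submodule.mem_bot _).2 (Subtype.ext h)

end aux

include hK

variable (c : ℕ)
  (hhigh : ∀ j, c < j → ∃ t : S, (∀ x : K, t • x = 0) ∧
    Function.Bijective fun z : Hc f S j => t • z)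

include hhigh

omit hK in
/-- for `j > c`: `Ext^i(K, B^j) ≅ Ext^i(K, Z^j)` because `Ext(K, H^j) = 0` -/
theorem ex_high (j : ℕ) (hj : c < j) (i : ℕ) :
    Nonempty (EX S K (Bc f S j) i ≃ₗ[S] EX S K (Zc f S j) i) := by
  obtain ⟨t, ht, hb⟩ := hhigh j hj
  exact ex_left K (ExtC_incl_injective f j) (ExtC_exact f j) (ExtC_cls_surjective f j)
    (fun i => ex_zero_of_bijective K t ht hb i) i

/-- `Ext^i(K, B^j) = 0` for all `i` and `j > c`: `Ext^(i+1)(K, B^j) ≅ Ext^(i+1)(K, Z^j) ≅ Ext^i(K, B^(j+1))` and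
`Ext^0(K, B^j) ≅ Ext^0(K, Z^j) = 0`: induction on `i`, for all `j > c` -/
theorem ex_Bc_high (i : ℕ) : ∀ j, c < j → Subsingleton (EX S K (Bc f S j) i) := by
  induction i with
  | zero =>
    intro j hj
    obtain ⟨k, rfl⟩ : ∃ k, j = k + 1 := ⟨j - 1, by omega⟩
    obtain ⟨e⟩ := ex_high K f c hhigh (k + 1) hj 0
    have := ex_Zc_zero K f hK k
    exact e.toEquiv.subsingleton
  | succ i ih =>
    intro j hj
    obtain ⟨k, rfl⟩ : ∃ k, j = k + 1 := ⟨j - 1, by omega⟩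
    obtain ⟨e⟩ := ex_high K f c hhigh (k + 1) hj (i + 1)
    obtain ⟨e'⟩ := ex_Bc_Zc K f hK k i
    have := ih (k + 2) (by omega)
    exact (e.trans e'.symm).toEquiv.subsingleton

/-- `Ext(K, Z^c) = 0` for `c ≥ 1` and `Ext^i(K, Z^0) ≅ Ext^i(K, C^0) ≅ Ext^i(K, S)` for `c = 0`:
`0 → Z^c → C^c → B^(c+1) → 0` and `Ext(K, B^(c+1)) = 0`, `Cc f S 0 ≃ S` by `aug_bijective` -/
theorem ex_Zc_c_zero (hc : c = 0) (i : ℕ) : Nonempty (EX S K (Zc f S 0) i ≃ₗ[S] EX S K S i) := by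
  obtain ⟨e⟩ := ex_left K (ExtC_subtype_injective f 0) (ExtC_exact_dC f 0)
    (ExtC_dC_surjective f 0) (fun i => ex_Bc_high K f hK c hhigh i 1 (by omega)) i
  obtain ⟨e'⟩ := ex_congr K (LinearEquiv.ofBijective (aug f S) (aug_bijective f S)).symm i
  exact ⟨e.trans e'⟩

theorem ex_Zc_c_pos (hc : 0 < c) (i : ℕ) : Subsingleton (EX S K (Zc f S c) i) := by
  obtain ⟨k, rfl⟩ : ∃ k, c = k + 1 := ⟨c - 1, by omega⟩
  obtain ⟨e⟩ := ex_left K (ExtC_subtype_injective f (k + 1)) (ExtC_exact_dC f (k + 1))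
    (ExtC_dC_surjective f (k + 1)) (fun i => ex_Bc_high K f hK (k + 1) hhigh i (k + 2) (by omega)) i
  have := ex_Cc K f hK k i
  exact e.toEquiv.subsingleton

variable (hlow : ∀ j, j < c → Zc f S j ≤ Bc f S j)

include hlow

/-- for `1 ≤ k ≤ c`: `Ext^i(K, B^k) ≅ Ext^(i+k-1)(K, S)`: `B^1 ≅ C^0 / Z^0 = C^0 ≅ S` as `Z^0 = B^0 = 0`
(`hlow`, `c > 0`), and `B^(k+1) ≅ C^k / Z^k`, `Z^k = B^k` for `1 ≤ k < c`, so
`Ext^i(K, B^(k+1)) ≅ Ext^(i+1)(K, Z^k) = Ext^(i+1)(K, B^k)` -/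
theorem ex_Bc_low (k : ℕ) (hk : k < c) : ∀ i,
    Nonempty (EX S K (Bc f S (k + 1)) i ≃ₗ[S] EX S K S (i + k)) := by
  induction k with
  | zero =>
    intro i
    have hinj : Function.Injective (dC f S 0) := by
      rw [← LinearMap.ker_eq_bot, eq_bot_iff]
      exact hlow 0 hk
    obtain ⟨e⟩ := ex_congr K ((LinearEquiv.ofBijective (aug f S) (aug_bijective f S)).trans
      (LinearEquiv.ofInjective (dC f S 0) hinj)).symm i
    exact ⟨e⟩
  | succ k ih =>
    intro i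
    obtain ⟨e⟩ := ex_Bc_Zc K f hK k i
    have hZ : Zc f S (k + 1) = Bc f S (k + 1) := le_antisymm (hlow _ hk) (Bc_le_Zc f S _)
    obtain ⟨e'⟩ := ex_congr K (LinearEquiv.ofEq _ _ hZ) (i + 1)
    have h := ih (by omega) (i + 1)
    have h2 : i + 1 + k = i + (k + 1) := by omega
    rw [h2] at h
    obtain ⟨e''⟩ := h
    exact ⟨(e.trans e').trans e''⟩

/-- MAIN: `Ext^i(K, H^c) ≅ Ext^(i+c)(K, S)`.
`c = 0`: `H^0 ≅ Z^0`.  `c > 0`: `0 → B^c → Z^c → H^c → 0` and `Ext(K, Z^c) = 0`. -/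
theorem ex_Hc (i : ℕ) : Nonempty (EX S K (Hc f S c) i ≃ₗ[S] EX S K S (i + c)) := by
  rcases Nat.eq_zero_or_pos c with hc | hc
  · subst hc
    obtain ⟨e⟩ := ex_congr K (Submodule.quotEquivOfEqBot _
      (ExtC_bot f)) i
    obtain ⟨e'⟩ := ex_Zc_c_zero K f hK 0 hhigh rfl i
    exact ⟨e.trans e'⟩
  · have hz := ex_Zc_c_pos K f hK c hhigh hc
    obtain ⟨e⟩ := ex_shift K (ExtC_incl_injective f c) (ExtC_exact f c) (ExtC_cls_surjective f c)
      hz i
    obtain ⟨k, rfl⟩ : ∃ k, c = k + 1 := ⟨c - 1, by omega⟩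
    have h := ex_Bc_low K f hK (k + 1) hhigh hlow k (by omega) (i + 1)
    have h2 : i + 1 + k = i + (k + 1) := by omega
    rw [h2] at h
    obtain ⟨e'⟩ := h
    exact ⟨e.trans e'⟩

end

end Pool.Agent.Lib.MP_f251fc_ag
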