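import Pool.Agent.Lib.MP_f251fc_ag.Cmp

/-! # The right derived functors of `gammaI` by an injective resolution -/

set_option autoImplicit false

namespace Pool.Agent.Lib.MP_f251fc_ag

open CategoryTheory

noncomputable section

universe u

variable {B : Type u} [CommRing B]

/-- the homology of a short complex of modules whose middle term is embedded in a module -/
private theorem OffA_quot (S : ShortComplex (ModuleCat.{u} B)) {E : Type u} [AddCommGroup E]
    [Module B E] (ι : S.X₂ →ₗ[B] E) (hι : Function.Injective ι) (Z Bd : Submodule B E)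
    (hZ : (LinearMap.ker S.g.hom).map ι = Z) (hB : (LinearMap.range S.f.hom).map ι = Bd) :
    Nonempty (S.homology ≃ₗ[B] Z ⧸ Bd.submoduleOf Z) := by
  subst hZ
  subst hB
  refine ⟨S.moduleCatHomologyIso.toLinearEquiv.trans (Submodule.Quotient.equiv _ _
    ((LinearMap.ker S.g.hom).equivMapOfInjective ι hι) ?_)⟩
  ext ⟨x, hx⟩
  simp only [Submodule.mem_map, Submodule.submoduleOf, Submodule.mem_comap, LinearMap.mem_range]
  constructor
  · rintro ⟨_, ⟨y, rfl⟩, h⟩
    refine ⟨S.f.hom y, ⟨y, rfl⟩, ?_⟩
    have h1 := congrArg Subtype.val h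
    exact h1
  · rintro ⟨_, ⟨y, rfl⟩, h⟩
    refine ⟨S.moduleCatToCycles y, ⟨y, rfl⟩, ?_⟩
    apply Subtype.ext
    exact h

/-- the right derived functors of `gammaI I` computed by an injective resolution `E` of `N`:
`InjectiveResolution.isoRightDerivedObj`, and the homology of the complex `gammaI I` applied to
`E.cocomplex` in degree `j` is cocycles modulo coboundaries (`ShortComplex.moduleCatHomologyIso`,
`HomologicalComplex.sc'`, ...). -/
theorem locCoh_iso_GH (I : Ideal B) (N : ModuleCat.{u} B) (E : InjectiveResolution N) (j : ℕ) :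
    Nonempty (((locCoh I j).obj N : ModuleCat.{u} B) ≃ₗ[B]
      GH I (fun a => (E.cocomplex.X a : Type u)) (fun a => (E.cocomplex.d a (a + 1)).hom) j) := by
  let K : CochainComplex (ModuleCat.{u} B) ℕ :=
    ((gammaI I).mapHomologicalComplex (ComplexShape.up ℕ)).obj E.cocomplex
  have h1 : ((locCoh I j).obj N : ModuleCat.{u} B) ≅ K.homology j :=
    E.isoRightDerivedObj (gammaI I) j
  have hnext : (ComplexShape.up ℕ).next j = j + 1 := CochainComplex.next ℕ j
  have hker : ((LinearMap.ker (K.d j (j + 1)).hom).map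
      (torI I (E.cocomplex.X j : Type u)).subtype) =
      GZ I (fun a => (E.cocomplex.X a : Type u)) (fun a => (E.cocomplex.d a (a + 1)).hom) j := by
    ext x
    constructor
    · rintro ⟨⟨y, hy⟩, h, rfl⟩
      exact ⟨hy, congrArg Subtype.val h⟩
    · rintro ⟨hx, h⟩
      exact ⟨⟨x, hx⟩, Subtype.ext h, rfl⟩
  cases j with
  | zero =>
    have hprev : (ComplexShape.up ℕ).prev 0 = 0 := CochainComplex.prev_nat_zero
    have h2 : K.homology 0 ≅ (K.sc' 0 0 1).homology :=
      ShortComplex.homologyMapIso (K.isoSc' 0 0 1 hprev hnext)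
    obtain ⟨e⟩ := OffA_quot (K.sc' 0 0 1) (torI I (E.cocomplex.X 0 : Type u)).subtype
      (Submodule.subtype_injective _) _ (GB I (fun a => (E.cocomplex.X a : Type u))
        (fun a => (E.cocomplex.d a (a + 1)).hom) 0) hker (by
        have h3 : (K.sc' 0 0 1).f = 0 := K.shape 0 0 (by simp)
        rw [h3]
        ext x
        constructor
        · rintro ⟨_, ⟨y, rfl⟩, rfl⟩
          rfl
        · rintro hx
          obtain rfl : x = 0 := hx
          exact Submodule.zero_mem _)
    exact ⟨h1.toLinearEquiv.trans (h2.toLinearEquiv.trans e)⟩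
  | succ j =>
    have hprev : (ComplexShape.up ℕ).prev (j + 1) = j := CochainComplex.prev_nat_succ j
    have h2 : K.homology (j + 1) ≅ (K.sc' j (j + 1) (j + 2)).homology :=
      ShortComplex.homologyMapIso (K.isoSc' j (j + 1) (j + 2) hprev hnext)
    obtain ⟨e⟩ := OffA_quot (K.sc' j (j + 1) (j + 2))
      (torI I (E.cocomplex.X (j + 1) : Type u)).subtype
      (Submodule.subtype_injective _) _ (GB I (fun a => (E.cocomplex.X a : Type u))
        (fun a => (E.cocomplex.d a (a + 1)).hom) (j + 1)) hker (by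
        ext x
        constructor
        · rintro ⟨_, ⟨⟨y, hy⟩, rfl⟩, rfl⟩
          exact ⟨y, hy, rfl⟩
        · rintro ⟨y, hy, rfl⟩
          exact ⟨_, ⟨⟨y, hy⟩, rfl⟩, rfl⟩)
    exact ⟨h1.toLinearEquiv.trans (h2.toLinearEquiv.trans e)⟩

end

end Pool.Agent.Lib.MP_f251fc_ag
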