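import Pool.Agent.Lib.MP_f251fc_ag.CmpS
import Pool.Agent.Lib.MP_f251fc_ag.OffA

/-! # The official local cohomology is Čech cohomology -/

set_option autoImplicit false

namespace Pool.Agent.Lib.MP_f251fc_ag

open CategoryTheory

noncomputable section

universe u

variable {B : Type u} [CommRing B]

/-- exactness of an injective resolution and the identification of `N` with the kernel of `δ 0` -/
theorem resolution_exact (N : ModuleCat.{u} B) (E : InjectiveResolution N) :
    (∀ a, LinearMap.ker (E.cocomplex.d (a + 1) (a + 2)).hom =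
      LinearMap.range (E.cocomplex.d a (a + 1)).hom) ∧
    Nonempty ((N : Type u) ≃ₗ[B] LinearMap.ker (E.cocomplex.d 0 1).hom) := by
  constructor
  · intro a
    have h1 := (E.exact_succ a).moduleCat_range_eq_ker
    exact h1.symm
  · have h1 := E.isLimitKernelFork
    have h2 := ModuleCat.kernelIsLimit (E.cocomplex.d 0 1)
    exact ⟨(Limits.IsLimit.conePointUniqueUpToIso h1 h2).toLinearEquiv⟩

private theorem hl_equiv {r : ℕ} (f : Fin r → B) {N N' : Type u} [AddCommGroup N] [Module B N]
    [AddCommGroup N'] [Module B N'] (e : N ≃ₗ[B] N') (k : ℕ) :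
    Nonempty (Hc f N k ≃ₗ[B] Hc f N' k) := by
  have h1 : ∀ z : Cc f N k, lc f (e.symm : N' →ₗ[B] N) k (lc f (e : N →ₗ[B] N') k z) = z := by
    intro z
    rw [← lc_comp]
    have : (e.symm : N' →ₗ[B] N) ∘ₗ (e : N →ₗ[B] N') = LinearMap.id := by
      ext x
      simp
    rw [this, lc_id]
  have h2 : ∀ z : Cc f N' k, lc f (e : N →ₗ[B] N') k (lc f (e.symm : N' →ₗ[B] N) k z) = z := by
    intro z
    rw [← lc_comp]
    have : (e : N →ₗ[B] N') ∘ₗ (e.symm : N' →ₗ[B] N) = LinearMap.id := by
      ext x
      simp
    rw [this, lc_id]
  refine ⟨LinearEquiv.ofLinearMap (hl f (e : N →ₗ[B] N') k) (hl f (e.symm : N' →ₗ[B] N) k) ?_ ?_⟩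
  · apply LinearMap.ext
    intro x
    induction x using Submodule.Quotient.induction_on with
    | H z =>
      change Submodule.Quotient.mk _ = Submodule.Quotient.mk _
      congr 1
      apply Subtype.ext
      exact h2 z.1
  · apply LinearMap.ext
    intro x
    induction x using Submodule.Quotient.induction_on with
    | H z =>
      change Submodule.Quotient.mk _ = Submodule.Quotient.mk _
      congr 1
      apply Subtype.ext
      exact h1 z.1

/-- main comparison: use an injective resolution (`ModuleCat` has enough injectives), the terms are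
injective modules (`Module.injective_object_of_injective_module` or similar: the categorical notion
implies `Module.Injective`), so they are acyclic (`acyc_of_injective`); apply `compare`. -/
theorem locCoh_equiv_Hc [IsNoetherianRing B] {r : ℕ} (f : Fin r → B) (N : Type u)
    [AddCommGroup N] [Module B N] (j : ℕ) :
    Nonempty (((locCoh (Ideal.span (Set.range f)) j).obj (ModuleCat.of B N) : ModuleCat.{u} B) ≃ₗ[B]
      Hc f N j) := by
  let E : InjectiveResolution (ModuleCat.of B N) := injectiveResolution (ModuleCat.of B N)
  obtain ⟨hex, ⟨e⟩⟩ := resolution_exact (ModuleCat.of B N) E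
  have hac : ∀ a, Acyc f (E.cocomplex.X a : Type u) := by
    intro a
    apply acyc_of_injective
    have : Injective (ModuleCat.of B (E.cocomplex.X a : Type u)) := E.injective a
    exact Module.injective_module_of_injective_object B (E.cocomplex.X a : Type u)
  obtain ⟨e1⟩ := compare f (fun a => (E.cocomplex.X a : Type u))
    (fun a => (E.cocomplex.d a (a + 1)).hom) hex hac j
  obtain ⟨e2⟩ := locCoh_iso_GH (Ideal.span (Set.range f)) (ModuleCat.of B N) E j
  obtain ⟨e3⟩ := hl_equiv f e j
  exact ⟨(e2.trans e1.symm).trans e3.symm⟩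

end

end Pool.Agent.Lib.MP_f251fc_ag
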