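import Pool.Agent.Lib.MP_f251fc_ag.Defs

/-! # Cohen-Macaulay local rings and presentations of their completions -/

set_option autoImplicit false

namespace Pool.Agent.Lib.MP_f251fc_ag

open IsLocalRing RingTheory.Sequence

noncomputable section

universe u v

section R

variable {R : Type v} [CommRing R] [IsLocalRing R] [IsNoetherianRing R] {d : ℕ}

/-- `R ⧸ (rs)` has Krull dimension `0` (`ringKrullDim_add_length_eq_ringKrullDim_of_isRegular`), so its
maximal ideal is nilpotent. -/
theorem exists_pow_le_of_isCM {rs : List R} (hd : ringKrullDim R = d) (hlen : rs.length = d)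
    (hreg : IsRegular R rs) : ∃ k : ℕ, maximalIdeal R ^ k ≤ Ideal.ofList rs := by
  have h1 := ringKrullDim_add_length_eq_ringKrullDim_of_isRegular rs hreg
  rw [hd, hlen] at h1
  have hne : Ideal.ofList rs ≠ ⊤ := by
    intro h
    apply hreg.top_ne_smul
    rw [h]
    simp
  have hnt : Nontrivial (R ⧸ Ideal.ofList rs) := Ideal.Quotient.nontrivial_iff.2 hne
  have hloc : IsLocalRing (R ⧸ Ideal.ofList rs) :=
    IsLocalRing.of_surjective' (Ideal.Quotient.mk (Ideal.ofList rs)) Ideal.Quotient.mk_surjective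
  have h2 : ringKrullDim (R ⧸ Ideal.ofList rs) ≤ (0 : ℕ) := by
    have h3 : ringKrullDim (R ⧸ Ideal.ofList rs) + (d : WithBot ℕ∞) ≤ (0 : ℕ) + (d : WithBot ℕ∞) := by
      rw [h1]
      simp
    generalize ringKrullDim (R ⧸ Ideal.ofList rs) = x at h3
    induction x using WithBot.recBotCoe with
    | bot => exact bot_le
    | coe x =>
      have h4 : x + (d : ℕ∞) ≤ ((0 : ℕ) : ℕ∞) + d := by exact_mod_cast h3
      have h5 : x ≤ ((0 : ℕ) : ℕ∞) := (ENat.add_le_add_iff_right (ENat.natCast_ne_top d)).1 h4
      exact_mod_cast h5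
  have h3 : Ring.KrullDimLE 0 (R ⧸ Ideal.ofList rs) := Ring.krullDimLE_iff.2 h2
  have h4 : IsArtinianRing (R ⧸ Ideal.ofList rs) := isArtinianRing_iff_krullDimLE_zero.2 h3
  obtain ⟨k, hk⟩ := (isArtinianRing_iff_isNilpotent_maximalIdeal _).1 h4
  refine ⟨k, ?_⟩
  rw [← Ideal.mk_ker (I := Ideal.ofList rs), RingHom.ker_eq_comap_bot, ← Ideal.map_le_iff_le_comap,
    Ideal.map_pow, IsLocalRing.map_maximalIdeal_of_surjective _ Ideal.Quotient.mk_surjective, hk]
  rfl

/-- Main statement.  Let `R^ = AdicCompletion (maximalIdeal R) R`; it is a local ring and its maximal ideal is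
generated by the one of `R` (`Mathlib/RingTheory/AdicCompletion/LocalRing.lean`), it is flat over `R`
(`AdicCompletion.flat_of_isNoetherian`), so the image of `rs` is a weakly regular sequence of `R^`
(`IsWeaklyRegular.of_flat`).  Choose preimages `ys` of the elements of the image under `π`; they are in the
maximal ideal of `S` because their images are not units.  `S ⧸ ker π ≃ R^` as `S`-modules.
`(maximalIdeal S)^k` maps into `(maximalIdeal R)^k R^ ⊆ (rs) R^`. -/
theorem exists_seq_of_isCM (hR : IsCM R d) {S : Type u} [CommRing S] [IsLocalRing S]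
    (π : S →+* AdicCompletion (maximalIdeal R) R) (hπ : Function.Surjective π) :
    RingHom.ker π ≠ ⊤ ∧ ∃ ys : List S, ys.length = d ∧ (∀ y ∈ ys, y ∈ maximalIdeal S) ∧
      IsWeaklyRegular (S ⧸ RingHom.ker π) ys ∧
      ∃ k, maximalIdeal S ^ k • (⊤ : Submodule S (S ⧸ RingHom.ker π)) ≤ Ideal.ofList ys • ⊤ := by
  obtain ⟨hd, rs, hlen, hmem, hreg⟩ := hR
  obtain ⟨k, hk⟩ := exists_pow_le_of_isCM hd hlen hreg
  have hloc : IsLocalHom π := IsLocalHom.of_surjective π hπ
  let ys : List S := (rs.map (algebraMap R (AdicCompletion (maximalIdeal R) R))).map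
    (Function.surjInv hπ)
  have hys : ys.map π = rs.map (algebraMap R (AdicCompletion (maximalIdeal R) R)) := by
    rw [List.map_map]
    conv_rhs => rw [← List.map_id (rs.map (algebraMap R (AdicCompletion (maximalIdeal R) R)))]
    refine List.map_congr_left fun a _ => ?_
    exact Function.surjInv_eq hπ a
  refine ⟨RingHom.ker_ne_top π, ys, by simp [ys, hlen], ?_, ?_, k, ?_⟩
  · intro y hy
    have h1 : π y ∈ rs.map (algebraMap R (AdicCompletion (maximalIdeal R) R)) := by
      rw [← hys]
      exact List.mem_map_of_mem hy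
    obtain ⟨x, hx, hxy⟩ := List.mem_map.1 h1
    have h2 : π y ∈ maximalIdeal (AdicCompletion (maximalIdeal R) R) := by
      rw [AdicCompletion.maximalIdeal_eq_map, ← hxy]
      exact Ideal.mem_map_of_mem _ (hmem x hx)
    rw [← IsLocalRing.maximalIdeal_comap π]
    exact h2
  · let _ : Algebra S (AdicCompletion (maximalIdeal R) R) := π.toAlgebra
    have h1 : IsWeaklyRegular (AdicCompletion (maximalIdeal R) R)
        (rs.map (algebraMap R (AdicCompletion (maximalIdeal R) R))) :=
      hreg.toIsWeaklyRegular.of_flat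
    rw [← hys] at h1
    have h2 : IsWeaklyRegular (AdicCompletion (maximalIdeal R) R) ys :=
      (isWeaklyRegular_map_algebraMap_iff (R := S) (S := AdicCompletion (maximalIdeal R) R)
        (M := AdicCompletion (maximalIdeal R) R) ys).1 h1
    let e : (S ⧸ RingHom.ker π) ≃ₗ[S] AdicCompletion (maximalIdeal R) R :=
      (Ideal.quotientKerAlgEquivOfSurjective
        (f := Algebra.ofId S (AdicCompletion (maximalIdeal R) R)) hπ).toLinearEquiv
    exact (e.isWeaklyRegular_congr ys).2 h2
  · rw [Submodule.smul_le]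
    intro a ha x _
    obtain ⟨s, rfl⟩ := Ideal.Quotient.mk_surjective x
    have h1 : π (a * s) ∈ Ideal.ofList (ys.map π) := by
      rw [map_mul]
      apply Ideal.mul_mem_right
      have h2 : π a ∈ ((maximalIdeal S) ^ k).map π := Ideal.mem_map_of_mem _ ha
      rw [Ideal.map_pow, IsLocalRing.map_maximalIdeal_of_surjective π hπ,
        AdicCompletion.maximalIdeal_eq_map, ← Ideal.map_pow] at h2
      have h3 := Ideal.map_mono hk h2
      rwa [Ideal.map_ofList, ← hys] at h3
    rw [← Ideal.map_ofList, Ideal.mem_map_iff_of_surjective π hπ] at h1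
    obtain ⟨b, hb, hab⟩ := h1
    have h2 : a • (Ideal.Quotient.mk (RingHom.ker π) s) = b • (1 : S ⧸ RingHom.ker π) := by
      have h3 : Ideal.Quotient.mk (RingHom.ker π) (a * s) =
          Ideal.Quotient.mk (RingHom.ker π) (b * 1) := by
        rw [Ideal.Quotient.eq, RingHom.mem_ker, map_sub, mul_one, hab, sub_self]
      exact h3
    rw [h2]
    exact Submodule.smul_mem_smul hb trivial

end R

end

end Pool.Agent.Lib.MP_f251fc_ag
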