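import Pool.Agent.Lib.MP_f251fc_ag.PSer
import Pool.Agent.Lib.MP_f251fc_ag.CMB
import Pool.Agent.Lib.MP_f251fc_ag.Wrap
import Pool.Agent.Lib.MP_f251fc_ag.CoreV
import Pool.Agent.Lib.MP_f251fc_ag.ExtC
import Pool.Agent.Lib.MP_f251fc_ag.Off

/-! # Lyubeznik numbers of Cohen-Macaulay rings in mixed characteristic -/

set_option autoImplicit false

namespace Pool.Agent.Lib.MP_f251fc_ag

open CategoryTheory IsLocalRing RingTheory.Sequence

noncomputable section

universe u v

/-- the computation of the Lyubeznik numbers from the properties of Čech cohomology -/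
theorem lyubeznik_of_cech {S : Type u} [CommRing S] [IsLocalRing S] [IsNoetherianRing S]
    (xs : List S) (hreg : IsRegular S xs) (hmax : Ideal.ofList xs = maximalIdeal S)
    {r : ℕ} (f : Fin r → S) (hf : ∀ i, f i ∈ maximalIdeal S) (c : ℕ)
    (hlow : ∀ j, j < c → Zc f S j ≤ Bc f S j)
    (hhigh : ∀ j, c < j → ∃ t ∈ maximalIdeal S, Function.Bijective fun z : Hc f S j => t • z)
    (d : ℕ) (hcd : c + d = xs.length) (i j : ℕ) (hj : j ≤ xs.length) :
    lyubeznik S (Ideal.span (Set.range f)) xs.length i j = if i = d ∧ j = d then 1 else 0 := by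
  have hkill : ∀ t ∈ maximalIdeal S, ∀ x : ResidueField S, t • x = 0 := by
    intro t ht x
    rw [Algebra.smul_def]
    have : algebraMap S (ResidueField S) t = 0 := by
      rw [IsLocalRing.ResidueField.algebraMap_eq, IsLocalRing.residue_eq_zero_iff]
      exact ht
    rw [this, zero_mul]
  have hK : ∀ i, ∀ x : ResidueField S, f i • x = 0 := fun i => hkill _ (hf i)
  have hhigh' : ∀ j, c < j → ∃ t : S, (∀ x : ResidueField S, t • x = 0) ∧
      Function.Bijective fun z : Hc f S j => t • z := by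
    intro j hj
    obtain ⟨t, ht, hb⟩ := hhigh j hj
    exact ⟨t, hkill t ht, hb⟩
  obtain ⟨e⟩ := locCoh_equiv_Hc f S (xs.length - j)
  obtain ⟨E⟩ := ex_congr (ResidueField S) e i
  have hlen : lyubeznik S (Ideal.span (Set.range f)) xs.length i j =
      Module.length S (EX S (ResidueField S) (Hc f S (xs.length - j)) i) := E.length_eq
  rw [hlen]
  rcases lt_trichotomy (xs.length - j) c with h | h | h
  · have hs : Subsingleton (Hc f S (xs.length - j)) := by
      rw [Submodule.Quotient.subsingleton_iff, Submodule.submoduleOf_eq_top]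
      exact hlow _ h
    have h0 : Subsingleton (EX S (ResidueField S) (Hc f S (xs.length - j)) i) :=
      ex_zero_of_bijective (ResidueField S) (0 : S) (fun x => zero_smul _ _)
        ⟨fun a b _ => Subsingleton.elim a b, fun b => ⟨b, Subsingleton.elim _ _⟩⟩ i
    rw [if_neg (by omega), Module.length_eq_zero]
  · rw [h]
    obtain ⟨E'⟩ := ex_Hc (ResidueField S) f hK c hhigh' hlow i
    rw [E'.length_eq, length_ex_residueField xs hreg hmax]
    by_cases hi : i = d
    · rw [if_pos (by omega), if_pos (by omega)]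
    · rw [if_neg (by omega), if_neg (by omega)]
  · obtain ⟨t, ht, hb⟩ := hhigh' _ h
    have h0 := ex_zero_of_bijective (ResidueField S) t ht hb i
    rw [if_neg (by omega), Module.length_eq_zero]

/-- the case of a projective quotient -/
theorem eq_bot_of_pd_zero {S : Type u} [CommRing S] [IsLocalRing S] [IsNoetherianRing S]
    (I : Ideal S) (hI : I ≠ ⊤) (hpd : HasProjectiveDimensionLE (ModuleCat.of S (S ⧸ I)) 0) :
    I = ⊥ := by
  have hnt : Nontrivial (S ⧸ I) := Ideal.Quotient.nontrivial_iff.2 hI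
  have h1 : CategoryTheory.Projective (ModuleCat.of S (S ⧸ I)) :=
    (CategoryTheory.projective_iff_hasProjectiveDimensionLE_zero _).2 hpd
  have h2 : Module.Projective S (S ⧸ I) := (IsProjective.iff_projective (R := S) (S ⧸ I)).2 h1
  have h3 : Module.Free S (S ⧸ I) := Module.free_of_flat_of_isLocalRing
  rw [eq_bot_iff]
  intro a ha
  have h4 : Module.annihilator S (S ⧸ I) = ⊥ := Module.annihilator_eq_bot.2 inferInstance
  rw [← h4, Ideal.annihilator_quotient]
  exact ha

/-- the theorem for an ideal of the power series ring -/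
theorem lyubeznik_ideal (p : ℕ) [Fact p.Prime] (V : Type u) [CommRing V] [IsDomain V]
    [IsDiscreteValuationRing V] (hV : maximalIdeal V = Ideal.span {(p : V)}) (m : ℕ)
    (I : Ideal (MvPowerSeries (Fin m) V)) (hI : I ≠ ⊤) (ys : List (MvPowerSeries (Fin m) V))
    (hys : ∀ y ∈ ys, y ∈ maximalIdeal (MvPowerSeries (Fin m) V))
    (hwr : IsWeaklyRegular (MvPowerSeries (Fin m) V ⧸ I) ys) (k : ℕ)
    (hk : maximalIdeal (MvPowerSeries (Fin m) V) ^ k •
      (⊤ : Submodule (MvPowerSeries (Fin m) V) (MvPowerSeries (Fin m) V ⧸ I)) ≤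
        Ideal.ofList ys • ⊤) (i j : ℕ) (hj : j ≤ m + 1) :
    lyubeznik (MvPowerSeries (Fin m) V) I (m + 1) i j =
      if i = ys.length ∧ j = ys.length then 1 else 0 := by
  obtain ⟨xs, hxl, hxreg, hxmax⟩ := exists_regular_params p V hV m
  have hnt : Nontrivial (MvPowerSeries (Fin m) V ⧸ I) := Ideal.Quotient.nontrivial_iff.2 hI
  obtain ⟨hle, hpd⟩ := cm_pd xs hxreg hxmax (MvPowerSeries (Fin m) V ⧸ I) ys hys hwr k hk
  obtain ⟨rs, hrl, hrI, hrreg⟩ := cm_exists_regular xs hxreg hxmax I hI ys hys hwr k hk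
  rw [← hxl] at hj ⊢
  have hImax : I ≤ maximalIdeal (MvPowerSeries (Fin m) V) := IsLocalRing.le_maximalIdeal hI
  have hp : (p : MvPowerSeries (Fin m) V) ∈ maximalIdeal (MvPowerSeries (Fin m) V) := by
    rw [mem_maximalIdeal, mem_nonunits_iff]
    intro h
    have h1 := h.map (MvPowerSeries.constantCoeff (σ := Fin m) (R := V))
    rw [map_natCast] at h1
    have h2 : (p : V) ∈ maximalIdeal V := by
      rw [hV]
      exact Ideal.mem_span_singleton_self _
    exact (mem_nonunits_iff.1 ((mem_maximalIdeal _).1 h2)) h1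
  obtain ⟨c, hc⟩ : ∃ c, c = xs.length - ys.length := ⟨_, rfl⟩
  rw [← hc] at hpd hrl
  cases c with
  | zero =>
    have hbot : I = ⊥ := eq_bot_of_pd_zero I hI hpd
    have hspan : I = Ideal.span (Set.range (Fin.elim0 : Fin 0 → MvPowerSeries (Fin m) V)) := by
      rw [hbot, Set.range_eq_empty, Ideal.span_empty]
    rw [hspan]
    refine lyubeznik_of_cech xs hxreg hxmax (Fin.elim0 : Fin 0 → MvPowerSeries (Fin m) V)
      (fun i => i.elim0) 0 (fun j hj => absurd hj (Nat.not_lt_zero _))
      (fun j hj => ⟨p, hp, ?_⟩) ys.length (by omega) i j hj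
    have hs : Subsingleton (Hc (Fin.elim0 : Fin 0 → MvPowerSeries (Fin m) V)
        (MvPowerSeries (Fin m) V) j) := by
      have : IsEmpty (Fin j → Fin 0) := ⟨fun s => (s ⟨0, hj⟩).elim0⟩
      have : Subsingleton (Cc (Fin.elim0 : Fin 0 → MvPowerSeries (Fin m) V)
        (MvPowerSeries (Fin m) V) j) := inferInstance
      infer_instance
    exact ⟨fun a b _ => Subsingleton.elim a b, fun b => ⟨b, Subsingleton.elim _ _⟩⟩
  | succ c =>
    obtain ⟨G, hG, hGspan, hGb⟩ := exists_cplx_bounded c I hpd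
    rw [← hGspan]
    refine lyubeznik_of_cech xs hxreg hxmax G.g ?_ (c + 1) ?_ ?_ ys.length (by omega) i j hj
    · intro l
      apply hImax
      rw [← hGspan]
      exact Ideal.subset_span ⟨l, rfl⟩
    · intro j hj
      refine Zc_le_Bc_of_isWeaklyRegular G.g _ rs hrreg.toIsWeaklyRegular ?_ j (by omega)
      intro x hx
      rw [hGspan]
      exact hrI x hx
    · intro j hj
      exact ⟨p, hp, p_bijective_V p V hV m G.g G hG rfl c hGb j hj⟩

/-- **Main theorem.** -/
theorem lyubeznik_of_isCM (p : ℕ) [Fact p.Prime] (V : Type u) [CommRing V] [IsDomain V]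
    [IsDiscreteValuationRing V] (hV : maximalIdeal V = Ideal.span {(p : V)}) (m : ℕ)
    {R : Type v} [CommRing R] [IsLocalRing R] [IsNoetherianRing R] {d : ℕ} (hR : IsCM R d)
    (π : MvPowerSeries (Fin m) V →+* AdicCompletion (maximalIdeal R) R)
    (hπ : Function.Surjective π) (i j : ℕ) (hj : j ≤ m + 1) :
    lyubeznik (MvPowerSeries (Fin m) V) (RingHom.ker π) (m + 1) i j =
      if i = d ∧ j = d then 1 else 0 := by
  obtain ⟨hI, ys, hyl, hys, hwr, k, hk⟩ := exists_seq_of_isCM hR π hπ
  rw [lyubeznik_ideal p V hV m (RingHom.ker π) hI ys hys hwr k hk i j hj, hyl]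

end

end Pool.Agent.Lib.MP_f251fc_ag
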