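import Pool.Agent.Lib.MP_f251fc_ag.HS

/-! # Taylor operators on Čech cochains and cohomology -/

set_option autoImplicit false

namespace Pool.Agent.Lib.MP_f251fc_ag

noncomputable section

universe u

section cech

variable {R : Type u} [CommRing R] (h : HS R) {r : ℕ} (f : Fin r → R)

/-- the operators on Čech cochains -/
def HS.dc (q k : ℕ) : Cc f R q →+ Cc f R q where
  toFun z s := h.dl (Ms f s) k (z s)
  map_zero' := by
    ext s
    exact map_zero _
  map_add' z w := by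
    ext s
    exact map_add _ _ _

theorem HS.dc_dC (q k : ℕ) (z : Cc f R q) : dC f R q (h.dc f q k z) = h.dc f (q + 1) k (dC f R q z) := by
  ext s
  change _ = h.dl (Ms f s) k (dC f R q z s)
  rw [dC_apply, dC_apply, map_sum]
  refine Finset.sum_congr rfl fun i _ => ?_
  change (-1 : R) ^ (i : ℕ) • res R _ (h.dl _ k (z (s ∘ i.succAbove))) = _
  rw [← h.dl_res]
  rcases neg_one_pow_eq_or R (i : ℕ) with hi | hi
  · rw [hi, one_smul, one_smul]
  · rw [hi, neg_one_smul, neg_one_smul, map_neg]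

private theorem HSC_Zc (q k : ℕ) {z : Cc f R q} (hz : z ∈ Zc f R q) : h.dc f q k z ∈ Zc f R q := by
  rw [mem_Zc, h.dc_dC, (mem_Zc f R z).1 hz, map_zero]

private theorem HSC_Bc (q k : ℕ) {z : Cc f R q} (hz : z ∈ Bc f R q) : h.dc f q k z ∈ Bc f R q := by
  cases q with
  | zero =>
    rw [mem_Bc_zero] at hz ⊢
    rw [hz, map_zero]
  | succ q =>
    obtain ⟨y, rfl⟩ := hz
    exact ⟨h.dc f q k y, h.dc_dC f q k y⟩

private theorem HSC_lift {M P : Type u} [AddCommGroup M] [Module R M] [AddCommGroup P]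
    (W : Submodule R M) (T : M →+ P) (hT : ∀ z ∈ W, T z = 0) :
    ∃ D : M ⧸ W →+ P, ∀ z, D (W.mkQ z) = T z := by
  obtain ⟨σ, hσ⟩ := (Submodule.mkQ_surjective W).hasRightInverse
  have key : ∀ a b : M, W.mkQ a = W.mkQ b → T a = T b := by
    intro a b hab
    have h1 : a - b ∈ W := by
      rw [← Submodule.ker_mkQ W, LinearMap.mem_ker, map_sub, hab, sub_self]
    have h2 := hT _ h1
    rwa [map_sub, sub_eq_zero] at h2
  refine ⟨AddMonoidHom.mk' (fun x => T (σ x)) fun x y => ?_, fun z => ?_⟩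
  · rw [← map_add]
    refine key _ _ ?_
    rw [map_add, hσ, hσ, hσ]
  · exact key _ _ (hσ _)

/-- the operators on cohomology -/
theorem HS.exists_dh (q k : ℕ) : ∃ D : Hc f R q →+ Hc f R q,
    ∀ (z : Zc f R q) (z' : Zc f R q), (z' : Cc f R q) = h.dc f q k z → D (cls f R q z) = cls f R q z' := by
  let T : Zc f R q →+ Hc f R q :=
    { toFun := fun z => cls f R q ⟨h.dc f q k z, HSC_Zc h f q k z.2⟩
      map_zero' := by
        rw [← map_zero (cls f R q)]
        congr 1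
        exact Subtype.ext (map_zero (h.dc f q k))
      map_add' := fun x y => by
        rw [← map_add]
        congr 1
        exact Subtype.ext (map_add (h.dc f q k) _ _) }
  have hT : ∀ z ∈ (Bc f R q).submoduleOf (Zc f R q), T z = 0 := by
    intro z hz
    change cls f R q ⟨h.dc f q k z, HSC_Zc h f q k z.2⟩ = 0
    rw [cls, Submodule.mkQ_apply, Submodule.Quotient.mk_eq_zero]
    exact HSC_Bc h f q k hz
  obtain ⟨D, hD⟩ := HSC_lift _ T hT
  refine ⟨D, fun z z' hz => (hD z).trans ?_⟩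
  change cls f R q ⟨h.dc f q k z, HSC_Zc h f q k z.2⟩ = cls f R q z'
  congr 1
  exact Subtype.ext hz.symm

/-- the operators on cohomology -/
def HS.dh (q k : ℕ) : Hc f R q →+ Hc f R q := (h.exists_dh f q k).choose

private theorem HSC_dh (q k : ℕ) (z z' : Zc f R q) (hz : (z' : Cc f R q) = h.dc f q k z) :
    h.dh f q k (cls f R q z) = cls f R q z' := (h.exists_dh f q k).choose_spec z z' hz

private theorem HSC_surj (q : ℕ) (x : Hc f R q) : ∃ z, cls f R q z = x :=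
  Submodule.mkQ_surjective _ x

theorem HS.dh_zero (q : ℕ) (x : Hc f R q) : h.dh f q 0 x = x := by
  obtain ⟨z, rfl⟩ := HSC_surj f q x
  refine HSC_dh h f q 0 z z ?_
  ext s
  exact (h.dl_zero _ _).symm

theorem HS.dh_smul (q k : ℕ) (a : R) (x : Hc f R q) :
    h.dh f q k (a • x) = ∑ i ∈ Finset.range (k + 1), h.d i a • h.dh f q (k - i) x := by
  obtain ⟨z, rfl⟩ := HSC_surj f q x
  have h1 : ∀ i, h.dh f q i (cls f R q z) = cls f R q ⟨h.dc f q i z, HSC_Zc h f q i z.2⟩ :=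
    fun i => HSC_dh h f q i z _ rfl
  simp only [h1]
  rw [← map_smul]
  have h2 : ∑ i ∈ Finset.range (k + 1), h.d i a • cls f R q
      ⟨h.dc f q (k - i) z, HSC_Zc h f q (k - i) z.2⟩ = cls f R q (∑ i ∈ Finset.range (k + 1),
        h.d i a • ⟨h.dc f q (k - i) z, HSC_Zc h f q (k - i) z.2⟩) := by
    rw [map_sum]
    exact Finset.sum_congr rfl fun i _ => (map_smul _ _ _).symm
  rw [h2]
  refine HSC_dh h f q k _ _ ?_
  rw [AddSubmonoidClass.coe_finsetSum]
  ext s
  rw [Finset.sum_apply]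
  exact (h.dl_smul _ k a _).symm

theorem HS.dh_hmap {R' : Type u} [CommRing R'] (h' : HS R') {φ : R →+* R'}
    (hφ : ∀ k r, h'.d k (φ r) = φ (h.d k r)) {f' : Fin r → R'}
    (hf : ∀ i, φ (f i) ∈ Submonoid.powers (f' i)) (θ : R →ₛₗ[φ] R') (hθ : ∀ r, θ r = φ r)
    (q k : ℕ) (x : Hc f R q) :
    h'.dh f' q k (hmap hf θ q x) = hmap hf θ q (h.dh f q k x) := by
  obtain ⟨z, rfl⟩ := HSC_surj f q x
  rw [HSC_dh h f q k z ⟨h.dc f q k z, HSC_Zc h f q k z.2⟩ rfl]
  change h'.dh f' q k (cls f' R' q ⟨cmap hf θ q z, cmap_mem_Zc hf θ z.2⟩) =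
    cls f' R' q ⟨cmap hf θ q (h.dc f q k z), cmap_mem_Zc hf θ (HSC_Zc h f q k z.2)⟩
  refine HSC_dh h' f' q k _ _ ?_
  ext s
  exact (h.dl_lmap h' φ hφ (Ms_map hf s) θ hθ k _).symm

theorem HS.dh_frob (p : ℕ) [Fact p.Prime] [CharP R p]
    (hf : ∀ i, frobenius R p (f i) ∈ Submonoid.powers (f i)) (θ : R →ₛₗ[frobenius R p] R)
    (hθ : ∀ r, θ r = r ^ p) (q k : ℕ) (x : Hc f R q) :
    h.dh f q k (hmap hf θ q x) = if p ∣ k then hmap hf θ q (h.dh f q (k / p) x) else 0 := by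
  obtain ⟨z, rfl⟩ := HSC_surj f q x
  rw [HSC_dh h f q (k / p) z ⟨h.dc f q (k / p) z, HSC_Zc h f q (k / p) z.2⟩ rfl]
  change h.dh f q k (cls f R q ⟨cmap hf θ q z, cmap_mem_Zc hf θ z.2⟩) = _
  split_ifs with hk
  · change _ = cls f R q
      ⟨cmap hf θ q (h.dc f q (k / p) z), cmap_mem_Zc hf θ (HSC_Zc h f q (k / p) z.2)⟩
    refine HSC_dh h f q k _ _ ?_
    ext s
    have h1 := h.dl_frob p (Ms_map hf s) θ hθ k ((z : Cc f R q) s)
    rw [if_pos hk] at h1
    exact h1.symm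
  · rw [← map_zero (cls f R q)]
    refine HSC_dh h f q k _ _ ?_
    ext s
    have h1 := h.dl_frob p (Ms_map hf s) θ hθ k ((z : Cc f R q) s)
    rw [if_neg hk] at h1
    exact h1.symm

end cech

end

end Pool.Agent.Lib.MP_f251fc_ag
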