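import Pool.Agent.Lib.MP_f251fc_ag.GenT
import Pool.Agent.Lib.MP_f251fc_ag.HSC

/-! # Frobenius on the Čech cohomology of a ring of characteristic `p` -/

set_option autoImplicit false

namespace Pool.Agent.Lib.MP_f251fc_ag

noncomputable section

universe u

variable (p : ℕ) [Fact p.Prime] {A : Type u} [CommRing A] [CharP A p] {r : ℕ} (f : Fin r → A)

/-- the Frobenius of `A` as a semilinear map -/
def frobL (A : Type u) [CommRing A] [CharP A p] : A →ₛₗ[frobenius A p] A where
  toFun a := a ^ p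
  map_add' a b := (frobenius A p).map_add a b
  map_smul' a b := (frobenius A p).map_mul a b

theorem frob_mem (i : Fin r) : frobenius A p (f i) ∈ Submonoid.powers (f i) := ⟨p, rfl⟩

/-- Frobenius on Čech cochains -/
def FC (q : ℕ) : Cc f A q →ₛₗ[frobenius A p] Cc f A q := cmap (frob_mem p f) (frobL p A) q

/-- Frobenius on Čech cohomology -/
def FH (q : ℕ) : Hc f A q →ₛₗ[frobenius A p] Hc f A q := hmap (frob_mem p f) (frobL p A) q

variable {m : ℕ} (x : Fin m → A)

/-- criterion for additive maps -/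
private theorem Frob_crit {N : Type u} [AddCommGroup N] [Module A N] (F : N →ₛₗ[frobenius A p] N)
    (h1 : ∀ n : N, ∃ w : (Fin m → Fin p) → N, n = ∑ lam, (∏ i, x i ^ (lam i : ℕ)) • F (w lam))
    (h2 : ∀ w : (Fin m → Fin p) → N, ∑ lam, (∏ i, x i ^ (lam i : ℕ)) • F (w lam) = 0 →
      ∀ lam, w lam = 0) : FrobFree p x N F := by
  intro n
  obtain ⟨w, hw⟩ := h1 n
  refine ⟨w, hw, fun w' hw' => ?_⟩
  funext lam
  have h3 : ∑ lam, (∏ i, x i ^ (lam i : ℕ)) • F ((w' - w) lam) = 0 := by
    have h4 : ∀ lam : Fin m → Fin p, (∏ i, x i ^ (lam i : ℕ)) • F ((w' - w) lam) =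
        (∏ i, x i ^ (lam i : ℕ)) • F (w' lam) - (∏ i, x i ^ (lam i : ℕ)) • F (w lam) := by
      intro lam
      rw [Pi.sub_apply, map_sub, smul_sub]
    rw [Finset.sum_congr rfl fun lam _ => h4 lam, Finset.sum_sub_distrib]
    have hw'' : n = ∑ lam, (∏ i, x i ^ (lam i : ℕ)) • F (w' lam) := hw'
    rw [← hw'', ← hw, sub_self]
  exact sub_eq_zero.1 (h2 _ h3 lam)

omit [Fact p.Prime] [CharP A p] in
private theorem Frob_mk_sum {ι : Type*} (M : Submonoid A) (t : Finset ι) (g : ι → A) (u : M) :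
    LocalizedModule.mk (∑ i ∈ t, g i) u = ∑ i ∈ t, LocalizedModule.mk (g i) u := by
  classical
  induction t using Finset.induction_on with
  | empty => rw [Finset.sum_empty, Finset.sum_empty, LocalizedModule.zero_mk]
  | insert a t ha ih =>
    rw [Finset.sum_insert ha, Finset.sum_insert ha, ← ih, LocalizedModule.mk_add_mk,
      LocalizedModule.mk_eq]
    exact ⟨1, by simp only [one_smul, smul_add, mul_smul]⟩

/-- `g / u = (g u ^ (p-1)) / u ^ p = ∑ x ^ lam (h_lam / u) ^ p`; uniqueness by clearing denominators: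
if `∑ x ^ lam h_lam ^ p / u ^ p = ∑ x ^ lam h'_lam ^ p / u' ^ p`, multiply by a suitable `p`-th power of an
element of `M`. -/
theorem frobFree_loc (hA : FrobFree p x A fun a => a ^ p) (M : Submonoid A)
    (hM : ∀ m ∈ M, frobenius A p m ∈ M) :
    FrobFree p x (LocalizedModule M A) (lmap hM (frobL p A)) := by
  have hp : p ≠ 0 := (Fact.out : p.Prime).ne_zero
  have hp1 : p = p - 1 + 1 := by omega
  refine Frob_crit p x _ ?_ ?_
  · intro n
    induction n using LocalizedModule.induction_on with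
    | h a u =>
      obtain ⟨w, hw, -⟩ := hA (a * (u : A) ^ (p - 1))
      refine ⟨fun lam => LocalizedModule.mk (w lam) u, ?_⟩
      have h1 : LocalizedModule.mk a u =
          LocalizedModule.mk (a * (u : A) ^ (p - 1))
            (⟨frobenius A p u.1, hM _ u.2⟩ : M) := by
        rw [LocalizedModule.mk_eq]
        refine ⟨1, ?_⟩
        rw [one_smul, one_smul]
        change (u : A) ^ p * a = (u : A) * (a * (u : A) ^ (p - 1))
        conv_lhs => rw [hp1, pow_succ]
        ring
      rw [h1]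
      have hw' : a * (u : A) ^ (p - 1) =
          ∑ lam, (∏ i, x i ^ (lam i : ℕ)) • (w lam) ^ p := hw
      rw [hw', Frob_mk_sum]
      refine Finset.sum_congr rfl fun lam _ => ?_
      rw [lmap_mk, LocalizedModule.smul'_mk]
      rfl
  · intro w hw
    obtain ⟨b, hb⟩ := IsLocalizedModule.exist_integer_multiples_of_finite M
      (LocalizedModule.mkLinearMap M A) w
    choose a ha using hb
    have ha' : ∀ lam, LocalizedModule.mk (a lam) 1 = (b : A) • w lam := ha
    have h1 : ∑ lam, (∏ i, x i ^ (lam i : ℕ)) •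
        lmap hM (frobL p A) (LocalizedModule.mk (a lam) 1) = 0 := by
      have h2 : ∀ lam, (∏ i, x i ^ (lam i : ℕ)) •
          lmap hM (frobL p A) (LocalizedModule.mk (a lam) 1) =
          (frobenius A p b) • ((∏ i, x i ^ (lam i : ℕ)) • lmap hM (frobL p A) (w lam)) := by
        intro lam
        rw [ha', map_smulₛₗ, smul_comm]
      rw [Finset.sum_congr rfl fun lam _ => h2 lam, ← Finset.smul_sum, hw, smul_zero]
    have h3 : LocalizedModule.mk (∑ lam, (∏ i, x i ^ (lam i : ℕ)) • (a lam) ^ p) (1 : M) = 0 := by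
      rw [Frob_mk_sum, ← h1]
      refine Finset.sum_congr rfl fun lam _ => ?_
      rw [lmap_mk, LocalizedModule.smul'_mk]
      congr 1
      ext
      exact (map_one (frobenius A p)).symm
    rw [← LocalizedModule.zero_mk 1, LocalizedModule.mk_eq] at h3
    obtain ⟨t, ht⟩ := h3
    simp only [one_smul, smul_zero] at ht
    have ht' : (t : A) * ∑ lam, (∏ i, x i ^ (lam i : ℕ)) • (a lam) ^ p = 0 := ht
    have h4 : (0 : A) = ∑ lam, (∏ i, x i ^ (lam i : ℕ)) • ((t : A) * a lam) ^ p := by
      have h5 : ∑ lam, (∏ i, x i ^ (lam i : ℕ)) • ((t : A) * a lam) ^ p =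
          (t : A) ^ (p - 1) * ((t : A) * ∑ lam, (∏ i, x i ^ (lam i : ℕ)) • (a lam) ^ p) := by
        rw [← mul_assoc, ← pow_succ, ← hp1, Finset.mul_sum]
        refine Finset.sum_congr rfl fun lam _ => ?_
        rw [smul_eq_mul, smul_eq_mul, mul_pow]
        ring
      rw [h5, ht', mul_zero]
    have h6 : (0 : A) = ∑ lam, (∏ i, x i ^ ((lam : Fin m → Fin p) i : ℕ)) • (0 : A) ^ p := by
      refine (Finset.sum_eq_zero fun lam _ => ?_).symm
      rw [zero_pow hp, smul_zero]
    have h7 := (hA 0).unique (y₁ := fun lam => (t : A) * a lam) (y₂ := fun _ => 0) h4 h6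
    intro lam
    have h8 : (t : A) * a lam = 0 := congrFun h7 lam
    have h9 : LocalizedModule.mk (a lam) (1 : M) = 0 := by
      rw [← LocalizedModule.zero_mk 1, LocalizedModule.mk_eq]
      refine ⟨t, ?_⟩
      simp only [one_smul, smul_zero]
      exact h8
    rw [ha'] at h9
    have h10 := (Module.End.isUnit_iff _).1
      (IsLocalizedModule.map_units (LocalizedModule.mkLinearMap M A) b)
    apply h10.1
    change (b : A) • w lam = (b : A) • (0 : LocalizedModule M A)
    rw [h9, smul_zero]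

/-- componentwise -/
theorem frobFree_Cc (hA : FrobFree p x A fun a => a ^ p) (q : ℕ) :
    FrobFree p x (Cc f A q) (FC p f q) := by
  refine Frob_crit p x _ ?_ ?_
  · intro z
    have h := fun s : Fin q → Fin r =>
      (frobFree_loc p x hA (Ms f s) (Ms_map (frob_mem p f) s) (z s)).exists
    choose w hw using h
    refine ⟨fun lam s => w s lam, ?_⟩
    funext s
    rw [hw s, Finset.sum_apply]
    rfl
  · intro w hw lam
    funext s
    have h0 := frobFree_loc p x hA (Ms f s) (Ms_map (frob_mem p f) s) 0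
    have h1 : (0 : LocalizedModule (Ms f s) A) = ∑ lam, (∏ i, x i ^ ((lam : Fin m → Fin p) i : ℕ)) •
        lmap (Ms_map (frob_mem p f) s) (frobL p A) (w lam s) := by
      have h2 := congrFun hw s
      rw [Finset.sum_apply] at h2
      exact h2.symm
    have h3 : (0 : LocalizedModule (Ms f s) A) = ∑ lam, (∏ i, x i ^ ((lam : Fin m → Fin p) i : ℕ)) •
        lmap (Ms_map (frob_mem p f) s) (frobL p A) 0 := by
      refine (Finset.sum_eq_zero fun lam _ => ?_).symm
      rw [map_zero, smul_zero]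
    exact congrFun (h0.unique (y₁ := fun lam => w lam s) (y₂ := fun _ => 0) h1 h3) lam

/-- the differential commutes with `FC` and is linear, so cocycles and coboundaries decompose -/
theorem frobFree_Hc (hA : FrobFree p x A fun a => a ^ p) (q : ℕ) :
    FrobFree p x (Hc f A q) (FH p f q) := by
  have hdC : ∀ (k : ℕ) (w : (Fin m → Fin p) → Cc f A k),
      dC f A k (∑ lam, (∏ i, x i ^ (lam i : ℕ)) • FC p f k (w lam)) =
        ∑ lam, (∏ i, x i ^ (lam i : ℕ)) • FC p f (k + 1) (dC f A k (w lam)) := by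
    intro k w
    rw [map_sum]
    refine Finset.sum_congr rfl fun lam _ => ?_
    rw [map_smul, FC, cmap_dC]
    rfl
  have huniq : ∀ (k : ℕ) (w w' : (Fin m → Fin p) → Cc f A k),
      ∑ lam, (∏ i, x i ^ (lam i : ℕ)) • FC p f k (w lam) =
      ∑ lam, (∏ i, x i ^ (lam i : ℕ)) • FC p f k (w' lam) → ∀ lam, w lam = w' lam := by
    intro k w w' h lam
    exact congrFun ((frobFree_Cc p f x hA k _).unique (y₁ := w) (y₂ := w') rfl h) lam
  have hzero : ∀ k : ℕ, ∑ lam, (∏ i, x i ^ ((lam : Fin m → Fin p) i : ℕ)) •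
      FC p f k (0 : Cc f A k) = 0 := by
    intro k
    refine Finset.sum_eq_zero fun lam _ => ?_
    rw [map_zero, smul_zero]
  refine Frob_crit p x _ ?_ ?_
  · intro n
    obtain ⟨z, rfl⟩ := Submodule.mkQ_surjective _ n
    obtain ⟨w, hw⟩ := (frobFree_Cc p f x hA q (z : Cc f A q)).exists
    have h1 : ∀ lam, dC f A q (w lam) = 0 := by
      refine huniq (q + 1) (fun lam => dC f A q (w lam)) (fun _ => 0) ?_
      rw [← hdC, ← hw, hzero]
      exact z.2
    refine ⟨fun lam => cls f A q ⟨w lam, h1 lam⟩, ?_⟩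
    have h2 : z = ∑ lam, (∏ i, x i ^ ((lam : Fin m → Fin p) i : ℕ)) •
        (⟨FC p f q (w lam), cmap_mem_Zc _ _ (h1 lam)⟩ : Zc f A q) := by
      apply Subtype.ext
      have h3 : ((Zc f A q).subtype (∑ lam, (∏ i, x i ^ ((lam : Fin m → Fin p) i : ℕ)) •
        (⟨FC p f q (w lam), cmap_mem_Zc _ _ (h1 lam)⟩ : Zc f A q))) =
          ∑ lam, (∏ i, x i ^ ((lam : Fin m → Fin p) i : ℕ)) • FC p f q (w lam) := by
        rw [map_sum]
        rfl
      exact hw.trans h3.symm
    conv_lhs => rw [h2]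
    rw [map_sum]
    rfl
  · intro w hw
    have h1 : ∀ lam, ∃ y, cls f A q y = w lam := fun lam => Submodule.mkQ_surjective _ (w lam)
    choose y hy using h1
    have h2 : cls f A q (∑ lam, (∏ i, x i ^ ((lam : Fin m → Fin p) i : ℕ)) •
        (⟨FC p f q (y lam), cmap_mem_Zc _ _ (y lam).2⟩ : Zc f A q)) = 0 := by
      rw [map_sum, ← hw]
      refine Finset.sum_congr rfl fun lam _ => ?_
      rw [map_smul, ← hy]
      rfl
    have h3 := (Submodule.Quotient.mk_eq_zero _).1 h2
    have h4 : ∑ lam, (∏ i, x i ^ ((lam : Fin m → Fin p) i : ℕ)) • FC p f q (y lam) ∈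
        Bc f A q := by
      have h5 : (Zc f A q).subtype (∑ lam, (∏ i, x i ^ ((lam : Fin m → Fin p) i : ℕ)) •
        (⟨FC p f q (y lam), cmap_mem_Zc _ _ (y lam).2⟩ : Zc f A q)) =
          ∑ lam, (∏ i, x i ^ ((lam : Fin m → Fin p) i : ℕ)) • FC p f q (y lam) := by
        rw [map_sum]
        rfl
      rw [← h5]
      exact h3
    intro lam
    rw [← hy]
    refine (Submodule.Quotient.mk_eq_zero _).2 ?_
    change (y lam : Cc f A q) ∈ Bc f A q
    cases q with
    | zero =>
      rw [mem_Bc_zero] at h4 ⊢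
      exact huniq 0 (fun lam => (y lam : Cc f A 0)) (fun _ => 0) (h4.trans (hzero 0).symm) lam
    | succ q =>
      obtain ⟨t, ht⟩ := h4
      obtain ⟨w', hw'⟩ := (frobFree_Cc p f x hA q t).exists
      rw [hw', hdC] at ht
      exact ⟨w' lam, huniq (q + 1) _ (fun lam => (y lam : Cc f A (q + 1))) ht lam⟩

/-- Taylor operators on Čech cohomology -/
def tayHc (hsA : Fin m → HS A) (q : ℕ) : TayMod p x hsA (FH p f q) where
  d i k := (hsA i).dh f q k
  d_zero i z := (hsA i).dh_zero f q z
  d_smul i k a z := (hsA i).dh_smul f q k a z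
  d_F i k z := (hsA i).dh_frob f p (frob_mem p f) (frobL p A) (fun _ => rfl) q k z

end

end Pool.Agent.Lib.MP_f251fc_ag
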