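import Mathlib

/-!
# Generation of modules with a Frobenius and Taylor operators

`A` is a Noetherian ring of characteristic `p`, `x : Fin m → A`, and the monomials `x ^ λ`, `λ < p`, form a
basis of `A` over `A ^ p` (`FrobFree p x A (· ^ p)`).  `𝓜` is an `A`-module with a `p`-linear map `F`, free in
the same sense.  If `T ≤ 𝓜` is stable under the Taylor operators and contains a root `L`, then `T = ⊤`.
-/

set_option autoImplicit false

namespace Pool.Agent.Lib.MP_f251fc_ag

noncomputable section

universe u

/-- every element is uniquely `∑ x ^ λ • F (w λ)` -/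
def FrobFree (p : ℕ) {m : ℕ} {A : Type u} [CommRing A] (x : Fin m → A) (N : Type u) [AddCommGroup N]
    [Module A N] (F : N → N) : Prop :=
  ∀ n : N, ∃! w : (Fin m → Fin p) → N, n = ∑ lam, (∏ i, x i ^ (lam i : ℕ)) • F (w lam)

section coord

variable {p : ℕ} [Fact p.Prime] {m : ℕ} {A : Type u} [CommRing A] [CharP A p] {x : Fin m → A}
  {M : Type u} [AddCommGroup M] [Module A M] (F : M →ₛₗ[frobenius A p] M)

/-- the coordinates -/
def coord (hF : FrobFree p x M F) (lam : Fin m → Fin p) (z : M) : M := (hF z).choose lam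

theorem coord_spec (hF : FrobFree p x M F) (z : M) :
    z = ∑ lam, (∏ i, x i ^ (lam i : ℕ)) • F (coord F hF lam z) := (hF z).choose_spec.1

theorem coord_unique (hF : FrobFree p x M F) (z : M) (w : (Fin m → Fin p) → M)
    (h : z = ∑ lam, (∏ i, x i ^ (lam i : ℕ)) • F (w lam)) (lam : Fin m → Fin p) :
    w lam = coord F hF lam z :=
  congrFun ((hF z).choose_spec.2 w h) lam

theorem coord_add (hF : FrobFree p x M F) (lam : Fin m → Fin p) (z z' : M) :
    coord F hF lam (z + z') = coord F hF lam z + coord F hF lam z' := by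
  symm
  refine coord_unique F hF (z + z') (fun l => coord F hF l z + coord F hF l z') ?_ lam
  conv_lhs => rw [coord_spec F hF z, coord_spec F hF z']
  rw [← Finset.sum_add_distrib]
  refine Finset.sum_congr rfl fun l _ => ?_
  rw [map_add, smul_add]

theorem coord_pow_smul (hF : FrobFree p x M F) (lam : Fin m → Fin p) (a : A) (z : M) :
    coord F hF lam (a ^ p • z) = a • coord F hF lam z := by
  symm
  refine coord_unique F hF (a ^ p • z) (fun l => a • coord F hF l z) ?_ lam
  conv_lhs => rw [coord_spec F hF z]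
  rw [Finset.smul_sum]
  refine Finset.sum_congr rfl fun l _ => ?_
  rw [map_smulₛₗ, frobenius_def, smul_comm]

/-- `a = ∑ x ^ μ b_μ ^ p`, so `a • F y = ∑ x ^ μ • F (b_μ • y)` -/
theorem coord_smul_F (hA : FrobFree p x A fun a => a ^ p) (hF : FrobFree p x M F)
    (lam : Fin m → Fin p) (a : A) (y : M) : ∃ b : A, coord F hF lam (a • F y) = b • y := by
  obtain ⟨w, hw, -⟩ := hA a
  refine ⟨w lam, ?_⟩
  symm
  refine coord_unique F hF (a • F y) (fun l => w l • y) ?_ lam
  conv_lhs => rw [hw]
  rw [Finset.sum_smul]
  refine Finset.sum_congr rfl fun l _ => ?_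
  rw [map_smulₛₗ, frobenius_def, smul_eq_mul, mul_smul]

/-- the coordinates as additive maps -/
private def coordHom (hF : FrobFree p x M F) (lam : Fin m → Fin p) : M →+ M :=
  AddMonoidHom.mk' (coord F hF lam) (coord_add F hF lam)

private theorem coordHom_apply (hF : FrobFree p x M F) (lam : Fin m → Fin p) (z : M) :
    coordHom F hF lam z = coord F hF lam z := rfl

/-- `A`-span of `F Q` -/
def spanF (Q : Submodule A M) : Submodule A M := Submodule.span A (F '' Q)

theorem spanF_mono {Q Q' : Submodule A M} (h : Q ≤ Q') : spanF F Q ≤ spanF F Q' :=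
  Submodule.span_mono (Set.image_mono h)

/-- span of the coordinates of the elements of `Q` -/
def coordS (hF : FrobFree p x M F) (Q : Submodule A M) : Submodule A M :=
  Submodule.span A {y | ∃ lam, ∃ z ∈ Q, y = coord F hF lam z}

theorem coordS_mono (hF : FrobFree p x M F) {Q Q' : Submodule A M} (h : Q ≤ Q') :
    coordS F hF Q ≤ coordS F hF Q' := by
  refine Submodule.span_mono ?_
  rintro _ ⟨lam, z, hz, rfl⟩
  exact ⟨lam, z, h hz, rfl⟩

/-- from `coord_spec` -/
theorem le_spanF_coordS (hF : FrobFree p x M F) (Q : Submodule A M) :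
    Q ≤ spanF F (coordS F hF Q) := by
  intro z hz
  rw [coord_spec F hF z]
  refine Submodule.sum_mem _ fun lam _ => Submodule.smul_mem _ _ (Submodule.subset_span ?_)
  exact ⟨_, Submodule.subset_span ⟨lam, z, hz, rfl⟩, rfl⟩

/-- from `coord_smul_F` and `coord_add` -/
theorem coordS_le (hA : FrobFree p x A fun a => a ^ p) (hF : FrobFree p x M F)
    {Q Q' : Submodule A M} (h : Q ≤ spanF F Q') : coordS F hF Q ≤ Q' := by
  refine Submodule.span_le.2 ?_
  rintro _ ⟨lam, z, hz, rfl⟩
  have hz' := h hz
  have key : ∀ l, coord F hF l z ∈ Q' := by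
    refine Submodule.span_induction (p := fun z _ => ∀ l, coord F hF l z ∈ Q') ?_ ?_ ?_ ?_ hz'
    · rintro _ ⟨y, hy, rfl⟩ l
      obtain ⟨b, hb⟩ := coord_smul_F F hA hF l 1 y
      rw [one_smul] at hb
      rw [hb]
      exact Q'.smul_mem b hy
    · intro l
      rw [← coordHom_apply, map_zero]
      exact Q'.zero_mem
    · intro a b _ _ ha hb l
      rw [coord_add]
      exact Q'.add_mem (ha l) (hb l)
    · intro a w _ hw l
      conv => rw [coord_spec F hF w]
      rw [Finset.smul_sum, ← coordHom_apply, map_sum]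
      refine Q'.sum_mem fun j _ => ?_
      rw [coordHom_apply, smul_smul]
      obtain ⟨b, hb⟩ := coord_smul_F F hA hF l (a * ∏ i, x i ^ (j i : ℕ)) (coord F hF j w)
      rw [hb]
      exact Q'.smul_mem b (hw j)
  exact key lam

/-- the chain of iterated coordinate modules is decreasing -/
theorem coordS_antitone (hA : FrobFree p x A fun a => a ^ p) (hF : FrobFree p x M F)
    {L : Submodule A M} (h : L ≤ spanF F L) (e : ℕ) :
    (coordS F hF)^[e + 1] L ≤ (coordS F hF)^[e] L := by
  induction e with
  | zero => exact coordS_le F hA hF h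
  | succ e ih =>
    have h2 := coordS_mono F hF ih
    rwa [← Function.iterate_succ_apply' (coordS F hF) (e + 1) L,
      ← Function.iterate_succ_apply' (coordS F hF) e L] at h2

end coord

end

end Pool.Agent.Lib.MP_f251fc_ag
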