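import Pool.Agent.Lib.MP_f251fc_ag.CechL

/-!
# Taylor (Hasse-Schmidt) structures on rings and their extension to localisations

`HS R` is a ring homomorphism `τ : R → R⟦t⟧` with `τ r ≡ r mod t`.  It extends to every localisation.
-/

set_option autoImplicit false

namespace Pool.Agent.Lib.MP_f251fc_ag

noncomputable section

universe u

/-- a Taylor structure -/
structure HS (R : Type u) [CommRing R] where
  /-- the Taylor homomorphism -/
  τ : R →+* PowerSeries R
  τ0 : ∀ r, PowerSeries.constantCoeff (τ r) = r

/-- the `k`-th operator -/
def HS.d {R : Type u} [CommRing R] (h : HS R) (k : ℕ) (r : R) : R := PowerSeries.coeff k (h.τ r)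

section loc

variable {R : Type u} [CommRing R] (h : HS R)

private theorem HS_isLoc (M : Submonoid R) : IsLocalization M (LocalizedModule M R) :=
  (isLocalizedModule_iff_isLocalization' M (LocalizedModule M R)).1
    (localizedModuleIsLocalizedModule M : IsLocalizedModule M (LocalizedModule.mkLinearMap M R))

private theorem HS_one (M : Submonoid R) :
    (1 : LocalizedModule M R) = LocalizedModule.mk 1 1 := OreLocalization.one_def

private theorem HS_mul (M : Submonoid R) (a b : R) (s t : M) :
    (LocalizedModule.mk a s * LocalizedModule.mk b t : LocalizedModule M R) =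
      LocalizedModule.mk (a * b) (s * t) := by
  refine Eq.trans ?_ (LocalizedModule.mk_mul_mk (R := R) (A := R) (S := M))
  rfl

private theorem HS_pow (M : Submonoid R) (a : R) (s : M) (n : ℕ) :
    (LocalizedModule.mk a s : LocalizedModule M R) ^ n = LocalizedModule.mk (a ^ n) (s ^ n) := by
  induction n with
  | zero => rw [pow_zero, pow_zero, pow_zero, HS_one]
  | succ n ih => rw [pow_succ, ih, HS_mul, ← pow_succ, ← pow_succ]

private theorem HS_hom_ext (M : Submonoid R) {S : Type u} [CommRing S]
    {f g : LocalizedModule M R →+* S}
    (h : ∀ r : R, f (LocalizedModule.mk r 1) = g (LocalizedModule.mk r 1)) : f = g := by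
  have := HS_isLoc M
  exact IsLocalization.ringHom_ext M (RingHom.ext fun r => h r)

/-- existence of the extension of `τ` to the localisation `LocalizedModule M R` (which is the ring
`Localization M`); an element of `M` maps to a unit since its constant coefficient is a unit -/
theorem HS.exists_loc (M : Submonoid R) :
    ∃ T : LocalizedModule M R →+* PowerSeries (LocalizedModule M R),
      ∀ r : R, T (LocalizedModule.mk r 1) =
        PowerSeries.mk fun k => LocalizedModule.mk (h.d k r) 1 := by
  have := HS_isLoc M
  let g : R →+* PowerSeries (LocalizedModule M R) :=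
    (PowerSeries.map (algebraMap R (LocalizedModule M R))).comp h.τ
  have hg : ∀ y : M, IsUnit (g y) := by
    intro y
    rw [PowerSeries.isUnit_iff_constantCoeff]
    have h1 : PowerSeries.constantCoeff (g y) = algebraMap R (LocalizedModule M R) y := by
      rw [← PowerSeries.coeff_zero_eq_constantCoeff_apply]
      change PowerSeries.coeff 0 (PowerSeries.map (algebraMap R (LocalizedModule M R)) (h.τ y)) = _
      rw [PowerSeries.coeff_map, PowerSeries.coeff_zero_eq_constantCoeff_apply, h.τ0]
    rw [h1]
    exact IsLocalization.map_units _ y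
  refine ⟨IsLocalization.lift (M := M) hg, fun r => ?_⟩
  have h2 : IsLocalization.lift (M := M) hg (algebraMap R (LocalizedModule M R) r) = g r :=
    IsLocalization.lift_eq hg r
  refine h2.trans ?_
  ext k
  rw [PowerSeries.coeff_mk]
  change PowerSeries.coeff k (PowerSeries.map (algebraMap R (LocalizedModule M R)) (h.τ r)) = _
  rw [PowerSeries.coeff_map]
  rfl

/-- the extension of `τ` to a localisation -/
def HS.loc (M : Submonoid R) : LocalizedModule M R →+* PowerSeries (LocalizedModule M R) :=
  (h.exists_loc M).choose

theorem HS.loc_spec (M : Submonoid R) (r : R) : h.loc M (LocalizedModule.mk r 1) =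
    PowerSeries.mk fun k => LocalizedModule.mk (h.d k r) 1 :=
  (h.exists_loc M).choose_spec r

/-- the operators on a localisation -/
def HS.dl (M : Submonoid R) (k : ℕ) : LocalizedModule M R →+ LocalizedModule M R where
  toFun x := PowerSeries.coeff k (h.loc M x)
  map_zero' := by rw [map_zero, map_zero]
  map_add' x y := by rw [map_add, map_add]

theorem HS.dl_zero (M : Submonoid R) (x : LocalizedModule M R) : h.dl M 0 x = x := by
  have key : (PowerSeries.constantCoeff (R := LocalizedModule M R)).comp (h.loc M) =
      RingHom.id _ := by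
    refine HS_hom_ext M fun r => ?_
    change PowerSeries.constantCoeff (h.loc M (LocalizedModule.mk r 1)) = LocalizedModule.mk r 1
    rw [h.loc_spec, ← PowerSeries.coeff_zero_eq_constantCoeff_apply, PowerSeries.coeff_mk]
    congr 1
    change PowerSeries.coeff 0 (h.τ r) = r
    rw [PowerSeries.coeff_zero_eq_constantCoeff_apply, h.τ0]
  have h1 := RingHom.congr_fun key x
  change PowerSeries.coeff 0 (h.loc M x) = x
  rw [PowerSeries.coeff_zero_eq_constantCoeff_apply]
  exact h1

/-- the restriction maps are ring homomorphisms -/
private def HS_res {M₁ M₂ : Submonoid R} (hM : M₁ ≤ M₂) :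
    LocalizedModule M₁ R →+* LocalizedModule M₂ R where
  toFun := res R hM
  map_one' := by
    rw [HS_one, HS_one, res_mk]
    rfl
  map_mul' x y := by
    induction x using LocalizedModule.induction_on with
    | h n s =>
      induction y using LocalizedModule.induction_on with
      | h n' s' =>
        rw [HS_mul, res_mk, res_mk, res_mk, HS_mul]
        rfl
  map_zero' := map_zero _
  map_add' x y := map_add _ _ _

/-- compatibility with the restriction maps: both `PowerSeries.map (res)` after `loc M₁` and `loc M₂` after
`res` are ring homomorphisms agreeing on `R` -/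
theorem HS.dl_res {M₁ M₂ : Submonoid R} (hM : M₁ ≤ M₂) (k : ℕ) (x : LocalizedModule M₁ R) :
    h.dl M₂ k (res R hM x) = res R hM (h.dl M₁ k x) := by
  have key : (h.loc M₂).comp (HS_res hM) = (PowerSeries.map (HS_res hM)).comp (h.loc M₁) := by
    refine HS_hom_ext M₁ fun r => ?_
    change h.loc M₂ (res R hM (LocalizedModule.mk r 1)) =
      PowerSeries.map (HS_res hM) (h.loc M₁ (LocalizedModule.mk r 1))
    rw [res_mk, h.loc_spec]
    refine (h.loc_spec M₂ r).trans ?_
    ext j
    rw [PowerSeries.coeff_mk, PowerSeries.coeff_map, PowerSeries.coeff_mk]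
    exact (res_mk hM (h.d j r) 1).symm
  have h1 := congrArg (PowerSeries.coeff k) (RingHom.congr_fun key x)
  change PowerSeries.coeff k (h.loc M₂ (res R hM x)) =
    PowerSeries.coeff k (PowerSeries.map (HS_res hM) (h.loc M₁ x)) at h1
  rw [PowerSeries.coeff_map] at h1
  exact h1

/-- Leibniz rule -/
theorem HS.dl_smul (M : Submonoid R) (k : ℕ) (a : R) (x : LocalizedModule M R) :
    h.dl M k (a • x) = ∑ i ∈ Finset.range (k + 1), h.d i a • h.dl M (k - i) x := by
  have hs : ∀ (b : R) (y : LocalizedModule M R), b • y = LocalizedModule.mk b 1 * y := by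
    intro b y
    induction y using LocalizedModule.induction_on with
    | h n s => rw [HS_mul, LocalizedModule.smul'_mk, one_mul, smul_eq_mul]
  change PowerSeries.coeff k (h.loc M (a • x)) = _
  rw [hs, map_mul, PowerSeries.coeff_mul, Finset.Nat.sum_antidiagonal_eq_sum_range_succ
    (fun i j => PowerSeries.coeff i (h.loc M (LocalizedModule.mk a 1)) *
      PowerSeries.coeff j (h.loc M x))]
  refine Finset.sum_congr rfl fun i _ => ?_
  rw [h.loc_spec, PowerSeries.coeff_mk, hs]
  rfl

/-- compatibility with a ring homomorphism -/
theorem HS.dl_lmap {R' : Type u} [CommRing R'] (h' : HS R') (φ : R →+* R')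
    (hφ : ∀ k r, h'.d k (φ r) = φ (h.d k r)) {M : Submonoid R} {M' : Submonoid R'}
    (hM : ∀ m ∈ M, φ m ∈ M') (θ : R →ₛₗ[φ] R') (hθ : ∀ r, θ r = φ r) (k : ℕ)
    (x : LocalizedModule M R) :
    h'.dl M' k (lmap hM θ x) = lmap hM θ (h.dl M k x) := by
  let L : LocalizedModule M R →+* LocalizedModule M' R' :=
    { toFun := lmap hM θ
      map_one' := by
        rw [HS_one, HS_one, lmap_mk, hθ]
        congr 1
        · exact map_one φ
        · ext
          exact map_one φ
      map_mul' := by
        intro x y
        induction x using LocalizedModule.induction_on with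
        | h n s =>
          induction y using LocalizedModule.induction_on with
          | h n' s' =>
            rw [HS_mul, lmap_mk, lmap_mk, lmap_mk, HS_mul]
            congr 1
            · rw [hθ, hθ, hθ, map_mul]
            · ext
              exact map_mul φ _ _
      map_zero' := map_zero _
      map_add' := fun x y => map_add _ _ _ }
  have hL : ∀ r : R, L (LocalizedModule.mk r 1) = LocalizedModule.mk (φ r) 1 := by
    intro r
    change lmap hM θ (LocalizedModule.mk r 1) = _
    rw [lmap_mk, hθ]
    congr 1
    ext
    exact map_one φ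
  have key : (h'.loc M').comp L = (PowerSeries.map L).comp (h.loc M) := by
    refine HS_hom_ext M fun r => ?_
    rw [RingHom.comp_apply, RingHom.comp_apply, hL, h'.loc_spec, h.loc_spec]
    ext j
    rw [PowerSeries.coeff_mk, PowerSeries.coeff_map, PowerSeries.coeff_mk, hL, hφ]
  have h1 := congrArg (PowerSeries.coeff k) (RingHom.congr_fun key x)
  rw [RingHom.comp_apply, RingHom.comp_apply, PowerSeries.coeff_map] at h1
  exact h1

/-- coefficients of a `p`-th power in characteristic `p` -/
theorem coeff_pow_char {R : Type u} [CommRing R] (p : ℕ) [Fact p.Prime] [CharP R p]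
    (x : PowerSeries R) (k : ℕ) :
    PowerSeries.coeff k (x ^ p) = if p ∣ k then (PowerSeries.coeff (k / p) x) ^ p else 0 := by
  have hp : p ≠ 0 := (Fact.out : p.Prime).ne_zero
  have h1 : PowerSeries.map (frobenius R p) (PowerSeries.expand p hp x) = x ^ p :=
    MvPowerSeries.map_frobenius_expand p hp
  rw [← h1, PowerSeries.coeff_map, PowerSeries.coeff_expand]
  split_ifs
  · rfl
  · exact map_zero _

/-- the operators and the Frobenius: `τ (x ^ p) = τ(x) ^ p`.  The map `lmap hM θ` is `x ↦ x ^ p` on the ring
`LocalizedModule M R` (`LocalizedModule.mk_pow`). -/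
theorem HS.dl_frob (p : ℕ) [Fact p.Prime] [CharP R p] {M : Submonoid R}
    (hM : ∀ m ∈ M, frobenius R p m ∈ M) (θ : R →ₛₗ[frobenius R p] R) (hθ : ∀ r, θ r = r ^ p)
    (k : ℕ) (x : LocalizedModule M R) :
    h.dl M k (lmap hM θ x) = if p ∣ k then lmap hM θ (h.dl M (k / p) x) else 0 := by
  have hpow : ∀ y : LocalizedModule M R, lmap hM θ y = y ^ p := by
    intro y
    induction y using LocalizedModule.induction_on with
    | h n s =>
      rw [lmap_mk, HS_pow, hθ]
      rfl
  rcases subsingleton_or_nontrivial (LocalizedModule M R) with hs | hs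
  · exact Subsingleton.elim _ _
  · have : CharP (LocalizedModule M R) p := by
      rw [CharP.charP_iff_prime_eq_zero (Fact.out : p.Prime)]
      have h1 : ((p : R) : R) = 0 := CharP.cast_eq_zero R p
      have h2 := congrArg (algebraMap R (LocalizedModule M R)) h1
      rwa [map_natCast, map_zero] at h2
    rw [hpow, hpow]
    change PowerSeries.coeff k (h.loc M (x ^ p)) = _
    rw [map_pow, coeff_pow_char p]
    rfl

end loc

end

end Pool.Agent.Lib.MP_f251fc_ag
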