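import Pool.Agent.Lib.MP_f251fc_ag.Hsl
import Pool.Agent.Lib.MP_f251fc_ag.HS

/-! # Generation theorem -/

set_option autoImplicit false

namespace Pool.Agent.Lib.MP_f251fc_ag

noncomputable section

universe u

/-- Taylor operators on a module with Frobenius, in the variables `x i` of `A` -/
structure TayMod (p : ℕ) [Fact p.Prime] {m : ℕ} {A : Type u} [CommRing A] [CharP A p] (x : Fin m → A)
    (hsA : Fin m → HS A) {M : Type u} [AddCommGroup M] [Module A M]
    (F : M →ₛₗ[frobenius A p] M) where
  /-- the operators -/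
  d : Fin m → ℕ → M →+ M
  d_zero : ∀ i z, d i 0 z = z
  d_smul : ∀ i k (a : A) z, d i k (a • z) = ∑ c ∈ Finset.range (k + 1), (hsA i).d c a • d i (k - c) z
  d_F : ∀ i k z, d i k (F z) = if p ∣ k then F (d i (k / p) z) else 0

section gen

variable {p : ℕ} [Fact p.Prime] {m : ℕ} {A : Type u} [CommRing A] [CharP A p] {x : Fin m → A}
  {hsA : Fin m → HS A}
  (hx : ∀ i j k a, (hsA i).d k (x j ^ a) =
    if i = j then (a.choose k : A) * x i ^ (a - k) else if k = 0 then x j ^ a else 0)
  {M : Type u} [AddCommGroup M] [Module A M] {F : M →ₛₗ[frobenius A p] M}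
  (τ : TayMod p x hsA F)

/-- a submodule stable under all operators -/
def TayMod.Stable (T : Submodule A M) : Prop := ∀ i k, ∀ z ∈ T, τ.d i k z ∈ T

include hx

/-- one variable: for `a b < p`, `d i (p-1) (x i ^ (p - 1 - a) • (x i ^ b • F y)) = F y` if `a = b`,
`0` otherwise: `d c (x i ^ n) = choose n c * x i ^ (n - c)`, `d c' (F y) = 0` for `0 < c' < p`, and
`choose n (p-1) = 0` in `A` for `p ≤ n ≤ 2 p - 2` (and for `n < p - 1`), `x i ^ n`, `n = p - 1 - a + b`. -/
theorem TayMod.extract_one (i : Fin m) (a b : ℕ) (ha : a < p) (hb : b < p) (y : M) :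
    τ.d i (p - 1) (x i ^ (p - 1 - a) • (x i ^ b • F y)) = if a = b then F y else 0 := by
  have hp : p.Prime := Fact.out
  have hp1 : 1 ≤ p := hp.one_lt.le
  rw [smul_smul, ← pow_add, τ.d_smul, Finset.sum_eq_single (p - 1)]
  · rw [Nat.sub_self, τ.d_zero, hx, if_pos rfl]
    split_ifs with hab
    · have h1 : p - 1 - a + b = p - 1 := by omega
      rw [h1, Nat.choose_self, Nat.sub_self, pow_zero, Nat.cast_one, one_mul, one_smul]
    · have h0 : ((p - 1 - a + b).choose (p - 1) : A) = 0 := by
        rcases lt_or_gt_of_ne hab with h | h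
        · rw [CharP.cast_eq_zero_iff A p]
          have hle : p - 1 ≤ p - 1 - a + b := by omega
          have h2 := Nat.choose_mul_factorial_mul_factorial hle
          have h3 : p ∣ (p - 1 - a + b).factorial := (hp.dvd_factorial).2 (by omega)
          rw [← h2] at h3
          rcases (hp.dvd_mul).1 h3 with h4 | h4
          · rcases (hp.dvd_mul).1 h4 with h5 | h5
            · exact h5
            · exact absurd ((hp.dvd_factorial).1 h5) (by omega)
          · exact absurd ((hp.dvd_factorial).1 h4) (by omega)
        · rw [Nat.choose_eq_zero_of_lt (by omega), Nat.cast_zero]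
      rw [h0, zero_mul, zero_smul]
  · intro c hc hc'
    rw [Finset.mem_range] at hc
    rw [τ.d_F, if_neg, smul_zero]
    intro hdvd
    have h1 := Nat.le_of_dvd (by omega) hdvd
    omega
  · intro h
    exact absurd (Finset.mem_range.2 (by omega)) h

/-- operators in the variable `i` commute with multiplication by powers of the other variables -/
theorem TayMod.d_smul_other (i j : Fin m) (hij : i ≠ j) (k n : ℕ) (z : M) :
    τ.d i k (x j ^ n • z) = x j ^ n • τ.d i k z := by
  rw [τ.d_smul, Finset.sum_eq_single 0]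
  · rw [hx, if_neg hij, if_pos rfl, Nat.sub_zero]
  · intro c _ hc
    rw [hx, if_neg hij, if_neg hc, zero_smul]
  · intro h
    exact absurd (Finset.mem_range.2 (Nat.succ_pos k)) h

theorem TayMod.gent_prod (j : Fin m) (μ : Fin m → ℕ) (k : ℕ) (t : Finset (Fin m)) (ht : j ∉ t)
    (z : M) : τ.d j k ((∏ i ∈ t, x i ^ μ i) • z) = (∏ i ∈ t, x i ^ μ i) • τ.d j k z := by
  classical
  induction t using Finset.induction_on generalizing z with
  | empty => rw [Finset.prod_empty, one_smul, one_smul]
  | insert i t hi ih =>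
    rw [Finset.prod_insert hi, mul_smul, mul_smul, TayMod.d_smul_other hx τ j i, ih]
    · intro h
      exact ht (Finset.mem_insert_of_mem h)
    · rintro rfl
      exact ht (Finset.mem_insert_self _ _)

/-- EXTRACTION.  Process the variables one after the other: for `s : Finset (Fin m)` put
`z_s = ∑_{μ, μ = lam on s} (∏_{i ∉ s} x i ^ μ i) • F (coord μ z)`; then `z_s ∈ T` by induction on `s`
(apply `d i (p-1) (x i ^ (p - 1 - lam i) • ·)`), and `z_univ = F (coord lam z)`. -/
theorem TayMod.F_coord_mem (hF : FrobFree p x M F) {T : Submodule A M} (hT : τ.Stable T) {z : M}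
    (hz : z ∈ T) (lam : Fin m → Fin p) : F (coord F hF lam z) ∈ T := by
  classical
  have key : ∀ s : Finset (Fin m), (∑ μ : Fin m → Fin p, if ∀ i ∈ s, μ i = lam i then
      (∏ i ∈ Finset.univ \ s, x i ^ (μ i : ℕ)) • F (coord F hF μ z) else 0) ∈ T := by
    intro s
    induction s using Finset.induction_on with
    | empty =>
      have h := coord_spec F hF z
      have h2 : (∑ μ : Fin m → Fin p, if ∀ i ∈ (∅ : Finset (Fin m)), μ i = lam i then
          (∏ i ∈ Finset.univ \ (∅ : Finset (Fin m)), x i ^ (μ i : ℕ)) • F (coord F hF μ z)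
          else 0) = z := by
        conv_rhs => rw [h]
        refine Finset.sum_congr rfl fun μ _ => ?_
        rw [if_pos (by simp), Finset.sdiff_empty]
      rw [h2]
      exact hz
    | insert j s hj ih =>
      have h1 := hT j (p - 1) _ (T.smul_mem (x j ^ (p - 1 - (lam j : ℕ))) ih)
      rw [Finset.smul_sum, map_sum] at h1
      convert h1 using 1
      refine Finset.sum_congr rfl fun μ _ => ?_
      have hiff : (∀ i ∈ insert j s, μ i = lam i) ↔ (lam j = μ j ∧ ∀ i ∈ s, μ i = lam i) := by
        rw [Finset.forall_mem_insert]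
        exact and_congr_left fun _ => eq_comm
      by_cases hs : ∀ i ∈ s, μ i = lam i
      · rw [if_pos hs]
        have hsd : Finset.univ \ s = insert j (Finset.univ \ insert j s) := by
          ext i
          simp only [Finset.mem_sdiff, Finset.mem_univ, true_and, Finset.mem_insert, not_or]
          constructor
          · intro h
            by_cases hij : i = j
            · exact Or.inl hij
            · exact Or.inr ⟨hij, h⟩
          · rintro (rfl | ⟨-, h⟩)
            · exact hj
            · exact h
        have hjn : j ∉ Finset.univ \ insert j s := by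
          simp
        have hterm : x j ^ (p - 1 - (lam j : ℕ)) •
            (∏ i ∈ Finset.univ \ s, x i ^ (μ i : ℕ)) • F (coord F hF μ z) =
            (∏ i ∈ Finset.univ \ insert j s, x i ^ (μ i : ℕ)) •
              (x j ^ (p - 1 - (lam j : ℕ)) • (x j ^ (μ j : ℕ) • F (coord F hF μ z))) := by
          rw [hsd, Finset.prod_insert hjn, smul_smul, smul_smul, smul_smul]
          congr 1
          ring
        rw [hterm, TayMod.gent_prod hx τ j (fun i => (μ i : ℕ)) (p - 1) _ hjn,
          TayMod.extract_one hx τ j _ _ (lam j).2 (μ j).2]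
        by_cases hlj : lam j = μ j
        · rw [if_pos (hiff.2 ⟨hlj, hs⟩), if_pos (by rw [hlj])]
        · rw [if_neg (fun h => hlj (hiff.1 h).1), if_neg (fun h => hlj (Fin.ext h)), smul_zero]
      · rw [if_neg hs, if_neg (fun h => hs (hiff.1 h).2), smul_zero, map_zero]
  have h := key Finset.univ
  rw [Finset.sum_eq_single lam] at h
  · rw [if_pos (fun _ _ => rfl), Finset.sdiff_self, Finset.prod_empty, one_smul] at h
    exact h
  · intro μ _ hμ
    rw [if_neg]
    intro h
    exact hμ (funext fun i => h i (Finset.mem_univ i))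
  · intro h
    exact absurd (Finset.mem_univ _) h

omit hx in
/-- `F (d i k z) = d i (p k) (F z)` -/
theorem TayMod.stable_comap {T : Submodule A M} (hT : τ.Stable T) :
    τ.Stable (T.comap F) := by
  intro i k z hz
  rw [Submodule.mem_comap] at hz ⊢
  have hp : p.Prime := Fact.out
  have h := hT i (p * k) _ hz
  rw [τ.d_F, if_pos (Dvd.intro k rfl), Nat.mul_div_cancel_left k hp.pos] at h
  exact h

/-- `coordS^e L ≤ T_e`, `T_e = comap^e T`, by induction on `e` -/
theorem TayMod.coordS_le_comap (hF : FrobFree p x M F) (e : ℕ) :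
    ∀ (L T : Submodule A M), τ.Stable T → L ≤ T →
      (coordS F hF)^[e] L ≤ (fun Q : Submodule A M => Q.comap F)^[e] T := by
  induction e with
  | zero =>
    intro L T _ h
    exact h
  | succ e ih =>
    intro L T hT hLT
    rw [Function.iterate_succ_apply, Function.iterate_succ_apply]
    refine ih _ _ (TayMod.stable_comap τ hT) ?_
    refine Submodule.span_le.2 ?_
    rintro y ⟨lam, z, hz, rfl⟩
    exact TayMod.F_coord_mem hx τ hF hT (hLT hz) lam

/-- GENERATION THEOREM.  With `e₀` from `hsl` and `L' = coordS^(e₀) L = coordS^e L` for `e ≥ e₀`: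
`L ≤ spanF^(e₀) L'` (`le_spanF_coordS`), so for `z ∈ spanF^k L`, `z ∈ spanF^(k+e₀) L'` with
`L' = coordS^(k+e₀) L ≤ comap^(k+e₀) T`, and `spanF^e (comap^e T) ≤ T`. -/
theorem TayMod.eq_top [IsNoetherianRing A] (hA : FrobFree p x A fun a => a ^ p)
    (hF : FrobFree p x M F) (L : Submodule A M) (hfg : L.FG) (h1 : L ≤ spanF F L)
    (h2 : ∀ z : M, ∃ e, z ∈ (spanF F)^[e] L) (T : Submodule A M) (hT : τ.Stable T) (hLT : L ≤ T) :
    T = ⊤ := by
  obtain ⟨e₀, he₀⟩ := hsl F hA hF L hfg h1
  have hmono : ∀ (n : ℕ) {Q Q' : Submodule A M}, Q ≤ Q' → (spanF F)^[n] Q ≤ (spanF F)^[n] Q' := by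
    intro n
    induction n with
    | zero =>
      intro Q Q' h
      exact h
    | succ n ih =>
      intro Q Q' h
      rw [Function.iterate_succ_apply, Function.iterate_succ_apply]
      exact ih (spanF_mono F h)
  have hle : ∀ (n : ℕ) (Q : Submodule A M), Q ≤ (spanF F)^[n] ((coordS F hF)^[n] Q) := by
    intro n
    induction n with
    | zero =>
      intro Q
      exact le_refl _
    | succ n ih =>
      intro Q
      rw [Function.iterate_succ_apply' (spanF F), Function.iterate_succ_apply (coordS F hF)]
      exact (le_spanF_coordS F hF Q).trans (spanF_mono F (ih _))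
  have hdown : ∀ (n : ℕ) (Q : Submodule A M),
      (spanF F)^[n] ((fun Q : Submodule A M => Q.comap F)^[n] Q) ≤ Q := by
    intro n
    induction n with
    | zero =>
      intro Q
      exact le_refl _
    | succ n ih =>
      intro Q
      rw [Function.iterate_succ_apply' (spanF F),
        Function.iterate_succ_apply (fun Q : Submodule A M => Q.comap F)]
      refine (spanF_mono F (ih _)).trans ?_
      refine Submodule.span_le.2 ?_
      rintro _ ⟨y, hy, rfl⟩
      exact hy
  rw [eq_top_iff]
  intro z _
  obtain ⟨k, hk⟩ := h2 z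
  have h3 := hmono k (hle e₀ L) hk
  rw [← Function.iterate_add_apply] at h3
  have h4 : (coordS F hF)^[e₀] L = (coordS F hF)^[k + e₀] L := (he₀ _ (by omega)).symm
  rw [h4] at h3
  exact hdown _ _ (hmono _ (TayMod.coordS_le_comap hx τ hF (k + e₀) L T hT hLT) h3)

end gen

end

end Pool.Agent.Lib.MP_f251fc_ag
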