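import Mathlib

/-! # Denominators -/

set_option autoImplicit false

namespace Pool.Agent.Lib.MP_f251fc_ag

noncomputable section

universe u

section alg

variable {A : Type u} [CommRing A] [IsNoetherianRing A] {M : Type u} [AddCommGroup M] [Module A M]

omit [IsNoetherianRing A] in
/-- common denominator for a finitely generated submodule -/
private theorem HslD_common {P : Ideal A} (hP : P.IsPrime) {N N' : Submodule A M} (hN : N.FG)
    (h : ∀ z ∈ N, ∃ u ∉ P, u • z ∈ N') : ∃ u ∉ P, ∀ z ∈ N, u • z ∈ N' := by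
  classical
  obtain ⟨G, hG⟩ := hN
  have hg : ∀ g : M, ∃ u : A, u ∉ P ∧ (g ∈ G → u • g ∈ N') := by
    intro g
    by_cases hg : g ∈ G
    · obtain ⟨u, hu, hu'⟩ := h g (hG ▸ Submodule.subset_span hg)
      exact ⟨u, hu, fun _ => hu'⟩
    · exact ⟨1, (Ideal.ne_top_iff_one P).1 hP.ne_top, fun h => absurd h hg⟩
  choose v hv hv' using hg
  refine ⟨∏ g ∈ G, v g, ?_, ?_⟩
  · have h1 : ∏ g ∈ G, v g ∈ P.primeCompl := Submonoid.prod_mem _ fun g _ => hv g
    exact h1
  · intro z hz
    rw [← hG] at hz
    induction hz using Submodule.span_induction with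
    | mem x hx =>
      have hx' : x ∈ G := hx
      rw [← Finset.prod_erase_mul G v hx', mul_smul]
      exact N'.smul_mem _ (hv' x hx')
    | zero => rw [smul_zero]; exact N'.zero_mem
    | add x y _ _ hx hy => rw [smul_add]; exact N'.add_mem hx hy
    | smul a x _ hx => rw [smul_comm]; exact N'.smul_mem _ hx

/-- A descending chain of submodules of a finitely generated module, all containing `𝔟 ^ s • L 0`
(`𝔟 ≠ ⊤`), has two consecutive terms which agree up to a denominator outside a minimal prime `P` of `𝔟`: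
localise at `P`: `(L 0 / 𝔟 ^ s • L 0)_P` is a finitely generated module over the Artinian local ring
`A_P / 𝔟 ^ s A_P`, so it is Artinian and the chain of the images of the `(L e)_P` stabilises; `L e` is finitely
generated, so one denominator `u ∉ P` works.  Alternative without localisation: by induction using a prime
filtration / lengths of `(L e / L (e+1))` at `P`. -/
theorem exists_denominator (L : ℕ → Submodule A M) (hfg : (L 0).FG) (hanti : ∀ e, L (e + 1) ≤ L e)
    (b : Ideal A) (hb : b ≠ ⊤) (s : ℕ) (hs : ∀ e, b ^ s • L 0 ≤ L e) :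
    ∃ (P : Ideal A), P.IsPrime ∧ b ≤ P ∧ ∃ e, ∃ u ∉ P, ∀ z ∈ L e, u • z ∈ L (e + 1) := by
  classical
  obtain ⟨m, hm, hbm⟩ := Ideal.exists_le_maximal b hb
  have := hm.isPrime
  obtain ⟨P, hP, -⟩ := Ideal.exists_minimalPrimes_le hbm
  have hPp : P.IsPrime := hP.1.1
  refine ⟨P, hPp, hP.1.2, ?_⟩
  have hL : Antitone L := antitone_nat_of_succ_le hanti
  rcases Nat.eq_zero_or_pos s with rfl | hs0
  · refine ⟨0, 1, (Ideal.ne_top_iff_one P).1 hPp.ne_top, fun z hz => ?_⟩
    rw [one_smul]
    have h1 := hs 1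
    rw [pow_zero, Ideal.one_eq_top, Submodule.top_smul] at h1
    exact h1 hz
  have hPs : P ∈ (b ^ s).minimalPrimes := by
    rw [← Ideal.radical_minimalPrimes, Ideal.radical_pow b hs0.ne', Ideal.radical_minimalPrimes]
    exact hP
  let RP := Localization.AtPrime P
  let J : Ideal RP := (b ^ s).map (algebraMap A RP)
  have hart : IsArtinianRing (RP ⧸ J) := by
    apply IsLocalRing.quotient_artinian_of_mem_minimalPrimes_of_isLocalRing
    rwa [IsLocalization.minimalPrimes_map P.primeCompl (Localization.AtPrime P) (b ^ s),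
      Set.mem_preimage, Localization.AtPrime.under_maximalIdeal]
  have hfin : Module.Finite A (L 0) := Module.Finite.iff_fg.mpr hfg
  let V := LocalizedModule P.primeCompl (L 0)
  let f : L 0 →ₗ[A] V := LocalizedModule.mkLinearMap P.primeCompl (L 0)
  have hVfin : Module.Finite RP V := Module.Finite.of_isLocalizedModule P.primeCompl f
  let W := V ⧸ (J • (⊤ : Submodule RP V))
  have hWfin : Module.Finite RP W := inferInstance
  have hWfin' : Module.Finite (RP ⧸ J) W := Module.Finite.of_restrictScalars_finite RP (RP ⧸ J) W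
  have hW' : IsArtinian (RP ⧸ J) W := inferInstance
  have hW : IsArtinian RP W :=
    isArtinian_of_surjective_algebraMap (R := RP ⧸ J) (S := RP) Ideal.Quotient.mk_surjective
  let C : ℕ → Submodule RP V := fun e =>
    ((L e).comap (L 0).subtype).localized' RP P.primeCompl f
  have hCanti : ∀ e e', e ≤ e' → C e' ≤ C e := by
    intro e e' he x hx
    obtain ⟨m, hm, t, ht⟩ := hx
    exact ⟨m, hL he hm, t, ht⟩
  have hJ : ∀ e, J • (⊤ : Submodule RP V) ≤ C e := by
    intro e
    have h1 : J • (⊤ : Submodule RP V) =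
        (b ^ s • (⊤ : Submodule A (L 0))).localized' RP P.primeCompl f := by
      rw [Submodule.localized'_smul, Ideal.localized'_eq_map, Submodule.localized'_top]
    rw [h1]
    rintro x ⟨m, hm, t, ht⟩
    refine ⟨m, ?_, t, ht⟩
    have h2 : (b ^ s • (⊤ : Submodule A (L 0))) ≤ (L e).comap (L 0).subtype := by
      rw [← Submodule.map_le_iff_le_comap, Submodule.map_smul'', Submodule.map_top,
        Submodule.range_subtype]
      exact hs e
    exact h2 hm
  let D : ℕ →o (Submodule RP W)ᵒᵈ :=
    ⟨fun e => OrderDual.toDual ((C e).map (Submodule.mkQ _)), fun e e' he =>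
      OrderDual.toDual_le_toDual.2 (Submodule.map_mono (hCanti e e' he))⟩
  obtain ⟨n, hn⟩ := IsArtinian.monotone_stabilizes D
  refine ⟨n, ?_⟩
  have hCeq : C n ≤ C (n + 1) := by
    have h1 : (C n).map (Submodule.mkQ (J • (⊤ : Submodule RP V))) =
        (C (n + 1)).map (Submodule.mkQ (J • (⊤ : Submodule RP V))) :=
      congrArg OrderDual.ofDual (hn (n + 1) (Nat.le_succ n))
    have h2 := congrArg (Submodule.comap (Submodule.mkQ (J • (⊤ : Submodule RP V)))) h1
    rw [Submodule.comap_map_mkQ, Submodule.comap_map_mkQ, sup_eq_right.2 (hJ n),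
      sup_eq_right.2 (hJ (n + 1))] at h2
    exact h2.le
  have hLn : (L n).FG := by
    have : IsNoetherian A (L 0) := inferInstance
    have h3 : (((L n).comap (L 0).subtype).map (L 0).subtype).FG :=
      (IsNoetherian.noetherian _).map _
    rwa [Submodule.map_comap_subtype, inf_eq_right.2 (hL (Nat.zero_le n))] at h3
  refine HslD_common hPp hLn ?_
  intro z hz
  have hz0 : z ∈ L 0 := hL (Nat.zero_le n) hz
  have hx : f ⟨z, hz0⟩ ∈ C n := ⟨⟨z, hz0⟩, hz, 1, by simp⟩
  obtain ⟨m, hm, t, ht⟩ := hCeq hx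
  rw [IsLocalizedModule.mk'_eq_iff, ← LinearMap.map_smul_of_tower,
    IsLocalizedModule.eq_iff_exists P.primeCompl f] at ht
  obtain ⟨c, hc⟩ := ht
  refine ⟨(c : A) * (t : A), ?_, ?_⟩
  · exact P.primeCompl.mul_mem c.2 t.2
  · have h5 := congrArg (fun y : L 0 => (y : M)) hc
    have h6 : ((c : A) * (t : A)) • z = (c : A) • (m : M) := by
      rw [mul_smul]
      exact h5.symm
    rw [h6]
    exact (L (n + 1)).smul_mem _ hm

end alg

end

end Pool.Agent.Lib.MP_f251fc_ag
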