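import Pool.Agent.Lib.MP_f251fc_ag.Gen
import Pool.Agent.Lib.MP_f251fc_ag.HslD

/-!
# Stabilisation of the chain of coordinate modules (a form of the Hartshorne-Speiser-Lyubeznik theorem)

Notation `L_e = coordS^e L`, a decreasing chain of finitely generated modules.
-/

set_option autoImplicit false

namespace Pool.Agent.Lib.MP_f251fc_ag

noncomputable section

universe u

section hsl

variable {p : ℕ} [Fact p.Prime] {m : ℕ} {A : Type u} [CommRing A] [CharP A p] {x : Fin m → A}
  {M : Type u} [AddCommGroup M] [Module A M] (F : M →ₛₗ[frobenius A p] M)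

/-- `𝔟_e` = elements with a power multiplying `L_e` into `L_(e+1)` -/
def bIdeal (hF : FrobFree p x M F) (Q : Submodule A M) : Ideal A :=
  (Submodule.colon (coordS F hF Q) (Q : Set M)).radical

/-- `bIdeal Q ≤ bIdeal (coordS Q)` for `coordS Q ≤ Q`: if `u ^ N • Q ≤ coordS Q` then for `p N' ≥ N`:
`u ^ N' • coord z = coord (u ^ (p N') • z)` (`coord_pow_smul`) and `u ^ (p N') • z ∈ coordS Q`. -/
theorem bIdeal_mono (hF : FrobFree p x M F) (Q : Submodule A M) :
    bIdeal F hF Q ≤ bIdeal F hF (coordS F hF Q) := by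
  rintro u ⟨N, hN⟩
  rw [Submodule.mem_colon] at hN
  refine ⟨N, ?_⟩
  rw [Submodule.mem_colon]
  intro y hy
  have hle : coordS F hF Q ≤ (coordS F hF (coordS F hF Q)).comap
      (LinearMap.lsmul A M (u ^ N)) := by
    refine Submodule.span_le.2 ?_
    rintro _ ⟨lam, z, hz, rfl⟩
    change u ^ N • coord F hF lam z ∈ coordS F hF (coordS F hF Q)
    rw [← coord_pow_smul]
    refine Submodule.subset_span ⟨lam, _, ?_, rfl⟩
    have hq : (u ^ N) ^ p = (u ^ N) ^ (p - 1) * u ^ N :=
      (pow_sub_one_mul (Fact.out : p.Prime).ne_zero _).symm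
    rw [hq, mul_smul]
    exact Submodule.smul_mem _ _ (hN z hz)
  exact hle hy

/-- if `𝔟 ^ s₁ • Q ≤ coordS Q` then `𝔟 ^ (2 s₁) • Q ≤ coordS^e Q` for all `e`.  Induction on `e`:
`g ∈ 𝔟 ^ s₁`, `z ∈ Q`: `g • coord z = coord (g ^ p • z)`, `g ^ p ∈ 𝔟 ^ (p s₁) ⊆ 𝔟 ^ (2 s₁)` so
`g ^ p • z ∈ coordS^e Q`; hence `𝔟 ^ s₁ • coordS Q ≤ coordS^(e+1) Q`, and `𝔟 ^ s₁ • Q ≤ coordS Q`. -/
theorem pow_smul_le (hF : FrobFree p x M F) (Q : Submodule A M) (b : Ideal A) (s : ℕ)
    (h : b ^ s • Q ≤ coordS F hF Q) (e : ℕ) : b ^ (2 * s) • Q ≤ (coordS F hF)^[e] Q := by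
  induction e with
  | zero => exact Submodule.smul_le_right
  | succ e ih =>
    have key : b ^ s • coordS F hF Q ≤ (coordS F hF)^[e + 1] Q := by
      refine Submodule.smul_le.2 fun g hg y hy => ?_
      rw [Function.iterate_succ_apply']
      have hle : coordS F hF Q ≤ (coordS F hF ((coordS F hF)^[e] Q)).comap
          (LinearMap.lsmul A M g) := by
        refine Submodule.span_le.2 ?_
        rintro _ ⟨lam, z, hz, rfl⟩
        change g • coord F hF lam z ∈ coordS F hF ((coordS F hF)^[e] Q)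
        rw [← coord_pow_smul]
        refine Submodule.subset_span ⟨lam, _, ih ?_, rfl⟩
        refine Submodule.smul_mem_smul ?_ hz
        have h1 : g ^ p ∈ b ^ (s * p) := by
          rw [pow_mul]
          exact Ideal.pow_mem_pow hg p
        refine Ideal.pow_le_pow_right ?_ h1
        have := (Fact.out : p.Prime).two_le
        nlinarith
      exact hle hy
    calc b ^ (2 * s) • Q = b ^ s • (b ^ s • Q) := by
          rw [two_mul, pow_add, Submodule.mul_smul]
      _ ≤ b ^ s • coordS F hF Q := Submodule.smul_mono le_rfl h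
      _ ≤ _ := key

/-- STABILISATION.  The radical ideals `bIdeal (L_e)` increase (`bIdeal_mono`), so they are constant `= 𝔟` for
`e ≥ e₀`.  If `𝔟 = ⊤` then `L_(e+1) = L_e` for all `e ≥ e₀`.  Otherwise (`𝔟` finitely generated)
`𝔟 ^ s₁ • L_(e₀) ≤ L_(e₀+1)` for some `s₁`, `pow_smul_le` gives `𝔟 ^ (2 s₁) • L_(e₀) ≤ L_e` for all
`e ≥ e₀`, and `exists_denominator` gives `P ≥ 𝔟`, `e` and `u ∉ P` with `u ∈ bIdeal (L_e) = 𝔟`, a
contradiction. -/
theorem hsl [IsNoetherianRing A] (hA : FrobFree p x A fun a => a ^ p) (hF : FrobFree p x M F)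
    (L : Submodule A M) (hfg : L.FG) (h : L ≤ spanF F L) :
    ∃ e₀, ∀ e, e₀ ≤ e → (coordS F hF)^[e] L = (coordS F hF)^[e₀] L := by
  have hanti : ∀ e, (coordS F hF)^[e + 1] L ≤ (coordS F hF)^[e] L :=
    coordS_antitone F hA hF h
  have hmono : Monotone fun e => bIdeal F hF ((coordS F hF)^[e] L) := by
    refine monotone_nat_of_le_succ fun e => ?_
    have := bIdeal_mono F hF ((coordS F hF)^[e] L)
    rwa [← Function.iterate_succ_apply' (coordS F hF) e L] at this
  obtain ⟨e₀, he₀⟩ := monotone_stabilizes_iff_noetherian.2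
    (inferInstance : IsNoetherian A A) ⟨_, hmono⟩
  have he₀' : ∀ e, e₀ ≤ e → bIdeal F hF ((coordS F hF)^[e] L) =
      bIdeal F hF ((coordS F hF)^[e₀] L) := fun e he => (he₀ e he).symm
  set b : Ideal A := bIdeal F hF ((coordS F hF)^[e₀] L) with hbdef
  by_cases hb : b = ⊤
  · refine ⟨e₀, fun e he => ?_⟩
    induction e, he using Nat.le_induction with
    | base => rfl
    | succ e he ih =>
      refine Eq.trans (le_antisymm (hanti e) ?_) ih
      have h1 : (1 : A) ∈ bIdeal F hF ((coordS F hF)^[e] L) := by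
        rw [he₀' e he, hb]
        trivial
      obtain ⟨n, hn⟩ := h1
      rw [one_pow, Submodule.mem_colon] at hn
      intro z hz
      have h2 := hn z hz
      rwa [one_smul, ← Function.iterate_succ_apply' (coordS F hF) e L] at h2
  · exfalso
    have hA' : Antitone fun e => (coordS F hF)^[e] L := antitone_nat_of_succ_le hanti
    have hle : (coordS F hF)^[e₀] L ≤ L := hA' (Nat.zero_le e₀)
    have hfg0 : ((coordS F hF)^[e₀] L).FG := by
      have hN : IsNoetherian A L := isNoetherian_of_fg_of_noetherian L hfg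
      exact isNoetherian_submodule.1 hN _ hle
    obtain ⟨s₁, hs₁⟩ := Ideal.exists_radical_pow_le_of_fg
      (Submodule.colon (coordS F hF ((coordS F hF)^[e₀] L)) ((coordS F hF)^[e₀] L : Set M))
      (IsNoetherian.noetherian _)
    have h3 : b ^ s₁ • (coordS F hF)^[e₀] L ≤ coordS F hF ((coordS F hF)^[e₀] L) := by
      refine Submodule.smul_le.2 fun g hg y hy => ?_
      exact Submodule.mem_colon.1 (hs₁ hg) y hy
    have h4 := pow_smul_le F hF ((coordS F hF)^[e₀] L) b s₁ h3
    obtain ⟨P, hP, hbP, e, u, hu, hz⟩ := exists_denominator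
      (fun e => (coordS F hF)^[e] ((coordS F hF)^[e₀] L)) hfg0 (fun e => by
        have h5 := hanti (e + e₀)
        rw [show e + e₀ + 1 = (e + 1) + e₀ by ring, Function.iterate_add_apply,
          Function.iterate_add_apply _ e e₀] at h5
        exact h5) b hb (2 * s₁) h4
    refine hu (hbP ?_)
    rw [← he₀' (e + e₀) (Nat.le_add_left _ _)]
    refine Ideal.le_radical ?_
    rw [Submodule.mem_colon]
    intro z hz'
    rw [SetLike.mem_coe, Function.iterate_add_apply] at hz'
    have h6 := hz z hz'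
    rw [Function.iterate_succ_apply'] at h6
    rwa [Function.iterate_add_apply]

end hsl

end

end Pool.Agent.Lib.MP_f251fc_ag
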