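import Mathlib

/-!
# Localised modules: restriction maps and semilinear maps
-/

set_option autoImplicit false

namespace Pool.Agent.Lib.MP_f251fc_ag

noncomputable section

section LM

variable {B : Type*} [CommRing B] {N : Type*} [AddCommGroup N] [Module B N]

/-- restriction to a larger multiplicative set -/
def res (N : Type*) [AddCommGroup N] [Module B N] {M₁ M₂ : Submonoid B} (h : M₁ ≤ M₂) :
    LocalizedModule M₁ N →ₗ[B] LocalizedModule M₂ N :=
  IsLocalizedModule.liftOfLE M₁ M₂ h (LocalizedModule.mkLinearMap M₁ N)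
    (LocalizedModule.mkLinearMap M₂ N)

@[simp] theorem res_mk {M₁ M₂ : Submonoid B} (h : M₁ ≤ M₂) (n : N) (s : M₁) :
    res N h (LocalizedModule.mk n s) = LocalizedModule.mk n ⟨s.1, h s.2⟩ := by
  rw [IsLocalizedModule.mk_eq_mk', res, IsLocalizedModule.liftOfLE_mk', IsLocalizedModule.mk_eq_mk']

theorem res_res {M₁ M₂ M₃ : Submonoid B} (h₁ : M₁ ≤ M₂) (h₂ : M₂ ≤ M₃)
    (x : LocalizedModule M₁ N) : res N h₂ (res N h₁ x) = res N (h₁.trans h₂) x := by
  induction x using LocalizedModule.induction_on with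
  | h n s => simp

theorem res_self {M₁ : Submonoid B} (h : M₁ ≤ M₁) (x : LocalizedModule M₁ N) :
    res N h x = x := by
  induction x using LocalizedModule.induction_on with
  | h n s => simp

end LM

section SM

variable {B B' : Type*} [CommRing B] [CommRing B'] {φ : B →+* B'}
  {N N' : Type*} [AddCommGroup N] [Module B N] [AddCommGroup N'] [Module B' N']

/-- the function underlying `lmap` -/
def lmapFun {M : Submonoid B} {M' : Submonoid B'} (h : ∀ m ∈ M, φ m ∈ M') (θ : N →ₛₗ[φ] N')
    (x : LocalizedModule M N) : LocalizedModule M' N' :=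
  x.liftOn (fun q => LocalizedModule.mk (θ q.1) ⟨φ q.2.1, h _ q.2.2⟩) (by
    rintro ⟨n, s⟩ ⟨n', s'⟩ ⟨u, hu⟩
    simp only at hu ⊢
    rw [LocalizedModule.mk_eq]
    refine ⟨⟨φ u.1, h _ u.2⟩, ?_⟩
    have := congrArg θ hu
    simpa only [Submonoid.smul_def, map_smulₛₗ] using this)

theorem lmapFun_mk {M : Submonoid B} {M' : Submonoid B'} (h : ∀ m ∈ M, φ m ∈ M')
    (θ : N →ₛₗ[φ] N') (n : N) (s : M) :
    lmapFun h θ (LocalizedModule.mk n s) = LocalizedModule.mk (θ n) ⟨φ s.1, h _ s.2⟩ :=
  LocalizedModule.liftOn_mk _ n s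

/-- the semilinear map of localised modules induced by a semilinear map -/
def lmap {M : Submonoid B} {M' : Submonoid B'} (h : ∀ m ∈ M, φ m ∈ M') (θ : N →ₛₗ[φ] N') :
    LocalizedModule M N →ₛₗ[φ] LocalizedModule M' N' where
  toFun := lmapFun h θ
  map_add' x y := by
    induction x using LocalizedModule.induction_on with
    | h n s =>
      induction y using LocalizedModule.induction_on with
      | h n' s' =>
        rw [LocalizedModule.mk_add_mk, lmapFun_mk, lmapFun_mk, lmapFun_mk,
          LocalizedModule.mk_add_mk]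
        congr 1
        · simp only [Submonoid.smul_def, map_add, map_smulₛₗ]
        · ext
          simp
  map_smul' b x := by
    induction x using LocalizedModule.induction_on with
    | h n s =>
      rw [LocalizedModule.smul'_mk, lmapFun_mk, lmapFun_mk, LocalizedModule.smul'_mk, map_smulₛₗ]

@[simp] theorem lmap_mk {M : Submonoid B} {M' : Submonoid B'} (h : ∀ m ∈ M, φ m ∈ M')
    (θ : N →ₛₗ[φ] N') (n : N) (s : M) :
    lmap h θ (LocalizedModule.mk n s) = LocalizedModule.mk (θ n) ⟨φ s.1, h _ s.2⟩ :=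
  lmapFun_mk h θ n s

theorem lmap_res {M₁ M₂ : Submonoid B} {M₁' M₂' : Submonoid B'} (h : M₁ ≤ M₂) (h' : M₁' ≤ M₂')
    (h₁ : ∀ m ∈ M₁, φ m ∈ M₁') (h₂ : ∀ m ∈ M₂, φ m ∈ M₂') (θ : N →ₛₗ[φ] N')
    (x : LocalizedModule M₁ N) :
    lmap h₂ θ (res N h x) = res N' h' (lmap h₁ θ x) := by
  induction x using LocalizedModule.induction_on with
  | h n s => simp

end SM

end

end Pool.Agent.Lib.MP_f251fc_ag
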