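import Pool.Agent.Lib.MP_f251fc_ag.HS

/-! # Power series rings: Taylor structures -/

set_option autoImplicit false

namespace Pool.Agent.Lib.MP_f251fc_ag

noncomputable section

universe u

/-- The Hasse derivative in the variable `i`, by coefficients. -/
def hasse (R : Type u) [CommRing R] (m : ℕ) (i : Fin m) (k : ℕ) (f : MvPowerSeries (Fin m) R) :
    MvPowerSeries (Fin m) R := fun n =>
  ((n i + k).choose k : R) * MvPowerSeries.coeff (n + Finsupp.single i k) f

theorem coeff_hasse (R : Type u) [CommRing R] (m : ℕ) (i : Fin m) (k : ℕ)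
    (f : MvPowerSeries (Fin m) R) (n : Fin m →₀ ℕ) :
    MvPowerSeries.coeff n (hasse R m i k f) =
      ((n i + k).choose k : R) * MvPowerSeries.coeff (n + Finsupp.single i k) f := rfl

/-- Leibniz rule (Vandermonde identity `Nat.add_choose_eq`) -/
theorem hasse_mul (R : Type u) [CommRing R] (m : ℕ) (i : Fin m) (k : ℕ)
    (f g : MvPowerSeries (Fin m) R) :
    hasse R m i k (f * g) =
      ∑ c ∈ Finset.range (k + 1), hasse R m i c f * hasse R m i (k - c) g := by
  classical
  ext n
  rw [coeff_hasse, MvPowerSeries.coeff_mul, map_sum, Finset.mul_sum]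
  have hL : ∀ p ∈ Finset.HasAntidiagonal.antidiagonal (n + Finsupp.single i k),
      ((n i + k).choose k : R) * (MvPowerSeries.coeff p.1 f * MvPowerSeries.coeff p.2 g) =
      ∑ c ∈ Finset.range (k + 1), (((p.1 i).choose c * (p.2 i).choose (k - c) : ℕ) : R) *
        (MvPowerSeries.coeff p.1 f * MvPowerSeries.coeff p.2 g) := by
    intro p hp
    rw [Finset.HasAntidiagonal.mem_antidiagonal] at hp
    have h1 : n i + k = p.1 i + p.2 i := by
      have h2 := DFunLike.congr_fun hp i
      simp only [Finsupp.add_apply, Finsupp.single_eq_same] at h2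
      exact h2.symm
    rw [h1, Nat.add_choose_eq, Finset.Nat.sum_antidiagonal_eq_sum_range_succ
      (fun x y => (p.1 i).choose x * (p.2 i).choose y), Nat.cast_sum, Finset.sum_mul]
  rw [Finset.sum_congr rfl hL, Finset.sum_comm]
  refine Finset.sum_congr rfl fun c hc => ?_
  have hck : c ≤ k := Nat.lt_succ_iff.1 (Finset.mem_range.1 hc)
  rw [MvPowerSeries.coeff_mul]
  symm
  refine Finset.sum_of_injOn
    (fun p : (Fin m →₀ ℕ) × (Fin m →₀ ℕ) =>
      (p.1 + Finsupp.single i c, p.2 + Finsupp.single i (k - c))) ?_ ?_ ?_ ?_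
  · rintro ⟨a, b⟩ _ ⟨a', b'⟩ _ h
    simp only [Prod.mk.injEq] at h
    exact Prod.ext (add_right_cancel h.1) (add_right_cancel h.2)
  · rintro ⟨a, b⟩ hab
    rw [Finset.mem_coe, Finset.HasAntidiagonal.mem_antidiagonal] at hab ⊢
    simp only at hab ⊢
    rw [add_add_add_comm, hab, ← Finsupp.single_add]
    congr 2
    omega
  · rintro ⟨a, b⟩ hab hni
    rw [Finset.HasAntidiagonal.mem_antidiagonal] at hab
    simp only at hab ⊢
    by_cases h1 : c ≤ a i ∧ k - c ≤ b i
    · exfalso
      apply hni
      refine ⟨(a - Finsupp.single i c, b - Finsupp.single i (k - c)), ?_, ?_⟩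
      · rw [Finset.mem_coe, Finset.HasAntidiagonal.mem_antidiagonal]
        simp only
        ext j
        have h2 := DFunLike.congr_fun hab j
        by_cases hj : j = i
        · subst hj
          simp only [Finsupp.add_apply, Finsupp.tsub_apply, Finsupp.single_eq_same] at h2 ⊢
          omega
        · simp only [Finsupp.add_apply, Finsupp.tsub_apply,
            Finsupp.single_eq_of_ne (show j ≠ i from hj)] at h2 ⊢
          omega
      · simp only
        refine Prod.ext ?_ ?_
        · simp only
          rw [tsub_add_cancel_of_le]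
          rw [Finsupp.single_le_iff]
          exact h1.1
        · simp only
          rw [tsub_add_cancel_of_le]
          rw [Finsupp.single_le_iff]
          exact h1.2
    · have h2 : (a i).choose c * (b i).choose (k - c) = 0 := by
        rcases not_and_or.1 h1 with h3 | h3
        · rw [Nat.choose_eq_zero_of_lt (not_le.1 h3), zero_mul]
        · rw [Nat.choose_eq_zero_of_lt (not_le.1 h3), mul_zero]
      rw [h2, Nat.cast_zero, zero_mul]
  · rintro ⟨a, b⟩ _
    simp only [coeff_hasse, Finsupp.add_apply, Finsupp.single_eq_same]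
    push_cast
    ring

theorem PS_hasse_zero (R : Type u) [CommRing R] (m : ℕ) (i : Fin m)
    (f : MvPowerSeries (Fin m) R) : hasse R m i 0 f = f := by
  ext n
  rw [coeff_hasse, Nat.choose_zero_right, Finsupp.single_zero, add_zero, Nat.cast_one, one_mul]

theorem PS_hasse_one (R : Type u) [CommRing R] (m : ℕ) (i : Fin m) (k : ℕ) :
    hasse R m i k (1 : MvPowerSeries (Fin m) R) = if k = 0 then 1 else 0 := by
  classical
  by_cases hk : k = 0
  · subst hk
    rw [PS_hasse_zero, if_pos rfl]
  · rw [if_neg hk]
    ext n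
    rw [coeff_hasse, MvPowerSeries.coeff_one, if_neg, mul_zero, map_zero]
    intro h
    have h2 := DFunLike.congr_fun h i
    simp only [Finsupp.add_apply, Finsupp.single_eq_same, Finsupp.coe_zero, Pi.zero_apply] at h2
    omega

/-- `τ f = ∑ (hasse k f) t ^ k` is a ring homomorphism -/
theorem exists_hsP (R : Type u) [CommRing R] (m : ℕ) (i : Fin m) :
    ∃ h : HS (MvPowerSeries (Fin m) R), ∀ k f, h.d k f = hasse R m i k f := by
  classical
  refine ⟨⟨{ toFun := fun f => PowerSeries.mk fun k => hasse R m i k f
             map_one' := ?_, map_mul' := ?_, map_zero' := ?_, map_add' := ?_ }, ?_⟩, ?_⟩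
  · ext k : 1
    rw [PowerSeries.coeff_mk, PS_hasse_one, PowerSeries.coeff_one]
  · intro f g
    ext k : 1
    rw [PowerSeries.coeff_mk, hasse_mul, PowerSeries.coeff_mul,
      Finset.Nat.sum_antidiagonal_eq_sum_range_succ_mk]
    simp only [PowerSeries.coeff_mk]
  · ext k n
    rw [PowerSeries.coeff_mk, coeff_hasse, map_zero, mul_zero, map_zero, map_zero]
  · intro f g
    ext k n
    rw [PowerSeries.coeff_mk, coeff_hasse, map_add, map_add, PowerSeries.coeff_mk,
      PowerSeries.coeff_mk, map_add, coeff_hasse, coeff_hasse, mul_add]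
  · intro f
    simp only [RingHom.coe_mk, MonoidHom.coe_mk, OneHom.coe_mk]
    rw [← PowerSeries.coeff_zero_eq_constantCoeff_apply, PowerSeries.coeff_mk, PS_hasse_zero]
  · intro k f
    simp only [HS.d, RingHom.coe_mk, MonoidHom.coe_mk, OneHom.coe_mk]
    rw [PowerSeries.coeff_mk]

/-- the Taylor structure of a power series ring in the variable `i` -/
def hsP (R : Type u) [CommRing R] (m : ℕ) (i : Fin m) : HS (MvPowerSeries (Fin m) R) :=
  (exists_hsP R m i).choose

theorem hsP_d (R : Type u) [CommRing R] (m : ℕ) (i : Fin m) (k : ℕ)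
    (f : MvPowerSeries (Fin m) R) : (hsP R m i).d k f = hasse R m i k f :=
  (exists_hsP R m i).choose_spec k f

theorem hsP_map {R R' : Type u} [CommRing R] [CommRing R'] (φ : R →+* R') (m : ℕ) (i : Fin m)
    (k : ℕ) (f : MvPowerSeries (Fin m) R) :
    (hsP R' m i).d k (MvPowerSeries.map φ f) = MvPowerSeries.map φ ((hsP R m i).d k f) := by
  rw [hsP_d, hsP_d]
  ext n
  rw [coeff_hasse, MvPowerSeries.coeff_map, MvPowerSeries.coeff_map, coeff_hasse, map_mul,
    map_natCast]

theorem hsP_X (R : Type u) [CommRing R] (m : ℕ) (i j : Fin m) (k a : ℕ) :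
    (hsP R m i).d k (MvPowerSeries.X j ^ a) =
      if i = j then (a.choose k : MvPowerSeries (Fin m) R) * MvPowerSeries.X i ^ (a - k)
      else if k = 0 then MvPowerSeries.X j ^ a else 0 := by
  classical
  rw [hsP_d]
  by_cases hij : i = j
  · subst hij
    rw [if_pos rfl]
    have hc : ((a.choose k : ℕ) : MvPowerSeries (Fin m) R) =
        MvPowerSeries.C ((a.choose k : ℕ) : R) := (map_natCast _ _).symm
    ext n
    rw [coeff_hasse, hc, MvPowerSeries.coeff_C_mul, MvPowerSeries.coeff_X_pow,
      MvPowerSeries.coeff_X_pow]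
    by_cases hka : k ≤ a
    · by_cases h : n = Finsupp.single i (a - k)
      · rw [if_pos h, if_pos]
        · have h1 : n i + k = a := by
            rw [h, Finsupp.single_eq_same]
            omega
          rw [h1]
        · rw [h, ← Finsupp.single_add, Nat.sub_add_cancel hka]
      · rw [if_neg h, if_neg, mul_zero, mul_zero]
        intro h1
        apply h
        have h2 : n + Finsupp.single i k = Finsupp.single i (a - k) + Finsupp.single i k := by
          rw [h1, ← Finsupp.single_add, Nat.sub_add_cancel hka]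
        exact add_right_cancel h2
    · rw [Nat.choose_eq_zero_of_lt (not_le.1 hka), Nat.cast_zero, zero_mul, if_neg, mul_zero]
      intro h1
      have h2 := DFunLike.congr_fun h1 i
      simp only [Finsupp.add_apply, Finsupp.single_eq_same] at h2
      omega
  · rw [if_neg hij]
    by_cases hk : k = 0
    · subst hk
      rw [if_pos rfl, PS_hasse_zero]
    · rw [if_neg hk]
      ext n
      rw [coeff_hasse, MvPowerSeries.coeff_X_pow, if_neg, mul_zero, map_zero]
      intro h1
      have h2 := DFunLike.congr_fun h1 i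
      rw [Finsupp.add_apply, Finsupp.single_eq_same, Finsupp.single_eq_of_ne hij] at h2
      omega

end

end Pool.Agent.Lib.MP_f251fc_ag
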