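import Pool.Agent.Lib.MP_f251fc_ag.Gen

/-! # Power series rings: Frobenius, retractions -/

set_option autoImplicit false

namespace Pool.Agent.Lib.MP_f251fc_ag

noncomputable section

universe u

/-- coefficients of a `p`-th power in characteristic `p`: the coefficient at `n` of `f ^ p` only depends on
the truncation of `f`, and for polynomials this is `MvPolynomial.expand`/`frobenius` (`sum_pow_char`). -/
theorem coeff_pow_p (p : ℕ) [Fact p.Prime] (K : Type u) [Field K] [CharP K p] (m : ℕ)
    (f : MvPowerSeries (Fin m) K) (n : Fin m →₀ ℕ) :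
    MvPowerSeries.coeff n (f ^ p) =
      if ∀ i, p ∣ n i then
        (MvPowerSeries.coeff (Finsupp.equivFunOnFinite.symm fun i => n i / p) f) ^ p else 0 := by
  have hp : p ≠ 0 := (Fact.out : p.Prime).ne_zero
  rw [← MvPowerSeries.map_frobenius_expand p hp, MvPowerSeries.coeff_map, frobenius_def]
  split_ifs with h
  · have hn : n = p • (Finsupp.equivFunOnFinite.symm fun i => n i / p : Fin m →₀ ℕ) := by
      ext i
      simp [Nat.mul_div_cancel' (h i)]
    conv_lhs => rw [hn]
    rw [MvPowerSeries.coeff_expand_smul]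
  · push Not at h
    obtain ⟨i, hi⟩ := h
    rw [MvPowerSeries.coeff_expand_of_not_dvd p hp f hi, zero_pow hp]

/-- the exponent vector of `lam` -/
private def PSF_vec {p m : ℕ} (lam : Fin m → Fin p) : Fin m →₀ ℕ :=
  Finsupp.equivFunOnFinite.symm fun i => (lam i : ℕ)

private theorem PSF_vec_apply {p m : ℕ} (lam : Fin m → Fin p) (i : Fin m) :
    PSF_vec lam i = (lam i : ℕ) := rfl

/-- the quotient vector -/
private def PSF_quo (p : ℕ) {m : ℕ} (n : Fin m →₀ ℕ) : Fin m →₀ ℕ :=
  Finsupp.equivFunOnFinite.symm fun i => n i / p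

private theorem PSF_quo_apply (p : ℕ) {m : ℕ} (n : Fin m →₀ ℕ) (i : Fin m) :
    PSF_quo p n i = n i / p := rfl

/-- the remainder vector -/
private def PSF_rem (p : ℕ) [Fact p.Prime] {m : ℕ} (n : Fin m →₀ ℕ) : Fin m → Fin p :=
  fun i => ⟨n i % p, Nat.mod_lt _ (Fact.out : p.Prime).pos⟩

private theorem PSF_monomial {p m : ℕ} (K : Type u) [Field K] (lam : Fin m → Fin p) :
    (∏ i, (MvPowerSeries.X i : MvPowerSeries (Fin m) K) ^ (lam i : ℕ)) =
      MvPowerSeries.monomial (PSF_vec lam) 1 := by
  classical
  have h : ∀ s : Finset (Fin m), (∏ i ∈ s, (MvPowerSeries.X i : MvPowerSeries (Fin m) K) ^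
      (lam i : ℕ)) = MvPowerSeries.monomial (∑ i ∈ s, Finsupp.single i (lam i : ℕ)) 1 := by
    intro s
    induction s using Finset.induction_on with
    | empty => simp
    | insert a s ha ih =>
      rw [Finset.prod_insert ha, Finset.sum_insert ha, ih, MvPowerSeries.X_pow_eq,
        MvPowerSeries.monomial_mul_monomial, one_mul]
  have h2 : (∑ i, Finsupp.single i (lam i : ℕ)) = PSF_vec lam := ?_
  · rw [h, h2]
  ext j
  rw [Finsupp.finsetSum_apply, PSF_vec_apply, Finset.sum_eq_single j]
  · simp
  · intro b _ hb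
    rw [Finsupp.single_eq_of_ne hb.symm]
  · intro hj
    exact absurd (Finset.mem_univ j) hj

private theorem PSF_coeff (p : ℕ) [Fact p.Prime] (K : Type u) [Field K] [CharP K p] (m : ℕ)
    (w : (Fin m → Fin p) → MvPowerSeries (Fin m) K) (n : Fin m →₀ ℕ) :
    MvPowerSeries.coeff n (∑ lam : Fin m → Fin p,
      (∏ i, (MvPowerSeries.X i : MvPowerSeries (Fin m) K) ^ (lam i : ℕ)) • (w lam) ^ p) =
      (MvPowerSeries.coeff (PSF_quo p n) (w (PSF_rem p n))) ^ p := by
  classical
  have hpp : 0 < p := (Fact.out : p.Prime).pos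
  rw [map_sum, Finset.sum_eq_single (PSF_rem p n)]
  · rw [smul_eq_mul, PSF_monomial, MvPowerSeries.coeff_monomial_mul]
    have hle : PSF_vec (PSF_rem p n) ≤ n := by
      intro i
      exact Nat.mod_le _ _
    have hsub : ∀ i, (n - PSF_vec (PSF_rem p n)) i = p * (n i / p) := by
      intro i
      rw [Finsupp.tsub_apply, PSF_vec_apply]
      change n i - n i % p = _
      have := Nat.div_add_mod (n i) p
      omega
    rw [if_pos hle, one_mul, coeff_pow_p, if_pos]
    · have h5 : (Finsupp.equivFunOnFinite.symm fun i => (n - PSF_vec (PSF_rem p n)) i / p) =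
          PSF_quo p n := by
        ext i
        change (n - PSF_vec (PSF_rem p n)) i / p = n i / p
        rw [hsub, Nat.mul_div_cancel_left _ hpp]
      rw [h5]
    · intro i
      rw [hsub]
      exact dvd_mul_right _ _
  · intro lam _ hne
    rw [smul_eq_mul, PSF_monomial, MvPowerSeries.coeff_monomial_mul]
    split_ifs with hle
    · rw [one_mul, coeff_pow_p, if_neg]
      intro hall
      apply hne
      funext i
      apply Fin.ext
      change (lam i : ℕ) = n i % p
      have h1 := hall i
      have h2 : (lam i : ℕ) ≤ n i := hle i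
      rw [Finsupp.tsub_apply, PSF_vec_apply] at h1
      obtain ⟨k, hk⟩ := h1
      have h3 : n i = (lam i : ℕ) + p * k := by omega
      rw [h3, Nat.add_mul_mod_self_left, Nat.mod_eq_of_lt (lam i).2]
    · rfl
  · intro h
    exact absurd (Finset.mem_univ _) h

/-- over a perfect field, `f = ∑_lam X ^ lam * w_lam ^ p` uniquely:
`coeff n (w_lam) = (coeff (p n + lam) f) ^ (1/p)` -/
theorem frobFree_ps (p : ℕ) [Fact p.Prime] (K : Type u) [Field K] [CharP K p] [PerfectRing K p]
    (m : ℕ) :
    FrobFree p (fun i : Fin m => (MvPowerSeries.X i : MvPowerSeries (Fin m) K))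
      (MvPowerSeries (Fin m) K) (fun a => a ^ p) := by
  have hpp : 0 < p := (Fact.out : p.Prime).pos
  intro f
  refine ⟨fun lam => fun n' => (frobeniusEquiv K p).symm
    (MvPowerSeries.coeff (p • n' + PSF_vec lam) f), ?_, ?_⟩
  · ext n
    refine Eq.trans ?_ (PSF_coeff p K m _ n).symm
    change _ = ((frobeniusEquiv K p).symm
      (MvPowerSeries.coeff (p • PSF_quo p n + PSF_vec (PSF_rem p n)) f)) ^ p
    rw [frobeniusEquiv_symm_pow_p]
    have h5 : p • PSF_quo p n + PSF_vec (PSF_rem p n) = n := by
      ext i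
      change p * (n i / p) + n i % p = n i
      exact Nat.div_add_mod (n i) p
    rw [h5]
  · intro w hw
    funext lam
    ext n'
    change _ = (frobeniusEquiv K p).symm (MvPowerSeries.coeff (p • n' + PSF_vec lam) f)
    rw [eq_comm, RingEquiv.symm_apply_eq, frobeniusEquiv_apply, frobenius_def]
    have h1 := congrArg (MvPowerSeries.coeff (p • n' + PSF_vec lam)) hw
    refine h1.trans ((PSF_coeff p K m w _).trans ?_)
    have h2 : PSF_quo p (p • n' + PSF_vec lam) = n' := by
      ext i
      change (p * n' i + (lam i : ℕ)) / p = n' i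
      rw [Nat.mul_add_div hpp, Nat.div_eq_of_lt (lam i).2, add_zero]
    have h3 : PSF_rem p (p • n' + PSF_vec lam) = lam := by
      funext i
      apply Fin.ext
      change (p * n' i + (lam i : ℕ)) % p = (lam i : ℕ)
      rw [Nat.mul_add_mod, Nat.mod_eq_of_lt (lam i).2]
    rw [h2, h3]

theorem charP_ps (p : ℕ) (K : Type u) [Field K] [CharP K p] (m : ℕ) :
    CharP (MvPowerSeries (Fin m) K) p :=
  charP_of_injective_ringHom (MvPowerSeries.C_injective (σ := Fin m) (R := K)) p

/-- a `K`-linear retraction `K' → K` applied to the coefficients is `K⟦x⟧`-linear -/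
theorem exists_retraction (K K' : Type u) [Field K] [Field K'] (φ : K →+* K') (m : ℕ) :
    ∃ ρ : MvPowerSeries (Fin m) K' →+ MvPowerSeries (Fin m) K,
      (∀ x, ρ (MvPowerSeries.map φ x) = x) ∧
      ∀ x y, ρ (MvPowerSeries.map φ x * y) = x * ρ y := by
  classical
  let _ := φ.toAlgebra
  obtain ⟨g, hg⟩ := LinearMap.exists_leftInverse_of_injective (Algebra.linearMap K K')
    (LinearMap.ker_eq_bot.2 (algebraMap K K').injective)
  have hg' : ∀ x : K, g (φ x) = x := fun x => LinearMap.congr_fun hg x
  have hgm : ∀ (x : K) (y : K'), g (φ x * y) = x * g y := by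
    intro x y
    have h1 : φ x * y = x • y := (Algebra.smul_def x y).symm
    rw [h1, map_smul, smul_eq_mul]
  refine ⟨{ toFun := fun f => fun n => g (MvPowerSeries.coeff n f)
            map_zero' := ?_
            map_add' := ?_ }, ?_, ?_⟩
  · funext n
    change g (MvPowerSeries.coeff n 0) = 0
    rw [map_zero, map_zero]
  · intro f f'
    funext n
    change g (MvPowerSeries.coeff n (f + f')) = g (MvPowerSeries.coeff n f) +
      g (MvPowerSeries.coeff n f')
    rw [map_add, map_add]
  · intro x
    ext n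
    change g (MvPowerSeries.coeff n (MvPowerSeries.map φ x)) = _
    rw [MvPowerSeries.coeff_map, hg']
  · intro x y
    ext n
    change g (MvPowerSeries.coeff n (MvPowerSeries.map φ x * y)) = _
    rw [MvPowerSeries.coeff_mul, MvPowerSeries.coeff_mul, map_sum]
    refine Finset.sum_congr rfl fun q _ => ?_
    rw [MvPowerSeries.coeff_map, hgm]
    rfl

end

end Pool.Agent.Lib.MP_f251fc_ag
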