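import Pool.Agent.Lib.MP_f251fc_ag.Setup
import Pool.Agent.Lib.MP_f251fc_ag.PS
import Pool.Agent.Lib.MP_f251fc_ag.PSF

/-! # The power series ring over an unramified discrete valuation ring is an instance of `Setup` -/

set_option autoImplicit false

namespace Pool.Agent.Lib.MP_f251fc_ag

open IsLocalRing

noncomputable section

universe u

private theorem PSSetup_coeff_p {R : Type u} [CommRing R] (p m : ℕ)
    (t : MvPowerSeries (Fin m) R) (n : Fin m →₀ ℕ) :
    MvPowerSeries.coeff n ((p : MvPowerSeries (Fin m) R) * t) =
      (p : R) * MvPowerSeries.coeff n t := by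
  rw [← map_natCast (MvPowerSeries.C (σ := Fin m) (R := R)) p, MvPowerSeries.coeff_C_mul]

/-- `S = V⟦x⟧`, `K = V / p` the residue field, `Sb = K⟦x⟧` with the `S`-module structure by
`MvPowerSeries.map (residue V)`, `A = K'⟦x⟧` with `K'` the algebraic closure of `K` (perfect), `π = map`,
`ι = map`, `ρ` from `exists_retraction`, Taylor structures `hsP`.  `A` is Noetherian
(`MvPowerSeries.isNoetherianRing`). -/
theorem exists_setup (p : ℕ) [Fact p.Prime] (V : Type u) [CommRing V] [IsDomain V]
    [IsDiscreteValuationRing V] (hV : maximalIdeal V = Ideal.span {(p : V)}) (m : ℕ) :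
    ∃ (Sb A : Type u) (_ : AddCommGroup Sb) (_ : Module (MvPowerSeries (Fin m) V) Sb)
      (_ : CommRing A) (_ : CharP A p) (_ : Algebra (MvPowerSeries (Fin m) V) A),
      IsNoetherianRing A ∧ Nonempty (Setup p m (MvPowerSeries (Fin m) V) Sb A) := by
  classical
  have hpm : (p : V) ∈ maximalIdeal V := by
    rw [hV]
    exact Ideal.mem_span_singleton_self _
  have hp0 : (p : V) ≠ 0 := by
    intro h
    apply IsDiscreteValuationRing.not_isField V
    rw [isField_iff_maximalIdeal_eq, hV, h, Ideal.span_singleton_eq_bot]
  let K := ResidueField V
  have hKp : ((p : ℕ) : K) = 0 := by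
    have h1 : residue V (p : V) = 0 := (residue_eq_zero_iff _).2 hpm
    rwa [map_natCast] at h1
  have hKchar : CharP K p := (CharP.charP_iff_prime_eq_zero (Fact.out : p.Prime)).2 hKp
  let K' := AlgebraicClosure K
  have hK'char : CharP K' p := charP_of_injective_algebraMap (algebraMap K K').injective p
  have hperf : PerfectRing K' p := inferInstance
  let res : MvPowerSeries (Fin m) V →+* MvPowerSeries (Fin m) K :=
    MvPowerSeries.map (residue V)
  let φ : MvPowerSeries (Fin m) K →+* MvPowerSeries (Fin m) K' :=
    MvPowerSeries.map (algebraMap K K')
  let modSb : Module (MvPowerSeries (Fin m) V) (MvPowerSeries (Fin m) K) :=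
    Module.compHom _ res
  let algA : Algebra (MvPowerSeries (Fin m) V) (MvPowerSeries (Fin m) K') :=
    RingHom.toAlgebra (φ.comp res)
  have halg : ∀ s : MvPowerSeries (Fin m) V,
      algebraMap (MvPowerSeries (Fin m) V) (MvPowerSeries (Fin m) K') s = φ (res s) := fun s => rfl
  have hAchar : CharP (MvPowerSeries (Fin m) K') p := charP_ps p K' m
  obtain ⟨ρ, hρ1, hρ2⟩ := exists_retraction K K' (algebraMap K K') m
  refine ⟨MvPowerSeries (Fin m) K, MvPowerSeries (Fin m) K', inferInstance, modSb, inferInstance,
    hAchar, algA, inferInstance, ⟨?_⟩⟩
  exact
    { π := { toFun := res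
             map_add' := map_add res
             map_smul' := fun s t => map_mul res s t }
      π_surj := by
        intro b
        refine ⟨fun n => Function.surjInv residue_surjective (MvPowerSeries.coeff n b), ?_⟩
        ext n
        change residue V (Function.surjInv residue_surjective (MvPowerSeries.coeff n b)) = _
        exact Function.surjInv_eq residue_surjective _
      π_ker := by
        intro s
        change res s = 0 ↔ _
        constructor
        · intro h
          have h1 : ∀ n, ∃ t : V, MvPowerSeries.coeff n s = (p : V) * t := by
            intro n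
            have h2 : residue V (MvPowerSeries.coeff n s) = 0 := by
              have h3 := congrArg (MvPowerSeries.coeff n) h
              rw [map_zero] at h3
              rw [← h3]
              exact (MvPowerSeries.coeff_map _ _ _).symm
            have h4 := (residue_eq_zero_iff _).1 h2
            rw [hV, Ideal.mem_span_singleton] at h4
            exact h4
          choose t ht using h1
          let t' : MvPowerSeries (Fin m) V := t
          have ht' : ∀ n, MvPowerSeries.coeff n s = (p : V) * MvPowerSeries.coeff n t' := ht
          refine ⟨t', ?_⟩
          ext n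
          rw [PSSetup_coeff_p, ht' n]
        · rintro ⟨t, rfl⟩
          rw [map_mul, map_natCast]
          have h5 : ((p : ℕ) : MvPowerSeries (Fin m) K) = 0 := by
            rw [← map_natCast (MvPowerSeries.C (σ := Fin m) (R := K)) p, hKp, map_zero]
          rw [h5, zero_mul]
      p_reg := by
        intro s hs
        ext n
        have h1 := congrArg (MvPowerSeries.coeff n) hs
        rw [PSSetup_coeff_p, map_zero] at h1
        rw [map_zero]
        exact (mul_eq_zero.1 h1).resolve_left hp0
      ι := { toFun := φ
             map_add' := map_add φ
             map_smul' := fun s b => map_mul φ (res s) b }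
      ιπ := fun s => rfl
      ρ := { toFun := ρ
             map_add' := map_add ρ
             map_smul' := fun s a => by
              rw [Algebra.smul_def, halg]
              exact hρ2 (res s) a }
      ρι := hρ1
      hsS := fun i => hsP V m i
      hsA := fun i => hsP K' m i
      hs_compat := fun i k s => by
        rw [halg, halg]
        rw [show φ (res s) = MvPowerSeries.map (algebraMap K K')
          (MvPowerSeries.map (residue V) s) from rfl, hsP_map, hsP_map]
      x := fun i => MvPowerSeries.X i
      hs_x := fun i j k a => hsP_X K' m i j k a
      frobFree := frobFree_ps p K' m }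

end

end Pool.Agent.Lib.MP_f251fc_ag
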