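import Pool.Agent.Lib.MP_f251fc_ag.Defs

/-! # The power series ring over a discrete valuation ring is regular of dimension `m + 1` -/

set_option autoImplicit false

namespace Pool.Agent.Lib.MP_f251fc_ag

open IsLocalRing RingTheory.Sequence

noncomputable section

universe u

/-- the list of the variables -/
private def PSer_vars (V : Type u) [CommRing V] (m : ℕ) : List (MvPowerSeries (Fin m) V) :=
  List.ofFn fun i : Fin m => (MvPowerSeries.X i : MvPowerSeries (Fin m) V)

private theorem PSer_get {V : Type u} [CommRing V] (m i : ℕ) (h : i < (PSer_vars V m).length)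
    (hi : i < m) : (PSer_vars V m)[i] = MvPowerSeries.X ⟨i, hi⟩ := by
  simp only [PSer_vars, List.getElem_ofFn]

private theorem PSer_mem {V : Type u} [CommRing V] (m : ℕ) : ∀ (k : ℕ), k ≤ m →
    ∀ f : MvPowerSeries (Fin m) V, f ∈ Ideal.ofList ((PSer_vars V m).take k) ↔
      ∀ n : Fin m →₀ ℕ, (∀ i : Fin m, (i : ℕ) < k → n i = 0) → MvPowerSeries.coeff n f = 0 := by
  intro k
  induction k with
  | zero =>
    intro _ f
    rw [List.take_zero, Ideal.ofList_nil, Ideal.mem_bot]
    constructor
    · rintro rfl n -
      exact map_zero _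
    · intro h
      ext n
      rw [h n (fun i hi => absurd hi (Nat.not_lt_zero _)), map_zero]
  | succ k ih =>
    intro hk f
    have hk' : k < m := hk
    have hlen : k < (PSer_vars V m).length := by
      unfold PSer_vars
      rw [List.length_ofFn]
      exact hk'
    have hget : (PSer_vars V m)[k] = MvPowerSeries.X ⟨k, hk'⟩ := PSer_get m k hlen hk'
    have htake : (PSer_vars V m).take (k + 1) =
        (PSer_vars V m).take k ++ [MvPowerSeries.X ⟨k, hk'⟩] := by
      rw [List.take_succ_eq_append_getElem hlen, hget]
    rw [htake, Ideal.ofList_append, Ideal.ofList_singleton, Submodule.mem_sup]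
    constructor
    · rintro ⟨g, hg, h, hh, rfl⟩ n hn
      rw [Ideal.mem_span_singleton, MvPowerSeries.X_dvd_iff] at hh
      rw [map_add, (ih hk'.le g).1 hg n (fun i hi => hn i (hi.trans (Nat.lt_succ_self k))),
        hh n (hn ⟨k, hk'⟩ (Nat.lt_succ_self k)), add_zero]
    · intro h
      classical
      set g : MvPowerSeries (Fin m) V := fun n =>
        if n ⟨k, hk'⟩ = 0 then MvPowerSeries.coeff n f else 0 with hg
      have hgc : ∀ n, MvPowerSeries.coeff n g =
          if n ⟨k, hk'⟩ = 0 then MvPowerSeries.coeff n f else 0 := fun n => rfl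
      refine ⟨g, ?_, f - g, ?_, by ring⟩
      · rw [ih hk'.le]
        intro n hn
        rw [hgc]
        split_ifs with h0
        · refine h n fun i hi => ?_
          rcases Nat.lt_succ_iff_lt_or_eq.1 hi with h1 | h1
          · exact hn i h1
          · have : i = ⟨k, hk'⟩ := Fin.ext h1
            rw [this, h0]
        · rfl
      · rw [Ideal.mem_span_singleton, MvPowerSeries.X_dvd_iff]
        intro n hn
        rw [map_sub, hgc, if_pos hn, sub_self]

private theorem PSer_reg {V : Type u} [CommRing V] (m k : ℕ) (hk : k < m)
    (f : MvPowerSeries (Fin m) V)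
    (h : MvPowerSeries.X ⟨k, hk⟩ * f ∈ Ideal.ofList ((PSer_vars V m).take k)) :
    f ∈ Ideal.ofList ((PSer_vars V m).take k) := by
  rw [PSer_mem m k hk.le] at h ⊢
  intro n hn
  have h1 := h (Finsupp.single ⟨k, hk⟩ 1 + n) (fun i hi => by
    have hne : (⟨k, hk⟩ : Fin m) ≠ i := fun he => by
      rw [← he] at hi
      exact lt_irrefl _ hi
    rw [Finsupp.add_apply, Finsupp.single_eq_of_ne hne.symm, hn i hi])
  rw [MvPowerSeries.X_def, MvPowerSeries.coeff_add_monomial_mul, one_mul] at h1
  exact h1

private theorem PSer_mem_all {V : Type u} [CommRing V] (m : ℕ) (f : MvPowerSeries (Fin m) V) :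
    f ∈ Ideal.ofList (PSer_vars V m) ↔ MvPowerSeries.constantCoeff f = 0 := by
  have hlen : (PSer_vars V m).length = m := by
    unfold PSer_vars
    rw [List.length_ofFn]
  have h1 := PSer_mem m m le_rfl f
  rw [List.take_of_length_le hlen.le] at h1
  rw [h1]
  constructor
  · intro h
    exact h 0 fun i _ => rfl
  · intro h n hn
    have : n = 0 := by
      ext i
      exact hn i i.2
    rw [this]
    exact h

/-- The sequence `p, X_0, …, X_(m-1)` is regular and generates the maximal ideal of `V⟦X_0, …, X_(m-1)⟧`.
Suggested proof: for `k ≤ m` the ideal `(p, X_0, …, X_(k-1))` is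
`{f | coeff n f ∈ (p) whenever n i = 0 for all i < k}` (prove this description by induction on `k`:
if `coeff n f = 0` for all `n` with `n k = 0` then `f = X_k * g`, `MvPowerSeries.X_dvd_iff`, and an arbitrary
`f` is the sum of such a series and the series with the coefficients `coeff n f`, `n k = 0`).  The regularity
of `X_k` modulo this ideal: if `coeff n (X_k * g) ∈ (p)` for all `n` with `n i = 0`, `i < k`, then
`coeff n g ∈ (p)` for these `n`, as `coeff (n + single k 1) (X_k * g) = coeff n g`.
Use `RingTheory.Sequence.isWeaklyRegular_iff` (or a statement by `List.range`/`List.ofFn`) and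
`IsWeaklyRegular` quotients by `Ideal.ofList (List.take k xs)`.
For `k = m` the ideal is `{f | constantCoeff f ∈ (p)} = maximalIdeal` (a power series with unit constant
coefficient is a unit: `MvPowerSeries.isUnit_iff_constantCoeff`).
`IsRegular` from `IsWeaklyRegular` and `ofList xs ≠ ⊤`. -/
theorem exists_regular_params (p : ℕ) (V : Type u) [CommRing V] [IsDomain V]
    [IsDiscreteValuationRing V] (hV : maximalIdeal V = Ideal.span {(p : V)}) (m : ℕ) :
    ∃ xs : List (MvPowerSeries (Fin m) V), xs.length = m + 1 ∧
      IsRegular (MvPowerSeries (Fin m) V) xs ∧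
      Ideal.ofList xs = maximalIdeal (MvPowerSeries (Fin m) V) := by
  have hlen : (PSer_vars V m).length = m := by
    unfold PSer_vars
    rw [List.length_ofFn]
  have hp0 : (p : V) ≠ 0 := by
    intro h0
    apply IsDiscreteValuationRing.not_a_field V
    rw [hV, h0, Ideal.span_singleton_eq_bot]
  set xs : List (MvPowerSeries (Fin m) V) :=
    PSer_vars V m ++ [MvPowerSeries.C (p : V)] with hxs
  have hmax : Ideal.ofList xs = maximalIdeal (MvPowerSeries (Fin m) V) := by
    ext f
    rw [hxs, Ideal.ofList_append, Ideal.ofList_singleton, mem_maximalIdeal, mem_nonunits_iff,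
      MvPowerSeries.isUnit_iff_constantCoeff, ← mem_nonunits_iff, ← mem_maximalIdeal, hV,
      Submodule.mem_sup, Ideal.mem_span_singleton']
    constructor
    · rintro ⟨g, hg, h, hh, rfl⟩
      rw [Ideal.mem_span_singleton'] at hh
      obtain ⟨a, rfl⟩ := hh
      refine ⟨MvPowerSeries.constantCoeff a, ?_⟩
      rw [map_add, (PSer_mem_all m g).1 hg, map_mul, MvPowerSeries.constantCoeff_C, zero_add]
    · rintro ⟨a, ha⟩
      refine ⟨f - MvPowerSeries.C a * MvPowerSeries.C (p : V), ?_,
        MvPowerSeries.C a * MvPowerSeries.C (p : V), ?_, by ring⟩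
      · rw [PSer_mem_all, map_sub, map_mul, MvPowerSeries.constantCoeff_C,
          MvPowerSeries.constantCoeff_C, ha, sub_self]
      · exact Ideal.mem_span_singleton'.2 ⟨_, rfl⟩
  refine ⟨xs, ?_, ?_, hmax⟩
  · rw [hxs, List.length_append, hlen, List.length_singleton]
  · have hweak : IsWeaklyRegular (MvPowerSeries (Fin m) V) xs := by
      constructor
      intro i hi
      rw [isSMulRegular_quotient_iff_mem_of_smul_mem]
      intro f hf
      have hi' : i < m + 1 := by
        rw [hxs, List.length_append, hlen, List.length_singleton] at hi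
        exact hi
      rw [smul_eq_mul, Ideal.mul_top] at hf ⊢
      rw [smul_eq_mul] at hf
      rcases Nat.lt_succ_iff_lt_or_eq.1 hi' with h1 | h1
      · have ht : xs.take i = (PSer_vars V m).take i := by
          rw [hxs, List.take_append_of_le_length (by rw [hlen]; exact h1.le)]
        have hg : xs[i] = MvPowerSeries.X ⟨i, h1⟩ := by
          have : xs[i] = (PSer_vars V m)[i]'(by rw [hlen]; exact h1) := by
            simp only [hxs]
            rw [List.getElem_append_left]
          rw [this]
          exact PSer_get m i _ h1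
        rw [ht] at hf ⊢
        rw [hg] at hf
        exact PSer_reg m i h1 f hf
      · have ht : xs.take i = PSer_vars V m := by
          rw [hxs, h1, List.take_append_of_le_length (by rw [hlen]),
            List.take_of_length_le hlen.le]
        have hg : xs[i] = MvPowerSeries.C (p : V) := by
          simp only [hxs]
          rw [List.getElem_append_right (by rw [hlen, h1])]
          simp
        rw [ht] at hf ⊢
        rw [hg, PSer_mem_all, map_mul, MvPowerSeries.constantCoeff_C] at hf
        rw [PSer_mem_all]
        exact (mul_eq_zero.1 hf).resolve_left hp0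
    refine ⟨hweak, ?_⟩
    rw [smul_eq_mul, Ideal.mul_top, hmax]
    exact (maximalIdeal.isMaximal _).ne_top.symm

end

end Pool.Agent.Lib.MP_f251fc_ag
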