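import Pool.Agent.Lib.MP_f251fc_ag.ZigDefs

/-! # Free resolutions by matrices -/

set_option autoImplicit false

namespace Pool.Agent.Lib.MP_f251fc_ag

open scoped Matrix
open CategoryTheory

noncomputable section

universe u

/-- a resolution of the module `M` by finitely generated free modules -/
structure ModRes (B : Type u) [CommRing B] (M : Type u) [AddCommGroup M] [Module B M] where
  /-- ranks -/
  b : ℕ → ℕ
  /-- the augmentation -/
  ε : (Fin (b 0) → B) →ₗ[B] M
  /-- the matrices -/
  D : ∀ k, Matrix (Fin (b k)) (Fin (b (k + 1))) B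
  surj : Function.Surjective ε
  ex0 : ∀ x, ε x = 0 ↔ ∃ y, x = D 0 *ᵥ y
  ex : ∀ k x, D k *ᵥ x = 0 ↔ ∃ y, x = D (k + 1) *ᵥ y

/-- a finitely generated submodule of `B^n` is the image of a matrix -/
private theorem Res_cov {B : Type u} [CommRing B] [IsNoetherianRing B] (n : ℕ)
    (K : Submodule B (Fin n → B)) :
    ∃ p : Σ m : ℕ, Matrix (Fin n) (Fin m) B, ∀ x, x ∈ K ↔ ∃ y, x = p.2 *ᵥ y := by
  have hfin : Module.Finite B K := inferInstance
  obtain ⟨m, f, hf⟩ := Module.Finite.exists_fin' B K
  refine ⟨⟨m, LinearMap.toMatrix' (K.subtype ∘ₗ f)⟩, fun x => ?_⟩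
  have h : ∀ y, (LinearMap.toMatrix' (K.subtype ∘ₗ f)) *ᵥ y = (f y : Fin n → B) := by
    intro y
    rw [LinearMap.toMatrix'_mulVec]
    rfl
  constructor
  · intro hx
    obtain ⟨y, hy⟩ := hf ⟨x, hx⟩
    refine ⟨y, ?_⟩
    change x = (LinearMap.toMatrix' (K.subtype ∘ₗ f)) *ᵥ y
    rw [h, hy]
  · rintro ⟨y, rfl⟩
    change (LinearMap.toMatrix' (K.subtype ∘ₗ f)) *ᵥ y ∈ K
    rw [h]
    exact (f y).2

/-- the recursive construction of the kernels -/
private def ResSt {B : Type u} [CommRing B] [IsNoetherianRing B]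
    (s0 : Σ n : ℕ, Submodule B (Fin n → B)) : ℕ → Σ n : ℕ, Submodule B (Fin n → B)
  | 0 => s0
  | k + 1 =>
    ⟨(Res_cov (ResSt s0 k).1 (ResSt s0 k).2).choose.1,
      LinearMap.ker (Matrix.mulVecLin (Res_cov (ResSt s0 k).1 (ResSt s0 k).2).choose.2)⟩

/-- existence of resolutions over Noetherian rings: choose recursively generators of the kernels.
(Recursive construction: state = a natural number `n` and a submodule (the kernel) of `Fin n → B`.) -/
theorem exists_modRes (B : Type u) [CommRing B] [IsNoetherianRing B] (M : Type u) [AddCommGroup M]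
    [Module B M] [Module.Finite B M] : Nonempty (ModRes B M) := by
  obtain ⟨m, f, hf⟩ := Module.Finite.exists_fin' B M
  let s0 : Σ n : ℕ, Submodule B (Fin n → B) := ⟨m, LinearMap.ker f⟩
  refine ⟨⟨fun k => (ResSt s0 k).1, f, fun k => (Res_cov (ResSt s0 k).1 (ResSt s0 k).2).choose.2,
    hf, ?_, ?_⟩⟩
  · intro x
    exact (Res_cov (ResSt s0 0).1 (ResSt s0 0).2).choose_spec x
  · intro k x
    exact (Res_cov (ResSt s0 (k + 1)).1 (ResSt s0 (k + 1)).2).choose_spec x

/-- prepending -/
private theorem Res_prepend {B : Type u} [CommRing B] {M : Type u} [AddCommGroup M] [Module B M]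
    {a : ℕ} (f : (Fin a → B) →ₗ[B] M) (hf : Function.Surjective f)
    (R : ModRes B (LinearMap.ker f)) :
    ∃ R' : ModRes B M, ∀ k, R'.b (k + 1) = R.b k := by
  refine ⟨⟨fun k => match k with
      | 0 => a
      | k + 1 => R.b k, f, fun k => match k with
      | 0 => LinearMap.toMatrix' ((LinearMap.ker f).subtype ∘ₗ R.ε)
      | k + 1 => R.D k, hf, ?_, ?_⟩, fun k => rfl⟩
  · intro x
    have h : ∀ y, (LinearMap.toMatrix' ((LinearMap.ker f).subtype ∘ₗ R.ε)) *ᵥ y =
        (R.ε y : Fin a → B) := by
      intro y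
      rw [LinearMap.toMatrix'_mulVec]
      rfl
    constructor
    · intro hx
      obtain ⟨y, hy⟩ := R.surj ⟨x, LinearMap.mem_ker.2 hx⟩
      refine ⟨y, ?_⟩
      change x = (LinearMap.toMatrix' ((LinearMap.ker f).subtype ∘ₗ R.ε)) *ᵥ y
      rw [h, hy]
    · rintro ⟨y, rfl⟩
      change f ((LinearMap.toMatrix' ((LinearMap.ker f).subtype ∘ₗ R.ε)) *ᵥ y) = 0
      rw [h]
      exact LinearMap.mem_ker.1 (R.ε y).2
  · intro k x
    match k, x with
    | 0, x =>
      have h : ∀ y, (LinearMap.toMatrix' ((LinearMap.ker f).subtype ∘ₗ R.ε)) *ᵥ y =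
          (R.ε y : Fin a → B) := by
        intro y
        rw [LinearMap.toMatrix'_mulVec]
        rfl
      have h2 := R.ex0 x
      constructor
      · intro hx
        apply h2.1
        have h3 : ((LinearMap.toMatrix' ((LinearMap.ker f).subtype ∘ₗ R.ε)) *ᵥ x) = 0 := hx
        rw [h] at h3
        exact Subtype.ext h3
      · intro hx
        have h3 := h2.2 hx
        change ((LinearMap.toMatrix' ((LinearMap.ker f).subtype ∘ₗ R.ε)) *ᵥ x) = 0
        rw [h, h3]
        rfl
    | k + 1, x => exact R.ex k x

/-- bounded resolutions over local rings.  Induction on `n`, generalising `M`: for `n = 0`, `M` is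
projective, hence free (`Module.free_of_flat_of_isLocalRing`): take `b 0 = rank`, `b k = 0` for `k > 0`.
For `n + 1` choose `(Fin a → B) → M` onto with kernel `M₁`, `HasProjectiveDimensionLE M₁ n`, and prepend to a
resolution of `M₁`. -/
theorem exists_modRes_of_pd (B : Type u) [CommRing B] [IsLocalRing B] [IsNoetherianRing B] (n : ℕ) :
    ∀ (M : Type u) [AddCommGroup M] [Module B M] [Module.Finite B M],
      HasProjectiveDimensionLE (ModuleCat.of B M) n → ∃ R : ModRes B M, ∀ k, n < k → R.b k = 0 := by
  induction n with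
  | zero =>
    intro M _ _ _ h
    have hp : Module.Projective B (ModuleCat.of B M) := by
      rw [IsProjective.iff_projective]
      exact (projective_iff_hasProjectiveDimensionLE_zero _).2 h
    have hp' : Module.Projective B M := hp
    have hfree : Module.Free B M := Module.free_of_flat_of_isLocalRing
    let e : M ≃ₗ[B] (Fin (Module.finrank B M) → B) :=
      (Module.finBasis B M).equivFun
    refine ⟨⟨fun k => match k with
      | 0 => Module.finrank B M
      | k + 1 => 0, e.symm.toLinearMap, fun k => 0, e.symm.surjective, ?_, ?_⟩, ?_⟩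
    · intro x
      constructor
      · intro hx
        have hx' : e.symm x = 0 := hx
        have hx2 : x = 0 := by
          rw [LinearEquiv.map_eq_zero_iff] at hx'
          exact hx'
        refine ⟨0, ?_⟩
        rw [hx2, Matrix.mulVec_zero]
      · rintro ⟨y, rfl⟩
        change e.symm _ = 0
        rw [Matrix.zero_mulVec, map_zero]
    · intro k x
      constructor
      · intro _
        refine ⟨0, ?_⟩
        have : Subsingleton (Fin 0 → B) := inferInstance
        exact this.elim _ _
      · intro _
        rw [Matrix.zero_mulVec]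
    · intro k hk
      match k, hk with
      | k + 1, _ => rfl
  | succ n ih =>
    intro M _ _ _ h
    obtain ⟨a, f, hf⟩ := Module.Finite.exists_fin' B M
    have hS := LinearMap.shortExact_shortComplexKer (f := f) hf
    have hproj : Projective f.shortComplexKer.X₂ := by
      have : Module.Projective B (Fin a → B) := inferInstance
      exact ModuleCat.projective_of_categoryTheory_projective (ModuleCat.of B (Fin a → B))
    have h1 : HasProjectiveDimensionLE (ModuleCat.of B (LinearMap.ker f)) n :=
      (hS.hasProjectiveDimensionLT_X₃_iff n hproj).1 h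
    obtain ⟨R, hR⟩ := ih (LinearMap.ker f) h1
    obtain ⟨R', hR'⟩ := Res_prepend f hf R
    refine ⟨R', fun k hk => ?_⟩
    match k, hk with
    | 0, hk => exact absurd hk (Nat.not_lt_zero _)
    | k + 1, hk =>
      rw [hR' k]
      exact hR k (Nat.lt_of_succ_lt_succ hk)

end

end Pool.Agent.Lib.MP_f251fc_ag
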