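import Pool.Agent.Lib.MP_f251fc_ag.Res

/-! # Exact complexes attached to ideals -/

set_option autoImplicit false

namespace Pool.Agent.Lib.MP_f251fc_ag

open scoped Matrix
open CategoryTheory

noncomputable section

universe u

private theorem ResC_eps {B : Type u} [CommRing B] (I : Ideal B) (R : ModRes B I)
    (x : Fin (R.b 0) → B) :
    ∑ k, (R.ε (Pi.single k 1) : B) * x k = (R.ε x : B) := by
  have h1 : x = ∑ k, x k • (Pi.single k (1 : B) : Fin (R.b 0) → B) := by
    ext j
    rw [Finset.sum_apply]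
    simp only [Pi.smul_apply, Pi.single_apply, smul_eq_mul, mul_ite, mul_one, mul_zero]
    rw [Finset.sum_ite_eq]
    simp
  conv_rhs => rw [h1]
  rw [map_sum, Submodule.coe_sum]
  refine Finset.sum_congr rfl fun k _ => ?_
  rw [map_smul, Submodule.coe_smul, smul_eq_mul, mul_comm]

/-- exact complex attached to an ideal, `g l = ε (e_l)` for a resolution of the module `I` -/
theorem exists_cplx {B : Type u} [CommRing B] (I : Ideal B) (R : ModRes B I) :
    ∃ P : Cplx B, P.IsEx ∧ Ideal.span (Set.range P.g) = I ∧ P.b = R.b := by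
  refine ⟨⟨R.b, fun l => (R.ε (Pi.single l 1) : B), R.D, ?_, ?_⟩, ⟨?_, ?_⟩, ?_, rfl⟩
  · intro l
    have h2 : R.ε (R.D 0 *ᵥ Pi.single l 1) = 0 := (R.ex0 _).2 ⟨_, rfl⟩
    have h3 := ResC_eps I R (R.D 0 *ᵥ Pi.single l 1)
    rw [h2] at h3
    rw [Matrix.mulVec_single_one] at h3
    exact h3
  · intro k
    ext i l
    have h2 : R.D k *ᵥ (R.D (k + 1) *ᵥ Pi.single l 1) = 0 := (R.ex k _).2 ⟨_, rfl⟩
    rw [Matrix.mulVec_mulVec, Matrix.mulVec_single_one] at h2
    exact congrFun h2 i
  · intro x hx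
    apply (R.ex0 x).1
    have h3 := ResC_eps I R x
    apply Subtype.ext
    rw [← h3]
    exact hx
  · intro k x hx
    exact (R.ex k x).1 hx
  · apply le_antisymm
    · rw [Ideal.span_le]
      rintro _ ⟨l, rfl⟩
      exact (R.ε (Pi.single l 1)).2
    · intro x hx
      obtain ⟨y, hy⟩ := R.surj ⟨x, hx⟩
      have h3 := ResC_eps I R y
      rw [hy] at h3
      change ∑ k, (R.ε (Pi.single k 1) : B) * y k = x at h3
      rw [← h3]
      refine Ideal.sum_mem _ fun k _ => Ideal.mul_mem_right _ _ (Ideal.subset_span ⟨k, rfl⟩)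

/-- from `pd (B / I) ≤ n + 1` one gets `pd I ≤ n` (`0 → I → B → B / I → 0`) -/
theorem exists_cplx_bounded {B : Type u} [CommRing B] [IsLocalRing B] [IsNoetherianRing B] (n : ℕ)
    (I : Ideal B) (h : HasProjectiveDimensionLE (ModuleCat.of B (B ⧸ I)) (n + 1)) :
    ∃ P : Cplx B, P.IsEx ∧ Ideal.span (Set.range P.g) = I ∧ ∀ k, n < k → P.b k = 0 := by
  have hsurj : Function.Surjective (Submodule.mkQ I) := Submodule.mkQ_surjective I
  have hS := LinearMap.shortExact_shortComplexKer (f := Submodule.mkQ I) hsurj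
  have hproj : Projective (Submodule.mkQ I).shortComplexKer.X₂ := by
    have : Module.Projective B B := inferInstance
    exact ModuleCat.projective_of_categoryTheory_projective (ModuleCat.of B B)
  have h1 : HasProjectiveDimensionLE (ModuleCat.of B (LinearMap.ker (Submodule.mkQ I))) n :=
    (hS.hasProjectiveDimensionLT_X₃_iff n hproj).1 h
  rw [Submodule.ker_mkQ] at h1
  have hfin : Module.Finite B I := inferInstance
  obtain ⟨R, hR⟩ := exists_modRes_of_pd B n I h1
  obtain ⟨P, hP1, hP2, hP3⟩ := exists_cplx I R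
  refine ⟨P, hP1, hP2, fun k hk => ?_⟩
  rw [hP3]
  exact hR k hk

end

end Pool.Agent.Lib.MP_f251fc_ag
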