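import Pool.Agent.Lib.MP_f251fc_ag.ZigDefs

/-! # Chain maps and homotopies -/

set_option autoImplicit false

namespace Pool.Agent.Lib.MP_f251fc_ag

open scoped Matrix

noncomputable section

universe u

/-- solving a matrix equation column by column -/
private theorem ResH_col {B : Type u} [CommRing B] {a b c d : ℕ} (A : Matrix (Fin a) (Fin b) B)
    (C : Matrix (Fin b) (Fin c) B) (h : ∀ x, A *ᵥ x = 0 → ∃ y, x = C *ᵥ y)
    (X : Matrix (Fin b) (Fin d) B) (hX : A * X = 0) : ∃ Y : Matrix (Fin c) (Fin d) B, C * Y = X := by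
  have h1 : ∀ l : Fin d, ∃ y, X.col l = C *ᵥ y := by
    intro l
    apply h
    ext i
    have h2 := congrFun (congrFun hX i) l
    rw [Matrix.mul_apply] at h2
    exact h2
  choose y hy using h1
  refine ⟨Matrix.of fun i l => y l i, ?_⟩
  ext i l
  have h2 := congrFun (hy l) i
  rw [Matrix.mul_apply]
  exact h2.symm

/-- the same in the first step -/
private theorem ResH_col0 {B : Type u} [CommRing B] {b c d : ℕ} (g : Fin b → B)
    (C : Matrix (Fin b) (Fin c) B) (h : ∀ x : Fin b → B, ∑ k, g k * x k = 0 → ∃ y, x = C *ᵥ y)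
    (X : Matrix (Fin b) (Fin d) B) (hX : ∀ l, ∑ k, g k * X k l = 0) :
    ∃ Y : Matrix (Fin c) (Fin d) B, C * Y = X := by
  have h1 : ∀ l : Fin d, ∃ y, X.col l = C *ᵥ y := by
    intro l
    apply h
    exact hX l
  choose y hy using h1
  refine ⟨Matrix.of fun i l => y l i, ?_⟩
  ext i l
  have h2 := congrFun (hy l) i
  rw [Matrix.mul_apply]
  exact h2.symm

private theorem ResH_span {B : Type u} [CommRing B] {b : ℕ} (g : Fin b → B) (x : B)
    (h : x ∈ Ideal.span (Set.range g)) : ∃ y : Fin b → B, ∑ k, g k * y k = x := by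
  rw [Ideal.mem_span_range_iff_exists_fun] at h
  obtain ⟨y, hy⟩ := h
  refine ⟨y, ?_⟩
  rw [← hy]
  exact Finset.sum_congr rfl fun k _ => mul_comm _ _

private theorem ResH_stepC {B : Type u} [CommRing B] (P Q : Cplx B) (hQ : Q.IsEx) (k : ℕ)
    (v : Matrix (Fin (Q.b k)) (Fin (P.b k)) B) (w : Matrix (Fin (Q.b (k + 1))) (Fin (P.b (k + 1))) B)
    (h : Q.D k * w = v * P.D k) :
    ∃ w' : Matrix (Fin (Q.b (k + 2))) (Fin (P.b (k + 2))) B, Q.D (k + 1) * w' = w * P.D (k + 1) := by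
  apply ResH_col (Q.D k) (Q.D (k + 1)) (hQ.2 k)
  rw [← Matrix.mul_assoc, h, Matrix.mul_assoc, P.DD, Matrix.mul_zero]

/-- chain maps into exact complexes -/
theorem exists_chMap {B : Type u} [CommRing B] (P Q : Cplx B) (hQ : Q.IsEx)
    (h : ∀ l, P.g l ∈ Ideal.span (Set.range Q.g)) : Nonempty (ChMap P Q) := by
  choose u0 hu0 using fun l => ResH_span Q.g (P.g l) (h l)
  have hstep0 : ∃ w' : Matrix (Fin (Q.b 1)) (Fin (P.b 1)) B,
      Q.D 0 * w' = (Matrix.of fun k l => u0 l k) * P.D 0 := by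
    apply ResH_col0 Q.g (Q.D 0) hQ.1
    intro l
    simp only [Matrix.mul_apply, Matrix.of_apply]
    have h1 : ∑ k, Q.g k * ∑ j, u0 j k * P.D 0 j l = ∑ j, (∑ k, Q.g k * u0 j k) * P.D 0 j l := by
      simp only [Finset.mul_sum, Finset.sum_mul]
      rw [Finset.sum_comm]
      refine Finset.sum_congr rfl fun j _ => Finset.sum_congr rfl fun k _ => ?_
      rw [mul_assoc]
    rw [h1]
    simp only [hu0]
    exact P.gD l
  let st : ∀ k, {v : Matrix (Fin (Q.b k)) (Fin (P.b k)) B //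
      ∃ w : Matrix (Fin (Q.b (k + 1))) (Fin (P.b (k + 1))) B, Q.D k * w = v * P.D k} :=
    fun k => Nat.rec (motive := fun k => {v : Matrix (Fin (Q.b k)) (Fin (P.b k)) B //
      ∃ w : Matrix (Fin (Q.b (k + 1))) (Fin (P.b (k + 1))) B, Q.D k * w = v * P.D k})
      ⟨Matrix.of fun k l => u0 l k, hstep0⟩
      (fun k s => ⟨s.2.choose, ResH_stepC P Q hQ k s.1 s.2.choose s.2.choose_spec⟩) k
  refine ⟨⟨fun k => (st k).1, ?_, ?_⟩⟩
  · intro l
    exact hu0 l
  · intro k
    exact (st k).2.choose_spec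

private theorem ResH_stepH {B : Type u} [CommRing B] (P : Cplx B) (hP : P.IsEx) (c : B) (k : ℕ)
    (v : Matrix (Fin (P.b (k + 1))) (Fin (P.b k)) B)
    (w : Matrix (Fin (P.b (k + 2))) (Fin (P.b (k + 1))) B)
    (h : P.D (k + 1) * w + v * P.D k = c • (1 : Matrix _ _ B)) :
    ∃ w' : Matrix (Fin (P.b (k + 3))) (Fin (P.b (k + 2))) B,
      P.D (k + 2) * w' + w * P.D (k + 1) = c • (1 : Matrix _ _ B) := by
  obtain ⟨Y, hY⟩ := ResH_col (P.D (k + 1)) (P.D (k + 2)) (hP.2 (k + 1))
    (c • (1 : Matrix _ _ B) - w * P.D (k + 1)) (by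
      have h1 : P.D (k + 1) * w = c • (1 : Matrix _ _ B) - v * P.D k := by
        rw [← h, add_sub_cancel_right]
      rw [Matrix.mul_sub, ← Matrix.mul_assoc, h1, Matrix.sub_mul, Matrix.mul_assoc v, P.DD,
        Matrix.mul_zero, sub_zero, Matrix.mul_smul, Matrix.smul_mul, Matrix.mul_one,
        Matrix.one_mul, sub_self])
  refine ⟨Y, ?_⟩
  rw [hY, sub_add_cancel]

/-- null-homotopies on exact complexes -/
theorem exists_htpy {B : Type u} [CommRing B] (P : Cplx B) (hP : P.IsEx) (c : B)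
    (h : c ∈ Ideal.span (Set.range P.g)) : Nonempty (Htpy P c) := by
  obtain ⟨h0, hh0⟩ := ResH_span P.g c h
  obtain ⟨H0, hH0⟩ := ResH_col0 P.g (P.D 0) hP.1
    (c • (1 : Matrix _ _ B) - Matrix.of fun k k' => h0 k * P.g k') (by
      intro l
      simp only [Matrix.sub_apply, Matrix.smul_apply, Matrix.one_apply, Matrix.of_apply,
        smul_eq_mul, mul_sub, Finset.sum_sub_distrib]
      have h1 : ∑ k, P.g k * (h0 k * P.g l) = c * P.g l := by
        rw [← hh0, Finset.sum_mul]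
        exact Finset.sum_congr rfl fun k _ => (mul_assoc _ _ _).symm
      rw [h1]
      simp only [mul_ite, mul_one, mul_zero]
      rw [Finset.sum_ite_eq' Finset.univ l]
      simp [mul_comm])
  have hH0' : P.D 0 * H0 + (Matrix.of fun k k' => h0 k * P.g k') = c • (1 : Matrix _ _ B) := by
    rw [hH0, sub_add_cancel]
  have hstep0 : ∃ w' : Matrix (Fin (P.b 2)) (Fin (P.b 1)) B,
      P.D 1 * w' + H0 * P.D 0 = c • (1 : Matrix _ _ B) := by
    obtain ⟨Y, hY⟩ := ResH_col (P.D 0) (P.D 1) (hP.2 0)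
      (c • (1 : Matrix _ _ B) - H0 * P.D 0) (by
        have h1 : P.D 0 * H0 = c • (1 : Matrix _ _ B) - Matrix.of fun k k' => h0 k * P.g k' := by
          rw [hH0]
        have h2 : (Matrix.of fun k k' => h0 k * P.g k') * P.D 0 = 0 := by
          ext i l
          simp only [Matrix.mul_apply, Matrix.of_apply, Matrix.zero_apply]
          have h3 : ∑ j, h0 i * P.g j * P.D 0 j l = h0 i * ∑ j, P.g j * P.D 0 j l := by
            rw [Finset.mul_sum]
            exact Finset.sum_congr rfl fun k _ => mul_assoc _ _ _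
          rw [h3, P.gD, mul_zero]
        rw [Matrix.mul_sub, ← Matrix.mul_assoc, h1, Matrix.sub_mul, h2,
          sub_zero, Matrix.mul_smul, Matrix.smul_mul, Matrix.mul_one,
          Matrix.one_mul, sub_self])
    refine ⟨Y, ?_⟩
    rw [hY, sub_add_cancel]
  let st : ∀ k, {v : Matrix (Fin (P.b (k + 1))) (Fin (P.b k)) B //
      ∃ w : Matrix (Fin (P.b (k + 2))) (Fin (P.b (k + 1))) B,
        P.D (k + 1) * w + v * P.D k = c • (1 : Matrix _ _ B)} :=
    fun k => Nat.rec (motive := fun k => {v : Matrix (Fin (P.b (k + 1))) (Fin (P.b k)) B //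
      ∃ w : Matrix (Fin (P.b (k + 2))) (Fin (P.b (k + 1))) B,
        P.D (k + 1) * w + v * P.D k = c • (1 : Matrix _ _ B)})
      ⟨H0, hstep0⟩
      (fun k s => ⟨s.2.choose, ResH_stepH P hP c k s.1 s.2.choose s.2.choose_spec⟩) k
  refine ⟨⟨h0, fun k => (st k).1, hh0, ?_, ?_⟩⟩
  · intro k k'
    have h1 := congrFun (congrFun hH0' k) k'
    simp only [Matrix.add_apply, Matrix.mul_apply, Matrix.of_apply, Matrix.smul_apply,
      Matrix.one_apply, smul_eq_mul, mul_ite, mul_one, mul_zero] at h1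
    exact h1
  · intro k
    exact (st k).2.choose_spec

end

end Pool.Agent.Lib.MP_f251fc_ag
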