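import Pool.Agent.Lib.MP_f251fc_ag.ZigB

/-! # Zigzags: uniqueness -/

set_option autoImplicit false

namespace Pool.Agent.Lib.MP_f251fc_ag

open scoped Matrix

noncomputable section

universe u

variable {B : Type u} [CommRing B] {r : ℕ} (f : Fin r → B) {N : Type u} [AddCommGroup N] [Module B N]
  {P : Cplx B} (c : Fin r → B) (hc : ∀ i, ∃ t : ℕ, c i = f i ^ t) (H : ∀ i, Htpy P (c i))

include hc H

private theorem zigU_main (q : ℕ) : ∀ (a : ℕ) {v : ∀ a, Fin (P.b a) → N}
    {y : Fin (P.b a) → Cc f N q}, Zig f P v q a y → (∀ b, b = a + q → v b = 0) →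
    ∃ u : Fin (P.b a) → Cc f N q, (∀ k, u k ∈ Bc f N q) ∧
      ∀ l, ∑ k, P.D a k l • (y k - u k) = 0 := by
  induction q with
  | zero =>
    intro a v y hy hv
    refine ⟨0, fun k => Submodule.zero_mem _, fun l => ?_⟩
    refine Finset.sum_eq_zero fun k _ => ?_
    rw [hy k, hv a (by simp)]
    simp
  | succ q ih =>
    intro a v y hy hv
    obtain ⟨y', hy', hz⟩ := hy
    have hv' : ∀ b, b = a + 1 + q → v b = 0 := fun b hb => hv b (by omega)
    obtain ⟨u', hu', hs⟩ := ih (a + 1) hz hv'
    cases q with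
    | zero =>
      refine ⟨0, fun k => Submodule.zero_mem _, fun l => ?_⟩
      have h0 : y' l = 0 := by
        rw [hz l, hv' (a + 1) (by omega)]
        simp
      simp only [Pi.zero_apply, sub_zero]
      rw [← hy' l, h0, map_zero]
    | succ q =>
      obtain ⟨w, hw⟩ := row_succ f c hc H q a (fun k => y' k - u' k) hs
      refine ⟨fun k => dC f N (q + 1) (w k), fun k => ⟨w k, rfl⟩, fun l => ?_⟩
      have h1 := congrArg (dC f N (q + 1)) (hw l)
      simp only [map_sub, map_sum, map_smul] at h1
      rw [(mem_Zc f N (u' l)).1 (Bc_le_Zc f N (q + 1) (hu' l)), sub_zero, hy' l] at h1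
      simp only [smul_sub, Finset.sum_sub_distrib]
      rw [h1, sub_self]

/-- uniqueness: from `v = 0` one gets successively `y_a = dC w_a + w_(a-1) ∘ D` (see the notes) and finally
`z = dC w`.  Suggested lemma, by induction on `q`: if `Zig f P v q a y`, `v (a + q) = 0` (for the family)
and (`a = 0` or the cocycle condition) then there are `w : Fin (P.b a) → Cc f N (q-1)` … such that
`(y k - dC (w k)) ∘ D a = 0`. -/
theorem rel_unique {j : ℕ} {z : Cc f N (j + 1)} (h : Rel f P j (0 : Fin (P.b j) → N) z) :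
    z ∈ Bc f N (j + 1) := by
  obtain ⟨v', hv', y, hy, hz⟩ := h
  obtain ⟨u, hu, hs⟩ := zigU_main f c hc H j 0 hz (by
    intro b hb
    have : b = j := by omega
    subst this
    exact hv')
  cases j with
  | zero =>
    have h0 : z = 0 := by
      refine row_zero f c hc H 0 z fun l => ?_
      have h1 : y l = 0 := by
        rw [hz l, hv']
        simp
      rw [← hy l, h1, map_zero]
    rw [h0]
    exact Submodule.zero_mem _
  | succ j =>
    obtain ⟨w, hw⟩ := row_one f c hc H j (fun k => y k - u k) hs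
    refine ⟨w, ?_⟩
    have h0 : z - dC f N (j + 1) w = 0 := by
      refine row_zero f c hc H (j + 1) _ fun l => ?_
      have h1 := congrArg (dC f N (j + 1)) (hw l)
      simp only [map_sub, map_smul] at h1
      rw [(mem_Zc f N (u l)).1 (Bc_le_Zc f N (j + 1) (hu l)), sub_zero, hy l] at h1
      rw [smul_sub, h1, sub_self]
    rw [sub_eq_zero.1 h0]

end

end Pool.Agent.Lib.MP_f251fc_ag
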