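import Pool.Agent.Lib.MP_f251fc_ag.ZigA
import Pool.Agent.Lib.MP_f251fc_ag.ZigU

/-! # The root of the Čech cohomology of a regular ring of characteristic `p` -/

set_option autoImplicit false

namespace Pool.Agent.Lib.MP_f251fc_ag

noncomputable section

universe u

variable {A : Type u} [CommRing A] {r : ℕ} (f : Fin r → A)

/-- classes of the Čech cocycles related to cocycles of `Hom(P, A)` -/
def LP (P : Cplx A) (j : ℕ) : Submodule A (Hc f A (j + 1)) where
  carrier := {x | ∃ z : Zc f A (j + 1), cls f A (j + 1) z = x ∧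
    ∃ v : Fin (P.b j) → A, Coc P j v ∧ Rel f P j v z}
  zero_mem' := ⟨0, map_zero _, 0, Coc.zero P j, Rel.zero f P j⟩
  add_mem' := by
    rintro _ _ ⟨z, rfl, v, hv, h⟩ ⟨z', rfl, v', hv', h'⟩
    exact ⟨z + z', map_add _ _ _, v + v', hv.add hv', h.add f h'⟩
  smul_mem' := by
    rintro a _ ⟨z, rfl, v, hv, h⟩
    exact ⟨a • z, map_smul _ _ _, a • v, hv.smul a, h.smul f a⟩

/-- the module of cocycles of `Hom(P, A)` -/
private def Root_coc (P : Cplx A) (j : ℕ) : Submodule A (Fin (P.b j) → A) where
  carrier := {v | Coc P j v}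
  zero_mem' := Coc.zero P j
  add_mem' := fun h h' => h.add h'
  smul_mem' := fun a _ h => h.smul a

/-- finitely generated: image of the finitely generated module of cocycles `v` under the linear map
`v ↦ class of the related z` (well defined by `rel_unique`) -/
theorem LP_fg [IsNoetherianRing A] (P : Cplx A) (c : Fin r → A) (hc : ∀ i, ∃ t : ℕ, c i = f i ^ t)
    (H : ∀ i, Htpy P (c i)) (j : ℕ) : (LP f P j).FG := by
  have hfg : (Root_coc P j).FG := IsNoetherian.noetherian _
  obtain ⟨n, w, hw⟩ := Submodule.fg_iff_exists_fin_generating_family.1 hfg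
  have hwc : ∀ i, Coc P j (w i) := fun i => by
    have : w i ∈ Root_coc P j := by
      rw [← hw]
      exact Submodule.subset_span ⟨i, rfl⟩
    exact this
  have hex : ∀ i, ∃ z ∈ Zc f A (j + 1), Rel f P j (w i) z := fun i =>
    exists_rel f c hc H (hwc i)
  choose z hz hr using hex
  have hLP : LP f P j = Submodule.span A
      (Set.range fun i => cls f A (j + 1) ⟨z i, hz i⟩) := by
    apply le_antisymm
    · rintro _ ⟨y, rfl, v, hv, hy⟩
      have hv' : v ∈ Submodule.span A (Set.range w) := by
        rw [hw]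
        exact hv
      obtain ⟨a, ha⟩ := (Submodule.mem_span_range_iff_exists_fun A).1 hv'
      have h1 : Rel f P j (∑ i, a i • w i) (∑ i, a i • z i) :=
        Rel.sum f _ _ _ fun i _ => Rel.smul f (a i) (hr i)
      rw [ha] at h1
      have h2 := Rel.add f hy (Rel.smul f (-1 : A) h1)
      rw [neg_one_smul, neg_one_smul, add_neg_cancel, ← sub_eq_add_neg] at h2
      have h3 := rel_unique f c hc H h2
      have h4 : cls f A (j + 1) y = ∑ i, a i • cls f A (j + 1) ⟨z i, hz i⟩ := by
        have h5 : ∑ i, a i • cls f A (j + 1) ⟨z i, hz i⟩ =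
            cls f A (j + 1) (∑ i, a i • (⟨z i, hz i⟩ : Zc f A (j + 1))) := by
          rw [map_sum]
          exact Finset.sum_congr rfl fun i _ => (map_smul _ _ _).symm
        rw [h5]
        refine (Submodule.Quotient.eq _).2 ?_
        have h6 : ((Zc f A (j + 1)).subtype
            (y - ∑ i, a i • (⟨z i, hz i⟩ : Zc f A (j + 1)))) =
            (y : Cc f A (j + 1)) - ∑ i, a i • z i := by
          rw [map_sub, map_sum]
          rfl
        change (Zc f A (j + 1)).subtype _ ∈ Bc f A (j + 1)
        rw [h6]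
        exact h3
      rw [h4]
      exact Submodule.sum_mem _ fun i _ =>
        Submodule.smul_mem _ _ (Submodule.subset_span ⟨i, rfl⟩)
    · rw [Submodule.span_le]
      rintro _ ⟨i, rfl⟩
      exact ⟨⟨z i, hz i⟩, rfl, w i, hwc i, hr i⟩
  rw [hLP]
  exact Submodule.fg_span (Set.finite_range _)

/-- a chain map `P → Q` gives `LP Q ≤ LP P` -/
theorem LP_le_of_chMap {P Q : Cplx A} (u : ChMap P Q) (j : ℕ) : LP f Q j ≤ LP f P j := by
  rintro _ ⟨z, rfl, v, hv, hz⟩
  exact ⟨z, rfl, _, hv.comp u, hz.comp f u⟩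

end

end Pool.Agent.Lib.MP_f251fc_ag
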