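import Pool.Agent.Lib.MP_f251fc_ag.ZigC
import Pool.Agent.Lib.MP_f251fc_ag.CechE

/-! # Every Čech cocycle comes from a cocycle of `Hom(P e, N)` -/

set_option autoImplicit false

namespace Pool.Agent.Lib.MP_f251fc_ag

open scoped Matrix

noncomputable section

universe u

variable {B : Type u} [CommRing B] [IsNoetherianRing B] {r : ℕ} (f : Fin r → B)

/-- SURJECTIVITY.  Induction on `j`, for all modules `N`.
Given `z ∈ Z^(j+1)(N)`: it comes from a finitely generated submodule `N₀` (`exists_fg_submodule`), embed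
`N₀ → N'` in an acyclic module (`exists_acyc_embedding`), `N'' = N' / N₀`; `z₀ = dC w`, the image `w''` of `w`
in `N''` is a cocycle of degree `j`.
* `j = 0`: `w'' = aug n''` with `n''` killed by powers of the `f i` (`aug_mem_Zc_iff`); choose `e` with
  `g l • n'' = 0`; `w = aug n'`, `g l • n' = ι (v l)`; `y_1 l = aug (v l)`.
* `j + 1`: by induction `w''` is related to a cocycle for some `P e` up to a coboundary `dC u''`; lift `u''` to
  `u'` and replace `w` by `w - dC u'`; apply `rel_conn`. -/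
theorem exists_rel_of_cocycle (P : ℕ → Cplx B)
    (hP : ∀ (N : Type u) [AddCommGroup N] [Module B N] (n : N),
      (∀ i, ∃ t : ℕ, f i ^ t • n = 0) → ∃ e, ∀ l, (P e).g l • n = 0) (j : ℕ) :
    ∀ (N : Type u) [AddCommGroup N] [Module B N] (z : Cc f N (j + 1)), z ∈ Zc f N (j + 1) →
      ∃ (e : ℕ) (v : Fin ((P e).b j) → N), Coc (P e) j v ∧
        ∃ z', Rel f (P e) j v z' ∧ z - z' ∈ Bc f N (j + 1) := by
  induction j with
  | zero =>
    intro N _ _ z hz
    obtain ⟨N₀, hfg, z₀, hz₀, rfl⟩ := exists_fg_submodule f (0 + 1) hz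
    have hfin : Module.Finite B N₀ := Module.Finite.iff_fg.2 hfg
    obtain ⟨N', _, _, g, hg, hac⟩ := exists_acyc_embedding f N₀
    obtain ⟨w, hw⟩ := hac 0 (lc_mem_Zc f g hz₀)
    have hex : Function.Exact g (LinearMap.range g).mkQ := LinearMap.exact_map_mkQ_range g
    obtain ⟨n', rfl⟩ := (aug_bijective f N').2 w
    have h1 : aug f (N' ⧸ LinearMap.range g) ((LinearMap.range g).mkQ n') ∈ Zc f _ 0 := by
      rw [mem_Zc, ← lc_aug, lc_dC, hw]
      exact (lc_exact f hex (0 + 1) _).2 ⟨z₀, rfl⟩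
    obtain ⟨e, he⟩ := hP _ _ ((aug_mem_Zc_iff f _ _).1 h1)
    have h2 : ∀ l, ∃ v : N₀, g v = (P e).g l • n' := by
      intro l
      apply (hex _).1
      rw [map_smul]
      exact he l
    choose v hv using h2
    have hcoc : Coc (P e) 0 v := by
      intro l
      apply hg
      rw [map_sum, map_zero]
      have h3 : ∀ k, g ((P e).D 0 k l • v k) = ((P e).g k * (P e).D 0 k l) • n' := by
        intro k
        rw [map_smul, hv, smul_smul, mul_comm]
      rw [Finset.sum_congr rfl fun k _ => h3 k, ← Finset.sum_smul, (P e).gD, zero_smul]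
    have hrel : Rel f (P e) 0 v z₀ := by
      refine ⟨fun a => if h : a = 0 then fun l => v (Fin.cast (by rw [h]) l) else 0, rfl,
        fun l => aug f N₀ (v l), fun l => ?_, fun l => rfl⟩
      apply lc_injective f hg (0 + 1)
      rw [← lc_dC, lc_aug, hv, map_smul, map_smul, map_smul, hw]
    refine ⟨e, fun l => N₀.subtype (v l), Coc.lin N₀.subtype hcoc, _,
      Rel.lin f N₀.subtype hrel, ?_⟩
    rw [sub_self]
    exact Submodule.zero_mem _
  | succ j ih =>
    intro N _ _ z hz
    obtain ⟨N₀, hfg, z₀, hz₀, rfl⟩ := exists_fg_submodule f (j + 1 + 1) hz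
    have hfin : Module.Finite B N₀ := Module.Finite.iff_fg.2 hfg
    obtain ⟨N', _, _, g, hg, hac⟩ := exists_acyc_embedding f N₀
    obtain ⟨w, hw⟩ := hac (j + 1) (lc_mem_Zc f g hz₀)
    have hex : Function.Exact g (LinearMap.range g).mkQ := LinearMap.exact_map_mkQ_range g
    have hπ : Function.Surjective (LinearMap.range g).mkQ := Submodule.mkQ_surjective _
    have h1 : lc f (LinearMap.range g).mkQ (j + 1) w ∈ Zc f _ (j + 1) := by
      rw [mem_Zc, lc_dC, hw]
      exact (lc_exact f hex (j + 1 + 1) _).2 ⟨z₀, rfl⟩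
    obtain ⟨e, v'', hv'', z'', hr'', u'', hu''⟩ := ih _ _ h1
    obtain ⟨u', rfl⟩ := lc_surjective f hπ j u''
    obtain ⟨v, hv, hr⟩ := rel_conn f (P e) hg hex hπ j hv'' hr''
      (w := w - dC f N' j u') (by rw [map_sub, ← lc_dC, hu'', sub_sub_cancel])
      (z := z₀) (by rw [map_sub, dC_dC, sub_zero, hw])
    refine ⟨e, fun l => N₀.subtype (v l), Coc.lin N₀.subtype hv, _,
      Rel.lin f N₀.subtype hr, ?_⟩
    rw [sub_self]
    exact Submodule.zero_mem _

end

end Pool.Agent.Lib.MP_f251fc_ag
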