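import Pool.Agent.Lib.MP_f251fc_ag.RootF
import Pool.Agent.Lib.MP_f251fc_ag.ZigS
import Pool.Agent.Lib.MP_f251fc_ag.ResH

/-! # The root generates -/

set_option autoImplicit false

namespace Pool.Agent.Lib.MP_f251fc_ag

noncomputable section

universe u

variable {A : Type u} [CommRing A] {r : ℕ} (f : Fin r → A)

section frob

variable (p : ℕ) [Fact p.Prime] [CharP A p] {m : ℕ} {x : Fin m → A}

/-- homotopies for the `f i` -/
private theorem RootE_htpy (P : Cplx A) (hP : P.IsEx)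
    (hspan : Ideal.span (Set.range P.g) = Ideal.span (Set.range f)) (i : Fin r) :
    Nonempty (Htpy P (f i)) :=
  exists_htpy P hP (f i) (hspan ▸ Ideal.subset_span ⟨i, rfl⟩)

/-- for exact `P` there is a chain map `P.map frobenius → P` -/
theorem LP_le_spanF (hA : FrobFree p x A fun a => a ^ p) (P : Cplx A) (hP : P.IsEx)
    (hspan : Ideal.span (Set.range P.g) = Ideal.span (Set.range f)) (j : ℕ) :
    LP f P j ≤ spanF (FH p f (j + 1)) (LP f P j) := by
  have hp : 0 < p := (Fact.out : p.Prime).pos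
  have hg : ∀ l, (P.map (frobenius A p)).g l ∈ Ideal.span (Set.range P.g) := by
    intro l
    have h1 : P.g l ∈ Ideal.span (Set.range P.g) := Ideal.subset_span ⟨l, rfl⟩
    exact Ideal.pow_mem_of_mem _ h1 p hp
  obtain ⟨u⟩ := exists_chMap (P.map (frobenius A p)) P hP hg
  exact (LP_le_of_chMap f u j).trans (LP_map_le f p hA P f (fun i => ⟨1, (pow_one _).symm⟩)
    (fun i => (RootE_htpy f P hP hspan i).some) j)

private theorem RootE_g (e : ℕ) : ∀ (P : Cplx A) (l : Fin ((frobIter p P e).b 0)),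
    ∃ l' : Fin (P.b 0), (frobIter p P e).g l = P.g l' ^ p ^ e := by
  induction e with
  | zero =>
    intro P l
    exact ⟨l, by rw [pow_zero, pow_one]; rfl⟩
  | succ e ih =>
    intro P l
    obtain ⟨l', hl'⟩ := ih (P.map (frobenius A p)) l
    refine ⟨l', ?_⟩
    have h2 : (P.map (frobenius A p)).g l' = P.g l' ^ p := rfl
    have h3 : (frobIter p (P.map (frobenius A p)) e).g l = P.g l' ^ p ^ (e + 1) := by
      rw [hl', h2, ← pow_mul, pow_succ']
    exact h3

private theorem RootE_kill (P : Cplx A)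
    (hspan : Ideal.span (Set.range P.g) = Ideal.span (Set.range f))
    (N : Type u) [AddCommGroup N] [Module A N] (n : N) (hn : ∀ i, ∃ t : ℕ, f i ^ t • n = 0) :
    ∃ e, ∀ l, (frobIter p P e).g l • n = 0 := by
  have hI : Ideal.span (Set.range P.g) ≤
      Ideal.radical (LinearMap.ker (LinearMap.toSpanSingleton A N n)) := by
    rw [hspan, Ideal.span_le]
    rintro _ ⟨i, rfl⟩
    obtain ⟨t, ht⟩ := hn i
    exact ⟨t, ht⟩
  have h1 : ∀ l : Fin (P.b 0), ∃ t : ℕ, P.g l ^ t • n = 0 := by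
    intro l
    obtain ⟨t, ht⟩ := hI (Ideal.subset_span ⟨l, rfl⟩)
    exact ⟨t, ht⟩
  choose t ht using h1
  refine ⟨Finset.univ.sup t, fun l => ?_⟩
  obtain ⟨l', hl'⟩ := RootE_g p (Finset.univ.sup t) P l
  have h2 : t l' ≤ p ^ (Finset.univ.sup t) :=
    (Finset.le_sup (f := t) (Finset.mem_univ l')).trans
      (Nat.lt_pow_self (Fact.out : p.Prime).one_lt).le
  rw [hl', ← Nat.sub_add_cancel h2, pow_add, mul_smul, ht l', smul_zero]

/-- `exists_rel_of_cocycle` for the family `frobIter P e`: if `n` is killed by powers of all `f i` it is killed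
by a power `t` of the ideal `(f) = (P.g)`, and `(frobIter P e).g l = (P.g l) ^ (p ^ e)`, `p ^ e ≥ t`. -/
theorem exists_mem_iter [IsNoetherianRing A] (hA : FrobFree p x A fun a => a ^ p) (P : Cplx A)
    (hP : P.IsEx) (hspan : Ideal.span (Set.range P.g) = Ideal.span (Set.range f)) (j : ℕ)
    (z : Hc f A (j + 1)) : ∃ e, z ∈ (spanF (FH p f (j + 1)))^[e] (LP f P j) := by
  obtain ⟨z, rfl⟩ := Submodule.mkQ_surjective _ z
  obtain ⟨e, v, hv, z', hz', hzz⟩ := exists_rel_of_cocycle f (fun e => frobIter p P e)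
    (fun N _ _ n hn => RootE_kill f p P hspan N n hn) j A z.1 z.2
  have hz'm : z' ∈ Zc f A (j + 1) := by
    have h1 : z.1 - (z.1 - z') ∈ Zc f A (j + 1) :=
      Submodule.sub_mem _ z.2 (Bc_le_Zc f A (j + 1) hzz)
    rwa [sub_sub_cancel] at h1
  refine ⟨e, LP_iter_le f p hA P f (fun i => ⟨1, (pow_one _).symm⟩)
    (fun i => (RootE_htpy f P hP hspan i).some) j e ?_⟩
  refine ⟨⟨z', hz'm⟩, ?_, v, hv, hz'⟩
  have h2 : cls f A (j + 1) z = cls f A (j + 1) ⟨z', hz'm⟩ := by
    refine (Submodule.Quotient.eq _).2 ?_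
    exact hzz
  exact h2.symm

end frob

end

end Pool.Agent.Lib.MP_f251fc_ag
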