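import Pool.Agent.Lib.MP_f251fc_ag.Root
import Pool.Agent.Lib.MP_f251fc_ag.Frob

/-! # Frobenius and the root -/

set_option autoImplicit false

namespace Pool.Agent.Lib.MP_f251fc_ag

noncomputable section

universe u

variable {A : Type u} [CommRing A] {r : ℕ} (f : Fin r → A)

section frob

variable (p : ℕ) [Fact p.Prime] [CharP A p] {m : ℕ} {x : Fin m → A}

/-- cocycles of `P.map frobenius` are combinations of `p`-th powers of cocycles of `P`: write
`v k = ∑ lam, x ^ lam * (w lam k) ^ p`; `∑ k, (D k l) ^ p * v k = ∑ lam, x ^ lam (∑ k, D k l * w lam k) ^ p`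
and use uniqueness. -/
theorem coc_frob (hA : FrobFree p x A fun a => a ^ p) (P : Cplx A) (j : ℕ)
    {v : Fin (P.b j) → A} (hv : Coc (P.map (frobenius A p)) j v) :
    ∃ w : (Fin m → Fin p) → Fin (P.b j) → A, (∀ lam, Coc P j (w lam)) ∧
      v = ∑ lam, (∏ i, x i ^ (lam i : ℕ)) • fun k => (w lam k) ^ p := by
  choose w hw using fun k => hA (v k)
  refine ⟨fun lam k => w k lam, ?_, ?_⟩
  · intro lam l
    have h1 : (0 : A) = ∑ lam, (∏ i, x i ^ (lam i : ℕ)) •
        (∑ k, P.D j k l • w k lam) ^ p := by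
      have h2 := hv l
      have h3 : ∀ k, (P.map (frobenius A p)).D j k l • v k =
          ∑ lam, (∏ i, x i ^ (lam i : ℕ)) • (P.D j k l • w k lam) ^ p := by
        intro k
        change (P.D j k l) ^ p • v k = _
        conv_lhs => rw [(hw k).1]
        rw [Finset.smul_sum]
        refine Finset.sum_congr rfl fun lam _ => ?_
        simp only [smul_eq_mul]
        ring
      rw [← h2]
      have h4 : ∑ k, (P.map (frobenius A p)).D j k l • v k =
          ∑ k, ∑ lam, (∏ i, x i ^ (lam i : ℕ)) • (P.D j k l • w k lam) ^ p :=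
        Finset.sum_congr rfl fun k _ => h3 k
      rw [h4, Finset.sum_comm]
      refine Finset.sum_congr rfl fun lam _ => ?_
      rw [← Finset.smul_sum, sum_pow_char]
    have h5 : (0 : A) = ∑ lam : Fin m → Fin p, (∏ i, x i ^ (lam i : ℕ)) •
        (fun _ : Fin m → Fin p => (0 : A)) lam ^ p := by
      symm
      refine Finset.sum_eq_zero fun lam _ => ?_
      rw [zero_pow (Fact.out : p.Prime).ne_zero, smul_zero]
    have h6 := (hA 0).unique (y₁ := fun lam => ∑ k, P.D j k l • w k lam)
      (y₂ := fun _ => 0) h1 h5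
    exact congrFun h6 lam
  · funext k
    rw [Finset.sum_apply]
    exact (hw k).1

/-- `v = ∑ x ^ lam F(w_lam)`, `Rel P w_lam z_lam` (`exists_rel`), so `Rel (P.map F) v (∑ x ^ lam F z_lam)`
(`Rel.map`, `Rel.smul`, `Rel.sum`), and `z` is cohomologous to this (`rel_unique` for `P.map F` with the
homotopies `(H i).map frobenius` of `c i ^ p`) -/
theorem LP_map_le (hA : FrobFree p x A fun a => a ^ p) (P : Cplx A) (c : Fin r → A)
    (hc : ∀ i, ∃ t : ℕ, c i = f i ^ t) (H : ∀ i, Htpy P (c i)) (j : ℕ) :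
    LP f (P.map (frobenius A p)) j ≤ spanF (FH p f (j + 1)) (LP f P j) := by
  rintro _ ⟨z, rfl, v, hv, hrel⟩
  obtain ⟨w, hw, hvw⟩ := coc_frob p hA P j hv
  choose zl hzl hrl using fun lam => exists_rel f c hc H (hw lam)
  -- the Frobenius images
  have h1 : ∀ lam, Rel f (P.map (frobenius A p)) j (fun l => frobL p A (w lam l))
      (cmap (frob_mem p f) (frobL p A) (j + 1) (zl lam)) := fun lam =>
    Rel.map (frob_mem p f) (frobL p A) (hrl lam)
  have h2 : Rel f (P.map (frobenius A p)) j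
      (∑ lam, (∏ i, x i ^ (lam i : ℕ)) • (fun l => frobL p A (w lam l)))
      (∑ lam, (∏ i, x i ^ (lam i : ℕ)) •
        cmap (frob_mem p f) (frobL p A) (j + 1) (zl lam)) :=
    Rel.sum f Finset.univ _ _ fun lam _ => (h1 lam).smul f _
  have h3 : v = ∑ lam, (∏ i, x i ^ (lam i : ℕ)) • (fun l => frobL p A (w lam l)) := hvw
  have h2 : Rel f (P.map (frobenius A p)) j v
      (∑ lam, (∏ i, x i ^ (lam i : ℕ)) •
        cmap (frob_mem p f) (frobL p A) (j + 1) (zl lam)) := by
    rw [h3]
    exact h2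
  have h4 : Rel f (P.map (frobenius A p)) j (0 : Fin ((P.map (frobenius A p)).b j) → A)
      ((z : Cc f A (j + 1)) + (-1 : A) • ∑ lam, (∏ i, x i ^ (lam i : ℕ)) •
        cmap (frob_mem p f) (frobL p A) (j + 1) (zl lam)) := by
    have := hrel.add f (h2.smul f (-1 : A))
    have h5 : v + (-1 : A) • v = 0 := by
      rw [neg_one_smul, add_neg_cancel]
    rwa [h5] at this
  have h6 := rel_unique f (fun i => frobenius A p (c i)) (fun i => by
    obtain ⟨t, ht⟩ := hc i
    refine ⟨t * p, ?_⟩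
    rw [frobenius_def, ht, pow_mul]) (fun i => (H i).map (frobenius A p)) h4
  -- the classes
  have h7 : cls f A (j + 1) z = ∑ lam, (∏ i, x i ^ (lam i : ℕ)) •
      FH p f (j + 1) (cls f A (j + 1) ⟨zl lam, hzl lam⟩) := by
    have h8 : ∀ lam, FH p f (j + 1) (cls f A (j + 1) ⟨zl lam, hzl lam⟩) =
        cls f A (j + 1) ⟨cmap (frob_mem p f) (frobL p A) (j + 1) (zl lam),
          cmap_mem_Zc (frob_mem p f) (frobL p A) (hzl lam)⟩ := fun lam => rfl
    simp only [h8, ← map_smul, ← map_sum]
    refine (Submodule.Quotient.eq _).2 ?_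
    have h9 : ((z - ∑ lam, (∏ i, x i ^ (lam i : ℕ)) •
        (⟨cmap (frob_mem p f) (frobL p A) (j + 1) (zl lam),
          cmap_mem_Zc (frob_mem p f) (frobL p A) (hzl lam)⟩ : Zc f A (j + 1)) :
          Zc f A (j + 1)) : Cc f A (j + 1)) =
        (z : Cc f A (j + 1)) + (-1 : A) • ∑ lam, (∏ i, x i ^ (lam i : ℕ)) •
          cmap (frob_mem p f) (frobL p A) (j + 1) (zl lam) := by
      rw [Submodule.coe_sub, Submodule.coe_sum, neg_one_smul, sub_eq_add_neg]
      rfl
    rw [← h9] at h6
    exact h6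
  rw [h7]
  refine Submodule.sum_mem _ fun lam _ => Submodule.smul_mem _ _ (Submodule.subset_span ?_)
  exact ⟨_, ⟨⟨zl lam, hzl lam⟩, rfl, w lam, hw lam, hrl lam⟩, rfl⟩

/-- iterated Frobenius base change of a complex -/
def frobIter (P : Cplx A) (e : ℕ) : Cplx A := (fun Q : Cplx A => Q.map (frobenius A p))^[e] P

theorem LP_iter_le (hA : FrobFree p x A fun a => a ^ p) (P : Cplx A) (c : Fin r → A)
    (hc : ∀ i, ∃ t : ℕ, c i = f i ^ t) (H : ∀ i, Htpy P (c i)) (j e : ℕ) :
    LP f (frobIter p P e) j ≤ (spanF (FH p f (j + 1)))^[e] (LP f P j) := by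
  induction e generalizing P c with
  | zero => exact le_rfl
  | succ e ih =>
    have h1 : frobIter p P (e + 1) = frobIter p (P.map (frobenius A p)) e :=
      Function.iterate_succ_apply _ _ _
    have h2 := ih (P.map (frobenius A p)) (fun i => frobenius A p (c i)) (fun i => by
      obtain ⟨t, ht⟩ := hc i
      refine ⟨t * p, ?_⟩
      rw [frobenius_def, ht, pow_mul]) (fun i => (H i).map (frobenius A p))
    rw [h1, Function.iterate_succ_apply]
    refine h2.trans ?_
    have h3 : Monotone (spanF (FH p f (j + 1))) := fun _ _ h => spanF_mono _ h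
    exact h3.iterate e (LP_map_le f p hA P c hc H j)

end frob

end

end Pool.Agent.Lib.MP_f251fc_ag
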