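import Pool.Agent.Lib.MP_f251fc_ag.RootE
import Pool.Agent.Lib.MP_f251fc_ag.ResC

/-!
# The abstract situation

`S` is the regular ring (`V⟦x⟧`), `Sb = S / p` (as an `S`-module; `K⟦x⟧`), `A` a big ring of characteristic `p`
(`K'⟦x⟧`, `K'` perfect) with `S`-linear maps `Sb → A → Sb` whose composite is the identity.
-/

set_option autoImplicit false

namespace Pool.Agent.Lib.MP_f251fc_ag

noncomputable section

universe u

/-- the abstract situation -/
structure Setup (p : ℕ) [Fact p.Prime] (m : ℕ) (S Sb A : Type u) [CommRing S] [AddCommGroup Sb]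
    [Module S Sb] [CommRing A] [CharP A p] [Algebra S A] where
  /-- reduction modulo `p` -/
  π : S →ₗ[S] Sb
  π_surj : Function.Surjective π
  π_ker : ∀ s, π s = 0 ↔ ∃ t, s = (p : S) * t
  p_reg : ∀ s : S, (p : S) * s = 0 → s = 0
  /-- `Sb → A` -/
  ι : Sb →ₛₗ[algebraMap S A] A
  ιπ : ∀ s, ι (π s) = algebraMap S A s
  /-- `A → Sb` -/
  ρ : A →ₗ[S] Sb
  ρι : ∀ b, ρ (ι b) = b
  /-- Taylor structures -/
  hsS : Fin m → HS S
  hsA : Fin m → HS A
  hs_compat : ∀ i k s, (hsA i).d k (algebraMap S A s) = algebraMap S A ((hsS i).d k s)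
  /-- the variables -/
  x : Fin m → A
  hs_x : ∀ i j k a, (hsA i).d k (x j ^ a) =
    if i = j then (a.choose k : A) * x i ^ (a - k) else if k = 0 then x j ^ a else 0
  frobFree : FrobFree p x A fun a => a ^ p

section desc

variable {S A : Type u} [CommRing S] [CommRing A] [Algebra S A] {r : ℕ} (f : Fin r → S)

/-- the family in `A` -/
def fA (A : Type u) [CommRing A] [Algebra S A] : Fin r → A := fun i => algebraMap S A (f i)

theorem fA_mem (i : Fin r) : algebraMap S A (f i) ∈ Submonoid.powers (fA f A i) :=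
  Submonoid.mem_powers _

end desc

section core

variable {p : ℕ} [Fact p.Prime] {m : ℕ} {S Sb A : Type u} [CommRing S] [AddCommGroup Sb]
  [Module S Sb] [CommRing A] [CharP A p] [Algebra S A] (U : Setup p m S Sb A)
  {r : ℕ} (f : Fin r → S)

/-- the linear map `S → A` as a semilinear map -/
def algL (S A : Type u) [CommRing S] [CommRing A] [Algebra S A] : S →ₛₗ[algebraMap S A] A where
  toFun := algebraMap S A
  map_add' := map_add _
  map_smul' := map_mul _

/-- `H^k(S) → H^k(A)` -/
def HSA (A : Type u) [CommRing A] [Algebra S A] (k : ℕ) :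
    Hc f S k →ₛₗ[algebraMap S A] Hc (fA f A) A k :=
  hmap (fA_mem f) (algL S A) k

/-- the `A`-span of the image of `H^k(S)` in `H^k(A)` -/
def TA (A : Type u) [CommRing A] [Algebra S A] (k : ℕ) : Submodule A (Hc (fA f A) A k) :=
  Submodule.span A (Set.range (HSA f A k))

end core

end

end Pool.Agent.Lib.MP_f251fc_ag
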