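import Pool.Agent.Lib.MP_f251fc_ag.ZigDefs

/-! # Zigzags: linearity and functoriality -/

set_option autoImplicit false

namespace Pool.Agent.Lib.MP_f251fc_ag

open scoped Matrix

noncomputable section

universe u

section lin

variable {B : Type u} [CommRing B] {r : ℕ} (f : Fin r → B) {N : Type u} [AddCommGroup N] [Module B N]

theorem Zig.add (P : Cplx B) {v v' : ∀ a, Fin (P.b a) → N} (q : ℕ) :
    ∀ (a : ℕ) {y y' : Fin (P.b a) → Cc f N q}, Zig f P v q a y → Zig f P v' q a y' →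
      Zig f P (v + v') q a (y + y') := by
  induction q with
  | zero =>
    intro a y y' h h' l
    change y l + y' l = aug f N (v a l + v' a l)
    rw [h l, h' l, map_add]
  | succ q ih =>
    intro a y y' h h'
    obtain ⟨y₁, h₁, hz₁⟩ := h
    obtain ⟨y₁', h₁', hz₁'⟩ := h'
    refine ⟨y₁ + y₁', fun l => ?_, ih (a + 1) hz₁ hz₁'⟩
    change dC f N q (y₁ l + y₁' l) = ∑ k, P.D a k l • (y k + y' k)
    rw [map_add, h₁, h₁', ← Finset.sum_add_distrib]
    exact Finset.sum_congr rfl fun k _ => (smul_add _ _ _).symm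

theorem Zig.smul (P : Cplx B) (c : B) {v : ∀ a, Fin (P.b a) → N} (q : ℕ) :
    ∀ (a : ℕ) {y : Fin (P.b a) → Cc f N q}, Zig f P v q a y →
      Zig f P (c • v) q a (c • y) := by
  induction q with
  | zero =>
    intro a y h l
    change c • y l = aug f N (c • v a l)
    rw [h l, map_smul]
  | succ q ih =>
    intro a y h
    obtain ⟨y₁, h₁, hz₁⟩ := h
    refine ⟨c • y₁, fun l => ?_, ih (a + 1) hz₁⟩
    change dC f N q (c • y₁ l) = ∑ k, P.D a k l • (c • y k)
    rw [map_smul, h₁, Finset.smul_sum]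
    exact Finset.sum_congr rfl fun k _ => smul_comm _ _ _

theorem Rel.add {P : Cplx B} {j : ℕ} {v v' : Fin (P.b j) → N} {z z' : Cc f N (j + 1)}
    (h : Rel f P j v z) (h' : Rel f P j v' z') : Rel f P j (v + v') (z + z') := by
  obtain ⟨w, rfl, y, hy, hz⟩ := h
  obtain ⟨w', rfl, y', hy', hz'⟩ := h'
  refine ⟨w + w', rfl, y + y', fun l => ?_, Zig.add f P j 0 hz hz'⟩
  change dC f N j (y l + y' l) = _
  rw [map_add, hy, hy', smul_add]

private theorem ZigA_zero (P : Cplx B) (q : ℕ) :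
    ∀ a : ℕ, Zig f P (0 : ∀ a, Fin (P.b a) → N) q a 0 := by
  induction q with
  | zero =>
    intro a l
    change (0 : Cc f N 0) = aug f N 0
    rw [map_zero]
  | succ q ih =>
    intro a
    refine ⟨0, fun l => ?_, ih (a + 1)⟩
    change dC f N q 0 = ∑ k, P.D a k l • (0 : Cc f N (q + 1))
    rw [map_zero]
    exact (Finset.sum_eq_zero fun k _ => smul_zero _).symm

theorem Rel.zero (P : Cplx B) (j : ℕ) : Rel f P j (0 : Fin (P.b j) → N) 0 := by
  refine ⟨0, rfl, 0, fun l => ?_, ZigA_zero f P j 0⟩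
  change dC f N j 0 = _
  rw [map_zero, smul_zero]

theorem Coc.add {P : Cplx B} {j : ℕ} {v v' : Fin (P.b j) → N} (h : Coc P j v) (h' : Coc P j v') :
    Coc P j (v + v') := by
  intro l
  have h1 : ∑ k, P.D j k l • (v + v') k = ∑ k, P.D j k l • v k + ∑ k, P.D j k l • v' k := by
    rw [← Finset.sum_add_distrib]
    exact Finset.sum_congr rfl fun k _ => smul_add _ _ _
  rw [h1, h l, h' l, add_zero]

theorem Coc.smul {P : Cplx B} {j : ℕ} (c : B) {v : Fin (P.b j) → N} (h : Coc P j v) :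
    Coc P j (c • v) := by
  intro l
  have h1 : ∑ k, P.D j k l • (c • v) k = c • ∑ k, P.D j k l • v k := by
    rw [Finset.smul_sum]
    exact Finset.sum_congr rfl fun k _ => smul_comm _ _ _
  rw [h1, h l, smul_zero]

theorem Coc.zero (P : Cplx B) (j : ℕ) : Coc P j (0 : Fin (P.b j) → N) :=
  fun _ => Finset.sum_eq_zero fun _ _ => smul_zero _

theorem Rel.smul {P : Cplx B} {j : ℕ} (c : B) {v : Fin (P.b j) → N} {z : Cc f N (j + 1)}
    (h : Rel f P j v z) : Rel f P j (c • v) (c • z) := by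
  obtain ⟨w, rfl, y, hy, hz⟩ := h
  refine ⟨c • w, rfl, c • y, fun l => ?_, Zig.smul f P c j 0 hz⟩
  change dC f N j (c • y l) = _
  rw [map_smul, hy, smul_comm]

theorem Rel.sum {P : Cplx B} {j : ℕ} {ι : Type*} (t : Finset ι) (v : ι → Fin (P.b j) → N)
    (z : ι → Cc f N (j + 1)) (h : ∀ i ∈ t, Rel f P j (v i) (z i)) :
    Rel f P j (∑ i ∈ t, v i) (∑ i ∈ t, z i) := by
  classical
  induction t using Finset.induction_on with
  | empty =>
    rw [Finset.sum_empty, Finset.sum_empty]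
    exact Rel.zero f P j
  | insert a t ha ih =>
    rw [Finset.sum_insert ha, Finset.sum_insert ha]
    exact Rel.add f (h a (Finset.mem_insert_self a t))
      (ih fun i hi => h i (Finset.mem_insert_of_mem hi))

private theorem ZigA_comp {P Q : Cplx B} (u : ChMap P Q) (v : ∀ a, Fin (Q.b a) → N) (q : ℕ) :
    ∀ (a : ℕ) (y : Fin (Q.b a) → Cc f N q), Zig f Q v q a y →
      Zig f P (fun a l => ∑ k, u.u a k l • v a k) q a (fun l => ∑ k, u.u a k l • y k) := by
  induction q with
  | zero =>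
    intro a y h l
    change ∑ k, u.u a k l • y k = aug f N (∑ k, u.u a k l • v a k)
    rw [map_sum]
    exact Finset.sum_congr rfl fun k _ => by rw [h k, map_smul]
  | succ q ih =>
    intro a y h
    obtain ⟨y₁, h₁, hz₁⟩ := h
    refine ⟨fun l => ∑ k, u.u (a + 1) k l • y₁ k, fun l => ?_, ih (a + 1) y₁ hz₁⟩
    have hD := u.hD a
    have hD' : ∀ (k : Fin (Q.b a)) (l : Fin (P.b (a + 1))),
        ∑ k', Q.D a k k' * u.u (a + 1) k' l = ∑ k', u.u a k k' * P.D a k' l := by
      intro k l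
      have := congrFun (congrFun hD k) l
      rw [Matrix.mul_apply, Matrix.mul_apply] at this
      exact this
    have h1 : dC f N q (∑ k, u.u (a + 1) k l • y₁ k) =
        ∑ k', ∑ k, (Q.D a k' k * u.u (a + 1) k l) • y k' := by
      rw [map_sum, Finset.sum_comm]
      refine Finset.sum_congr rfl fun k _ => ?_
      rw [map_smul, h₁, Finset.smul_sum]
      refine Finset.sum_congr rfl fun k' _ => ?_
      rw [smul_smul, mul_comm]
    rw [h1]
    have h2 : ∑ k, P.D a k l • (∑ k', u.u a k' k • y k') =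
        ∑ k', ∑ k, (u.u a k' k * P.D a k l) • y k' := by
      rw [Finset.sum_comm]
      refine Finset.sum_congr rfl fun k _ => ?_
      rw [Finset.smul_sum]
      refine Finset.sum_congr rfl fun k' _ => ?_
      rw [smul_smul, mul_comm]
    rw [h2]
    refine Finset.sum_congr rfl fun k' _ => ?_
    rw [← Finset.sum_smul, ← Finset.sum_smul, hD']

/-- a chain map `u : P → Q` transports zigzags for `Q` to zigzags for `P`: compose everything with `u`
(`y ∘ u`, i.e. `fun l => ∑ k, u a k l • y k`) -/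
theorem Rel.comp {P Q : Cplx B} (u : ChMap P Q) {j : ℕ} {v : Fin (Q.b j) → N}
    {z : Cc f N (j + 1)} (h : Rel f Q j v z) :
    Rel f P j (fun l => ∑ k, u.u j k l • v k) z := by
  obtain ⟨w, rfl, y, hy, hz⟩ := h
  refine ⟨fun a l => ∑ k, u.u a k l • w a k, rfl, fun l => ∑ k, u.u 0 k l • y k, fun l => ?_,
    ZigA_comp f u w j 0 y hz⟩
  rw [map_sum, ← u.hg, Finset.sum_smul]
  refine Finset.sum_congr rfl fun k _ => ?_
  rw [map_smul, hy, smul_smul, mul_comm]

theorem Coc.comp {P Q : Cplx B} (u : ChMap P Q) {j : ℕ} {v : Fin (Q.b j) → N}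
    (h : Coc Q j v) : Coc P j (fun l => ∑ k, u.u j k l • v k) := by
  intro l
  have hD := u.hD j
  have hD' : ∀ (k : Fin (Q.b j)),
      ∑ k', Q.D j k k' * u.u (j + 1) k' l = ∑ k', u.u j k k' * P.D j k' l := by
    intro k
    have := congrFun (congrFun hD k) l
    rw [Matrix.mul_apply, Matrix.mul_apply] at this
    exact this
  have h2 : ∑ k, P.D j k l • (∑ k', u.u j k' k • v k') =
      ∑ k', (∑ k, u.u j k' k * P.D j k l) • v k' := by
    simp only [Finset.smul_sum, Finset.sum_smul, smul_smul]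
    rw [Finset.sum_comm]
    refine Finset.sum_congr rfl fun k _ => Finset.sum_congr rfl fun k' _ => ?_
    rw [mul_comm]
  rw [h2]
  have h3 : ∑ k', (∑ k, u.u j k' k * P.D j k l) • v k' =
      ∑ k, u.u (j + 1) k l • ∑ k', Q.D j k' k • v k' := by
    simp only [← hD', Finset.smul_sum, Finset.sum_smul, smul_smul]
    rw [Finset.sum_comm]
    refine Finset.sum_congr rfl fun k _ => Finset.sum_congr rfl fun k' _ => ?_
    rw [mul_comm]
  rw [h3]
  exact Finset.sum_eq_zero fun k _ => by rw [h k, smul_zero]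

private theorem ZigA_lin {N' : Type u} [AddCommGroup N'] [Module B N'] (g : N →ₗ[B] N')
    (P : Cplx B) (v : ∀ a, Fin (P.b a) → N) (q : ℕ) :
    ∀ (a : ℕ) (y : Fin (P.b a) → Cc f N q), Zig f P v q a y →
      Zig f P (fun a l => g (v a l)) q a (fun l => lc f g q (y l)) := by
  induction q with
  | zero =>
    intro a y h l
    change lc f g 0 (y l) = aug f N' (g (v a l))
    rw [h l, lc_aug]
  | succ q ih =>
    intro a y h
    obtain ⟨y₁, h₁, hz₁⟩ := h
    refine ⟨fun l => lc f g q (y₁ l), fun l => ?_, ih (a + 1) y₁ hz₁⟩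
    rw [lc_dC, h₁, map_sum]
    exact Finset.sum_congr rfl fun k _ => map_smul _ _ _

/-- linear functoriality (compare `Rel.map`; here the complex does not change) -/
theorem Rel.lin {N' : Type u} [AddCommGroup N'] [Module B N'] (g : N →ₗ[B] N') {P : Cplx B} {j : ℕ}
    {v : Fin (P.b j) → N} {z : Cc f N (j + 1)} (h : Rel f P j v z) :
    Rel f P j (fun l => g (v l)) (lc f g (j + 1) z) := by
  obtain ⟨w, rfl, y, hy, hz⟩ := h
  refine ⟨fun a l => g (w a l), rfl, fun l => lc f g j (y l), fun l => ?_,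
    ZigA_lin f g P w j 0 y hz⟩
  rw [lc_dC, hy, map_smul]

theorem Coc.lin {N' : Type u} [AddCommGroup N'] [Module B N'] (g : N →ₗ[B] N') {P : Cplx B} {j : ℕ}
    {v : Fin (P.b j) → N} (h : Coc P j v) : Coc P j (fun l => g (v l)) := by
  intro l
  have h1 : ∑ k, P.D j k l • g (v k) = g (∑ k, P.D j k l • v k) := by
    rw [map_sum]
    exact Finset.sum_congr rfl fun k _ => (map_smul _ _ _).symm
  rw [h1, h l, map_zero]

end lin

section map

variable {B B' : Type u} [CommRing B] [CommRing B'] {φ : B →+* B'} {r : ℕ}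
  {f : Fin r → B} {f' : Fin r → B'}
  {N N' : Type u} [AddCommGroup N] [Module B N] [AddCommGroup N'] [Module B' N']

private theorem ZigA_map (hf : ∀ i, φ (f i) ∈ Submonoid.powers (f' i)) (θ : N →ₛₗ[φ] N')
    (P : Cplx B) (v : ∀ a, Fin (P.b a) → N) (q : ℕ) :
    ∀ (a : ℕ) (y : Fin (P.b a) → Cc f N q), Zig f P v q a y →
      Zig f' (P.map φ) (fun a l => θ (v a l)) q a (fun l => cmap hf θ q (y l)) := by
  induction q with
  | zero =>
    intro a y h l
    change cmap hf θ 0 (y l) = aug f' N' (θ (v a l))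
    rw [h l, cmap_aug]
  | succ q ih =>
    intro a y h
    obtain ⟨y₁, h₁, hz₁⟩ := h
    refine ⟨fun l => cmap hf θ q (y₁ l), fun l => ?_, ih (a + 1) y₁ hz₁⟩
    rw [cmap_dC, h₁, map_sum]
    exact Finset.sum_congr rfl fun k _ => map_smulₛₗ _ _ _

/-- semilinear functoriality: apply `cmap hf θ` to all the terms of the zigzag -/
theorem Rel.map (hf : ∀ i, φ (f i) ∈ Submonoid.powers (f' i)) (θ : N →ₛₗ[φ] N')
    {P : Cplx B} {j : ℕ} {v : Fin (P.b j) → N} {z : Cc f N (j + 1)} (h : Rel f P j v z) :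
    Rel f' (P.map φ) j (fun l => θ (v l)) (cmap hf θ (j + 1) z) := by
  obtain ⟨w, rfl, y, hy, hz⟩ := h
  refine ⟨fun a l => θ (w a l), rfl, fun l => cmap hf θ j (y l), fun l => ?_,
    ZigA_map hf θ P w j 0 y hz⟩
  rw [cmap_dC, hy, map_smulₛₗ]
  rfl

theorem Coc.map (θ : N →ₛₗ[φ] N') {P : Cplx B} {j : ℕ} {v : Fin (P.b j) → N} (h : Coc P j v) :
    Coc (P.map φ) j (fun l => θ (v l)) := by
  intro l
  have h1 : ∑ k, (P.map φ).D j k l • θ (v k) = θ (∑ k, P.D j k l • v k) := by
    rw [map_sum]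
    refine Finset.sum_congr rfl fun k _ => ?_
    rw [map_smulₛₗ]
    rfl
  rw [h1, h l, map_zero]

end map

end

end Pool.Agent.Lib.MP_f251fc_ag
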