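import Pool.Agent.Lib.MP_f251fc_ag.ZigDefs

/-! # Zigzags: existence -/

set_option autoImplicit false

namespace Pool.Agent.Lib.MP_f251fc_ag

open scoped Matrix

noncomputable section

universe u

variable {B : Type u} [CommRing B] {r : ℕ} (f : Fin r → B) {N : Type u} [AddCommGroup N] [Module B N]
  {P : Cplx B} (c : Fin r → B) (hc : ∀ i, ∃ t : ℕ, c i = f i ^ t) (H : ∀ i, Htpy P (c i))

/-- contraction at `P_1` -/
private theorem ZigB_one {X : Type*} [AddCommGroup X] [Module B X] {e : B} (h : Htpy P e)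
    (y : Fin (P.b 0) → X) (hy : ∀ l, ∑ k, P.D 0 k l • y k = 0) (l : Fin (P.b 0)) :
    e • y l = P.g l • ∑ k, h.h0 k • y k := by
  have h1 : e • y l = ∑ k, (if k = l then e else 0) • y k := by
    rw [Finset.sum_eq_single l]
    · rw [if_pos rfl]
    · intro k _ hk
      rw [if_neg hk, zero_smul]
    · intro hl
      exact absurd (Finset.mem_univ l) hl
  rw [h1]
  have h2 : ∀ k, (if k = l then e else 0) • y k =
      (∑ m, h.h 0 m l • (P.D 0 k m • y k)) + P.g l • (h.h0 k • y k) := by
    intro k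
    rw [← h.e1 k l, add_smul, Finset.sum_smul]
    congr 1
    · refine Finset.sum_congr rfl fun m _ => ?_
      rw [smul_smul, mul_comm]
    · rw [smul_smul, mul_comm]
  rw [Finset.sum_congr rfl fun k _ => h2 k, Finset.sum_add_distrib, Finset.sum_comm]
  have h3 : ∀ m, ∑ k, h.h 0 m l • (P.D 0 k m • y k) = 0 := by
    intro m
    rw [← Finset.smul_sum, hy m, smul_zero]
  rw [Finset.sum_congr rfl fun m _ => h3 m, Finset.sum_const_zero, zero_add, Finset.smul_sum]

/-- contraction at `P_(a+2)` -/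
private theorem ZigB_succ {X : Type*} [AddCommGroup X] [Module B X] {e : B} (h : Htpy P e) (a : ℕ)
    (y : Fin (P.b (a + 1)) → X) (hy : ∀ l, ∑ k, P.D (a + 1) k l • y k = 0)
    (l : Fin (P.b (a + 1))) :
    e • y l = ∑ k, P.D a k l • ∑ m, h.h a m k • y m := by
  have h1 : e • y l = ∑ m, (e • (1 : Matrix (Fin (P.b (a + 1))) (Fin (P.b (a + 1))) B)) m l • y m := by
    rw [Finset.sum_eq_single l]
    · rw [Matrix.smul_apply, Matrix.one_apply_eq, smul_eq_mul, mul_one]
    · intro k _ hk
      rw [Matrix.smul_apply, Matrix.one_apply_ne hk, smul_zero, zero_smul]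
    · intro hl
      exact absurd (Finset.mem_univ l) hl
  rw [h1]
  have h2 : ∀ m, (e • (1 : Matrix (Fin (P.b (a + 1))) (Fin (P.b (a + 1))) B)) m l • y m =
      (∑ i, h.h (a + 1) i l • (P.D (a + 1) m i • y m)) + ∑ k, P.D a k l • (h.h a m k • y m) := by
    intro m
    rw [← h.e2 a, Matrix.add_apply, add_smul, Matrix.mul_apply, Matrix.mul_apply, Finset.sum_smul,
      Finset.sum_smul]
    congr 1
    · refine Finset.sum_congr rfl fun i _ => ?_
      rw [smul_smul, mul_comm]
    · refine Finset.sum_congr rfl fun k _ => ?_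
      rw [smul_smul, mul_comm]
  rw [Finset.sum_congr rfl fun m _ => h2 m, Finset.sum_add_distrib, Finset.sum_comm]
  have h3 : ∀ i, ∑ m, h.h (a + 1) i l • (P.D (a + 1) m i • y m) = 0 := by
    intro i
    rw [← Finset.smul_sum, hy i, smul_zero]
  rw [Finset.sum_congr rfl fun i _ => h3 i, Finset.sum_const_zero, zero_add, Finset.sum_comm]
  refine Finset.sum_congr rfl fun k _ => ?_
  rw [Finset.smul_sum]

include hc

/-- `c (s 0)` acts bijectively on the component `s` -/
private theorem ZigB_bij {q : ℕ} (s : Fin (q + 1) → Fin r) :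
    Function.Bijective fun x : LocalizedModule (Ms f s) N => c (s 0) • x := by
  have hmem : c (s 0) ∈ Ms f s := by
    obtain ⟨t, ht⟩ := hc (s 0)
    rw [ht]
    exact Submonoid.pow_mem _ (mem_Ms f s 0) t
  have h1 := IsLocalizedModule.map_units (S := Ms f s) (LocalizedModule.mkLinearMap (Ms f s) N)
    ⟨c (s 0), hmem⟩
  rw [Module.End.isUnit_iff] at h1
  exact h1

include H

/-- rows are exact at `P_0`: in positive Čech degree, an element killed by all `g l` is zero
(`c (s 0) = ∑ g k * h0 k` acts bijectively on the component `s`) -/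
theorem row_zero (q : ℕ) (z : Cc f N (q + 1)) (h : ∀ l, P.g l • z = 0) : z = 0 := by
  funext s
  apply (ZigB_bij f c hc s).1
  change c (s 0) • z s = c (s 0) • (0 : LocalizedModule (Ms f s) N)
  rw [smul_zero, ← (H (s 0)).e0, Finset.sum_smul]
  refine Finset.sum_eq_zero fun k _ => ?_
  have h1 : P.g k • z s = 0 := congrFun (h k) s
  rw [mul_comm, mul_smul, h1, smul_zero]

/-- rows are exact at `P_1`: `w s = (c (s 0))⁻¹ • ∑ k, h0 k • y k s` -/
theorem row_one (q : ℕ) (y : Fin (P.b 0) → Cc f N (q + 1)) (h : ∀ l, ∑ k, P.D 0 k l • y k = 0) :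
    ∃ w : Cc f N (q + 1), ∀ l, y l = P.g l • w := by
  have h1 : ∀ s : Fin (q + 1) → Fin r, ∃ x : LocalizedModule (Ms f s) N,
      c (s 0) • x = ∑ k, (H (s 0)).h0 k • y k s := fun s => (ZigB_bij f c hc s).2 _
  choose w hw using h1
  refine ⟨w, fun l => ?_⟩
  funext s
  apply (ZigB_bij f c hc s).1
  change c (s 0) • y l s = c (s 0) • (P.g l • w s)
  rw [smul_comm (c (s 0)) (P.g l) (w s), hw s]
  refine ZigB_one (H (s 0)) (fun k => y k s) (fun l' => ?_) l
  have h2 := congrFun (h l') s
  rw [Finset.sum_apply] at h2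
  exact h2

/-- rows are exact at `P_(a+2)`: `w k s = (c (s 0))⁻¹ • ∑ l, h a l k • y l s` -/
theorem row_succ (q a : ℕ) (y : Fin (P.b (a + 1)) → Cc f N (q + 1))
    (h : ∀ l, ∑ k, P.D (a + 1) k l • y k = 0) :
    ∃ w : Fin (P.b a) → Cc f N (q + 1), ∀ l, y l = ∑ k, P.D a k l • w k := by
  have h1 : ∀ (k : Fin (P.b a)) (s : Fin (q + 1) → Fin r), ∃ x : LocalizedModule (Ms f s) N,
      c (s 0) • x = ∑ m, (H (s 0)).h a m k • y m s := fun k s => (ZigB_bij f c hc s).2 _
  choose w hw using h1
  refine ⟨w, fun l => ?_⟩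
  funext s
  apply (ZigB_bij f c hc s).1
  change c (s 0) • y l s = c (s 0) • (∑ k, P.D a k l • w k) s
  rw [Finset.sum_apply, Finset.smul_sum]
  have h3 : ∀ k, c (s 0) • (P.D a k l • w k) s =
      P.D a k l • ∑ m, (H (s 0)).h a m k • y m s := by
    intro k
    rw [Pi.smul_apply, smul_comm, hw k s]
  rw [Finset.sum_congr rfl fun k _ => h3 k]
  refine ZigB_succ (H (s 0)) a (fun k => y k s) (fun l' => ?_) l
  have h2 := congrFun (h l') s
  rw [Finset.sum_apply] at h2
  exact h2

/-- a Čech cochain related to something is a cocycle (`row_zero` applied to `dC z`) -/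
theorem Rel.mem_Zc {j : ℕ} {v : Fin (P.b j) → N} {z : Cc f N (j + 1)} (h : Rel f P j v z) :
    z ∈ Zc f N (j + 1) := by
  obtain ⟨v', _, y, hy, _⟩ := h
  rw [Pool.Agent.Lib.MP_f251fc_ag.mem_Zc]
  refine row_zero f c hc H (j + 1) _ fun l => ?_
  rw [← map_smul, ← hy l, dC_dC]

/-- existence: start with `y_(j+1) = aug v ∈ Hom(P_(j+1), C^0)` and go up using `row_succ`, at the end
`row_one`.  Suggested induction: for all `q`, `a` and `y : Fin (P.b a) → Cc f N q` with
`∀ l, ∑ k, D a k l • dC (y k) = 0` and `Zig f P v q a y` there is `z` with the beginning of the zigzag: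
go from `a` to `a - 1` with `row_succ` applied to `dC (y k)`. -/
theorem exists_rel {j : ℕ} {v : Fin (P.b j) → N} (hv : Coc P j v) :
    ∃ z ∈ Zc f N (j + 1), Rel f P j v z := by
  classical
  have key : ∀ (v' : ∀ a, Fin (P.b a) → N) (a q m : ℕ), q + a = m →
      ∀ y : Fin (P.b a) → Cc f N q, (∀ l, ∑ k, P.D a k l • dC f N q (y k) = 0) →
        Zig f P v' q a y → ∃ y0 : Fin (P.b 0) → Cc f N m,
          (∀ l, ∑ k, P.D 0 k l • dC f N m (y0 k) = 0) ∧ Zig f P v' m 0 y0 := by
    intro v' a
    induction a with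
    | zero =>
      intro q m hm y hy hz
      rw [add_zero] at hm
      subst hm
      exact ⟨y, hy, hz⟩
    | succ a ih =>
      intro q m hm y hy hz
      obtain ⟨w, hw⟩ := row_succ f c hc H q a (fun l => dC f N q (y l)) hy
      refine ih (q + 1) m (by omega) w (fun l => ?_) ⟨y, hw, hz⟩
      have h1 : ∑ k, P.D a k l • dC f N (q + 1) (w k) = dC f N (q + 1) (dC f N q (y l)) := by
        rw [hw l, map_sum]
        refine Finset.sum_congr rfl fun k _ => ?_
        rw [map_smul]
      rw [h1, dC_dC]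
  obtain ⟨y0, hy0, hzig⟩ := key (Function.update (fun _ => 0) j v) j 0 j (zero_add j)
    (fun l => aug f N (v l)) (fun l => by
      have h1 : ∑ k, P.D j k l • dC f N 0 (aug f N (v k)) =
          dC f N 0 (aug f N (∑ k, P.D j k l • v k)) := by
        rw [map_sum, map_sum]
        refine Finset.sum_congr rfl fun k _ => ?_
        rw [map_smul, map_smul]
      rw [h1, hv l, map_zero, map_zero]) (by
      intro l
      rw [Function.update_self])
  obtain ⟨z, hz⟩ := row_one f c hc H j (fun l => dC f N j (y0 l)) hy0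
  have hrel : Rel f P j v z := ⟨Function.update (fun _ => 0) j v, Function.update_self _ _ _, y0,
    hz, hzig⟩
  exact ⟨z, Rel.mem_Zc f c hc H hrel, hrel⟩

end

end Pool.Agent.Lib.MP_f251fc_ag
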