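import Pool.Agent.Lib.MP_f251fc_ag.ZigA

/-! # Connecting homomorphisms of zigzags -/

set_option autoImplicit false

namespace Pool.Agent.Lib.MP_f251fc_ag

open scoped Matrix

noncomputable section

universe u

section conn

variable {B : Type u} [CommRing B] {r : ℕ} (f : Fin r → B)
  {N N' N'' : Type u} [AddCommGroup N] [Module B N] [AddCommGroup N'] [Module B N']
  [AddCommGroup N''] [Module B N''] (P : Cplx B)

/-- Connecting homomorphism of zigzags, `0 → N → N' → N'' → 0` exact.
Given a zigzag for `N''` from `y''` down to the cocycle `v''`, a lift `y'` of `y''` to `N'`, and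
`x` in `N` one Čech degree higher with `(ι x + dC y') ∘ D a = 0`, there is a zigzag for `N` from `x` to a
cocycle `v`.  Induction on `q`:
* `q = 0`: `y'' l = aug (v'' a l)`, `y' l = aug (n' l)` (`aug_bijective`), `n' l` lifts `v'' a l`;
  `∑ k, D a k l • n' k = ι (m l)` since `v''` is a cocycle; `v (a+1) = - m`, `x ∘ D a = dC (aug (- m))`.
* `q + 1`: `y'' ∘ D a = dC y''_1`; choose a lift `y'_1` of `y''_1`;
  `∑ k, D a k l • y' k - dC (y'_1 l) = ι (x_1 l)`; then `(ι x_1 + dC y'_1) ∘ D (a+1) = y' ∘ D a ∘ D (a+1) = 0`,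
  and `x ∘ D a = - dC x_1` because `ι (x ∘ D a) = - dC (y' ∘ D a) = - dC (ι x_1)`; apply the induction
  hypothesis to `x_1, y'_1` and change the sign (`Zig.smul` with `-1`). -/
theorem zig_conn {ι : N →ₗ[B] N'} {π : N' →ₗ[B] N''} (hι : Function.Injective ι)
    (hex : Function.Exact ι π) (hπ : Function.Surjective π) (q : ℕ) :
    ∀ (a : ℕ) (v'' : ∀ a, Fin (P.b a) → N'') (y'' : Fin (P.b a) → Cc f N'' q)
      (y' : Fin (P.b a) → Cc f N' q) (x : Fin (P.b a) → Cc f N (q + 1)),
      Zig f P v'' q a y'' → Coc P (a + q) (v'' (a + q)) → (∀ l, lc f π q (y' l) = y'' l) →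
      (∀ l, ∑ k, P.D a k l • (lc f ι (q + 1) (x k) + dC f N' q (y' k)) = 0) →
      ∃ v : ∀ a, Fin (P.b a) → N, Coc P (a + q + 1) (v (a + q + 1)) ∧ Zig f P v (q + 1) a x := by
  induction q with
  | zero =>
    intro a v'' y'' y' x hz hv hl hx
    have h1 : ∀ l, ∃ n : N', aug f N' n = y' l := fun l => (aug_bijective f N').2 (y' l)
    choose n' hn' using h1
    have h2 : ∀ l, π (n' l) = v'' a l := by
      intro l
      apply (aug_bijective f N'').1
      rw [← lc_aug, hn', hl]
      exact hz l
    have h3 : ∀ l, ∃ m : N, ι m = ∑ k, P.D a k l • n' k := by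
      intro l
      apply (hex _).1
      rw [map_sum]
      have := hv l
      simp only [Nat.add_zero] at this
      rw [← this]
      refine Finset.sum_congr rfl fun k _ => ?_
      rw [map_smul, h2]
    choose m hm using h3
    refine ⟨fun b => if h : b = a + 1 then fun l => - m (Fin.cast (by rw [h]) l) else 0, ?_, ?_⟩
    · intro l
      simp only [Nat.add_zero, dif_pos, Fin.cast_eq_self, smul_neg, Finset.sum_neg_distrib,
        neg_eq_zero]
      apply hι
      rw [map_sum, map_zero]
      have h4 : ∀ k, ι (P.D (a + 1) k l • m k) =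
          ∑ k', (P.D a k' k * P.D (a + 1) k l) • n' k' := by
        intro k
        rw [map_smul, hm, Finset.smul_sum]
        refine Finset.sum_congr rfl fun k' _ => ?_
        rw [smul_smul, mul_comm]
      change ∑ k, ι (P.D (a + 1) k l • m k) = 0
      rw [Finset.sum_congr rfl fun k _ => h4 k, Finset.sum_comm]
      refine Finset.sum_eq_zero fun k' _ => ?_
      rw [← Finset.sum_smul]
      have h5 := congrFun (congrFun (P.DD a) k') l
      rw [Matrix.mul_apply] at h5
      rw [h5]
      exact zero_smul _ _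
    · refine ⟨fun l => aug f N (- m l), fun l => ?_, fun l => ?_⟩
      · apply lc_injective f hι (0 + 1)
        rw [← lc_dC, lc_aug, map_neg, hm]
        have h6 := hx l
        simp only [smul_add, Finset.sum_add_distrib] at h6
        rw [map_sum]
        have h7 : ∑ k, P.D a k l • dC f N' 0 (y' k) =
            dC f N' 0 (aug f N' (∑ k, P.D a k l • n' k)) := by
          rw [map_sum, map_sum]
          refine Finset.sum_congr rfl fun k _ => ?_
          rw [map_smul, map_smul, hn']
        rw [h7] at h6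
        rw [map_neg, map_neg]
        have h8 : ∑ k, lc f ι (0 + 1) (P.D a k l • x k) = ∑ k, P.D a k l • lc f ι (0 + 1) (x k) :=
          Finset.sum_congr rfl fun k _ => map_smul _ _ _
        rw [h8]
        exact (eq_neg_of_add_eq_zero_left h6).symm
      · change aug f N (- m l) = aug f N ((if h : a + 1 = a + 1 then
          fun l => - m (Fin.cast (by rw [h]) l) else 0 : Fin (P.b (a + 1)) → N) l)
        rw [dif_pos rfl]
        rfl
  | succ q ih =>
    intro a v'' y'' y' x hz hv hl hx
    obtain ⟨y₁'', hy₁, hz₁⟩ := hz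
    have h1 : ∀ l, ∃ w, lc f π q w = y₁'' l := fun l => lc_surjective f hπ q (y₁'' l)
    choose y₁' hy₁' using h1
    have h3 : ∀ l, ∃ w : Cc f N (q + 1), lc f ι (q + 1) w =
        ∑ k, P.D a k l • y' k - dC f N' q (y₁' l) := by
      intro l
      apply (lc_exact f hex (q + 1) _).1
      rw [map_sub, map_sum, ← lc_dC, hy₁', hy₁, sub_eq_zero]
      refine Finset.sum_congr rfl fun k _ => ?_
      rw [map_smul, hl]
    choose x₁ hx₁ using h3
    obtain ⟨v, hv', hzv⟩ := ih (a + 1) v'' y₁'' y₁' x₁ hz₁
      (by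
        have h : a + 1 + q = a + (q + 1) := by omega
        rw [h]
        exact hv) hy₁' (by
        intro l
        have h4 : ∀ k, lc f ι (q + 1) (x₁ k) + dC f N' q (y₁' k) = ∑ k', P.D a k' k • y' k' := by
          intro k
          rw [hx₁, sub_add_cancel]
        simp only [h4, Finset.smul_sum]
        rw [Finset.sum_comm]
        refine Finset.sum_eq_zero fun k' _ => ?_
        simp only [smul_smul]
        rw [← Finset.sum_smul]
        have h5 := congrFun (congrFun (P.DD a) k') l
        rw [Matrix.mul_apply] at h5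
        have h6 : ∑ k, P.D (a + 1) k l * P.D a k' k = 0 := by
          rw [← (show (∑ k, P.D a k' k * P.D (a + 1) k l) = 0 from h5)]
          exact Finset.sum_congr rfl fun k _ => mul_comm _ _
        rw [h6]
        exact zero_smul _ _)
    refine ⟨(-1 : B) • v, ?_, ?_⟩
    · have h : a + 1 + q + 1 = a + (q + 1) + 1 := by omega
      rw [h] at hv'
      exact hv'.smul (-1 : B)
    · refine ⟨(-1 : B) • x₁, fun l => ?_, Zig.smul f P (-1 : B) (q + 1) (a + 1) hzv⟩
      apply lc_injective f hι (q + 1 + 1)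
      rw [← lc_dC]
      change dC f N' (q + 1) (lc f ι (q + 1) ((-1 : B) • x₁ l)) = _
      rw [map_smul, map_smul, hx₁, map_sub, dC_dC, sub_zero, map_sum, map_sum, neg_one_smul]
      have h6 := hx l
      simp only [smul_add, Finset.sum_add_distrib] at h6
      have h7 : ∑ k, dC f N' (q + 1) (P.D a k l • y' k) = ∑ k, P.D a k l • dC f N' (q + 1) (y' k) :=
        Finset.sum_congr rfl fun k _ => map_smul _ _ _
      have h8 : ∑ k, lc f ι (q + 1 + 1) (P.D a k l • x k) =
          ∑ k, P.D a k l • lc f ι (q + 1 + 1) (x k) :=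
        Finset.sum_congr rfl fun k _ => map_smul _ _ _
      rw [h7, h8]
      exact (eq_neg_of_add_eq_zero_left h6).symm

/-- the same for `Rel`: `w ∈ C^(j+1)(N')` lifts a cocycle `z''` related to the cocycle `v''`, and
`ι z = dC w`; then `- z` (or `z`) is related to a cocycle.
Proof: `z'' • g = dC y''_1`; lift `y''_1` to `y'_1`; `g l • w - dC (y'_1 l) = ι (x l)`;
`dC (x l) = g l • z`; `(ι x + dC y'_1) ∘ D 0 = w • (g ∘ D 0) = 0`; use `zig_conn` with `a = 0`. -/
theorem rel_conn {ι : N →ₗ[B] N'} {π : N' →ₗ[B] N''} (hι : Function.Injective ι)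
    (hex : Function.Exact ι π) (hπ : Function.Surjective π) (j : ℕ) {v'' : Fin (P.b j) → N''}
    {z'' : Cc f N'' (j + 1)} (hv : Coc P j v'') (h : Rel f P j v'' z'') {w : Cc f N' (j + 1)}
    (hw : lc f π (j + 1) w = z'') {z : Cc f N (j + 2)} (hz : lc f ι (j + 2) z = dC f N' (j + 1) w) :
    ∃ v : Fin (P.b (j + 1)) → N, Coc P (j + 1) v ∧ Rel f P (j + 1) v z := by
  obtain ⟨v', rfl, y'', hy'', hzz⟩ := h
  have h1 : ∀ l, ∃ t, lc f π j t = y'' l := fun l => lc_surjective f hπ j (y'' l)
  choose y' hy' using h1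
  have h3 : ∀ l, ∃ t : Cc f N (j + 1), lc f ι (j + 1) t = P.g l • w - dC f N' j (y' l) := by
    intro l
    apply (lc_exact f hex (j + 1) _).1
    rw [map_sub, map_smul, ← lc_dC, hy', hy'', hw, sub_self]
  choose x hx using h3
  obtain ⟨v, hv1, hv2⟩ := zig_conn f P hι hex hπ j 0 v' y'' y' x hzz
    (by rw [Nat.zero_add]; exact hv) hy' (by
      intro l
      have h4 : ∀ k, lc f ι (j + 1) (x k) + dC f N' j (y' k) = P.g k • w := by
        intro k
        rw [hx, sub_add_cancel]
      simp only [h4, smul_smul]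
      rw [← Finset.sum_smul]
      have h5 : ∑ k, P.D 0 k l * P.g k = 0 := by
        rw [← P.gD l]
        exact Finset.sum_congr rfl fun k _ => mul_comm _ _
      rw [h5]
      exact zero_smul _ _)
  refine ⟨v (j + 1), ?_, v, rfl, x, fun l => ?_, hv2⟩
  · have h : 0 + j + 1 = j + 1 := by omega
    rw [h] at hv1
    exact hv1
  · apply lc_injective f hι (j + 1 + 1)
    rw [← lc_dC, hx, map_sub, dC_dC, sub_zero, map_smul, map_smul, hz]

end conn

end

end Pool.Agent.Lib.MP_f251fc_ag
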