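import Pool.Agent.Lib.MP_f251fc_ag.CechL

/-!
# Zigzags between cocycles of `Hom(P, N)` and Čech cocycles

`Cplx B` is a complex of finitely generated free modules `… → P_2 → P_1 → P_0 = B` given by matrices:
`P_(k+1) = B^(b k)`, `g : P_1 → B`, `D k : P_(k+2) → P_(k+1)`.

`Rel f P j v z` says that the cocycle `v ∈ Hom(P_(j+1), N)` and the Čech cocycle `z` of degree `j + 1` are
connected by a zigzag: `z ∘ g = d y_1`, `y_1 ∘ D_0 = d y_2`, …, `y_j ∘ D_(j-1) = d y_(j+1)`, where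
`y_a ∈ Hom(P_a, C^(j+1-a)(N))` and `y_(j+1) = v`.
-/

set_option autoImplicit false

namespace Pool.Agent.Lib.MP_f251fc_ag

open scoped Matrix

noncomputable section

universe u

/-- complexes of free modules given by matrices -/
structure Cplx (B : Type u) [CommRing B] where
  /-- `b k` is the rank of `P_(k+1)` -/
  b : ℕ → ℕ
  /-- `P_1 → P_0 = B` -/
  g : Fin (b 0) → B
  /-- `P_(k+2) → P_(k+1)` -/
  D : ∀ k, Matrix (Fin (b k)) (Fin (b (k + 1))) B
  gD : ∀ l, ∑ k, g k * D 0 k l = 0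
  DD : ∀ k, D k * D (k + 1) = 0

/-- exactness in positive degrees -/
def Cplx.IsEx {B : Type u} [CommRing B] (P : Cplx B) : Prop :=
  (∀ x : Fin (P.b 0) → B, ∑ k, P.g k * x k = 0 → ∃ y, x = P.D 0 *ᵥ y) ∧
    ∀ k, ∀ x : Fin (P.b (k + 1)) → B, P.D k *ᵥ x = 0 → ∃ y, x = P.D (k + 1) *ᵥ y

/-- base change of a complex -/
def Cplx.map {B B' : Type u} [CommRing B] [CommRing B'] (P : Cplx B) (φ : B →+* B') : Cplx B' where
  b := P.b
  g k := φ (P.g k)
  D k := (P.D k).map φ
  gD l := by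
    simp only [Matrix.map_apply, ← map_mul, ← map_sum, P.gD, map_zero]
  DD k := by
    rw [← Matrix.map_mul, P.DD, Matrix.map_zero _ (map_zero φ)]

/-- chain maps `P → Q` which are the identity in degree `0` -/
structure ChMap {B : Type u} [CommRing B] (P Q : Cplx B) where
  /-- the matrices `P_(k+1) → Q_(k+1)` -/
  u : ∀ k, Matrix (Fin (Q.b k)) (Fin (P.b k)) B
  hg : ∀ l, ∑ k, Q.g k * u 0 k l = P.g l
  hD : ∀ k, Q.D k * u (k + 1) = u k * P.D k

/-- null-homotopies of the multiplication by `c` -/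
structure Htpy {B : Type u} [CommRing B] (P : Cplx B) (c : B) where
  /-- `P_0 → P_1` -/
  h0 : Fin (P.b 0) → B
  /-- `P_(k+1) → P_(k+2)` -/
  h : ∀ k, Matrix (Fin (P.b (k + 1))) (Fin (P.b k)) B
  e0 : ∑ k, P.g k * h0 k = c
  e1 : ∀ k k', ∑ l, P.D 0 k l * h 0 l k' + h0 k * P.g k' = if k = k' then c else 0
  e2 : ∀ k, P.D (k + 1) * h (k + 1) + h k * P.D k = c • (1 : Matrix _ _ B)

/-- base change of a homotopy -/
def Htpy.map {B B' : Type u} [CommRing B] [CommRing B'] {P : Cplx B} {c : B} (H : Htpy P c)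
    (φ : B →+* B') : Htpy (P.map φ) (φ c) where
  h0 k := φ (H.h0 k)
  h k := (H.h k).map φ
  e0 := by
    have := congrArg φ H.e0
    simp only [map_sum, map_mul] at this
    exact this
  e1 k k' := by
    have := congrArg φ (H.e1 k k')
    simp only [map_add, map_sum, map_mul] at this
    rw [apply_ite φ, map_zero] at this
    exact this
  e2 k := by
    have h2 : (P.D (k + 1)).map φ * (H.h (k + 1)).map φ + (H.h k).map φ * (P.D k).map φ =
        φ c • (1 : Matrix (Fin (P.b (k + 1))) (Fin (P.b (k + 1))) B') := by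
      have h1 : (P.D (k + 1) * H.h (k + 1) + H.h k * P.D k).map φ =
          (c • (1 : Matrix (Fin (P.b (k + 1))) (Fin (P.b (k + 1))) B)).map φ := by
        rw [H.e2 k]
      rw [← Matrix.map_mul, ← Matrix.map_mul, ← Matrix.map_add φ (map_add φ), h1]
      ext i j
      simp only [Matrix.map_apply, Matrix.smul_apply, Matrix.one_apply, smul_eq_mul, map_mul]
      rw [apply_ite φ, map_one, map_zero]
    exact h2

variable {B : Type u} [CommRing B] {r : ℕ} (f : Fin r → B) {N : Type u} [AddCommGroup N] [Module B N]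

/-- cocycles of `Hom(P, N)` in degree `j + 1` -/
def Coc (P : Cplx B) (j : ℕ) (v : Fin (P.b j) → N) : Prop := ∀ l, ∑ k, P.D j k l • v k = 0

/-- the zigzag from `y : P_(a+1) → C^q(N)` down to the family `v` -/
def Zig (P : Cplx B) (v : ∀ a, Fin (P.b a) → N) : ∀ q a : ℕ, (Fin (P.b a) → Cc f N q) → Prop
  | 0, a, y => ∀ l, y l = aug f N (v a l)
  | q + 1, a, y => ∃ y' : Fin (P.b (a + 1)) → Cc f N q,
      (∀ l, dC f N q (y' l) = ∑ k, P.D a k l • y k) ∧ Zig P v q (a + 1) y'

/-- the relation between cocycles of `Hom(P, N)` and Čech cocycles -/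
def Rel (P : Cplx B) (j : ℕ) (v : Fin (P.b j) → N) (z : Cc f N (j + 1)) : Prop :=
  ∃ v' : ∀ a, Fin (P.b a) → N, v' j = v ∧ ∃ y : Fin (P.b 0) → Cc f N j,
    (∀ l, dC f N j (y l) = P.g l • z) ∧ Zig f P v' j 0 y

end

end Pool.Agent.Lib.MP_f251fc_ag
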